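import Pool.Agent.Helper54.GT.StA

/-!
# GT: (SGN) coboundaries
-/

set_option autoImplicit false

namespace Pool.Agent.Helper3.GT

open Finset

open Classical in
theorem hSGN : Pool.Agent.Helper54.GT.StSGN := by
  intro n σ
  let φ : (Fin n → ZMod 2) →+ (Fin n → ZMod 2) :=
    { toFun := fun h b => h b + h (σ b)
      map_zero' := by ext; simp
      map_add' := by intro x y; ext b; simp only [Pi.add_apply]; ring }
  have h1 : {e : Fin n → ZMod 2 | ∃ h : Fin n → ZMod 2, ∀ b, e b = h b + h (σ b)} =
      (φ.range : Set (Fin n → ZMod 2)) := by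
    ext e
    simp only [Set.mem_ofPred_eq, SetLike.mem_coe, AddMonoidHom.mem_range]
    exact exists_congr fun h => ⟨fun H => (funext H).symm, fun H b => (congrFun H b).symm⟩
  have h2 : {T : Finset (Fin n) | T.map σ.toEmbedding = T}.ncard = Nat.card φ.ker := by
    rw [← Nat.card_coe_set_eq]
    symm
    have hz : ∀ x : ZMod 2, x ≠ 0 → x = 1 := by decide
    refine Nat.card_eq_of_bijective (fun h : φ.ker =>
      (⟨univ.filter fun b => (h : Fin n → ZMod 2) b ≠ 0, ?_⟩ :
        {T : Finset (Fin n) | T.map σ.toEmbedding = T})) ⟨?_, ?_⟩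
    · have hh : ∀ b, (h : Fin n → ZMod 2) (σ b) = (h : Fin n → ZMod 2) b := by
        intro b
        have := congrFun (AddMonoidHom.mem_ker.1 h.2) b
        change (h : Fin n → ZMod 2) b + (h : Fin n → ZMod 2) (σ b) = 0 at this
        exact ((CharTwo.add_eq_zero).1 this).symm
      rw [Set.mem_ofPred_eq]
      ext b
      rw [mem_map_equiv, mem_filter, mem_filter]
      have := hh (σ.symm b)
      rw [Equiv.apply_symm_apply] at this
      rw [this]
      simp
    · intro h h' H
      have H' := congrArg (fun T : {T : Finset (Fin n) | T.map σ.toEmbedding = T} =>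
        (T : Finset (Fin n))) H
      simp only at H'
      ext b
      by_cases hb : (h : Fin n → ZMod 2) b = 0
      · have : b ∉ univ.filter fun b => (h' : Fin n → ZMod 2) b ≠ 0 := by
          rw [← H']; simp [hb]
        rw [mem_filter] at this
        push Not at this
        rw [hb, this (mem_univ _)]
      · have : b ∈ univ.filter fun b => (h' : Fin n → ZMod 2) b ≠ 0 := by
          rw [← H']; simp [hb]
        rw [hz _ hb, hz _ (mem_filter.1 this).2]
    · rintro ⟨T, hT⟩
      rw [Set.mem_ofPred_eq] at hT
      have hT' : ∀ b, σ b ∈ T ↔ b ∈ T := by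
        intro b
        conv_lhs => rw [← hT, mem_map_equiv, Equiv.symm_apply_apply]
      refine ⟨⟨fun b => if b ∈ T then 1 else 0, ?_⟩, ?_⟩
      · rw [AddMonoidHom.mem_ker]
        ext b
        change (if b ∈ T then (1 : ZMod 2) else 0) + (if σ b ∈ T then 1 else 0) = 0
        simp only [hT' b]
        exact CharTwo.add_self_eq_zero _
      · apply Subtype.ext
        ext b
        simp
  rw [h1, h2, ← Nat.card_coe_set_eq]
  have h3 := AddSubgroup.card_mul_index φ.ker
  rw [AddSubgroup.index_ker] at h3
  rw [mul_comm]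
  refine h3.trans ?_
  rw [Nat.card_eq_fintype_card, Fintype.card_fun, ZMod.card, Fintype.card_fin]

end Pool.Agent.Helper3.GT
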