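import Mathlib

/-!
# GT: the abstract part (tightness and the end of the argument)

Abstract data: a set of primes `P` with degrees, finite sets `S` of primes (squarefree elements) with
signs, given by subsets `U ⊆ S`, sizes `M i S U` of Selmer groups and the relation `act S U` (the set `U` is
the set of actual signs of the squarefree element `S`).
-/

set_option autoImplicit false

namespace Pool.Agent.Helper3.GT

open Finset Filter Topology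

/-- Abstract data. -/
structure AD (ι : Type) where
  P : Type
  dec : DecidableEq P
  deg : P → ℕ
  pr : ℕ → Finset P
  deg_pos : ∀ p, 0 < deg p
  mem_pr : ∀ k p, p ∈ pr k ↔ deg p = k
  M : ι → Finset P → Finset P → ℕ
  act : Finset P → Finset P → Prop
  I : P → Prop

attribute [instance] AD.dec

namespace AD

variable {ι : Type} (X : AD ι)

/-- The degree of a finite set of primes. -/
def dg (S : Finset X.P) : ℕ := ∑ p ∈ S, X.deg p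

/-- The primes of degree at most `n`. -/
def upto (n : ℕ) : Finset X.P := (range (n + 1)).biUnion X.pr

theorem mem_upto {n : ℕ} {p : X.P} : p ∈ X.upto n ↔ X.deg p ≤ n := by
  rw [upto, mem_biUnion]
  constructor
  · rintro ⟨k, hk, hp⟩
    rw [(X.mem_pr k p).1 hp]
    exact Nat.lt_succ_iff.1 (mem_range.1 hk)
  · intro h
    exact ⟨X.deg p, mem_range.2 (Nat.lt_succ_of_le h), (X.mem_pr _ p).2 rfl⟩

/-- The finite sets of primes of degree `n`. -/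
def sq (n : ℕ) : Finset (Finset X.P) := (X.upto n).powerset.filter fun S => X.dg S = n

theorem mem_sq {n : ℕ} {S : Finset X.P} : S ∈ X.sq n ↔ X.dg S = n := by
  rw [sq, mem_filter, mem_powerset]
  refine ⟨fun h => h.2, fun h => ⟨fun p hp => X.mem_upto.2 ?_, h⟩⟩
  rw [← h]
  exact single_le_sum (f := X.deg) (fun _ _ => Nat.zero_le _) hp

/-- The average over the signs of the square root of the size. -/
noncomputable def TT (i : ι) (S : Finset X.P) : ℝ :=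
  (∑ U ∈ S.powerset, Real.sqrt (X.M i S U)) / 2 ^ S.card

open Classical in
/-- The mass of a property of pairs `(S, U)`, for `S` of degree at most `N`. -/
noncomputable def mass (q : ℕ) (Q : Finset X.P → Finset X.P → Prop) (N : ℕ) : ℝ :=
  ∑ n ∈ range (N + 1), ∑ S ∈ X.sq n,
    ((S.powerset.filter fun U => Q S U).card : ℝ) / ((2 : ℝ) ^ S.card * (q : ℝ) ^ n)

open Classical in
/-- The inputs. -/
structure Inputs (q e : ℕ) : Prop where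
  two_le : 2 ≤ q
  pnt : ∀ k, k * (X.pr k).card ≤ q ^ k
  upper : ∀ n, (X.sq n).card ≤ q ^ n
  lower : ∃ c : ℝ, 0 < c ∧ ∀ᶠ n : ℕ in atTop, c * (q : ℝ) ^ n ≤ ((X.sq n).card : ℝ)
  pos : ∀ i S U, U ⊆ S → 1 ≤ X.M i S U
  mul : ∃ A : ℝ, 0 ≤ A ∧ ∀ i S U p, U ⊆ S → p ∉ S → ∀ U' : Finset X.P, U' = U ∨ U' = insert p U →
    Real.sqrt (X.M i (insert p S) U') ≤ A * Real.sqrt (X.M i S U)
  contr : ∃ A ρ : ℝ, 0 ≤ A ∧ 0 ≤ ρ ∧ ρ < 1 ∧ ∀ δ : ℝ, 0 < δ → ∃ k₀ : ℕ, ∀ k, k₀ ≤ k → ∀ i S U,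
    U ⊆ S → δ * X.dg S ≤ k →
    (k : ℝ) * ∑ p ∈ (X.pr k).filter (fun p => p ∉ S), Real.sqrt (X.M i (insert p S) U) ≤
      (q : ℝ) ^ k * (A + ρ * Real.sqrt (X.M i S U)) ∧
    (k : ℝ) * ∑ p ∈ (X.pr k).filter (fun p => p ∉ S), Real.sqrt (X.M i (insert p S) (insert p U)) ≤
      (q : ℝ) ^ k * (A + ρ * Real.sqrt (X.M i S U))
  red : ∃ c : ℝ, 0 < c ∧ ∀ δ : ℝ, 0 < δ → ∃ k₀ : ℕ, ∀ k, k₀ ≤ k → ∀ i S U,
    U ⊆ S → δ * X.dg S ≤ k →
    c * (q : ℝ) ^ k ≤ k * (((X.pr k).filter (fun p => p ∉ S ∧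
      ∀ U' : Finset X.P, U' = U ∨ U' = insert p U →
        2 * X.M i (insert p S) U' ≤ max 2 (X.M i S U) ∧
          ∀ j, j ≠ i → X.M j (insert p S) U' ≤ X.M j S U)).card : ℝ)
  last : ∃ c C : ℝ, 0 < c ∧ 0 ≤ C ∧ ∀ k S U, 1 ≤ k → U ⊆ S → (X.dg S + k) % 2 = e % 2 →
    c * (q : ℝ) ^ k ≤ k * 2 ^ S.card * (((X.pr k).filter (fun p => p ∉ S ∧ X.I p ∧
      (X.act (insert p S) U ∨ X.act (insert p S) (insert p U)))).card : ℝ) +
        C * k * (X.dg S + 1) * 2 ^ S.card * Real.sqrt q ^ k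
  irr : ∀ i p S U, X.I p → p ∉ S → U ⊆ S → X.M i (insert p S) U ≤ X.M i S U ∧
    X.M i (insert p S) (insert p U) ≤ X.M i S U
  act_uniq : ∀ S U U', U ⊆ S → U' ⊆ S → X.act S U → X.act S U' → U = U'

end AD

/-- (TI) Tightness.  PROOF.  Put `T(S) = TT i S`, `E_j = q^(-j) ∑_{S ∈ sq j} T(S)`, `n_j = q^(-j) #(sq j) ≤ 1`.
Since the subsets of `insert p S` are the `U` and `insert p U` with `U ⊆ S`
(`Finset.powerset_insert` / `Finset.sum_powerset_insert`), for `p ∉ S`: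
`T(insert p S) = (1/2) 2^(-|S|) ∑_{U ⊆ S} (√M(S+p, U) + √M(S+p, U+p))`.  Hence `mul` gives
`T(S+p) ≤ A₁ T(S)` and `contr` (with `δ`) gives, for `k ≥ k₀(δ)` and `δ dg S ≤ k`,
`k ∑_{p ∈ pr k, p ∉ S} T(S+p) ≤ q^k (A + ρ T(S))`; by `pnt`, for all `k`:
`k ∑_{p ∈ pr k, p ∉ S} T(S+p) ≤ q^k A₁ T(S)`.
Double counting: `j ∑_{S ∈ sq j} T(S) = ∑_{S ∈ sq j} ∑_{p ∈ S} deg p T(S)
  = ∑_{k=1}^{j} ∑_{S' ∈ sq (j-k)} k ∑_{p ∈ pr k, p ∉ S'} T(S'+p)` (bijection `(S, p) ↦ (S.erase p, p)`).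
Fix `δ > 0` with `A₁ δ ≤ (1-ρ)/4`.  For `k ≥ max (k₀ δ) (δ j)` use the first bound (`dg S' = j - k ≤ j`),
for the other `k` (at most `k₀ + δ j + 1` many) the second one:
`j E_j ≤ ∑_{k=1}^{j} (A + ρ E_{j-k}) + A₁ ∑_{k < max (k₀, δ j)} E_{j-k}`.
If `E_i ≤ B` for all `i < j` then `E_j ≤ A + ρ B + A₁ B (k₀ + δ j + 2) / j ≤ A + ρ B + ((1-ρ)/2) B` for
`j ≥ j₀`.  So with `B = max (E_i, i < j₀; 2 A / (1-ρ))` induction gives `E_j ≤ B` for all `j`. -/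
def StTI : Prop :=
  ∀ (ι : Type) [Finite ι] (X : AD ι) (q e : ℕ), X.Inputs q e → ∀ i,
    ∃ B : ℝ, 0 < B ∧ ∀ j : ℕ, ∑ S ∈ X.sq j, X.TT i S ≤ B * (q : ℝ) ^ j

open Classical in
/-- (MK) PROOF.  Let `B` be a bound as in (TI) for all `i` (maximum over the finite type `ι`) and
`c` as in `lower`.  For `S` and `i` the number of `U ⊆ S` with `M i S U > 2^d` is at most
`2^(-d/2) ∑_{U ⊆ S} √M(i,S,U) = 2^(-d/2) 2^|S| TT i S` (Markov).  So
`∑_{S ∈ sq j} 2^(-|S|) #{U ⊆ S | ∀ i, M i S U ≤ 2^d} ≥ #(sq j) - |ι| 2^(-d/2) B q^j ≥ (c - |ι| B 2^(-d/2)) q^j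
≥ (c/2) q^j` for `j` large if `d` is so large that `|ι| B 2^(-d/2) ≤ c/2`. -/
def StMK : Prop :=
  ∀ (ι : Type) [Finite ι] (X : AD ι) (q e : ℕ), X.Inputs q e →
    ∃ (d : ℕ) (c : ℝ), 0 < c ∧ ∀ᶠ j : ℕ in atTop,
      c * (q : ℝ) ^ j ≤ ∑ S ∈ X.sq j,
        ((S.powerset.filter fun U => ∀ i, X.M i S U ≤ 2 ^ d).card : ℝ) / (2 : ℝ) ^ S.card

open Classical in
/-- (ST) One step.  PROOF.  Put `w(S) = 2^(-|S|) q^(-dg S)`, so that `mass Q N` is the sum of `w(S)` over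
all pairs `(S, U)` with `dg S ≤ N`, `U ⊆ S`, `Q S U`.  Consider all `(S, U, p, U')` with `dg S ≤ L K`, `U ⊆ S`,
`Q S U`, `K ≤ deg p < 2 K`, `p ∉ S`, `Q' (insert p S) U` and `Q' (insert p S) (insert p U)` and
`U' = U` or `U' = insert p U`.  The sum of `w(insert p S) = w(S) q^(-deg p) / 2` over them is
`∑_{(S,U)} w(S) ∑_{K ≤ k < 2K} q^(-k) #{p ∈ pr k | ...} ≥ ∑_{(S,U)} w(S) ∑_{K ≤ k < 2K} c / k ≥ mass Q (L K) c / 2`.
On the other hand `(S, U, p, U')` is determined by `(insert p S, U', p)` (`S = (insert p S).erase p`,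
`U = U'.erase p`), the pair `(S', U') = (insert p S, U')` satisfies `U' ⊆ S'`, `Q' S' U'`,
`dg S' ≤ (L+2) K`, and `p` is an element of `S'` with `deg p ≥ K`: at most `dg S' / K ≤ L + 2`
possibilities.  So the sum is at most `(L+2) mass Q' ((L+2) K)`. -/
def StST : Prop :=
  ∀ (ι : Type) (X : AD ι) (q : ℕ), 2 ≤ q → ∀ (Q Q' : Finset X.P → Finset X.P → Prop) (K L : ℕ) (c : ℝ),
    1 ≤ K → 0 ≤ c →
    (∀ S U, U ⊆ S → Q S U → X.dg S ≤ L * K → ∀ k, K ≤ k → k < 2 * K →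
      c * (q : ℝ) ^ k ≤ k * (((X.pr k).filter fun p =>
        p ∉ S ∧ Q' (insert p S) U ∧ Q' (insert p S) (insert p U)).card : ℝ)) →
    c * X.mass q Q (L * K) ≤ 2 * (L + 2) * X.mass q Q' ((L + 2) * K)

open Classical in
/-- (ND) The last prime.  PROOF.  For a pair `(S, U)` with `Q S U`, `U ⊆ S`, `dg S ≤ L` put `k = m - dg S`
(`≤ m`, `≥ m/2`).  Then `c q^m w(S) = c q^k 2^(-|S|) ≤ k #{p} ≤ m #{p}`, so
`c q^m mass Q L ≤ m #{(S, U, p)}` where `p ∈ pr (m - dg S)`, `p ∉ S` and `Z (insert p S) U` or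
`Z (insert p S) (insert p U)`.  Map `(S, U, p)` to `S' = insert p S`, of degree `m`, with `∃ U' ⊆ S', Z S' U'`.
Given `S'`, `p` is an element of `S'` of degree `≥ m/2` (`dg S ≤ L ≤ m/2`): at most two of them
(`m ≥ 1` because `c q^m w(S) > 0`; if `m = 0` then `2 L ≤ 0`, `k = 0` and the right side of the
hypothesis is `0`), `S = S'.erase p`, and `U = U'.erase p` for the unique `U'` with `Z S' U'`.
So `#{(S, U, p)} ≤ 2 #{S'}`. -/
def StND : Prop :=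
  ∀ (ι : Type) (X : AD ι) (q : ℕ), 2 ≤ q → ∀ (Q Z : Finset X.P → Finset X.P → Prop) (m L : ℕ) (c : ℝ),
    0 < c → 2 * L ≤ m →
    (∀ S U U', U ⊆ S → U' ⊆ S → Z S U → Z S U' → U = U') →
    (∀ S U, U ⊆ S → Q S U → X.dg S ≤ L →
      c * (q : ℝ) ^ (m - X.dg S) ≤ (m - X.dg S : ℕ) * 2 ^ S.card *
        (((X.pr (m - X.dg S)).filter fun p =>
          p ∉ S ∧ (Z (insert p S) U ∨ Z (insert p S) (insert p U))).card : ℝ)) →
    c * (q : ℝ) ^ m * X.mass q Q L ≤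
      2 * m * (((X.sq m).filter fun S => ∃ U ⊆ S, Z S U).card : ℝ)

open Classical in
/-- (AB) The abstract theorem.  PROOF from (MK), (ST), (ND).  Let `d`, `c` be as in (MK).  For a list `l` of
elements of `ι` let `Q_l S U` be `∀ i, M i S U ≤ 2 ^ (d - l.count i)` (truncated subtraction).  Let `T = d |ι|`
and `l₀` the list containing every `i` exactly `d` times; so `Q_{l₀}` says `∀ i, M i S U ≤ 1`.  Let
`m` be large, `K = m / (16 (T + 2))` (natural division), `K ≥ 1`.  (1) `mass Q_[] (2K) ≥ ∑_{K ≤ n < 2K} c ≥ c K`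
by (MK) if `K` is large.  (2) for `l` of length `t < T` and `i`: (ST) with `Q = Q_l`, `Q' = Q_(i :: l)`,
`L = 2 t + 2` and the constant of `red` (used with `δ = 1 / (2 T + 2)`; `k ≥ K ≥ k₀` for `m` large and
`δ dg S ≤ K ≤ k`): if `2 M' ≤ max 2 M` and `M ≤ 2^b` then `M' ≤ 2^(b-1)` (truncated).
So `mass Q_{i :: l} ((2 t + 4) K) ≥ c' mass Q_l ((2 t + 2) K)`.  (3) hence `mass Q_{l₀} ((2 T + 2) K) ≥ c'' K`.
(4) (ND) with `L = (2 T + 2) K ≤ m / 8`, `Q = Q_{l₀}`, `Z S U = act S U ∧ ∀ i, M i S U = 1`: `last` for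
`k = m - dg S ≥ m/2`, where the error `C k (dg S + 1) 2^|S| q^(k/2)` is at most `(c₀/2) q^k` for `m` large,
because `|S| ≤ dg S ≤ m/8`, `2 ≤ q`, `2^|S| ≤ q^(m/8)`, `q^(k/2) ≥ q^(m/4)`; if `I p` then
`M i (insert p S) U' ≤ M i S U ≤ 1` by `irr` and `≥ 1` by `pos`; uniqueness by `act_uniq`.
So `#{...} ≥ (c₀/2) q^m c'' K / (2 m) ≥ c q^m`. -/
def StAB : Prop :=
  ∀ (ι : Type) [Finite ι] (X : AD ι) (q e : ℕ), X.Inputs q e →
    ∃ c : ℝ, 0 < c ∧ ∀ᶠ m : ℕ in atTop, m % 2 = e % 2 →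
      c * (q : ℝ) ^ m ≤ (((X.sq m).filter fun S => ∃ U ⊆ S, X.act S U ∧ ∀ i, X.M i S U = 1).card : ℝ)

end Pool.Agent.Helper3.GT
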