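import Pool.Agent.Helper3.GT.St
import Pool.Agent.Helper3.GT.Abs
import Pool.Agent.Helper47.TW.A6A7

/-!
# GT: assembly of the main theorem
-/

set_option autoImplicit false

namespace Pool.Agent.Helper3.GT

open Polynomial Finset Filter Topology
open Pool.Agent.Helper54.PT (Prm prm IsAbsP IsAbsInf mem_prm)
open Pool.Agent.Helper3.HY (fK RR LL kp red TwAt twGroup baseChange co Kfil selmerSet)

section

variable {F : Type} [Field F] [Fintype F] {ι : Type} (f : ι → F[X][X]) (e : ℕ)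

/-- The good primes. -/
abbrev GP : Type := {P : Prm F // GdF f P}

variable {f}

/-- The underlying finite set of primes. -/
noncomputable def up (S : Finset (GP f)) : Finset (Prm F) := S.map (Function.Embedding.subtype _)

theorem mem_up {S : Finset (GP f)} {P : Prm F} : P ∈ up S ↔ ∃ h : GdF f P, (⟨P, h⟩ : GP f) ∈ S := by
  simp [up]

theorem mem_up' {S : Finset (GP f)} {p : GP f} : p.1 ∈ up S ↔ p ∈ S := by
  rw [mem_up]
  exact ⟨fun ⟨_, h⟩ => h, fun h => ⟨p.2, h⟩⟩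

theorem up_good {S : Finset (GP f)} : ∀ P ∈ up S, GdF f P := fun _ h => (mem_up.1 h).1

theorem up_mono {S T : Finset (GP f)} (h : S ⊆ T) : up S ⊆ up T := map_subset_map.2 h

theorem up_inj : Function.Injective (up (f := f)) := map_injective _

theorem up_insert [DecidableEq (GP f)] (p : GP f) (S : Finset (GP f)) :
    up (insert p S) = insert p.1 (up S) := by
  ext P
  rw [mem_insert, mem_up]
  constructor
  · rintro ⟨h, h'⟩
    rcases mem_insert.1 h' with h' | h'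
    · exact Or.inl (congrArg Subtype.val h')
    · exact Or.inr (mem_up.2 ⟨h, h'⟩)
  · rintro (h | h)
    · subst h
      exact ⟨p.2, mem_insert_self _ _⟩
    · obtain ⟨h1, h2⟩ := mem_up.1 h
      exact ⟨h1, mem_insert_of_mem h2⟩

theorem up_card (S : Finset (GP f)) : (up S).card = S.card := card_map _

theorem exists_up {T : Finset (Prm F)} (hT : ∀ P ∈ T, GdF f P) : ∃ S : Finset (GP f), up S = T := by
  classical
  refine ⟨T.subtype (GdF f), ?_⟩
  ext P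
  rw [mem_up]
  simp only [mem_subtype]
  exact ⟨fun ⟨_, h⟩ => h, fun h => ⟨hT P h, h⟩⟩

variable (f)

open Classical in
/-- The abstract data of the family. -/
noncomputable def ad : AD ι where
  P := GP f
  dec := Classical.decEq _
  deg p := p.1.1.natDegree
  pr k := (prm F k).subtype (GdF f)
  deg_pos p := p.1.2.2.natDegree_pos
  mem_pr k p := by rw [mem_subtype, mem_prm]
  M i S U := if h : ∃ D, HasClsF f (up S) (up U) e D then MS (f i) (up S) h.choose else 1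
  act S U := HasClsF f (up S) (up U) e (∏ P ∈ up S, P.1)
  I p := ∀ i, TyI (f i) p.1

/-- The underlying prime. -/
def pv (p : (ad f e).P) : Prm F := (p : GP f).1

/-- The underlying finite set of primes. -/
noncomputable def ua (S : Finset (ad f e).P) : Finset (Prm F) := up (f := f) S

theorem mem_ua {S : Finset (ad f e).P} {p : (ad f e).P} : pv f e p ∈ ua f e S ↔ p ∈ S :=
  mem_up' (f := f)

theorem ua_good (S : Finset (ad f e).P) : ∀ P ∈ ua f e S, GdF f P := up_good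

theorem ua_mono {S T : Finset (ad f e).P} (h : S ⊆ T) : ua f e S ⊆ ua f e T := up_mono h

theorem ua_card (S : Finset (ad f e).P) : (ua f e S).card = S.card := up_card _

theorem ad_dg (S : Finset (ad f e).P) : (ad f e).dg S = dgS (ua f e S) :=
  (sum_map (S : Finset (GP f)) (Function.Embedding.subtype _) fun P => P.1.natDegree).symm

theorem ua_ins (p : (ad f e).P) (S : Finset (ad f e).P) :
    ua f e (insert p S) = insert (pv f e p) (ua f e S) := by
  classical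
  ext P
  rw [mem_insert]
  constructor
  · intro h
    obtain ⟨h1, h2⟩ := mem_up.1 h
    rcases (mem_insert (α := (ad f e).P)).1 h2 with h2 | h2
    · exact Or.inl (congrArg Subtype.val h2)
    · exact Or.inr (mem_up.2 ⟨h1, h2⟩)
  · rintro (h | h)
    · subst h
      exact (mem_ua f e).2 (mem_insert_self _ _)
    · obtain ⟨h1, h2⟩ := mem_up.1 h
      exact (mem_ua f e (p := (⟨P, h1⟩ : GP f))).2 (mem_insert_of_mem h2)

theorem ad_M_eq (hSC : StSC) (hF : (2 : F) ≠ 0) (hm : ∀ i, (f i).Monic) (h1 : ∀ i, f i ≠ 1) (i : ι)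
    (S U : Finset (ad f e).P) (D : F[X]) (h : HasClsF f (ua f e S) (ua f e U) e D) :
    (ad f e).M i S U = MS (f i) (ua f e S) D := by
  classical
  have hex : ∃ D, HasClsF f (ua f e S) (ua f e U) e D := ⟨D, h⟩
  have h2 : (ad f e).M i S U = MS (f i) (ua f e S) hex.choose := dif_pos hex
  rw [h2, MS, MS, hSC F hF (f i) (hm i) (h1 i) (ua f e S) (ua f e U) e _ _ (hex.choose_spec i) (h i)]

theorem ad_M_else (i : ι) (S U : Finset (ad f e).P)
    (h : ¬ ∃ D, HasClsF f (ua f e S) (ua f e U) e D) :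
    (ad f e).M i S U = 1 := by
  classical
  exact dif_neg h

omit [Fintype F] in
theorem MS_congr {f : F[X][X]} {S : Finset (Prm F)} {D D' : F[X]} (h : SelS f S D = SelS f S D') :
    MS f S D = MS f S D' := by
  rw [MS, MS, h]

omit [Fintype F] in
theorem XS_congr {f : F[X][X]} {S : Finset (Prm F)} {D D' : F[X]} (h : SelS f S D = SelS f S D')
    (P : Prm F) : XS f S D P = XS f S D' P := by
  rw [XS, XS, h]

theorem MS_pos (hFIN : StFIN) (hSG : StSG) {f : F[X][X]} (hm : f.Monic) (hs : (fK f).Separable)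
    (hd : f.discr ≠ 0) (hirr : Irreducible (fK f)) (S : Finset (Prm F)) (D : F[X]) :
    1 ≤ MS f S D := by
  have : Fact (Irreducible (fK f)) := ⟨hirr⟩
  obtain ⟨C, hC⟩ := hFIN F f hm hs hd
  obtain ⟨H, hH, -⟩ := hSG F f hm S D
  have h1 : (1 : (LL f)ˣ) ∈ SelS f S D := by
    rw [← hH]
    exact H.one_mem
  have h2 : 0 < MS f S D := (Set.ncard_pos (hC S D).1).2 ⟨_, 1, h1, rfl⟩
  exact h2

/-- The hypotheses on a single polynomial. -/
structure Nice (g : ℕ) (f : F[X][X]) : Prop where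
  one_le : 1 ≤ g
  monic : f.Monic
  deg : f.natDegree = 2 * g + 1
  sep : (fK f).Separable
  irr : Irreducible (fK f)
  disc : f.discr ≠ 0
  geo : GeoSn f

omit [Fintype F] in
theorem Nice.ne_one {g : ℕ} {f : F[X][X]} (h : Nice g f) : f ≠ 1 := by
  rintro rfl
  have := h.deg
  rw [natDegree_one] at this
  omega

theorem nice_of (hIRR : StIRR) (hF : (2 : F) ≠ 0) [Fintype ι] {g : ι → ℕ} {f : ι → F[X][X]}
    (h : HypF g f) (i : ι) : Nice (g i) (f i) := by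
  obtain ⟨h1, h2, h3, h4⟩ := hIRR F hF ι g f h i
  exact ⟨h.one_le i, h.monic i, h.deg i, h2, h1, h4, h3⟩

/-- The growth of the Selmer group. -/
theorem mulS (hCONTR : StCONTR) (hXH : StXH) (hFIN : StFIN) (hSG : StSG) (hF : (2 : F) ≠ 0) {g : ℕ}
    {f : F[X][X]} (hf : Nice g f) {P : Prm F} (hP : Gd f P) {S : Finset (Prm F)} (hPS : P ∉ S)
    {D D' : F[X]} (hS : SelS f S D' = SelS f S D) (hE : ∃ E, D' = P.1 * E ∧ ¬ P.1 ∣ E) :
    MS f (insert P S) D' ≤ 2 ^ ((facs f P).card - 1) * MS f S D := by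
  have : Fact (Irreducible (fK f)) := ⟨hf.irr⟩
  obtain ⟨E, rfl, hE⟩ := hE
  have h1 := hCONTR F hF g hf.one_le f hf.monic hf.deg hf.sep hf.disc P hP S hPS E hE
  have h2 := (hXH F hF g hf.one_le f hf.monic hf.deg hf.sep hf.disc P hP S (P.1 * E)).2.1
  have h3 := MS_pos hFIN hSG hf.monic hf.sep hf.disc hf.irr S (P.1 * E)
  rw [← MS_congr hS]
  have h4 : MS f (insert P S) (P.1 * E) * MS f S (P.1 * E) ≤
      2 ^ ((facs f P).card - 1) * MS f S (P.1 * E) * MS f S (P.1 * E) := by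
    refine h1.trans ?_
    rw [mul_assoc]
    exact Nat.mul_le_mul_left _ (by rw [sq]; exact Nat.mul_le_mul h2 h2)
  exact Nat.le_of_mul_le_mul_right h4 (by omega)

omit [Fintype F] in
theorem key (hSC : StSC) (hRE : StRE) [Fintype F] (hF : (2 : F) ≠ 0) {g : ι → ℕ} {f : ι → F[X][X]}
    (hf : ∀ i, Nice (g i) (f i)) {e : ℕ} {S U : Finset (Prm F)} {P : Prm F} (hP : P ∉ S)
    (hU : U ⊆ S) {U' : Finset (Prm F)} (hU' : U' = U ∨ U' = insert P U) {D D' : F[X]}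
    (hD : HasClsF f S U e D) (hD' : HasClsF f (insert P S) U' e D') (i : ι) :
    SelS (f i) S D' = SelS (f i) S D ∧ ∃ E, D' = P.1 * E ∧ ¬ P.1 ∣ E := by
  obtain ⟨h1, h2⟩ := hRE F (f i) S U P hP hU U' hU' e D' (hD' i)
  exact ⟨hSC F hF (f i) (hf i).monic (hf i).ne_one S U e D' D h1 (hD i), h2⟩

end

/-! ### The inputs -/

section inputs

variable {F : Type} [Field F] [Fintype F] {ι : Type} [Fintype ι] [Nonempty ι] {f : ι → F[X][X]} {g : ι → ℕ}

theorem exists_D (hCRT : StCRT) (hF : (2 : F) ≠ 0) (hf : ∀ i, Nice (g i) (f i)) {S : Finset (Prm F)}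
    (hS : ∀ P ∈ S, GdF f P) (U : Finset (Prm F)) (e : ℕ) : ∃ D, HasClsF f S U e D :=
  hCRT F hF ι f (fun i => (hf i).disc) S U hS e

omit [Nonempty ι] in
theorem inp_pos (hSC : StSC) (hFIN : StFIN) (hSG : StSG) (hF : (2 : F) ≠ 0)
    (hf : ∀ i, Nice (g i) (f i)) (e : ℕ) (i : ι) (S U : Finset (ad f e).P) : 1 ≤ (ad f e).M i S U := by
  by_cases h : ∃ D, HasClsF f (ua f e S) (ua f e U) e D
  · obtain ⟨D, hD⟩ := h
    rw [ad_M_eq f e hSC hF (fun i => (hf i).monic) (fun i => (hf i).ne_one) i S U D hD]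
    exact MS_pos hFIN hSG (hf i).monic (hf i).sep (hf i).disc (hf i).irr _ _
  · rw [ad_M_else f e i S U h]

/-- The common reduction: representatives of the classes before and after adding a prime. -/
theorem reps (hSC : StSC) (hRE : StRE) (hCRT : StCRT) (hF : (2 : F) ≠ 0)
    (hf : ∀ i, Nice (g i) (f i)) (e : ℕ) {S U : Finset (ad f e).P} (hU : U ⊆ S) :
    ∃ D, (∀ i, (ad f e).M i S U = MS (f i) (ua f e S) D) ∧
      ∀ p : (ad f e).P, p ∉ S → ∀ U' : Finset (ad f e).P, U' = U ∨ U' = insert p U →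
        ∃ D', (∀ i, (ad f e).M i (insert p S) U' = MS (f i) (insert (pv f e p) (ua f e S)) D') ∧
          ∀ i, SelS (f i) (ua f e S) D' = SelS (f i) (ua f e S) D ∧
            ∃ E, D' = (pv f e p).1 * E ∧ ¬ (pv f e p).1 ∣ E := by
  obtain ⟨D, hD⟩ := exists_D hCRT hF hf (ua_good f e S) (ua f e U) e
  refine ⟨D, fun i => ad_M_eq f e hSC hF (fun i => (hf i).monic) (fun i => (hf i).ne_one) i S U D hD, ?_⟩
  intro p hp U' hU'
  obtain ⟨D', hD'⟩ := exists_D hCRT hF hf (ua_good f e (insert p S))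
    (ua f e U') e
  have h1 : ua f e U' = ua f e U ∨ ua f e U' = insert (pv f e p) (ua f e U) := by
    rcases hU' with rfl | rfl
    · exact Or.inl rfl
    · exact Or.inr (ua_ins f e p U)
  refine ⟨D', fun i => ?_, fun i => ?_⟩
  · rw [ad_M_eq f e hSC hF (fun i => (hf i).monic) (fun i => (hf i).ne_one) i (insert p S) U' D' hD',
      ua_ins]
  · rw [ua_ins] at hD'
    exact key hSC hRE hF hf (fun h => hp ((mem_ua f e).1 h)) (ua_mono f e hU) h1 hD hD' i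

theorem inp_mul (hCONTR : StCONTR) (hXH : StXH) (hSC : StSC) (hRE : StRE) (hCRT : StCRT)
    (hFIN : StFIN) (hSG : StSG) (hFAC : StFAC) (hF : (2 : F) ≠ 0)
    (hf : ∀ i, Nice (g i) (f i)) (e : ℕ) :
    ∃ A : ℝ, 0 ≤ A ∧ ∀ (i : ι) (S U : Finset (ad f e).P) (p : (ad f e).P), U ⊆ S → p ∉ S →
      ∀ U' : Finset (ad f e).P, U' = U ∨ U' = insert p U →
      Real.sqrt ((ad f e).M i (insert p S) U') ≤ A * Real.sqrt ((ad f e).M i S U) := by
  refine ⟨Real.sqrt (2 ^ (∑ i, (2 * g i + 1))), Real.sqrt_nonneg _, ?_⟩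
  intro i S U p hU hp U' hU'
  obtain ⟨D, hD, hr⟩ := reps hSC hRE hCRT hF hf e hU
  obtain ⟨D', hD', hS⟩ := hr p hp U' hU'
  rw [hD i, hD' i, ← Real.sqrt_mul (by positivity)]
  refine Real.sqrt_le_sqrt ?_
  have hpg : Gd (f i) (pv f e p) := (show GdF f (pv f e p) from (p : GP f).2) i
  have h1 := mulS hCONTR hXH hFIN hSG hF (hf i) hpg (fun h => hp ((mem_ua f e).1 h)) (hS i).1 (hS i).2
  have h2 := (hFAC F hF (g i) (hf i).one_le (f i) (hf i).monic (hf i).deg _ hpg).2.2.2.2.1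
  have h3 : 2 ^ ((facs (f i) (pv f e p)).card - 1) ≤ 2 ^ (∑ i, (2 * g i + 1)) :=
    Nat.pow_le_pow_right two_pos ((Nat.sub_le _ _).trans (h2.trans
      (single_le_sum (f := fun i => 2 * g i + 1) (fun _ _ => Nat.zero_le _) (mem_univ i))))
  exact_mod_cast h1.trans (Nat.mul_le_mul_right _ h3)

omit [Nonempty ι] in
theorem inp_irr (hCONTR : StCONTR) (hXH : StXH) (hSC : StSC) (hRE : StRE) (hCRT : StCRT)
    (hFIN : StFIN) (hSG : StSG) (hFAC : StFAC) (hF : (2 : F) ≠ 0)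
    (hf : ∀ i, Nice (g i) (f i)) (e : ℕ) (i : ι) (p : (ad f e).P) (S U : Finset (ad f e).P)
    (hI : (ad f e).I p) (hp : p ∉ S) (hU : U ⊆ S) (U' : Finset (ad f e).P)
    (hU' : U' = U ∨ U' = insert p U) :
    (ad f e).M i (insert p S) U' ≤ (ad f e).M i S U := by
  have : Nonempty ι := ⟨i⟩
  obtain ⟨D, hD, hr⟩ := reps hSC hRE hCRT hF hf e hU
  obtain ⟨D', hD', hS⟩ := hr p hp U' hU'
  rw [hD i, hD' i]
  have hpg : Gd (f i) (pv f e p) := (show GdF f (pv f e p) from (p : GP f).2) i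
  have h1 := mulS hCONTR hXH hFIN hSG hF (hf i) hpg (fun h => hp ((mem_ua f e).1 h)) (hS i).1 (hS i).2
  have h2 := (hFAC F hF (g i) (hf i).one_le (f i) (hf i).monic (hf i).deg _ hpg).2.2.2.2.2.1 (hI i)
  rwa [h2, Nat.sub_self, pow_zero, one_mul] at h1

omit [Fintype ι] in
theorem inp_act (e : ℕ) (S U U' : Finset (ad f e).P) (hU : U ⊆ S)
    (hU' : U' ⊆ S) (h : (ad f e).act S U) (h' : (ad f e).act S U') : U = U' := by
  obtain ⟨i⟩ := ‹Nonempty ι›
  have h1 : ∀ p, p ∈ S → (p ∈ U ↔ p ∈ U') := by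
    intro p hp
    obtain ⟨E, hE, -, hE2⟩ := (h i).2.2.1 (pv f e p) ((mem_ua f e).2 hp)
    obtain ⟨E', hE', -, hE2'⟩ := (h' i).2.2.1 (pv f e p) ((mem_ua f e).2 hp)
    have h3 : E = E' := mul_left_cancel₀ (pv f e p).2.2.ne_zero (hE.symm.trans hE')
    rw [h3, hE2'] at hE2
    rw [← mem_ua f e (S := U), ← mem_ua f e (S := U')]
    exact not_iff_not.1 hE2.symm
  exact Finset.ext fun p => ⟨fun hp => (h1 p (hU hp)).1 hp, fun hp => (h1 p (hU' hp)).2 hp⟩

omit [Fintype F] [Nonempty ι] in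
theorem gdF_iff (P : Prm F) : GdF f P ↔ ¬ P.1 ∣ ∏ i, (f i).discr := by
  rw [P.2.2.prime.dvd_finsetProd_iff]
  simp [GdF, Gd]

omit [Nonempty ι] in
theorem ua_inj (e : ℕ) : Function.Injective (ua f e) := map_injective _

omit [Nonempty ι] in
theorem exists_ua (e : ℕ) {T : Finset (Prm F)} (hT : ∀ P ∈ T, GdF f P) :
    ∃ S : Finset (ad f e).P, ua f e S = T := exists_up hT

omit [Nonempty ι] in
theorem mem_pr_iff (e k : ℕ) (p : (ad f e).P) : p ∈ (ad f e).pr k ↔ (pv f e p).1.natDegree = k :=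
  (ad f e).mem_pr k p

omit [Nonempty ι] in
theorem inp_upper (hSQF : StSQF) (hF : (2 : F) ≠ 0) (e n : ℕ) :
    ((ad f e).sq n).card ≤ Fintype.card F ^ n := by
  classical
  obtain ⟨h1, h2⟩ := (hSQF F hF 1 one_ne_zero).1 n
  refine le_trans ?_ h2
  rw [← card_map ⟨ua f e, ua_inj e⟩, ← Set.ncard_coe_finset]
  refine Set.ncard_le_ncard ?_ h1
  intro T hT
  rw [mem_coe, Finset.mem_map] at hT
  obtain ⟨S, hS, rfl⟩ := hT
  rw [AD.mem_sq, ad_dg] at hS
  exact hS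

omit [Nonempty ι] in
theorem inp_lower (hSQF : StSQF) (hF : (2 : F) ≠ 0) (hf : ∀ i, (f i).discr ≠ 0) (e : ℕ) :
    ∃ c : ℝ, 0 < c ∧ ∀ᶠ n : ℕ in atTop,
      c * (Fintype.card F : ℝ) ^ n ≤ (((ad f e).sq n).card : ℝ) := by
  classical
  obtain ⟨c, hc, h⟩ := (hSQF F hF (∏ i, (f i).discr) (prod_ne_zero_iff.2 fun i _ => hf i)).2
  refine ⟨c, hc, ?_⟩
  filter_upwards [h] with n hn
  refine hn.trans ?_
  rw [← card_map ⟨ua f e, ua_inj e⟩, ← Set.ncard_coe_finset, Nat.cast_le]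
  refine Set.ncard_le_ncard ?_ (Set.toFinite _)
  rintro T ⟨hT1, hT2⟩
  obtain ⟨S, rfl⟩ := exists_ua (f := f) e fun P hP => (gdF_iff P).2 (hT2 P hP)
  rw [mem_coe, Finset.mem_map]
  exact ⟨S, (AD.mem_sq _).2 (by rw [ad_dg]; exact hT1), rfl⟩

omit [Nonempty ι] in
theorem inp_pnt (e k : ℕ) : k * ((ad f e).pr k).card ≤ Fintype.card F ^ k := by
  classical
  rcases Nat.eq_zero_or_pos k with rfl | hk
  · simp
  have h1 := Pool.Agent.Helper54.PT.sum_prm (F := F) k hk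
  rw [Nat.card_eq_fintype_card] at h1
  rw [← h1]
  refine le_trans (Nat.mul_le_mul_left k ?_) (single_le_sum (f := fun j => j * (prm F j).card)
    (fun _ _ => Nat.zero_le _) (Nat.mem_divisors.2 ⟨dvd_rfl, by omega⟩))
  have h2 : ((ad f e).pr k).card = ((prm F k).filter (GdF f)).card := card_subtype _ _
  rw [h2]
  exact card_filter_le _ _

theorem inp_contr (hCTR : StCTR) (hSC : StSC) (hRE : StRE) (hCRT : StCRT)
    (hF : (2 : F) ≠ 0) (hf : ∀ i, Nice (g i) (f i)) (e : ℕ) :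
    ∃ A ρ : ℝ, 0 ≤ A ∧ 0 ≤ ρ ∧ ρ < 1 ∧ ∀ δ : ℝ, 0 < δ → ∃ k₀ : ℕ, ∀ k, k₀ ≤ k →
      ∀ (i : ι) (S U : Finset (ad f e).P), U ⊆ S → δ * (ad f e).dg S ≤ k →
      ∀ V : (ad f e).P → Finset (ad f e).P, (∀ p, V p = U ∨ V p = insert p U) →
      ∀ T : Finset (ad f e).P, (∀ p ∈ T, p ∈ (ad f e).pr k ∧ p ∉ S) →
      (k : ℝ) * ∑ p ∈ T, Real.sqrt ((ad f e).M i (insert p S) (V p)) ≤
        (Fintype.card F : ℝ) ^ k * (A + ρ * Real.sqrt ((ad f e).M i S U)) := by
  classical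
  have hC : ∀ i, ∃ A ρ : ℝ, 0 ≤ A ∧ 0 ≤ ρ ∧ ρ < 1 ∧ ∀ δ : ℝ, 0 < δ → ∃ k₀ : ℕ,
      ∀ k, k₀ ≤ k → ∀ (S : Finset (Prm F)) (D : F[X]) (D' : Prm F → F[X]), δ * dgS S ≤ k →
      ∀ Q : Finset (Prm F), (∀ P ∈ Q, P.1.natDegree = k ∧ Gd (f i) P ∧ P ∉ S ∧
        SelS (f i) S (D' P) = SelS (f i) S D ∧ ∃ E, D' P = P.1 * E ∧ ¬ P.1 ∣ E) →
      (k : ℝ) * ∑ P ∈ Q, Real.sqrt (MS (f i) (insert P S) (D' P)) ≤
        (Fintype.card F : ℝ) ^ k * (A + ρ * Real.sqrt (MS (f i) S D)) := by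
    intro i
    have : Fact (Irreducible (fK (f i))) := ⟨(hf i).irr⟩
    exact hCTR F hF (g i) (hf i).one_le (f i) (hf i).monic (hf i).deg (hf i).geo (hf i).sep
      (hf i).disc
  choose A ρ hA hρ hρ1 H using hC
  obtain ⟨i₀, hi₀⟩ := Finite.exists_max ρ
  refine ⟨∑ i, A i, ρ i₀, sum_nonneg fun i _ => hA i, hρ i₀, hρ1 i₀, ?_⟩
  intro δ hδ
  choose k₀ hk₀ using fun i => H i δ hδ
  refine ⟨∑ i, k₀ i, ?_⟩
  intro k hk i S U hU hdg V hV T hT
  obtain ⟨D, hD, hr⟩ := reps hSC hRE hCRT hF hf e hU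
  choose D'' hD'' using fun (p : (ad f e).P) (hp : p ∉ S) => hr p hp (V p) (hV p)
  let D' : Prm F → F[X] := fun P =>
    if h : ∃ hg : GdF f P, (⟨P, hg⟩ : GP f) ∉ (S : Finset (GP f)) then
      D'' (⟨P, h.choose⟩ : GP f) h.choose_spec else 0
  have hD' : ∀ (p : (ad f e).P) (hp : p ∉ S), D' (pv f e p) = D'' p hp := by
    intro p hp
    have hex : ∃ hg : GdF f (pv f e p), (⟨pv f e p, hg⟩ : GP f) ∉ (S : Finset (GP f)) :=
      ⟨(p : GP f).2, hp⟩
    exact dif_pos hex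
  have h1 := hk₀ i k ((single_le_sum (f := k₀) (fun _ _ => Nat.zero_le _) (mem_univ i)).trans hk)
    (ua f e S) D D' (by rw [← ad_dg]; exact hdg) (ua f e T) (by
      intro P hP
      obtain ⟨hg, hP'⟩ := mem_up.1 hP
      obtain ⟨h2, h3⟩ := hT (⟨P, hg⟩ : GP f) hP'
      have h4 := hD' (⟨P, hg⟩ : GP f) h3
      have h5 := (hD'' (⟨P, hg⟩ : GP f) h3).2 i
      change D' P = _ at h4
      rw [← h4] at h5
      exact ⟨(mem_pr_iff e k _).1 h2, hg i, fun h => h3 ((mem_ua f e).1 h), h5.1, h5.2⟩)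
  have h2 : ∑ P ∈ ua f e T, Real.sqrt (MS (f i) (insert P (ua f e S)) (D' P)) =
      ∑ p ∈ T, Real.sqrt ((ad f e).M i (insert p S) (V p)) := by
    refine (sum_map (T : Finset (GP f)) (Function.Embedding.subtype _) fun P =>
      Real.sqrt (MS (f i) (insert P (ua f e S)) (D' P))).trans ?_
    refine sum_congr rfl fun p hp => ?_
    have h3 := (hT p hp).2
    rw [(hD'' p h3).1 i, ← hD' p h3]
    rfl
  rw [h2] at h1
  refine h1.trans ?_
  rw [hD i]
  refine mul_le_mul_of_nonneg_left ?_ (by positivity)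
  refine add_le_add (single_le_sum (f := A) (fun i _ => hA i) (mem_univ i)) ?_
  exact mul_le_mul_of_nonneg_right (hi₀ i) (Real.sqrt_nonneg _)

theorem inp_red (hRDC : StRDC) (hSC : StSC) (hRE : StRE) (hCRT : StCRT)
    (hF : (2 : F) ≠ 0) (hH : HypF g f) (hf : ∀ i, Nice (g i) (f i)) (e : ℕ) :
    ∃ c : ℝ, 0 < c ∧ ∀ δ : ℝ, 0 < δ → ∃ k₀ : ℕ, ∀ k, k₀ ≤ k → ∀ (i : ι) (S U : Finset (ad f e).P),
      U ⊆ S → δ * (ad f e).dg S ≤ k → ∃ T : Finset (ad f e).P,
      (∀ p ∈ T, p ∈ (ad f e).pr k ∧ p ∉ S ∧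
        ∀ U' : Finset (ad f e).P, U' = U ∨ U' = insert p U →
          2 * (ad f e).M i (insert p S) U' ≤ max 2 ((ad f e).M i S U) ∧
            ∀ j, j ≠ i → (ad f e).M j (insert p S) U' ≤ (ad f e).M j S U) ∧
      c * (Fintype.card F : ℝ) ^ k ≤ k * (T.card : ℝ) := by
  classical
  choose c hc H using fun i => hRDC F hF ι g f hH i
  obtain ⟨i₀, hi₀⟩ := Finite.exists_min c
  refine ⟨c i₀, hc i₀, ?_⟩
  intro δ hδ
  choose k₀ hk₀ using fun i => H i δ hδ
  refine ⟨∑ i, k₀ i, ?_⟩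
  intro k hk i S U hU hdg
  obtain ⟨D, hD, hr⟩ := reps hSC hRE hCRT hF hf e hU
  obtain ⟨Q, hQ1, hQ2, hQ3⟩ := hk₀ i k
    ((single_le_sum (f := k₀) (fun _ _ => Nat.zero_le _) (mem_univ i)).trans hk)
    (ua f e S) D (by rw [← ad_dg]; exact hdg)
  obtain ⟨T, hT⟩ := exists_ua (f := f) e fun P hP => (hQ1 P hP).2.1
  refine ⟨T, ?_, ?_⟩
  · intro p hp
    have hpQ : pv f e p ∈ Q := hT ▸ (mem_ua f e).2 hp
    obtain ⟨h1, h2, h3⟩ := hQ1 _ hpQ
    have h3' : p ∉ S := fun h => h3 ((mem_ua f e).2 h)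
    refine ⟨(mem_pr_iff e k p).2 h1, h3', ?_⟩
    intro U' hU'
    obtain ⟨D', hD', hS⟩ := hr p h3' U' hU'
    obtain ⟨h4, h5⟩ := hQ3 _ hpQ D' (hS i).2 fun j => (hS j).1
    refine ⟨?_, fun j hj => ?_⟩
    · rw [hD i, hD' i]
      exact h4
    · rw [hD j, hD' j]
      exact h5 j hj
  · refine le_trans ?_ (hQ2.trans_eq ?_)
    · exact mul_le_mul_of_nonneg_right (hi₀ i) (by positivity)
    · rw [← hT, ua_card]

theorem inp_last (hLST : StLST) (hF : (2 : F) ≠ 0) (hH : HypF g f) (e : ℕ) :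
    ∃ c C : ℝ, 0 < c ∧ 0 ≤ C ∧ ∀ (k : ℕ) (S U : Finset (ad f e).P), 1 ≤ k → U ⊆ S →
      ((ad f e).dg S + k) % 2 = e % 2 → ∃ T : Finset (ad f e).P,
      (∀ p ∈ T, p ∈ (ad f e).pr k ∧ p ∉ S ∧ (ad f e).I p ∧
        ((ad f e).act (insert p S) U ∨ (ad f e).act (insert p S) (insert p U))) ∧
      c * (Fintype.card F : ℝ) ^ k ≤ k * 2 ^ S.card * (T.card : ℝ) +
        C * k * ((ad f e).dg S + 1) * 2 ^ S.card * Real.sqrt (Fintype.card F) ^ k := by
  classical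
  obtain ⟨c, C, hc, hC, h⟩ := hLST F hF ι g f hH
  refine ⟨c, C, hc, hC, ?_⟩
  intro k S U hk hU hpar
  have h1 := h k e (ua f e S) (ua f e U) hk (ua_good f e S) (ua_mono f e hU)
    (by rw [← ad_dg]; exact hpar)
  obtain ⟨T, hT⟩ := exists_ua (f := f) e (T := (prm F k).filter fun p =>
    p ∉ ua f e S ∧ (GdF f p ∧ ∀ i, TyI (f i) p) ∧
      (HasClsF f (insert p (ua f e S)) (ua f e U) e (∏ Q ∈ insert p (ua f e S), Q.1) ∨
        HasClsF f (insert p (ua f e S)) (insert p (ua f e U)) e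
          (∏ Q ∈ insert p (ua f e S), Q.1))) fun P hP => (mem_filter.1 hP).2.2.1.1
  refine ⟨T, ?_, ?_⟩
  · intro p hp
    have hpQ := (mem_ua f e).2 hp
    rw [hT, mem_filter] at hpQ
    obtain ⟨h2, h3, h4, h5⟩ := hpQ
    refine ⟨(mem_pr_iff e k p).2 (mem_prm.1 h2), fun h => h3 ((mem_ua f e).2 h), h4.2, ?_⟩
    rw [← ua_ins] at h5
    rcases h5 with h5 | h5
    · exact Or.inl h5
    · rw [← ua_ins] at h5
      exact Or.inr h5
  · rw [← hT, ua_card, ua_card, ← ad_dg] at h1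
    exact h1

open Classical in
theorem inputs (hCTR : StCTR) (hRDC : StRDC) (hLST : StLST) (hSQF : StSQF) (hCONTR : StCONTR)
    (hXH : StXH) (hSC : StSC) (hRE : StRE) (hCRT : StCRT) (hFIN : StFIN) (hSG : StSG)
    (hFAC : StFAC) (hF : (2 : F) ≠ 0) (hH : HypF g f) (hf : ∀ i, Nice (g i) (f i)) (e : ℕ) :
    (ad f e).Inputs (Fintype.card F) e where
  two_le := Fintype.one_lt_card
  pnt := inp_pnt e
  upper := inp_upper hSQF hF e
  lower := inp_lower hSQF hF (fun i => (hf i).disc) e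
  pos := fun i S U _ => inp_pos hSC hFIN hSG hF hf e i S U
  mul := by
    obtain ⟨A, hA, h⟩ := inp_mul hCONTR hXH hSC hRE hCRT hFIN hSG hFAC hF hf e
    exact ⟨A, hA, fun i S U p hU hp U' hU' => h i S U p hU hp U' hU'⟩
  contr := by
    obtain ⟨A, ρ, hA, hρ, hρ1, H⟩ := inp_contr hCTR hSC hRE hCRT hF hf e
    refine ⟨A, ρ, hA, hρ, hρ1, ?_⟩
    intro δ hδ
    obtain ⟨k₀, hk₀⟩ := H δ hδ
    refine ⟨k₀, fun k hk i S U hU hdg => ⟨?_, ?_⟩⟩
    · exact hk₀ k hk i S U hU hdg (fun _ => U) (fun _ => Or.inl rfl) _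
        fun p hp => mem_filter.1 hp
    · exact hk₀ k hk i S U hU hdg (fun p => insert p U) (fun _ => Or.inr rfl) _
        fun p hp => mem_filter.1 hp
  red := by
    obtain ⟨c, hc, H⟩ := inp_red hRDC hSC hRE hCRT hF hH hf e
    refine ⟨c, hc, ?_⟩
    intro δ hδ
    obtain ⟨k₀, hk₀⟩ := H δ hδ
    refine ⟨k₀, fun k hk i S U hU hdg => ?_⟩
    obtain ⟨T, hT1, hT2⟩ := hk₀ k hk i S U hU hdg
    refine hT2.trans (mul_le_mul_of_nonneg_left ?_ (by positivity))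
    exact_mod_cast card_le_card fun p hp => mem_filter.2 ⟨(hT1 p hp).1, (hT1 p hp).2⟩
  last := by
    obtain ⟨c, C, hc, hC, H⟩ := inp_last hLST hF hH e
    refine ⟨c, C, hc, hC, fun k S U hk hU hpar => ?_⟩
    obtain ⟨T, hT1, hT2⟩ := H k S U hk hU hpar
    refine hT2.trans (add_le_add_left (mul_le_mul_of_nonneg_left ?_ (by positivity)) _)
    exact_mod_cast card_le_card fun p hp => mem_filter.2 ⟨(hT1 p hp).1, (hT1 p hp).2⟩
  irr := fun i p S U hI hp hU => ⟨inp_irr hCONTR hXH hSC hRE hCRT hFIN hSG hFAC hF hf e i p S U hI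
    hp hU U (Or.inl rfl), inp_irr hCONTR hXH hSC hRE hCRT hFIN hSG hFAC hF hf e i p S U hI
    hp hU _ (Or.inr rfl)⟩
  act_uniq := fun S U U' hU hU' h h' => inp_act e S U U' hU hU' h h'

end inputs

/-! ### The main theorem -/

section main

theorem mem_of_filter {α : Type} {p : α → Prop} {inst : DecidablePred p} {s : Finset α} {a : α}
    (h : a ∈ @Finset.filter α p inst s) : a ∈ s ∧ p a := mem_filter.1 h

theorem prod_inj {F : Type} [Field F] {S T : Finset (Prm F)} (h : ∏ P ∈ S, P.1 = ∏ P ∈ T, P.1) :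
    S = T := by
  have key : ∀ {S T : Finset (Prm F)}, ∏ P ∈ S, P.1 = ∏ P ∈ T, P.1 → S ⊆ T := by
    intro S T h P hP
    have h1 : P.1 ∣ ∏ P ∈ T, P.1 := h ▸ dvd_prod_of_mem (fun P : Prm F => P.1) hP
    obtain ⟨Q, hQ, h2⟩ := (P.2.2.prime.dvd_finsetProd_iff _).1 h1
    have h3 : P.1 = Q.1 := eq_of_monic_of_associated P.2.1 Q.2.1
      ((P.2.2.dvd_irreducible_iff_associated Q.2.2).1 h2)
    rw [Subtype.ext h3]
    exact hQ
  exact subset_antisymm (key h) (key h.symm)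

theorem prod_monic {F : Type} [Field F] (S : Finset (Prm F)) : (∏ P ∈ S, P.1).Monic :=
  monic_prod_of_monic _ _ fun P _ => P.2.1

theorem prod_deg {F : Type} [Field F] (S : Finset (Prm F)) : (∏ P ∈ S, P.1).natDegree = dgS S := by
  rw [natDegree_prod_of_monic _ _ fun P _ => P.2.1, dgS]

theorem prod_sqfree {F : Type} [Field F] (S : Finset (Prm F)) : Squarefree (∏ P ∈ S, P.1) := by
  refine Finset.squarefree_prod_of_pairwise_isCoprime ?_ fun P _ => P.2.2.squarefree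
  intro P _ Q _ hPQ
  exact (P.2.2.coprime_iff_not_dvd.2 fun h => hPQ (Subtype.ext (eq_of_monic_of_associated P.2.1
    Q.2.1 ((P.2.2.dvd_irreducible_iff_associated Q.2.2).1 h)))).isRelPrime

theorem main_of (hAB : StAB) (hIRR : StIRR) (hCTR : StCTR) (hRDC : StRDC) (hLST : StLST)
    (hSQF : StSQF) (hCONTR : StCONTR) (hXH : StXH) (hSC : StSC) (hRE : StRE) (hCRT : StCRT)
    (hFIN : StFIN) (hSG : StSG) (hFAC : StFAC) (hSB : StSB) : StMain := by
  classical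
  intro F _ _ hF ι _ _ g f hH
  have hf : ∀ i, Nice (g i) (f i) := fun i => nice_of hIRR hF hH i
  have hI : ∀ e, (ad f e).Inputs (Fintype.card F) e := fun e => inputs hCTR hRDC hLST hSQF hCONTR
    hXH hSC hRE hCRT hFIN hSG hFAC hF hH hf e
  obtain ⟨c₀, hc₀, h₀⟩ := hAB ι (ad f 0) (Fintype.card F) 0 (hI 0)
  obtain ⟨c₁, hc₁, h₁⟩ := hAB ι (ad f 1) (Fintype.card F) 1 (hI 1)
  refine ⟨min c₀ c₁, lt_min hc₀ hc₁, ?_⟩
  have key : ∀ (e m : ℕ) (T : Finset (Finset (ad f e).P)), (∀ S ∈ T, S ∈ (ad f e).sq m ∧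
      ∃ U ⊆ S, (ad f e).act S U ∧ ∀ i, (ad f e).M i S U = 1) →
      T.card ≤ {D : F[X] | D.Monic ∧ Squarefree D ∧ D.natDegree = m ∧
        ∀ i, ∀ z ∈ selmerSet (fK ((f i).scaleRoots D)), IsSquare z}.ncard := by
    intro e m T hT
    have hinj : Set.InjOn (fun S : Finset (ad f e).P => ∏ P ∈ ua f e S, P.1) T :=
      fun S _ T _ h => ua_inj e (prod_inj h)
    rw [← Set.ncard_coe_finset, ← hinj.ncard_image]
    refine Set.ncard_le_ncard ?_ ?_
    · rintro _ ⟨S, hS, rfl⟩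
      obtain ⟨hS, U, hU, hact, hM⟩ := hT S hS
      rw [AD.mem_sq, ad_dg] at hS
      refine ⟨prod_monic _, prod_sqfree _, by rw [prod_deg]; exact hS, ?_⟩
      intro i
      have : Fact (Irreducible (fK (f i))) := ⟨(hf i).irr⟩
      refine hSB F hF (g i) (hf i).one_le (f i) (hf i).monic (hf i).deg (hf i).sep (ua f e S)
        (fun P hP => ua_good f e S P hP i) ?_
      rw [← hM i]
      exact (ad_M_eq f e hSC hF (fun i => (hf i).monic) (fun i => (hf i).ne_one) i S U _ hact).symm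
    · exact (Pool.Agent.Helper54.PT.finite_natDegree_le F m).subset fun D hD => hD.2.2.1.le
  filter_upwards [h₀, h₁] with m hm₀ hm₁
  rcases Nat.mod_two_eq_zero_or_one m with h | h
  · refine (mul_le_mul_of_nonneg_right (min_le_left _ _) (by positivity)).trans ((hm₀ h).trans ?_)
    exact Nat.cast_le.2 (key 0 m _ fun S hS => mem_of_filter hS)
  · refine (mul_le_mul_of_nonneg_right (min_le_right _ _) (by positivity)).trans ((hm₁ h).trans ?_)
    exact Nat.cast_le.2 (key 1 m _ fun S hS => mem_of_filter hS)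

end main

end Pool.Agent.Helper3.GT
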