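import Pool.Agent.Helper3.GT.Abs

/-!
# GT: assembly of the abstract theorem
-/

set_option autoImplicit false

namespace Pool.Agent.Helper3.GT

open Finset Filter Topology

/-- The growth estimate for the error term. -/
private theorem growth (C c₀ : ℝ) (hc : 0 < c₀) :
    ∀ᶠ n : ℕ in atTop, C * ((2 * n + 1) * (2 * n + 2)) ≤ c₀ * Real.sqrt 2 ^ n := by
  have h1 : (1 : ℝ) < Real.sqrt 2 := by
    rw [Real.lt_sqrt (by norm_num)]
    norm_num
  have h2 := (isLittleO_pow_const_const_pow_of_one_lt (R := ℝ) 2 h1).bound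
    (show 0 < c₀ / (12 * (|C| + 1)) by positivity)
  filter_upwards [h2, eventually_ge_atTop 1] with n hn hn1
  have hn1' : (1 : ℝ) ≤ n := by exact_mod_cast hn1
  rw [Real.norm_of_nonneg (by positivity), Real.norm_of_nonneg (by positivity)] at hn
  have h3 : (2 * (n : ℝ) + 1) * (2 * n + 2) ≤ 12 * (n : ℝ) ^ 2 := by nlinarith
  have h4 : C ≤ |C| + 1 := by linarith [le_abs_self C]
  have h5 : 0 ≤ (2 * (n : ℝ) + 1) * (2 * n + 2) := by positivity
  have h6 : 0 < |C| + 1 := by positivity
  calc C * ((2 * n + 1) * (2 * n + 2)) ≤ (|C| + 1) * ((2 * n + 1) * (2 * n + 2)) :=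
        mul_le_mul_of_nonneg_right h4 h5
    _ ≤ (|C| + 1) * (12 * (n : ℝ) ^ 2) := mul_le_mul_of_nonneg_left h3 h6.le
    _ = 12 * (|C| + 1) * (n : ℝ) ^ 2 := by ring
    _ ≤ 12 * (|C| + 1) * (c₀ / (12 * (|C| + 1)) * Real.sqrt 2 ^ n) :=
        mul_le_mul_of_nonneg_left hn (by positivity)
    _ = c₀ * Real.sqrt 2 ^ n := by
        have : (12 * (|C| + 1)) ≠ 0 := by positivity
        field_simp

private theorem card_le_dg {ι : Type} (X : AD ι) (S : Finset X.P) : S.card ≤ X.dg S := by
  unfold AD.dg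
  calc S.card = ∑ _p ∈ S, 1 := by simp
    _ ≤ ∑ p ∈ S, X.deg p := sum_le_sum fun p _ => X.deg_pos p

private theorem two_pow_step {M M' b : ℕ} (h : 2 * M' ≤ max 2 M) (hM : M ≤ 2 ^ b) :
    M' ≤ 2 ^ (b - 1) := by
  rcases le_total M 2 with h1 | h1
  · rw [max_eq_left h1] at h
    have h2 : 1 ≤ 2 ^ (b - 1) := Nat.one_le_two_pow
    omega
  · rw [max_eq_right h1] at h
    cases b with
    | zero => rw [pow_zero] at hM; omega
    | succ b =>
      rw [pow_succ] at hM
      rw [Nat.add_sub_cancel]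
      omega

/-- (AB) The abstract theorem. -/
theorem hAB (hMK : StMK) (hST : StST) (hND : StND) : StAB := by
  classical
  intro ι _ X q e hX
  have hq2 := hX.two_le
  have hq2' : (2 : ℝ) ≤ q := by exact_mod_cast hq2
  have hq0 : (0 : ℝ) < q := by linarith
  obtain ⟨d, c₁, hc₁, h1⟩ := hMK ι X q e hX
  obtain ⟨cr, hcr, hred⟩ := hX.red
  obtain ⟨c₀, C, hc₀, hC, hlast⟩ := hX.last
  let Q : List ι → Finset X.P → Finset X.P → Prop :=
    fun l S U => ∀ i, X.M i S U ≤ 2 ^ (d - l.count i)
  -- steps (1) - (3)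
  have step : ∀ l : List ι, ∃ c : ℝ, 0 < c ∧ ∃ K₀ : ℕ, ∀ K : ℕ, K₀ ≤ K →
      c * K ≤ X.mass q (Q l) ((2 * l.length + 2) * K) := by
    intro l
    induction l with
    | nil =>
      obtain ⟨j₀, hj₀⟩ := eventually_atTop.1 h1
      refine ⟨c₁, hc₁, j₀, ?_⟩
      intro K hK
      have hQ : Q [] = fun S U => ∀ i, X.M i S U ≤ 2 ^ d := by
        funext S U
        simp only [Q, List.count_nil, Nat.sub_zero]
      rw [hQ]
      unfold AD.mass
      have hsub : Ico K (2 * K) ⊆ range ((2 * ([] : List ι).length + 2) * K + 1) := by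
        intro n hn
        rw [mem_Ico] at hn
        rw [mem_range, List.length_nil, mul_zero, zero_add]
        omega
      refine le_trans ?_ (sum_le_sum_of_subset_of_nonneg hsub ?_)
      · have h2 : c₁ * K = ∑ _n ∈ Ico K (2 * K), c₁ := by
          rw [sum_const, Nat.card_Ico, nsmul_eq_mul, mul_comm]
          congr 2
          omega
        rw [h2]
        refine sum_le_sum ?_
        intro n hn
        rw [mem_Ico] at hn
        have h3 := hj₀ n (by omega)
        have h4 : (0 : ℝ) < (q : ℝ) ^ n := by positivity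
        have h5 : ∑ S ∈ X.sq n,
            ((S.powerset.filter fun U => ∀ i, X.M i S U ≤ 2 ^ d).card : ℝ) /
              ((2 : ℝ) ^ S.card * (q : ℝ) ^ n) =
            (∑ S ∈ X.sq n, ((S.powerset.filter fun U => ∀ i, X.M i S U ≤ 2 ^ d).card : ℝ) /
              (2 : ℝ) ^ S.card) / (q : ℝ) ^ n := by
          rw [sum_div]
          refine sum_congr rfl ?_
          intro S _
          rw [div_div]
        have h6 : c₁ ≤ (∑ S ∈ X.sq n,
            ((S.powerset.filter fun U => ∀ i, X.M i S U ≤ 2 ^ d).card : ℝ) /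
              (2 : ℝ) ^ S.card) / (q : ℝ) ^ n := by
          rw [le_div_iff₀ h4]
          convert h3 using 4
        rw [← h5] at h6
        convert h6 using 3
      · intro n _ _
        refine sum_nonneg ?_
        intro S _
        positivity
    | cons i l ih =>
      obtain ⟨c, hc, K₀, hK₀⟩ := ih
      have hL : (0 : ℝ) < ((2 * l.length + 2 : ℕ) : ℝ) := by positivity
      obtain ⟨k₀, hk₀⟩ := hred (1 / ((2 * l.length + 2 : ℕ) : ℝ)) (by positivity)
      refine ⟨cr * c / (2 * (((2 * l.length + 2 : ℕ) : ℝ) + 2)), by positivity,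
        max (max K₀ k₀) 1, ?_⟩
      intro K hK
      have e1 : K₀ ≤ K := le_trans (le_trans (le_max_left _ _) (le_max_left _ _)) hK
      have e2 : k₀ ≤ K := le_trans (le_trans (le_max_right _ _) (le_max_left _ _)) hK
      have e3 : 1 ≤ K := le_trans (le_max_right _ _) hK
      have h2 := hST ι X q hq2 (Q l) (Q (i :: l)) K (2 * l.length + 2) cr e3 hcr.le (by
        intro S U hU hQ hdg k hk1 _
        have h3 := hk₀ k (le_trans e2 hk1) i S U hU (by
          rw [one_div, inv_mul_le_iff₀ hL]
          have h4 : X.dg S ≤ (2 * l.length + 2) * k :=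
            le_trans hdg (Nat.mul_le_mul_left _ hk1)
          exact_mod_cast h4)
        refine le_trans h3 ?_
        refine mul_le_mul_of_nonneg_left ?_ (Nat.cast_nonneg k)
        rw [Nat.cast_le]
        refine card_le_card ?_
        intro p hp
        rw [mem_filter] at hp ⊢
        obtain ⟨hp1, hp2, hp3⟩ := hp
        have key : ∀ U' : Finset X.P, U' = U ∨ U' = insert p U → Q (i :: l) (insert p S) U' := by
          intro U' hU' j
          obtain ⟨h5, h6⟩ := hp3 U' hU'
          by_cases hj : j = i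
          · rw [hj, List.count_cons_self, ← Nat.sub_sub]
            exact two_pow_step h5 (hQ i)
          · rw [List.count_cons_of_ne (Ne.symm hj)]
            exact le_trans (h6 j hj) (hQ j)
        exact ⟨hp1, hp2, key U (Or.inl rfl), key _ (Or.inr rfl)⟩)
      have h3 := hK₀ K e1
      have h4 : (2 * (i :: l).length + 2) * K = (2 * l.length + 2 + 2) * K := by
        rw [List.length_cons]
        ring
      rw [h4, div_mul_eq_mul_div, div_le_iff₀ (by positivity)]
      have h5 : cr * (c * K) ≤ cr * X.mass q (Q l) ((2 * l.length + 2) * K) :=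
        mul_le_mul_of_nonneg_left h3 hcr.le
      calc cr * c * K = cr * (c * K) := by ring
        _ ≤ cr * X.mass q (Q l) ((2 * l.length + 2) * K) := h5
        _ ≤ _ := h2
        _ = _ := by ring
  -- the final list
  obtain ⟨l₀, hl₀⟩ : ∃ l : List ι, ∀ i, l.count i = d := by
    have := Fintype.ofFinite ι
    refine ⟨(List.replicate d (univ : Finset ι).toList).flatten, ?_⟩
    intro i
    rw [List.count_flatten, List.map_replicate, List.sum_replicate,
      List.count_eq_one_of_mem (Finset.nodup_toList _) (by simp), smul_eq_mul, mul_one]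
  obtain ⟨c₂, hc₂, K₀, hK₀⟩ := step l₀
  obtain ⟨n₀, hn₀⟩ := eventually_atTop.1 (growth C (c₀ / 2) (by positivity))
  -- the constant
  refine ⟨c₀ / 2 * c₂ / (64 * (l₀.length + 2)), by positivity, ?_⟩
  filter_upwards [eventually_ge_atTop (16 * (l₀.length + 2) * (K₀ + 2)),
    eventually_ge_atTop (2 * n₀ + 2)] with m hm1 hm2 hm3
  obtain ⟨K, hK⟩ : ∃ K, K = m / (16 * (l₀.length + 2)) := ⟨_, rfl⟩
  have hT0 : 0 < 16 * (l₀.length + 2) := by positivity
  have hK1 : 16 * (l₀.length + 2) * K ≤ m := by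
    rw [hK]
    exact Nat.mul_div_le m _
  have hK2 : m < 16 * (l₀.length + 2) * (K + 1) := by
    rw [hK]
    exact Nat.lt_mul_div_succ m hT0
  have hK3 : K₀ ≤ K := by
    rw [hK, Nat.le_div_iff_mul_le hT0]
    refine le_trans ?_ hm1
    rw [mul_comm K₀]
    exact Nat.mul_le_mul_left _ (by omega)
  have hK4 : 1 ≤ K := by
    rw [hK, Nat.le_div_iff_mul_le hT0]
    refine le_trans ?_ hm1
    rw [mul_comm 1]
    exact Nat.mul_le_mul_left _ (by omega)
  have hm0 : 1 ≤ m := by omega
  have hL8 : 8 * ((2 * l₀.length + 2) * K) ≤ m := by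
    refine le_trans ?_ hK1
    have : 8 * ((2 * l₀.length + 2) * K) = (16 * l₀.length + 16) * K := by ring
    rw [this]
    exact Nat.mul_le_mul_right _ (by omega)
  have h2 := hND ι X q hq2 (Q l₀) (fun S U => X.act S U ∧ ∀ i, X.M i S U = 1) m
    ((2 * l₀.length + 2) * K) (c₀ / 2) (by positivity) (by omega) (by
      intro S U U' hU hU' h3 h4
      exact hX.act_uniq S U U' hU hU' h3.1 h4.1) (by
      intro S U hU hQ hdg
      obtain ⟨s, hs⟩ : ∃ s, s = X.dg S := ⟨_, rfl⟩
      have hsm : 8 * s ≤ m := by omega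
      have h3 := hlast (m - X.dg S) S U (by rw [← hs]; omega) hU (by
        rw [← hs, Nat.add_sub_cancel' (by omega)]
        exact hm3)
      rw [← hs] at h3 ⊢
      have hcard : S.card ≤ s := by
        rw [hs]
        exact card_le_dg X S
      -- the error term
      have herr : C * ((m - s : ℕ) : ℝ) * (s + 1) * 2 ^ S.card * Real.sqrt q ^ (m - s) ≤
          c₀ / 2 * (q : ℝ) ^ (m - s) := by
        have g1 := hn₀ (m / 2) (by omega)
        have g2 : (m : ℝ) ≤ 2 * ((m / 2 : ℕ) : ℝ) + 1 := by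
          have : m ≤ 2 * (m / 2) + 1 := by omega
          exact_mod_cast this
        have g3 : ((m - s : ℕ) : ℝ) ≤ m := by
          have : m - s ≤ m := by omega
          exact_mod_cast this
        have g4 : (s : ℝ) + 1 ≤ m + 1 := by
          have : s + 1 ≤ m + 1 := by omega
          exact_mod_cast this
        have g5 : C * ((m - s : ℕ) : ℝ) * (s + 1) ≤ c₀ / 2 * Real.sqrt 2 ^ (m / 2) := by
          refine le_trans ?_ g1
          rw [mul_assoc]
          refine mul_le_mul_of_nonneg_left ?_ hC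
          refine mul_le_mul (by linarith) (by linarith) (by positivity) (by positivity)
        have h12 : (1 : ℝ) ≤ Real.sqrt 2 := by
          rw [Real.le_sqrt' one_pos]
          norm_num
        have g6 : (2 : ℝ) ^ S.card ≤ Real.sqrt 2 ^ (2 * s) := by
          rw [pow_mul, Real.sq_sqrt (show (0 : ℝ) ≤ 2 by norm_num)]
          exact pow_le_pow_right₀ (by norm_num) hcard
        have g7 : Real.sqrt 2 ^ (m / 2) * Real.sqrt 2 ^ (2 * s) ≤ Real.sqrt 2 ^ (m - s) := by
          rw [← pow_add]
          exact pow_le_pow_right₀ h12 (by omega)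
        have g8 : Real.sqrt 2 ^ (m - s) ≤ Real.sqrt q ^ (m - s) :=
          pow_le_pow_left₀ (Real.sqrt_nonneg _) (Real.sqrt_le_sqrt hq2') _
        have g9 : Real.sqrt q ^ (m - s) * Real.sqrt q ^ (m - s) = (q : ℝ) ^ (m - s) := by
          rw [← mul_pow, Real.mul_self_sqrt hq0.le]
        have g10 : C * ((m - s : ℕ) : ℝ) * (s + 1) * 2 ^ S.card ≤
            c₀ / 2 * Real.sqrt q ^ (m - s) := by
          calc C * ((m - s : ℕ) : ℝ) * (s + 1) * 2 ^ S.card
              ≤ (c₀ / 2 * Real.sqrt 2 ^ (m / 2)) * Real.sqrt 2 ^ (2 * s) :=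
                mul_le_mul g5 g6 (by positivity) (by positivity)
            _ = c₀ / 2 * (Real.sqrt 2 ^ (m / 2) * Real.sqrt 2 ^ (2 * s)) := by ring
            _ ≤ c₀ / 2 * Real.sqrt q ^ (m - s) :=
                mul_le_mul_of_nonneg_left (le_trans g7 g8) (by positivity)
        calc C * ((m - s : ℕ) : ℝ) * (s + 1) * 2 ^ S.card * Real.sqrt q ^ (m - s)
            ≤ (c₀ / 2 * Real.sqrt q ^ (m - s)) * Real.sqrt q ^ (m - s) :=
              mul_le_mul_of_nonneg_right g10 (by positivity)
          _ = c₀ / 2 * (Real.sqrt q ^ (m - s) * Real.sqrt q ^ (m - s)) := by ring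
          _ = _ := by rw [g9]
      have hsub : ((X.pr (m - s)).filter (fun p => p ∉ S ∧ X.I p ∧
          (X.act (insert p S) U ∨ X.act (insert p S) (insert p U)))) ⊆
          ((X.pr (m - s)).filter fun p => p ∉ S ∧
            ((X.act (insert p S) U ∧ ∀ i, X.M i (insert p S) U = 1) ∨
              (X.act (insert p S) (insert p U) ∧ ∀ i, X.M i (insert p S) (insert p U) = 1))) := by
        intro p hp
        rw [mem_filter] at hp ⊢
        obtain ⟨p1, p2, p3, p4⟩ := hp
        have hM : ∀ i, X.M i S U ≤ 1 := by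
          intro i
          have := hQ i
          rw [hl₀ i, Nat.sub_self, pow_zero] at this
          exact this
        refine ⟨p1, p2, ?_⟩
        rcases p4 with p4 | p4
        · left
          refine ⟨p4, fun i => le_antisymm ?_ ?_⟩
          · exact le_trans (hX.irr i p S U p3 p2 hU).1 (hM i)
          · exact hX.pos i _ _ (subset_trans hU (subset_insert p S))
        · right
          refine ⟨p4, fun i => le_antisymm ?_ ?_⟩
          · exact le_trans (hX.irr i p S U p3 p2 hU).2 (hM i)
          · exact hX.pos i _ _ (insert_subset_insert p hU)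
      have hcard2 := card_le_card hsub
      have h4 : ((m - s : ℕ) : ℝ) * 2 ^ S.card *
          ((((X.pr (m - s)).filter (fun p => p ∉ S ∧ X.I p ∧
          (X.act (insert p S) U ∨ X.act (insert p S) (insert p U)))).card : ℕ) : ℝ) ≤
          ((m - s : ℕ) : ℝ) * 2 ^ S.card *
          ((((X.pr (m - s)).filter fun p => p ∉ S ∧
            ((X.act (insert p S) U ∧ ∀ i, X.M i (insert p S) U = 1) ∨
              (X.act (insert p S) (insert p U) ∧ ∀ i, X.M i (insert p S) (insert p U) = 1))).card :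
                ℕ) : ℝ) := by
        refine mul_le_mul_of_nonneg_left ?_ (by positivity)
        exact_mod_cast hcard2
      have h5 : c₀ / 2 * (q : ℝ) ^ (m - s) ≤ ((m - s : ℕ) : ℝ) * 2 ^ S.card *
          ((((X.pr (m - s)).filter (fun p => p ∉ S ∧ X.I p ∧
          (X.act (insert p S) U ∨ X.act (insert p S) (insert p U)))).card : ℕ) : ℝ) := by
        have h6 : c₀ * (q : ℝ) ^ (m - s) ≤ ((m - s : ℕ) : ℝ) * 2 ^ S.card *
          ((((X.pr (m - s)).filter (fun p => p ∉ S ∧ X.I p ∧
          (X.act (insert p S) U ∨ X.act (insert p S) (insert p U)))).card : ℕ) : ℝ) +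
          C * ((m - s : ℕ) : ℝ) * (s + 1) * 2 ^ S.card * Real.sqrt q ^ (m - s) := by
          convert h3 using 6
        linarith
      refine le_trans h5 (le_trans h4 (le_of_eq ?_))
      congr)
  -- conclusion
  have h3 := hK₀ K hK3
  have hm0' : (0 : ℝ) < m := by exact_mod_cast hm0
  have h4 : (m : ℝ) ≤ 32 * (l₀.length + 2) * K := by
    have h5 : m ≤ 32 * (l₀.length + 2) * K := by
      refine le_trans hK2.le ?_
      have : 32 * (l₀.length + 2) * K = 16 * (l₀.length + 2) * (K + K) := by ring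
      rw [this]
      exact Nat.mul_le_mul_left _ (by omega)
    exact_mod_cast h5
  have hq : (0 : ℝ) < (q : ℝ) ^ m := by positivity
  have h6 : c₀ / 2 * (q : ℝ) ^ m * (c₂ * K) ≤
      c₀ / 2 * (q : ℝ) ^ m * X.mass q (Q l₀) ((2 * l₀.length + 2) * K) :=
    mul_le_mul_of_nonneg_left h3 (by positivity)
  have h7 := le_trans h6 h2
  have hT : (0 : ℝ) < (l₀.length : ℝ) + 2 := by positivity
  have h8 : c₀ / 2 * c₂ / (64 * ((l₀.length : ℝ) + 2)) * (q : ℝ) ^ m * (2 * m) ≤
      c₀ / 2 * (q : ℝ) ^ m * (c₂ * K) := by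
    calc c₀ / 2 * c₂ / (64 * ((l₀.length : ℝ) + 2)) * (q : ℝ) ^ m * (2 * m)
        = (c₀ / 2 * c₂ * (q : ℝ) ^ m / (32 * ((l₀.length : ℝ) + 2))) * m := by
          field_simp
          ring
      _ ≤ (c₀ / 2 * c₂ * (q : ℝ) ^ m / (32 * ((l₀.length : ℝ) + 2))) *
          (32 * (l₀.length + 2) * K) := mul_le_mul_of_nonneg_left h4 (by positivity)
      _ = c₀ / 2 * (q : ℝ) ^ m * (c₂ * K) := by
          field_simp
  have h9 := le_trans h8 h7
  have h10 : (0 : ℝ) < 2 * m := by positivity
  refine le_of_mul_le_mul_right ?_ h10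
  refine le_trans h9 (le_of_eq ?_)
  rw [mul_comm]
  congr

end Pool.Agent.Helper3.GT
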