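import Pool.Agent.Helper3.GT.St
import Pool.Agent.Helper92.TW.C7

/-!
# GT: the contraction inequality (CONTR)
-/

set_option autoImplicit false

namespace Pool.Agent.Helper3.GT

open Polynomial Finset Filter Topology
open Pool.Agent.Helper54.PT (Prm prm IsAbsP IsAbsInf exists_absP)
open Pool.Agent.Helper3.HY (fK RR LL kp red TwAt twGroup baseChange)

namespace Contr

/-- Orthogonal subspaces of `F₂ ^ ι`. -/
theorem lin {ι : Type} [Fintype ι] (I J : AddSubgroup (ι → ZMod 2)) (d : ι → ZMod 2)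
    (hd : ∑ i, d i = 1) (h1 : ∀ y ∈ I, ∑ i, y i = 0) (h2 : ∀ x ∈ J, ∑ i, d i * x i = 0)
    (h3 : ∀ x ∈ J, ∀ y ∈ I, ∑ i, x i * y i = 0) :
    2 * (Nat.card I * Nat.card J) ≤ 2 ^ Fintype.card ι := by
  classical
  have : Fact (Nat.Prime 2) := ⟨Nat.prime_two⟩
  set I' : Submodule (ZMod 2) (ι → ZMod 2) := AddSubgroup.toZModSubmodule 2 I with hI'
  set J' : Submodule (ZMod 2) (ι → ZMod 2) := AddSubgroup.toZModSubmodule 2 J with hJ'
  have mI : ∀ y, y ∈ I' ↔ y ∈ I := fun y => Iff.rfl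
  have mJ : ∀ y, y ∈ J' ↔ y ∈ J := fun y => Iff.rfl
  set e : ι → ZMod 2 := fun _ => 1 with he
  have he1 : e ∉ J' := by
    intro h
    have h4 := h2 e ((mJ e).1 h)
    have h5 : ∑ i, d i * e i = ∑ i, d i := Finset.sum_congr rfl fun i _ => mul_one _
    rw [h5, hd] at h4
    exact one_ne_zero h4
  set K := J' ⊔ Submodule.span (ZMod 2) {e} with hK
  have hlt : J' < K := by
    refine lt_of_le_of_ne le_sup_left fun h => he1 ?_
    rw [h]
    exact (le_sup_right : _ ≤ K) (Submodule.mem_span_singleton_self e)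
  have hfr : Module.finrank (ZMod 2) J' + 1 ≤ Module.finrank (ZMod 2) K :=
    Submodule.finrank_lt_finrank_of_lt hlt
  set Φ := dotProductEquiv (ZMod 2) ι with hΦ
  set W : Submodule (ZMod 2) (Module.Dual (ZMod 2) (ι → ZMod 2)) :=
    I'.map (Φ : (ι → ZMod 2) →ₗ[ZMod 2] Module.Dual (ZMod 2) (ι → ZMod 2)) with hW
  have hKW : K ≤ W.dualCoannihilator := by
    rw [hK, sup_le_iff, Submodule.span_le, Set.singleton_subset_iff]
    constructor
    · intro x hx
      rw [Submodule.mem_dualCoannihilator]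
      rintro φ ⟨y, hy, rfl⟩
      have := h3 x ((mJ x).1 hx) y ((mI y).1 hy)
      simp only [hΦ, LinearEquiv.coe_coe, dotProductEquiv_apply_apply, dotProduct]
      rw [← this]
      exact Finset.sum_congr rfl fun i _ => mul_comm _ _
    · change e ∈ W.dualCoannihilator
      rw [Submodule.mem_dualCoannihilator]
      rintro φ ⟨y, hy, rfl⟩
      simp only [hΦ, LinearEquiv.coe_coe, dotProductEquiv_apply_apply, dotProduct]
      rw [← h1 y ((mI y).1 hy)]
      exact Finset.sum_congr rfl fun i _ => mul_one _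
  have hWf : Module.finrank (ZMod 2) W = Module.finrank (ZMod 2) I' := by
    rw [hW]
    exact LinearEquiv.finrank_map_eq Φ I'
  have hsum := Subspace.finrank_add_finrank_dualCoannihilator_eq W
  have hle : Module.finrank (ZMod 2) K ≤ Module.finrank (ZMod 2) W.dualCoannihilator :=
    Submodule.finrank_mono hKW
  rw [Module.finrank_fintype_fun_eq_card, hWf] at hsum
  have hcI : Nat.card I = 2 ^ Module.finrank (ZMod 2) I' := by
    have h := Module.natCard_eq_pow_finrank (K := ZMod 2) (V := I')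
    rw [Nat.card_zmod] at h
    rw [← h]
    exact Nat.card_congr (Equiv.subtypeEquivRight fun y => (mI y).symm)
  have hcJ : Nat.card J = 2 ^ Module.finrank (ZMod 2) J' := by
    have h := Module.natCard_eq_pow_finrank (K := ZMod 2) (V := J')
    rw [Nat.card_zmod] at h
    rw [← h]
    exact Nat.card_congr (Equiv.subtypeEquivRight fun y => (mJ y).symm)
  rw [hcI, hcJ, ← pow_add, ← pow_succ']
  exact Nat.pow_le_pow_right (by norm_num) (by omega)

/-- Counting classes. -/
theorem cnt {G M : Type} [CommGroup G] [Group M] (N H : Subgroup G) (φ : G →* M)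
    (hφ : N ≤ φ.ker) :
    ((QuotientGroup.mk : G → G ⧸ N) '' (H : Set G)).ncard =
      ((QuotientGroup.mk : G → G ⧸ N) '' {z | z ∈ H ∧ φ z = 1}).ncard * Nat.card (H.map φ) := by
  set ψ : G ⧸ N →* M := QuotientGroup.lift N φ hφ with hψ
  set V := H.map (QuotientGroup.mk' N) with hV
  set χ : V →* M := ψ.comp V.subtype with hχ
  have h1 : Nat.card χ.ker * χ.ker.index = Nat.card V := χ.ker.card_mul_index
  rw [Subgroup.index_ker] at h1
  have h2 : χ.range = H.map φ := by
    rw [hχ, MonoidHom.range_comp, Subgroup.range_subtype, hV, Subgroup.map_map]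
    congr 1
  have h3 : ((QuotientGroup.mk : G → G ⧸ N) '' (H : Set G)).ncard = Nat.card V := by
    rw [← Nat.card_coe_set_eq]
    rfl
  have h4 : ((QuotientGroup.mk : G → G ⧸ N) '' {z | z ∈ H ∧ φ z = 1}).ncard = Nat.card χ.ker := by
    have h5 : ((QuotientGroup.mk : G → G ⧸ N) '' {z | z ∈ H ∧ φ z = 1}) =
        Subtype.val '' (χ.ker : Set V) := by
      ext q
      constructor
      · rintro ⟨z, ⟨hz, hz1⟩, rfl⟩
        refine ⟨⟨QuotientGroup.mk z, ⟨z, hz, rfl⟩⟩, ?_, rfl⟩
        change χ _ = 1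
        exact hz1
      · rintro ⟨⟨q', z, hz, hzq⟩, hq, rfl⟩
        refine ⟨z, ⟨hz, ?_⟩, hzq⟩
        have hq' : ψ q' = 1 := hq
        rw [← hzq] at hq'
        exact hq'
    rw [h5, Set.ncard_image_of_injective _ Subtype.val_injective, ← Nat.card_coe_set_eq]
    rfl
  rw [h3, h4, ← h1, h2]

end Contr

theorem hCONTR (hFIN : StFIN) (hSG : StSG) (hOE : StOE) (hISOG : StISOG) (hL2 : StL2)
    (hFAC : StFAC) : StCONTR := by
  classical
  intro F _ _ h2F g hg f hm hdeg hsep hdisc hirr P hP S hPS E hE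
  obtain ⟨hOE1, hOE2, hOE3, -⟩ := hOE F h2F g hg f hm hdeg hsep P hP
  obtain ⟨-, -, hsumdeg, hcard1, -, -, -⟩ := hFAC F h2F g hg f hm hdeg P hP
  have hE0 : E ≠ 0 := fun h => hE (h ▸ dvd_zero _)
  have hP0 : P.1 ≠ 0 := P.2.2.ne_zero
  have hD0 : P.1 * E ≠ 0 := mul_ne_zero hP0 hE0
  have hnb : ¬ Bd f P := fun h => hP (dvd_trans (Dvd.intro_left _ (by ring : P.1 * P.1 = P.1 ^ 2)) h)
  obtain ⟨H', hH', -⟩ := hSG F f hm (insert P S) (P.1 * E)
  obtain ⟨H, hH, -⟩ := hSG F f hm S (P.1 * E)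
  have mH' : ∀ z, z ∈ H' ↔ z ∈ SelS f (insert P S) (P.1 * E) := fun z => by
    rw [← hH']; exact Iff.rfl
  have mH : ∀ z, z ∈ H ↔ z ∈ SelS f S (P.1 * E) := fun z => by
    rw [← hH]; exact Iff.rfl
  obtain ⟨C, hC⟩ := hFIN F f hm hsep hdisc
  have hfin := (hC S (P.1 * E)).1
  obtain ⟨v, hv, hvP⟩ := exists_absP P
  -- the homomorphisms
  set ι := {ψ // ψ ∈ facs f P} with hι
  have h10 : ∀ ψ ∈ facs f P, om P ψ (1 : LL f) = 0 ∧ ep P ψ (1 : LL f) = 0 := by
    intro ψ hψ
    have h := hOE1 ψ hψ 1 1 one_ne_zero one_ne_zero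
    rw [mul_one] at h
    constructor
    · have := h.1
      exact left_eq_add.1 this
    · have := h.2
      exact left_eq_add.1 this
  let a : (LL f)ˣ →* Multiplicative (ι → ZMod 2) :=
    { toFun := fun z => Multiplicative.ofAdd fun ψ => om P ψ.1 (z : LL f)
      map_one' := by
        refine Multiplicative.toAdd.injective (funext fun ψ => ?_)
        exact (h10 ψ.1 ψ.2).1
      map_mul' := fun z w => by
        refine Multiplicative.toAdd.injective (funext fun ψ => ?_)
        exact (hOE1 ψ.1 ψ.2 z w z.ne_zero w.ne_zero).1 }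
  let l : (LL f)ˣ →* Multiplicative (ι → ZMod 2) :=
    { toFun := fun z => Multiplicative.ofAdd fun ψ => ep P ψ.1 (z : LL f)
      map_one' := by
        refine Multiplicative.toAdd.injective (funext fun ψ => ?_)
        exact (h10 ψ.1 ψ.2).2
      map_mul' := fun z w => by
        refine Multiplicative.toAdd.injective (funext fun ψ => ?_)
        exact (hOE1 ψ.1 ψ.2 z w z.ne_zero w.ne_zero).2 }
  have ha1 : ∀ z, a z = 1 ↔ ∀ ψ ∈ facs f P, om P ψ (z : LL f) = 0 := fun z =>
    ⟨fun h ψ hψ => congrFun (congrArg Multiplicative.toAdd h) ⟨ψ, hψ⟩,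
      fun h => Multiplicative.toAdd.injective (funext fun ψ => h ψ.1 ψ.2)⟩
  have hl1 : ∀ z, l z = 1 ↔ ∀ ψ ∈ facs f P, ep P ψ (z : LL f) = 0 := fun z =>
    ⟨fun h ψ hψ => congrFun (congrArg Multiplicative.toAdd h) ⟨ψ, hψ⟩,
      fun h => Multiplicative.toAdd.injective (funext fun ψ => h ψ.1 ψ.2)⟩
  have hsq : ∀ x : Multiplicative (ι → ZMod 2), x ^ 2 = 1 := by
    intro x
    refine Multiplicative.toAdd.injective (funext fun ψ => ?_)
    change (2 • Multiplicative.toAdd x) ψ = 0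
    rw [Pi.smul_apply, two_nsmul]
    exact CharTwo.add_self_eq_zero _
  set N : Subgroup (LL f)ˣ := (powMonoidHom 2 : (LL f)ˣ →* (LL f)ˣ).range with hN
  have hNk : ∀ φ : (LL f)ˣ →* Multiplicative (ι → ZMod 2), N ≤ φ.ker := by
    rintro φ _ ⟨y, rfl⟩
    rw [MonoidHom.mem_ker, powMonoidHom_apply, map_pow]
    exact hsq _
  have c1 := Contr.cnt N H l (hNk l)
  have c2 := Contr.cnt N H' a (hNk a)
  -- properties of the two groups
  have pEv : ∀ z ∈ H, EvP P (z : LL f) := fun z hz => ((mH z).1 hz).2.1 P hPS hnb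
  have key : ∀ z ∈ H', a z = 1 → z ∈ H ∧ l z = 1 := by
    intro z hz haz
    have hz' := (mH' z).1 hz
    obtain ⟨z1, z2, z3, z4⟩ := hz'
    have hev : EvP P (z : LL f) := (hOE2 z z.ne_zero).2 ((ha1 z).1 haz)
    refine ⟨(mH z).2 ⟨z1, fun Q hQ hQb => ?_, fun Q hQ => z3 Q ?_, z4⟩, (hl1 z).2 ?_⟩
    · by_cases hQP : Q = P
      · rw [hQP]; exact hev
      · exact z2 Q (fun h => by
          rcases Finset.mem_insert.1 h with h | h
          · exact hQP h
          · exact hQ h) hQb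
    · rcases hQ with h | h
      · exact Or.inl (Finset.mem_insert_of_mem h)
      · exact Or.inr h
    · exact hL2 F h2F g hg f hm hdeg hsep P hP E hE v hv hvP z
        (z3 P (Or.inl (Finset.mem_insert_self _ _)) v hv hvP) hev
  have hXS : ((QuotientGroup.mk : (LL f)ˣ → (LL f)ˣ ⧸ N) '' {z | z ∈ H ∧ l z = 1}).ncard =
      XS f S (P.1 * E) P := by
    unfold XS
    congr 2
    ext z
    exact and_congr (mH z) (hl1 z)
  have hle : ((QuotientGroup.mk : (LL f)ˣ → (LL f)ˣ ⧸ N) '' {z | z ∈ H' ∧ a z = 1}).ncard ≤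
      XS f S (P.1 * E) P := by
    rw [← hXS]
    refine Set.ncard_le_ncard (Set.image_mono fun z hz => key z hz.1 hz.2) ?_
    refine hfin.subset (Set.image_mono fun z hz => ?_)
    exact (mH z).1 hz.1
  have hMS : MS f S (P.1 * E) = XS f S (P.1 * E) P * Nat.card (H.map l) := by
    rw [← hXS, ← c1]
    unfold MS
    rw [← hH]
  have hMS' : MS f (insert P S) (P.1 * E) ≤ XS f S (P.1 * E) P * Nat.card (H'.map a) := by
    refine le_trans (le_of_eq ?_) (Nat.mul_le_mul_right _ hle)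
    rw [← c2]
    unfold MS
    rw [← hH']
  -- the linear algebra
  have hlin : 2 * (Nat.card (H.map l) * Nat.card (H'.map a)) ≤ 2 ^ (facs f P).card := by
    have h := Contr.lin (Subgroup.toAddSubgroup' (H.map l)) (Subgroup.toAddSubgroup' (H'.map a))
      (fun ψ : ι => (ψ.1.natDegree : ZMod 2)) ?_ ?_ ?_ ?_
    · rw [Fintype.card_coe] at h
      exact h
    · rw [Finset.sum_coe_sort (facs f P) (fun ψ => (ψ.natDegree : ZMod 2)), ← Nat.cast_sum,
        hsumdeg, Nat.cast_add, Nat.cast_mul, Nat.cast_one]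
      have : ((2 : ℕ) : ZMod 2) = 0 := rfl
      rw [this, zero_mul, zero_add]
    · rintro y hy
      obtain ⟨z, hz, hzy⟩ : ∃ z ∈ H, l z = Multiplicative.ofAdd y := hy
      have hy' : y = fun ψ : ι => ep P ψ.1 (z : LL f) :=
        (congrArg Multiplicative.toAdd hzy).symm
      rw [hy', Finset.sum_coe_sort (facs f P) (fun ψ => ep P ψ (z : LL f))]
      exact (hOE3 z z.ne_zero ((mH z).1 hz).1).2 (pEv z hz)
    · rintro y hy
      obtain ⟨z, hz, hzy⟩ : ∃ z ∈ H', a z = Multiplicative.ofAdd y := hy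
      have hy' : y = fun ψ : ι => om P ψ.1 (z : LL f) :=
        (congrArg Multiplicative.toAdd hzy).symm
      rw [hy', Finset.sum_coe_sort (facs f P)
        (fun ψ => (ψ.natDegree : ZMod 2) * om P ψ (z : LL f))]
      exact (hOE3 z z.ne_zero ((mH' z).1 hz).1).1
    · rintro x hx y hy
      obtain ⟨z, hz, hzx⟩ : ∃ z ∈ H', a z = Multiplicative.ofAdd x := hx
      obtain ⟨w, hw, hwy⟩ : ∃ w ∈ H, l w = Multiplicative.ofAdd y := hy
      have hx' : x = fun ψ : ι => om P ψ.1 (z : LL f) :=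
        (congrArg Multiplicative.toAdd hzx).symm
      have hy' : y = fun ψ : ι => ep P ψ.1 (w : LL f) :=
        (congrArg Multiplicative.toAdd hwy).symm
      rw [hx', hy', Finset.sum_coe_sort (facs f P)
        (fun ψ => om P ψ (z : LL f) * ep P ψ (w : LL f))]
      exact hISOG F h2F g hg f hm hdeg hsep P hP S hPS (P.1 * E) hD0 z w ((mH' z).1 hz)
        ((mH w).1 hw)
  have hfin2 : Nat.card (H.map l) * Nat.card (H'.map a) ≤ 2 ^ ((facs f P).card - 1) := by
    obtain ⟨m, hm'⟩ : ∃ m, (facs f P).card = m + 1 := ⟨(facs f P).card - 1, by omega⟩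
    rw [hm', pow_succ'] at hlin
    rw [hm', Nat.add_sub_cancel]
    exact Nat.le_of_mul_le_mul_left hlin (by norm_num)
  calc MS f (insert P S) (P.1 * E) * MS f S (P.1 * E)
      ≤ (XS f S (P.1 * E) P * Nat.card (H'.map a)) *
          (XS f S (P.1 * E) P * Nat.card (H.map l)) := by
        rw [hMS]
        exact Nat.mul_le_mul_right _ hMS'
    _ = (Nat.card (H.map l) * Nat.card (H'.map a)) * XS f S (P.1 * E) P ^ 2 := by ring
    _ ≤ 2 ^ ((facs f P).card - 1) * XS f S (P.1 * E) P ^ 2 := Nat.mul_le_mul_right _ hfin2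

end Pool.Agent.Helper3.GT
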