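import Pool.Agent.Helper3.GT.St

/-!
# GT: module CRT
-/

set_option autoImplicit false

namespace Pool.Agent.Helper3.GT

open Polynomial Finset Filter Topology
open Pool.Agent.Helper54.PT (Prm prm)
open Pool.Agent.Helper3.HY (kp red)

namespace CRT

section

variable {F : Type} [Field F]

theorem eq_of_dvd {P Q : Prm F} (h : P.1 ∣ Q.1) : P = Q :=
  Subtype.ext (eq_of_monic_of_associated P.2.1 Q.2.1 (P.2.2.associated_of_dvd Q.2.2 h))

theorem coprime_of_ne {P Q : Prm F} (h : P ≠ Q) : IsCoprime P.1 Q.1 := by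
  rw [P.2.2.coprime_iff_not_dvd]
  exact fun hd => h (eq_of_dvd hd)

theorem finite_dvd (D₀ : F[X]) (h : D₀ ≠ 0) : {P : Prm F | P.1 ∣ D₀}.Finite := by
  classical
  refine Set.Finite.of_finite_image (f := fun P : Prm F => P.1) ?_ Subtype.val_injective.injOn
  refine ((UniqueFactorizationMonoid.normalizedFactors D₀).toFinset.finite_toSet).subset ?_
  rintro _ ⟨P, hP, rfl⟩
  rw [mem_coe, Multiset.mem_toFinset]
  exact (Polynomial.mem_normalizedFactors_iff h).2 ⟨P.2.2, P.2.1, hP⟩

/-- The bad primes of the family are finite in number. -/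
theorem finite_bad {ι : Type} [Fintype ι] (f : ι → F[X][X]) (h : ∀ i, (f i).discr ≠ 0) :
    {P : Prm F | ∃ i, Bd (f i) P}.Finite := by
  have : {P : Prm F | ∃ i, Bd (f i) P} ⊆ ⋃ i, {P : Prm F | P.1 ∣ (f i).discr} := by
    rintro P ⟨i, hi⟩
    exact Set.mem_iUnion.2 ⟨i, (dvd_pow_self _ two_ne_zero).trans hi⟩
  exact (Set.finite_iUnion fun i => finite_dvd _ (h i)).subset this

theorem exists_nonsq [Fintype F] (h2 : (2 : F) ≠ 0) (P : Prm F) :
    ∃ E : F[X], ¬ IsSquare (red P E) := by
  have hmf : Module.Finite F (kp P) := P.2.1.finite_adjoinRoot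
  have hf : Finite (kp P) := Module.finite_of_finite F
  have h2' : (2 : kp P) ≠ 0 := by
    intro h
    apply h2
    apply (algebraMap F (kp P)).injective
    rw [map_ofNat, map_zero, h]
  have hc : ringChar (kp P) ≠ 2 := by
    intro h
    apply h2'
    have := CharP.cast_eq_zero (kp P) (ringChar (kp P))
    rw [h] at this
    exact_mod_cast this
  obtain ⟨a, ha⟩ := FiniteField.exists_nonsquare hc
  obtain ⟨E, rfl⟩ := AdjoinRoot.mk_surjective a
  exact ⟨E, ha⟩

theorem exists_unit_cls [Fintype F] (h2 : (2 : F) ≠ 0) (U : Finset (Prm F)) (P : Prm F) :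
    ∃ E : F[X], ¬ P.1 ∣ E ∧ (IsSquare (red P E) ↔ P ∉ U) := by
  by_cases hU : P ∈ U
  · obtain ⟨E, hE⟩ := exists_nonsq h2 P
    refine ⟨E, fun hd => hE ?_, iff_of_false hE (not_not.2 hU)⟩
    have : red P E = 0 := AdjoinRoot.mk_eq_zero.2 hd
    rw [this]
    exact IsSquare.zero
  · refine ⟨1, fun hd => P.2.2.not_isUnit (isUnit_of_dvd_one hd), iff_of_true ?_ hU⟩
    rw [map_one]
    exact IsSquare.one

/-- Chinese remainders, monic of prescribed parity. -/
theorem exists_monic (T : Finset (Prm F)) (G : Prm F → F[X]) (e : ℕ) :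
    ∃ D : F[X], D.Monic ∧ D.natDegree % 2 = e % 2 ∧ ∀ P ∈ T, P.1 ^ 2 ∣ D - G P := by
  classical
  obtain ⟨D₀, hD₀⟩ := Ideal.exists_forall_sub_mem_ideal (ι := T)
    (I := fun P => Ideal.span {P.1.1 ^ 2}) (by
      intro P Q hPQ
      simp only [Function.onFun]
      rw [Ideal.isCoprime_span_singleton_iff]
      exact (coprime_of_ne fun h => hPQ (Subtype.ext h)).pow) (fun P => G P.1)
  set M : F[X] := ∏ P ∈ T, P.1 ^ 2 with hM
  have hMm : M.Monic := monic_prod_of_monic _ _ fun P _ => P.2.1.pow 2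
  set j := 2 * (D₀.natDegree + 1) + M.natDegree + e with hj
  have hMj : (M * X ^ j).Monic := hMm.mul (monic_X_pow j)
  have hdeg : (M * X ^ j).natDegree = M.natDegree + j := by
    rw [hMm.natDegree_mul (monic_X_pow j), natDegree_X_pow]
  have hlt : D₀.natDegree < (M * X ^ j).natDegree := by omega
  have hlt' : D₀.degree < (M * X ^ j).degree := degree_lt_degree hlt
  refine ⟨D₀ + M * X ^ j, hMj.add_of_right hlt', ?_, ?_⟩
  · rw [natDegree_add_eq_right_of_natDegree_lt hlt, hdeg]
    omega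
  · intro P hP
    have h1 := Ideal.mem_span_singleton.1 (hD₀ ⟨P, hP⟩)
    simp only at h1
    have h2 : P.1 ^ 2 ∣ M := Finset.dvd_prod_of_mem (fun Q : Prm F => Q.1 ^ 2) hP
    have e1 : D₀ + M * X ^ j - G P = (D₀ - G P) + M * X ^ j := by ring
    rw [e1]
    exact dvd_add h1 (h2.mul_right _)

end

end CRT

open CRT in
theorem hCRT : StCRT := by
  classical
  intro F _ _ h2 ι _ f hd S U hS e
  choose E hE1 hE2 using exists_unit_cls h2 U
  have hB := finite_bad f hd
  obtain ⟨D, hDm, hDe, hD⟩ := exists_monic (S ∪ hB.toFinset)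
    (fun P => if P ∈ S then P.1 * E P else 1) e
  refine ⟨D, fun i => ⟨hDm, hDe, ?_, ?_⟩⟩
  · intro P hP
    obtain ⟨c, hc⟩ := hD P (mem_union_left _ hP)
    rw [if_pos hP] at hc
    have h1 : D = P.1 * (E P + P.1 * c) := by linear_combination hc
    refine ⟨E P + P.1 * c, h1, ?_, ?_⟩
    · rw [dvd_add_left (dvd_mul_right _ _)]
      exact hE1 P
    · have : red P (E P + P.1 * c) = red P (E P) := by
        rw [map_add, map_mul, AdjoinRoot.mk_self, zero_mul, add_zero]
      rw [this]
      exact hE2 P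
  · intro P hP
    have hPS : P ∉ S := fun h => hS P h i ((dvd_pow_self _ two_ne_zero).trans hP)
    obtain ⟨c, hc⟩ := hD P (mem_union_right _ (hB.mem_toFinset.2 ⟨i, hP⟩))
    rw [if_neg hPS] at hc
    have h1 : D = 1 + P.1 * (P.1 * c) := by linear_combination hc
    constructor
    · rw [h1, dvd_add_left (dvd_mul_right _ _)]
      exact fun hd => P.2.2.not_isUnit (isUnit_of_dvd_one hd)
    · have : red P D = 1 := by
        rw [h1, map_add, map_mul, AdjoinRoot.mk_self, zero_mul, add_zero, map_one]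
      rw [this]
      exact IsSquare.one

end Pool.Agent.Helper3.GT
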