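import Pool.Agent.Helper3.GT.St
import Pool.Agent.Helper3.HY.M_Pj
import Pool.Agent.Helper3.HY.M_Pf

/-!
# GT: module CTR (the averaged contraction)
-/

set_option autoImplicit false

namespace Pool.Agent.Helper3.GT

open Polynomial Finset Filter Topology
open Pool.Agent.Helper54.PT (Prm prm IsAbsP IsAbsInf mem_prm)
open Pool.Agent.Helper3.HY (fK RR LL kp red TwAt twGroup baseChange co Kfil selmerSet)

namespace CTR

/-- Finite sets of primes of degree `k` dividing `r`. -/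
lemma card_dvd {F : Type} [Field F] (r : F[X]) (hr : r ≠ 0) (k : ℕ) (Q : Finset (Prm F))
    (hQ : ∀ P ∈ Q, P.1.natDegree = k ∧ P.1 ∣ r) : k * Q.card ≤ r.natDegree := by
  have h1 : (∏ P ∈ Q, P.1) ∣ r := by
    refine Finset.prod_dvd_of_coprime ?_ fun P hP => (hQ P hP).2
    intro P _ P' _ hne
    have h2 : IsCoprime P.1 P'.1 := by
      rcases P.2.2.isCoprime_or_dvd P'.1 with h | h
      · exact h
      · exfalso
        apply hne
        apply Subtype.ext
        exact eq_of_monic_of_associated P.2.1 P'.2.1 (P.2.2.associated_of_dvd P'.2.2 h)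
    exact h2
  have h2 := natDegree_le_of_dvd h1 hr
  rw [natDegree_prod_of_monic _ _ fun P _ => P.2.1, Finset.sum_congr rfl fun P hP => (hQ P hP).1,
    Finset.sum_const, smul_eq_mul, mul_comm] at h2
  exact h2

/-- Primes at which `a` is not a unit. -/
lemma card_bad {F : Type} [Field F] [Fintype F] (f : F[X][X])
    [Fact (Irreducible (fK f))] :
    ∃ B : ℕ, ∀ (c : ℕ) (a : F[X][X]), Rp f c a → a ≠ 0 → ∀ (k : ℕ) (Q : Finset (Prm F)),
      (∀ P ∈ Q, P.1.natDegree = k ∧ ∃ ψ : (kp P)[X], ψ ∣ f.map (red P) ∧ ¬ IsUnit ψ ∧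
        AdjoinRoot.mk ψ (a.map (red P)) = 0) → k * Q.card ≤ B * (c + 1) := by
  obtain ⟨Bf, hBf⟩ : ∃ Bf : ℕ, ∀ i, (f.coeff i).natDegree ≤ Bf := by
    refine ⟨f.support.sup fun i => (f.coeff i).natDegree, fun i => ?_⟩
    by_cases hi : i ∈ f.support
    · exact Finset.le_sup (f := fun i => (f.coeff i).natDegree) hi
    · rw [notMem_support_iff.1 hi, natDegree_zero]
      exact Nat.zero_le _
  have hirr : Irreducible (fK f) := Fact.out
  have hinj : Function.Injective (algebraMap F[X] (RatFunc F)) := RatFunc.algebraMap_injective F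
  have hdeg : (fK f).natDegree = f.natDegree := natDegree_map_eq_of_injective hinj f
  have hn : 1 ≤ f.natDegree := by
    rw [← hdeg]
    exact hirr.natDegree_pos
  refine ⟨2 * f.natDegree * (Bf + 1), fun c a ha ha0 k Q hQ => ?_⟩
  have hcop : IsCoprime (fK f) (fK a) := by
    rcases hirr.isCoprime_or_dvd (fK a) with h | h
    · exact h
    · exfalso
      have h1 : fK a ≠ 0 := by
        rw [fK, Ne, Polynomial.map_eq_zero_iff hinj]
        exact ha0
      have h2 := natDegree_le_of_dvd h h1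
      rw [hdeg, natDegree_map_eq_of_injective hinj a] at h2
      exact absurd h2 (not_le.2 ha.1)
  obtain ⟨r, u, w, hr, hrd, huw⟩ := Pool.Agent.Helper3.HY.hPj F f.natDegree (Bf + c) f a hn le_rfl
    ha.1.le (fun i => (hBf i).trans (Nat.le_add_right _ _))
    (fun i => (ha.2 i).trans (Nat.le_add_left _ _)) hcop
  have h1 : k * Q.card ≤ r.natDegree := by
    refine card_dvd r hr k Q fun P hP => ⟨(hQ P hP).1, ?_⟩
    obtain ⟨ψ, hψf, hψu, hψa⟩ := (hQ P hP).2
    have h2 : ψ ∣ a.map (red P) := AdjoinRoot.mk_eq_zero.1 hψa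
    have h3 : ψ ∣ C (red P r) := by
      have h4 := congrArg (Polynomial.map (red P)) huw
      rw [Polynomial.map_add, Polynomial.map_mul, Polynomial.map_mul, Polynomial.map_C] at h4
      rw [← h4]
      exact dvd_add (hψf.mul_left _) (h2.mul_left _)
    by_contra hnd
    have h5 : red P r ≠ 0 := fun h => hnd (AdjoinRoot.mk_eq_zero.1 h)
    exact hψu (isUnit_of_dvd_unit h3 (isUnit_C.2 (isUnit_iff_ne_zero.2 h5)))
  refine h1.trans (hrd.trans ?_)
  rw [mul_assoc (2 * f.natDegree)]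
  refine Nat.mul_le_mul_left _ ?_
  nlinarith

/-- Asymptotics. -/
lemma asym (q K₁ K₂ K₃ η : ℝ) (hq : 1 < q) (hη : 0 < η) :
    ∃ k₀ : ℕ, 1 ≤ k₀ ∧ ∀ k : ℕ, k₀ ≤ k → K₁ * (K₂ * k + K₃) ≤ η * q ^ k := by
  have h1 : Tendsto (fun k : ℕ => ((k : ℝ) ^ 1) / q ^ k) atTop (𝓝 0) :=
    tendsto_pow_const_div_const_pow_of_one_lt 1 hq
  have h0 : Tendsto (fun k : ℕ => ((k : ℝ) ^ 0) / q ^ k) atTop (𝓝 0) :=
    tendsto_pow_const_div_const_pow_of_one_lt 0 hq
  have h2 : Tendsto (fun k : ℕ => K₁ * K₂ * (((k : ℝ) ^ 1) / q ^ k) +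
      K₁ * K₃ * (((k : ℝ) ^ 0) / q ^ k)) atTop (𝓝 (K₁ * K₂ * 0 + K₁ * K₃ * 0)) :=
    (h1.const_mul _).add (h0.const_mul _)
  rw [mul_zero, mul_zero, add_zero] at h2
  obtain ⟨k₀, hk₀⟩ := eventually_atTop.1 (h2.eventually (ge_mem_nhds hη))
  refine ⟨max k₀ 1, le_max_right _ _, fun k hk => ?_⟩
  have h3 := hk₀ k ((le_max_left _ _).trans hk)
  have hpos : 0 < q ^ k := pow_pos (by linarith) k
  have h4 : K₁ * K₂ * (((k : ℝ) ^ 1) / q ^ k) + K₁ * K₃ * (((k : ℝ) ^ 0) / q ^ k) =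
      K₁ * (K₂ * k + K₃) / q ^ k := by
    field_simp
  rw [h4, div_le_iff₀ hpos] at h3
  exact h3

/-- The class `κ` is trivial at `P`. -/
def Tr {F : Type} [Field F] (f : F[X][X]) (S : Finset (Prm F)) (D : F[X]) (P : Prm F)
    (κ : (LL f)ˣ ⧸ (powMonoidHom 2 : (LL f)ˣ →* (LL f)ˣ).range) : Prop :=
  ∃ z : (LL f)ˣ, (z ∈ SelS f S D ∧ ∀ ψ ∈ facs f P, ep P ψ (z : LL f) = 0) ∧
    (QuotientGroup.mk z : (LL f)ˣ ⧸ (powMonoidHom 2 : (LL f)ˣ →* (LL f)ˣ).range) = κ

open Classical in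
lemma XS_eq {F : Type} [Field F] (f : F[X][X]) (S : Finset (Prm F)) (D : F[X])
    (V : Finset ((LL f)ˣ ⧸ (powMonoidHom 2 : (LL f)ˣ →* (LL f)ˣ).range))
    (hV : (V : Set ((LL f)ˣ ⧸ (powMonoidHom 2 : (LL f)ˣ →* (LL f)ˣ).range)) =
      (QuotientGroup.mk : (LL f)ˣ → (LL f)ˣ ⧸ (powMonoidHom 2 : (LL f)ˣ →* (LL f)ˣ).range) ''
        SelS f S D) (P : Prm F) :
    XS f S D P = (V.filter fun κ => Tr f S D P κ).card := by
  rw [XS, ← Set.ncard_coe_finset]
  congr 1
  ext κ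
  rw [Set.mem_image, Finset.coe_filter, Set.mem_ofPred_eq]
  constructor
  · rintro ⟨z, hz, rfl⟩
    refine ⟨?_, z, hz, rfl⟩
    have : (QuotientGroup.mk z : (LL f)ˣ ⧸ (powMonoidHom 2 : (LL f)ˣ →* (LL f)ˣ).range) ∈
        (V : Set ((LL f)ˣ ⧸ (powMonoidHom 2 : (LL f)ˣ →* (LL f)ˣ).range)) := by
      rw [hV]
      exact ⟨z, hz.1, rfl⟩
    exact this
  · rintro ⟨-, z, hz, hk⟩
    exact ⟨z, hz, hk⟩

/-- Properties of a representative of a nontrivial class. -/
lemma rep {F : Type} [Field F] (f : F[X][X]) [Fact (Irreducible (fK f))] (S : Finset (Prm F))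
    (D : F[X]) (z : (LL f)ˣ) (hz : z ∈ SelS f S D)
    (hz1 : (QuotientGroup.mk z : (LL f)ˣ ⧸ (powMonoidHom 2 : (LL f)ˣ →* (LL f)ˣ).range) ≠ 1)
    (β : LL f) (hβ : β ≠ 0) (a : F[X][X])
    (ha : (z : LL f) * β ^ 2 = algebraMap (RR f) (LL f) (AdjoinRoot.mk f a)) :
    a ≠ 0 ∧ IsSquare (Algebra.norm (RatFunc F) (algebraMap (RR f) (LL f) (AdjoinRoot.mk f a))) ∧
      ¬ IsSquare (algebraMap (RR f) (LL f) (AdjoinRoot.mk f a)) := by
  refine ⟨?_, ?_, ?_⟩
  · rintro rfl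
    rw [map_zero, map_zero] at ha
    exact mul_ne_zero z.ne_zero (pow_ne_zero 2 hβ) ha
  · rw [← ha, map_mul, map_pow]
    exact hz.1.mul (IsSquare.sq _)
  · rintro ⟨y, hy⟩
    apply hz1
    rw [← ha] at hy
    have h1 : (z : LL f) = (y / β) ^ 2 := by
      field_simp
      rw [hy, sq]
    have h2 : y / β ≠ 0 := by
      intro h
      rw [h] at h1
      exact z.ne_zero (h1.trans (by ring))
    rw [QuotientGroup.eq_one_iff]
    refine ⟨Units.mk0 (y / β) h2, ?_⟩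
    apply Units.ext
    rw [powMonoidHom_apply, Units.val_pow_eq_pow_val, Units.val_mk0, ← h1]

end CTR

open Classical CTR in
theorem hCTR (hCONTR : StCONTR) (hFIN : StFIN) (hOE : StOE) (hFAC : StFAC) (hA1 : StA1)
    (hXH : StXH) : StCTR := by
  intro F _ _ h2 g hg f hm hd hgeo hsep hdisc hfact
  obtain ⟨ρ₁, C₁, hρ0, hρ1, hC₁, hA⟩ := hA1 F h2 g hg f hm hd hgeo
  obtain ⟨C₂, hFin⟩ := hFIN F f hm hsep hdisc
  obtain ⟨B, hB⟩ := CTR.card_bad f
  have hq : (1 : ℝ) < Fintype.card F := by exact_mod_cast Fintype.one_lt_card (α := F)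
  have hs1 : 1 < Real.sqrt (Fintype.card F) := by
    rw [Real.lt_sqrt (by norm_num)]
    linarith
  have hss : Real.sqrt (Fintype.card F) * Real.sqrt (Fintype.card F) = Fintype.card F :=
    Real.mul_self_sqrt (by linarith)
  have h2s : 1 ≤ Real.sqrt 2 := by
    rw [Real.one_le_sqrt]
    norm_num
  set q : ℝ := (Fintype.card F : ℝ) with hqdef
  set A : ℝ := Real.sqrt 2 ^ (2 * g) with hAdef
  have hA0 : 0 ≤ A := by positivity
  refine ⟨A, (1 + ρ₁) / 2, hA0, by linarith, by linarith, fun δ hδ => ?_⟩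
  obtain ⟨k₀, hk₀1, hk₀⟩ := CTR.asym (Real.sqrt q) (C₁ + A * B) (C₂ / δ) (C₂ + 1) ((1 - ρ₁) / 2)
    hs1 (by linarith)
  refine ⟨k₀, fun k hk S D D' hS Q hQ => ?_⟩
  have hk1 : 1 ≤ k := hk₀1.trans hk
  have hkey := hk₀ k hk
  have hkR : (0 : ℝ) < k := by exact_mod_cast hk1
  set W : Prm F → ℝ := fun P => Real.sqrt 2 ^ ((facs f P).card - 1) with hWdef
  have hW0 : ∀ P, 0 ≤ W P := fun P => by positivity
  have hWA : ∀ P, Gd f P → W P ≤ A := by
    intro P hP
    have h := (hFAC F h2 g hg f hm hd P hP).2.2.2.2.1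
    exact pow_le_pow_right₀ h2s (by omega)
  set V := (hFin S D).1.toFinset with hVdef
  have hV : (V : Set ((LL f)ˣ ⧸ (powMonoidHom 2 : (LL f)ˣ →* (LL f)ˣ).range)) =
      (QuotientGroup.mk : (LL f)ˣ → (LL f)ˣ ⧸ (powMonoidHom 2 : (LL f)ˣ →* (LL f)ˣ).range) ''
        SelS f S D := Set.Finite.coe_toFinset _
  have hM : MS f S D = V.card := by
    rw [MS, ← hV, Set.ncard_coe_finset]
  rcases Q.eq_empty_or_nonempty with hQe | ⟨P₀, hP₀⟩
  · rw [hQe, Finset.sum_empty, mul_zero]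
    have : 0 ≤ (1 + ρ₁) / 2 := by linarith
    positivity
  have hMpos : 1 ≤ MS f S D := by
    have h := hXH F h2 g hg f hm hd hsep hdisc P₀ (hQ P₀ hP₀).2.1 S D
    exact h.1.trans h.2.1
  have hMR : (1 : ℝ) ≤ MS f S D := by exact_mod_cast hMpos
  set s : ℝ := Real.sqrt (MS f S D) with hsdef
  have hsM : s * s = MS f S D := Real.mul_self_sqrt (by linarith)
  have hs1' : 1 ≤ s := by
    rw [hsdef, Real.one_le_sqrt]
    exact hMR
  -- the pointwise bound
  have hpt : ∀ P ∈ Q, Real.sqrt (MS f (insert P S) (D' P)) * s ≤ W P * XS f S D P := by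
    intro P hP
    obtain ⟨-, hGd, hPS, hSel, E, hE, hPE⟩ := hQ P hP
    have h := hCONTR F h2 g hg f hm hd hsep hdisc P hGd S hPS E hPE
    rw [← hE] at h
    have e1 : MS f S (D' P) = MS f S D := by rw [MS, MS, hSel]
    have e2 : XS f S (D' P) P = XS f S D P := by rw [XS, XS, hSel]
    rw [e1, e2] at h
    have h' : ((MS f (insert P S) (D' P) : ℝ)) * MS f S D ≤
        2 ^ ((facs f P).card - 1) * (XS f S D P : ℝ) ^ 2 := by exact_mod_cast h
    have h3 := Real.sqrt_le_sqrt h'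
    rw [Real.sqrt_mul (Nat.cast_nonneg _), Real.sqrt_mul (by positivity),
      Real.sqrt_sq (Nat.cast_nonneg _)] at h3
    have h4 : Real.sqrt (2 ^ ((facs f P).card - 1)) = W P := by
      have h5 : (2 : ℝ) ^ ((facs f P).card - 1) = (Real.sqrt 2 ^ ((facs f P).card - 1)) ^ 2 := by
        rw [← pow_mul, mul_comm, pow_mul, Real.sq_sqrt (by norm_num)]
      rw [h5, Real.sqrt_sq (by positivity)]
    rw [h4] at h3
    exact h3
  -- a single class
  have hcls : ∀ κ ∈ V, (k : ℝ) * ∑ P ∈ Q.filter (fun P => Tr f S D P κ), W P ≤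
      (if κ = 1 then A * q ^ k else 0) + (1 + ρ₁) / 2 * q ^ k := by
    intro κ hκ
    have hqk : 0 ≤ (1 + ρ₁) / 2 * q ^ k := by
      have : 0 ≤ (1 + ρ₁) / 2 := by linarith
      positivity
    by_cases hκ1 : κ = 1
    · rw [if_pos hκ1]
      have h1 : ∑ P ∈ Q.filter (fun P => Tr f S D P κ), W P ≤
          ∑ P ∈ prm F k, A := by
        refine (Finset.sum_le_sum fun P hP => hWA P (hQ P (Finset.mem_filter.1 hP).1).2.1).trans ?_
        refine Finset.sum_le_sum_of_subset_of_nonneg ?_ fun _ _ _ => hA0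
        intro P hP
        exact mem_prm.2 (hQ P (Finset.mem_filter.1 hP).1).1
      rw [Finset.sum_const, nsmul_eq_mul] at h1
      have h3 := Pool.Agent.Helper3.HY.Pf.card_prm_le (F := F) k hk1
      have h4 : (k : ℝ) * ∑ P ∈ Q.filter (fun P => Tr f S D P κ), W P ≤
          k * ((prm F k).card * A) := mul_le_mul_of_nonneg_left h1 hkR.le
      have h5 : (k : ℝ) * ((prm F k).card * A) ≤ A * q ^ k := by
        rw [← mul_assoc, mul_comm A]
        exact mul_le_mul_of_nonneg_right h3 hA0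
      linarith
    · rw [if_neg hκ1, zero_add]
      have hκ' : κ ∈ (V : Set ((LL f)ˣ ⧸ (powMonoidHom 2 : (LL f)ˣ →* (LL f)ˣ).range)) := hκ
      rw [hV] at hκ'
      obtain ⟨z, hz, rfl⟩ := hκ'
      obtain ⟨β, a, hβ, hRp, ha⟩ := (hFin S D).2 z hz
      obtain ⟨ha0, hnsq, hns⟩ := CTR.rep f S D z hz hκ1 β hβ a ha
      set c : ℕ := C₂ * (dgS S + 1) with hcdef
      set T := Q.filter (fun P => Tr f S D P (QuotientGroup.mk z)) with hTdef
      set T₁ := T.filter (fun P => ∀ ψ ∈ facs f P, AdjoinRoot.mk ψ (a.map (red P)) ≠ 0) with hT₁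
      set T₂ := T.filter (fun P => ¬ ∀ ψ ∈ facs f P, AdjoinRoot.mk ψ (a.map (red P)) ≠ 0) with hT₂
      have hsplit : ∑ P ∈ T, W P = ∑ P ∈ T₁, W P + ∑ P ∈ T₂, W P :=
        (Finset.sum_filter_add_sum_filter_not _ _ _).symm
      have hb1 : (k : ℝ) * ∑ P ∈ T₁, W P ≤ ρ₁ * q ^ k + C₁ * (c + 1) * Real.sqrt q ^ k := by
        refine hA c a hRp ha0 hnsq hns k T₁ fun P hP => ?_
        obtain ⟨hPT, hP1⟩ := Finset.mem_filter.1 hP
        obtain ⟨hPQ, z', ⟨hz', hep⟩, hzz⟩ := Finset.mem_filter.1 hPT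
        have hGd := (hQ P hPQ).2.1
        refine ⟨(hQ P hPQ).1, hGd, fun ψ hψ => ⟨hP1 ψ hψ, ?_⟩⟩
        obtain ⟨ho1, -, -, ho4⟩ := hOE F h2 g hg f hm hd hsep P hGd
        rw [← (ho4 ψ hψ a (hP1 ψ hψ)).2, ← ha]
        rw [QuotientGroup.eq] at hzz
        obtain ⟨u, hu⟩ := hzz
        rw [powMonoidHom_apply] at hu
        have h5 : z = z' * u ^ 2 := by rw [hu, mul_inv_cancel_left]
        have h6 : (z : LL f) = (z' : LL f) * ((u : LL f) * (u : LL f)) := by
          rw [h5, Units.val_mul, Units.val_pow_eq_pow_val, sq]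
        rw [sq, (ho1 ψ hψ (z : LL f) (β * β) z.ne_zero (mul_ne_zero hβ hβ)).2,
          (ho1 ψ hψ β β hβ hβ).2, CharTwo.add_self_eq_zero, add_zero, h6,
          (ho1 ψ hψ (z' : LL f) ((u : LL f) * u) z'.ne_zero (mul_ne_zero u.ne_zero u.ne_zero)).2,
          (ho1 ψ hψ (u : LL f) u u.ne_zero u.ne_zero).2, CharTwo.add_self_eq_zero, add_zero]
        exact hep ψ hψ
      have hb2 : (k : ℝ) * ∑ P ∈ T₂, W P ≤ A * (B * (c + 1)) := by
        have h5 : k * T₂.card ≤ B * (c + 1) := by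
          refine hB c a hRp ha0 k T₂ fun P hP => ?_
          obtain ⟨hPT, hP1⟩ := Finset.mem_filter.1 hP
          have hPQ := (Finset.mem_filter.1 hPT).1
          refine ⟨(hQ P hPQ).1, ?_⟩
          push Not at hP1
          obtain ⟨ψ, hψ, hψ0⟩ := hP1
          have h6 := ((hFAC F h2 g hg f hm hd P (hQ P hPQ).2.1).1 ψ).1 hψ
          exact ⟨ψ, h6.2.2, h6.2.1.not_isUnit, hψ0⟩
        have h6 : ∑ P ∈ T₂, W P ≤ T₂.card * A := by
          rw [← nsmul_eq_mul]
          refine Finset.sum_le_card_nsmul _ _ _ fun P hP => hWA P ?_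
          exact (hQ P (Finset.mem_filter.1 (Finset.mem_filter.1 hP).1).1).2.1
        have h7 : ((k * T₂.card : ℕ) : ℝ) ≤ ((B * (c + 1) : ℕ) : ℝ) := by exact_mod_cast h5
        push_cast at h7
        calc (k : ℝ) * ∑ P ∈ T₂, W P ≤ k * (T₂.card * A) := mul_le_mul_of_nonneg_left h6 hkR.le
          _ = (k * T₂.card) * A := by ring
          _ ≤ (B * (c + 1)) * A := mul_le_mul_of_nonneg_right h7 hA0
          _ = A * (B * (c + 1)) := by ring
      have hc1 : (c : ℝ) + 1 ≤ C₂ / δ * k + (C₂ + 1) := by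
        rw [hcdef]
        push_cast
        have h5 : (dgS S : ℝ) ≤ k / δ := by
          rw [le_div_iff₀ hδ, mul_comm]
          exact hS
        have h6 : (C₂ : ℝ) * dgS S ≤ C₂ * (k / δ) := mul_le_mul_of_nonneg_left h5 (Nat.cast_nonneg _)
        have h7 : (C₂ : ℝ) * (k / δ) = C₂ / δ * k := by ring
        linarith
      have hsk : 1 ≤ Real.sqrt q ^ k := one_le_pow₀ hs1.le
      have hK : 0 ≤ C₁ + A * B := by positivity
      have h8 : C₁ * (c + 1) * Real.sqrt q ^ k + A * (B * (c + 1)) ≤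
          (1 - ρ₁) / 2 * q ^ k := by
        have h9 : (C₁ + A * B) * ((c : ℝ) + 1) ≤ (1 - ρ₁) / 2 * Real.sqrt q ^ k :=
          (mul_le_mul_of_nonneg_left hc1 hK).trans hkey
        have h10 : (C₁ + A * B) * ((c : ℝ) + 1) * Real.sqrt q ^ k ≤ (1 - ρ₁) / 2 * q ^ k := by
          refine (mul_le_mul_of_nonneg_right h9 (by positivity)).trans ?_
          rw [mul_assoc, ← mul_pow, hss]
        have h11 : A * (B * ((c : ℝ) + 1)) * 1 ≤ A * (B * ((c : ℝ) + 1)) * Real.sqrt q ^ k :=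
          mul_le_mul_of_nonneg_left hsk (by positivity)
        nlinarith
      rw [hsplit, mul_add]
      linarith
  -- summation
  have hsum : ∑ P ∈ Q, W P * (XS f S D P : ℝ) =
      ∑ κ ∈ V, ∑ P ∈ Q.filter (fun P => Tr f S D P κ), W P := by
    have h1 : ∀ P ∈ Q, W P * (XS f S D P : ℝ) = ∑ κ ∈ V, if Tr f S D P κ then W P else 0 := by
      intro P _
      rw [CTR.XS_eq f S D V hV P, ← Finset.sum_filter, Finset.sum_const, nsmul_eq_mul, mul_comm]
    rw [Finset.sum_congr rfl h1, Finset.sum_comm]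
    exact Finset.sum_congr rfl fun κ _ => (Finset.sum_filter _ _).symm
  have htot : (k : ℝ) * ∑ P ∈ Q, W P * (XS f S D P : ℝ) ≤
      A * q ^ k + MS f S D * ((1 + ρ₁) / 2 * q ^ k) := by
    rw [hsum, Finset.mul_sum]
    refine (Finset.sum_le_sum hcls).trans ?_
    rw [Finset.sum_add_distrib, Finset.sum_const, nsmul_eq_mul, hM]
    gcongr
    rw [Finset.sum_ite_eq']
    split_ifs
    · exact le_rfl
    · positivity
  have hfin : ((k : ℝ) * ∑ P ∈ Q, Real.sqrt (MS f (insert P S) (D' P))) * s ≤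
      A * q ^ k + MS f S D * ((1 + ρ₁) / 2 * q ^ k) := by
    refine le_trans ?_ htot
    rw [mul_assoc, Finset.sum_mul]
    exact mul_le_mul_of_nonneg_left (Finset.sum_le_sum hpt) hkR.le
  have hspos : 0 < s := by linarith
  have hgoal : (A * q ^ k + MS f S D * ((1 + ρ₁) / 2 * q ^ k)) ≤
      (q ^ k * (A + (1 + ρ₁) / 2 * s)) * s := by
    rw [← hsM]
    have h1 : 0 ≤ A * q ^ k * (s - 1) := by
      have : 0 ≤ s - 1 := by linarith
      positivity
    nlinarith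
  exact le_of_mul_le_mul_right (hfin.trans hgoal) hspos

end Pool.Agent.Helper3.GT
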