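import Pool.Agent.Helper3.GT.St

/-!
# GT: module FAC (the factors of `f` modulo a good prime)
-/

set_option autoImplicit false

namespace Pool.Agent.Helper3.GT

open Polynomial Finset Filter Topology
open Pool.Agent.Helper54.PT (Prm prm IsAbsP IsAbsInf)
open Pool.Agent.Helper3.HY (fK RR LL kp red TwAt twGroup baseChange co Kfil selmerSet)

namespace MFAC

theorem coprime_red {F : Type} [Field F] (f : F[X][X]) (hm : f.Monic) (hd : 0 < f.natDegree)
    (P : Prm F) (hg : Gd f P) :
    IsCoprime (f.map (red P)) (derivative (f.map (red P))) := by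
  have hdeg : 0 < f.degree := natDegree_pos_iff_degree_pos.1 hd
  have h1 := resultant_deriv (f := f) hdeg
  rw [hm.leadingCoeff, mul_one] at h1
  have h2 : (resultant (f.map (red P)) (derivative (f.map (red P))) f.natDegree (f.natDegree - 1))
      = red P ((-1) ^ (f.natDegree * (f.natDegree - 1) / 2) * f.discr) := by
    rw [derivative_map, resultant_map_map, h1]
  have h3 : red P f.discr ≠ 0 := by
    intro h
    exact hg (AdjoinRoot.mk_eq_zero.1 h)
  have h4 : resultant (f.map (red P)) (derivative (f.map (red P))) f.natDegree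
      (f.natDegree - 1) ≠ 0 := by
    rw [h2, map_mul, map_pow, map_neg, map_one]
    exact mul_ne_zero (pow_ne_zero _ (neg_ne_zero.2 one_ne_zero)) h3
  have h5 : (f.map (red P)).natDegree ≤ f.natDegree := natDegree_map_le
  have h6 : (derivative (f.map (red P))).natDegree ≤ f.natDegree - 1 :=
    (natDegree_derivative_le _).trans (Nat.sub_le_sub_right h5 1)
  obtain ⟨p, q, _, _, hpq⟩ := exists_mul_add_mul_eq_C_resultant (f.map (red P))
    (derivative (f.map (red P))) h5 h6 (Or.inl hd.ne')
  refine ⟨C (resultant (f.map (red P)) (derivative (f.map (red P))) f.natDegree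
      (f.natDegree - 1))⁻¹ * p, C (resultant (f.map (red P)) (derivative (f.map (red P)))
      f.natDegree (f.natDegree - 1))⁻¹ * q, ?_⟩
  have h7 : C (resultant (f.map (red P)) (derivative (f.map (red P))) f.natDegree
      (f.natDegree - 1))⁻¹ * C (resultant (f.map (red P)) (derivative (f.map (red P))) f.natDegree
      (f.natDegree - 1)) = 1 := by
    rw [← C_mul, inv_mul_cancel₀ h4, C_1]
  rw [← h7, ← hpq]
  ring

theorem mem_facs {F : Type} [Field F] (f : F[X][X]) (hm : f.Monic) (P : Prm F) (ψ : (kp P)[X]) :
    ψ ∈ facs f P ↔ ψ.Monic ∧ Irreducible ψ ∧ ψ ∣ f.map (red P) := by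
  classical
  have h0 : f.map (red P) ≠ 0 := (hm.map _).ne_zero
  unfold facs
  rw [Multiset.mem_toFinset, Polynomial.mem_normalizedFactors_iff h0]
  tauto

theorem prod_facs {F : Type} [Field F] (f : F[X][X]) (hm : f.Monic) (hd : 0 < f.natDegree)
    (P : Prm F) (hg : Gd f P) : ∏ ψ ∈ facs f P, ψ = f.map (red P) := by
  classical
  have h0 : f.map (red P) ≠ 0 := (hm.map _).ne_zero
  have hsep : (f.map (red P)).Separable := coprime_red f hm hd P hg
  have hsq : Squarefree (f.map (red P)) := hsep.squarefree
  have hnd : (UniqueFactorizationMonoid.normalizedFactors (f.map (red P))).Nodup :=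
    (UniqueFactorizationMonoid.squarefree_iff_nodup_normalizedFactors h0).1 hsq
  have h1 : (UniqueFactorizationMonoid.normalizedFactors (f.map (red P))).prod =
      f.map (red P) := by
    rw [UniqueFactorizationMonoid.prod_normalizedFactors_eq h0]
    exact (hm.map (red P)).normalize_eq_self
  unfold facs
  rw [Finset.prod_eq_multiset_prod, Multiset.toFinset_val, Multiset.dedup_eq_self.2 hnd,
    Multiset.map_id']
  exact h1

end MFAC

open MFAC in
theorem hFAC : StFAC := by
  classical
  intro F _ _ _ g hg f hm hdeg P hP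
  have hd : 0 < f.natDegree := by omega
  have hmem := fun ψ => mem_facs f hm P ψ
  have hprod := prod_facs f hm hd P hP
  have hnd : (f.map (red P)).natDegree = 2 * g + 1 := by
    rw [hm.natDegree_map, hdeg]
  have hsum : ∑ ψ ∈ facs f P, ψ.natDegree = 2 * g + 1 := by
    rw [← hnd, ← hprod]
    rw [Polynomial.natDegree_prod_of_monic]
    intro ψ hψ
    exact ((hmem ψ).1 hψ).1
  have hpos : ∀ ψ ∈ facs f P, 1 ≤ ψ.natDegree := fun ψ hψ =>
    ((hmem ψ).1 hψ).2.1.natDegree_pos
  refine ⟨hmem, hprod, hsum, ?_, ?_, ?_, ?_⟩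
  · rw [Nat.one_le_iff_ne_zero]
    intro h
    rw [Finset.card_eq_zero] at h
    rw [h, Finset.sum_empty] at hsum
    omega
  · calc (facs f P).card = ∑ ψ ∈ facs f P, 1 := by simp
      _ ≤ ∑ ψ ∈ facs f P, ψ.natDegree := Finset.sum_le_sum hpos
      _ = 2 * g + 1 := hsum
  · intro hI
    have hfac : facs f P = {f.map (red P)} := by
      ext ψ
      rw [hmem, Finset.mem_singleton]
      constructor
      · rintro ⟨h1, h2, h3⟩
        have h4 : Associated ψ (f.map (red P)) := h2.associated_of_dvd hI h3
        exact eq_of_monic_of_associated h1 (hm.map _) h4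
      · rintro rfl
        exact ⟨hm.map _, hI, dvd_refl _⟩
    rw [hfac, Finset.card_singleton]
  · rintro ⟨a, p, hp1, hp2, hp3, hp4⟩
    have hne : (X - C a : (kp P)[X]) ≠ p := by
      intro h
      rw [← h, natDegree_X_sub_C] at hp3
      omega
    have hfac : facs f P = {X - C a, p} := by
      ext ψ
      rw [hmem, Finset.mem_insert, Finset.mem_singleton]
      constructor
      · rintro ⟨h1, h2, h3⟩
        rw [hp4] at h3
        rcases h2.prime.dvd_or_dvd h3 with h | h
        · left
          exact eq_of_monic_of_associated h1 (monic_X_sub_C a)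
            (h2.associated_of_dvd (irreducible_X_sub_C a) h)
        · right
          exact eq_of_monic_of_associated h1 hp1 (h2.associated_of_dvd hp2 h)
      · rintro (rfl | rfl)
        · exact ⟨monic_X_sub_C a, irreducible_X_sub_C a, by rw [hp4]; exact dvd_mul_right _ _⟩
        · exact ⟨hp1, hp2, by rw [hp4]; exact dvd_mul_left _ _⟩
    rw [hfac, Finset.card_pair hne]

end Pool.Agent.Helper3.GT
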