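import Pool.Agent.Helper3.GT.St

set_option autoImplicit false

namespace Pool.Agent.Helper3.GT

open Polynomial Finset Filter Topology
open Pool.Agent.Helper54.PT (Prm prm IsAbsP IsAbsInf)
open Pool.Agent.Helper3.HY (fK RR LL kp red TwAt twGroup baseChange co Kfil selmerSet)

private theorem card_rootSet_le_IRR {K : Type} [Field K] (h : K[X]) (E : Type) [Field E]
    [Algebra K E] : Nat.card (h.rootSet E) ≤ h.natDegree := by
  classical
  rw [Nat.card_coe_set_eq, rootSet_def, Set.ncard_coe_finset]
  refine (Multiset.toFinset_card_le _).trans ?_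
  refine (card_roots' _).trans ?_
  rw [natDegree_map]

private theorem key_IRR {K : Type} [Field K] {ι : Type} [Fintype ι] (h : ι → K[X])
    (hm : ∀ i, (h i).Monic) (hn : ∀ i, 2 ≤ (h i).natDegree)
    (hG : Nat.card (∏ i, h i).Gal = ∏ i, (h i).natDegree.factorial) (i : ι) :
    Irreducible (h i) ∧ (h i).Separable ∧ Nat.card (h i).Gal = (h i).natDegree.factorial := by
  classical
  obtain ⟨H, hH⟩ : ∃ H : K[X], H = ∏ i, h i := ⟨_, rfl⟩
  rw [← hH] at hG
  have hH0 : H ≠ 0 := by
    rw [hH]
    exact (monic_prod_of_monic _ _ fun i _ => hm i).ne_zero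
  have hsp : ∀ j, ((h j).map (algebraMap K H.SplittingField)).Splits := fun j =>
    (SplittingField.splits H).of_dvd (map_ne_zero hH0)
      ((map_dvd_map' _).mpr (by rw [hH]; exact Finset.dvd_prod_of_mem _ (Finset.mem_univ j)))
  have hfact : ∀ j, Fact (((h j).map (algebraMap K H.SplittingField)).Splits) := fun j => ⟨hsp j⟩
  obtain ⟨Φ, hΦ⟩ : ∃ Φ : (H.SplittingField ≃ₐ[K] H.SplittingField) →*
      ∀ j, Equiv.Perm ((h j).rootSet H.SplittingField),
      Φ = MonoidHom.pi fun j => (Gal.galActionHom (h j) H.SplittingField).comp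
        (Gal.restrict (h j) H.SplittingField) := ⟨_, rfl⟩
  have hΦ1 : ∀ (ϕ : H.SplittingField ≃ₐ[K] H.SplittingField) (j : ι)
      (x : (h j).rootSet H.SplittingField), ((Φ ϕ j x : _) : H.SplittingField) = ϕ x := by
    intro ϕ j x
    rw [hΦ]
    exact Gal.galActionHom_restrict (h j) H.SplittingField ϕ x
  have hinj : Function.Injective Φ := by
    rw [injective_iff_map_eq_one]
    intro ϕ hϕ
    refine Gal.ext (p := H) (σ := ϕ) (τ := (1 : H.Gal)) ?_
    intro x hx
    rw [mem_rootSet_of_ne hH0] at hx
    have hx2 : aeval x (∏ i, h i) = 0 := by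
      rw [← hH]
      exact hx
    rw [map_prod, Finset.prod_eq_zero_iff] at hx2
    obtain ⟨j, -, hj⟩ := hx2
    have hx' : x ∈ (h j).rootSet H.SplittingField :=
      (mem_rootSet_of_ne (hm j).ne_zero).2 hj
    have h1 := hΦ1 ϕ j ⟨x, hx'⟩
    rw [hϕ] at h1
    exact h1.symm
  have hfin : ∀ j, Finite ((h j).rootSet H.SplittingField) := fun j => by
    exact (rootSet_finite (h j) H.SplittingField).to_subtype
  have hle : ∀ j, (Nat.card ((h j).rootSet H.SplittingField)).factorial ≤
      (h j).natDegree.factorial := fun j =>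
    Nat.factorial_le (card_rootSet_le_IRR (h j) H.SplittingField)
  have hcardpi : Nat.card (∀ j, Equiv.Perm ((h j).rootSet H.SplittingField)) =
      ∏ j, (Nat.card ((h j).rootSet H.SplittingField)).factorial := by
    rw [Nat.card_pi]
    exact Finset.prod_congr rfl fun j _ => Nat.card_perm
  have hG' : Nat.card (H.SplittingField ≃ₐ[K] H.SplittingField) =
    ∏ i, (h i).natDegree.factorial := hG
  have hcle : ∏ i, (h i).natDegree.factorial ≤
      ∏ j, (Nat.card ((h j).rootSet H.SplittingField)).factorial := by
    rw [← hG', ← hcardpi]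
    exact Nat.card_le_card_of_injective Φ hinj
  have heq : ∀ j, Nat.card ((h j).rootSet H.SplittingField) = (h j).natDegree := by
    intro j
    by_contra hne
    have hlt : (Nat.card ((h j).rootSet H.SplittingField)).factorial <
        (h j).natDegree.factorial := by
      refine lt_of_le_of_ne (hle j) fun he => hne ?_
      exact (Nat.factorial_inj' (Or.inr (hn j))).1 he
    have := Finset.prod_lt_prod (s := Finset.univ)
      (f := fun j => (Nat.card ((h j).rootSet H.SplittingField)).factorial)
      (g := fun j => (h j).natDegree.factorial) (fun j _ => Nat.factorial_pos _)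
      (fun j _ => hle j) ⟨j, Finset.mem_univ _, hlt⟩
    omega
  have hsurj : Function.Surjective Φ := by
    refine (hinj.bijective_of_nat_card_le ?_).2
    rw [hcardpi, hG']
    exact (Finset.prod_congr rfl fun j _ => by rw [heq j]).le
  have htrans : ∀ x y : (h i).rootSet H.SplittingField,
      ∃ ϕ : H.SplittingField ≃ₐ[K] H.SplittingField, ϕ x = y := by
    intro x y
    obtain ⟨ϕ, hϕ⟩ := hsurj (Pi.mulSingle i (Equiv.swap x y))
    refine ⟨ϕ, ?_⟩
    rw [← hΦ1 ϕ i x, hϕ, Pi.mulSingle_eq_same, Equiv.swap_apply_left]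
  have hne : Nonempty ((h i).rootSet H.SplittingField) := by
    have := heq i
    have h2 := hn i
    exact (Nat.card_pos_iff.1 (by omega)).1
  obtain ⟨x₀⟩ := hne
  have hx0int : IsIntegral K (x₀ : H.SplittingField) := .of_finite K _
  have hdvd : minpoly K (x₀ : H.SplittingField) ∣ h i :=
    minpoly.dvd K _ ((mem_rootSet_of_ne (hm i).ne_zero).1 x₀.2)
  have hsub : (h i).rootSet H.SplittingField ⊆
      (minpoly K (x₀ : H.SplittingField)).rootSet H.SplittingField := by
    intro y hy
    obtain ⟨ϕ, hϕ⟩ := htrans x₀ ⟨y, hy⟩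
    rw [mem_rootSet_of_ne (minpoly.ne_zero hx0int)]
    have h1 := minpoly.aeval K y
    have h2 : minpoly K y = minpoly K (x₀ : H.SplittingField) := by
      rw [← minpoly.algEquiv_eq ϕ (x₀ : H.SplittingField), hϕ]
    rwa [h2] at h1
  have hdeg : (h i).natDegree ≤ (minpoly K (x₀ : H.SplittingField)).natDegree := by
    rw [← heq i]
    refine le_trans ?_ (card_rootSet_le_IRR _ H.SplittingField)
    exact Nat.card_mono (rootSet_finite _ _) hsub
  have hmin : h i = minpoly K (x₀ : H.SplittingField) :=
    eq_of_monic_of_dvd_of_natDegree_le (minpoly.monic hx0int) (hm i) hdvd hdeg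
  refine ⟨hmin ▸ minpoly.irreducible hx0int, ?_, ?_⟩
  · rw [← card_rootSet_eq_natDegree_iff_of_splits (hm i).ne_zero (hsp i), ← heq i,
      Nat.card_eq_fintype_card]
  · have hbij : Function.Bijective (Gal.galActionHom (h i) H.SplittingField) := by
      refine ⟨Gal.galActionHom_injective _ _, fun σ => ?_⟩
      obtain ⟨ϕ, hϕ⟩ := hsurj (Pi.mulSingle i σ)
      refine ⟨Gal.restrict (h i) H.SplittingField ϕ, ?_⟩
      have h1 := congrFun hϕ i
      rw [Pi.mulSingle_eq_same, hΦ] at h1
      exact h1
    rw [Nat.card_eq_of_bijective _ hbij, Nat.card_perm, heq i]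

theorem hIRR : StIRR := by
  intro F _ _ h2 ι _ g f hf i
  have hinj : Function.Injective ((algebraMap (AlgebraicClosure F)[X]
      (RatFunc (AlgebraicClosure F))).comp (mapRingHom (algebraMap F (AlgebraicClosure F)))) :=
    (RatFunc.algebraMap_injective _).comp
      (map_injective _ (algebraMap F (AlgebraicClosure F)).injective)
  obtain ⟨j, hj⟩ : ∃ j : RatFunc F →+* RatFunc (AlgebraicClosure F), ∀ x : F[X],
      j (algebraMap F[X] (RatFunc F) x) = algebraMap (AlgebraicClosure F)[X]
        (RatFunc (AlgebraicClosure F)) (mapRingHom (algebraMap F (AlgebraicClosure F)) x) :=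
    ⟨IsFractionRing.lift hinj, fun x => IsFractionRing.lift_algebraMap hinj x⟩
  have hmap : ∀ u : F[X][X], (fK u).map j =
      fK (u.map (mapRingHom (algebraMap F (AlgebraicClosure F)))) := by
    intro u
    rw [fK, fK, Polynomial.map_map, Polynomial.map_map]
    congr 1
    exact RingHom.ext hj
  have hm : ∀ i, ((fK (f i)).map j).Monic := fun i => ((hf.monic i).map _).map _
  have hnd : ∀ i, ((fK (f i)).map j).natDegree = (f i).natDegree := fun i => by
    rw [((hf.monic i).map _).natDegree_map, (hf.monic i).natDegree_map]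
  have key := key_IRR (fun i => (fK (f i)).map j) hm
    (fun i => by
      have h1 := hf.one_le i
      have h2 := hf.deg i
      have h3 := hnd i
      show 2 ≤ ((fK (f i)).map j).natDegree
      omega) (by
      have h1 : ∏ i, (fK (f i)).map j =
          fK ((∏ i, f i).map (mapRingHom (algebraMap F (AlgebraicClosure F)))) := by
        rw [← hmap, fK, Polynomial.map_prod, Polynomial.map_prod]
      rw [h1, hf.geo]
      exact Finset.prod_congr rfl fun i _ => by rw [hnd i]) i
  have hsep : (fK (f i)).Separable := (separable_map j).1 key.2.1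
  refine ⟨((hf.monic i).map _).irreducible_of_irreducible_map j _ key.1, hsep, ?_, ?_⟩
  · have h1 := key.2.2
    have h2 := hnd i
    rw [GeoSn]
    rw [← hmap, h1, h2]
  · intro hd
    have hpos : 0 < (f i).degree := by
      rw [← natDegree_pos_iff_degree_pos, hf.deg i]
      omega
    have hres := resultant_deriv hpos
    rw [hd, mul_zero] at hres
    have h3 := congrArg (algebraMap F[X] (RatFunc F)) hres
    rw [map_zero, ← resultant_map_map, ← derivative_map] at h3
    have hdl : (derivative ((f i).map (algebraMap F[X] (RatFunc F)))).natDegree ≤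
        (f i).natDegree - 1 := by
      refine (natDegree_derivative_le _).trans ?_
      rw [(hf.monic i).natDegree_map]
    obtain ⟨k, hk⟩ := Nat.exists_eq_add_of_le hdl
    rw [hk, resultant_add_right_deg _ _ _ _ _ le_rfl] at h3
    have h4 : ((f i).map (algebraMap F[X] (RatFunc F))).coeff (f i).natDegree = 1 := by
      rw [coeff_map, (hf.monic i).coeff_natDegree, map_one]
    rw [h4, one_pow, one_mul, ← (hf.monic i).natDegree_map (algebraMap F[X] (RatFunc F))] at h3
    exact (resultant_eq_zero_iff.1 h3).2 hsep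

end Pool.Agent.Helper3.GT
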