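import Pool.Agent.Helper3.GT.St

/-! Module LST: the last prime. -/

set_option autoImplicit false

namespace Pool.Agent.Helper3.GT

open Polynomial Finset Filter Topology
open Pool.Agent.Helper54.PT (Prm prm mem_prm IsAbsP IsAbsInf finite_natDegree_le)
open Pool.Agent.Helper3.HY (fK RR LL kp red)

namespace LSTaux

variable {F : Type} [Field F]

open Classical in
/-- the symbol -/
noncomputable def chi (p : Prm F) (d : F[X]) : ℝ := if IsSquare (red p d) then 1 else -1

theorem chi_sq (p : Prm F) (d : F[X]) : chi p d * chi p d = 1 := by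
  unfold chi
  split_ifs <;> norm_num

theorem chi_abs (p : Prm F) (d : F[X]) : |chi p d| = 1 := by
  unfold chi
  split_ifs <;> simp

theorem chi_eq_one {p : Prm F} {d : F[X]} : chi p d = 1 ↔ IsSquare (red p d) := by
  unfold chi
  split_ifs with h
  · exact ⟨fun _ => h, fun _ => rfl⟩
  · constructor
    · intro h1
      norm_num at h1
    · intro h1
      exact absurd h1 h

theorem chi_eq_neg {p : Prm F} {d : F[X]} : chi p d = -1 ↔ ¬ IsSquare (red p d) := by
  unfold chi
  split_ifs with h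
  · constructor
    · intro h1
      norm_num at h1
    · intro h1
      exact absurd h h1
  · exact ⟨fun _ => h, fun _ => rfl⟩

theorem sq_mul_iff {k : Type} [Field k] [Finite k] {x y : k} (hx : x ≠ 0) (hy : y ≠ 0) :
    IsSquare (x * y) ↔ (IsSquare x ↔ IsSquare y) := by
  classical
  let _ : Fintype k := Fintype.ofFinite k
  rw [← quadraticChar_one_iff_isSquare (mul_ne_zero hx hy), ← quadraticChar_one_iff_isSquare hx,
    ← quadraticChar_one_iff_isSquare hy, map_mul]
  rcases quadraticChar_dichotomy hx with h1 | h1 <;>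
    rcases quadraticChar_dichotomy hy with h2 | h2 <;> rw [h1, h2] <;> norm_num

theorem finite_kp [Finite F] (P : Prm F) : Finite (kp P) := by
  have : Module.Finite F (kp P) := P.2.1.finite_adjoinRoot
  exact Module.finite_of_finite F

theorem red_ne {p : Prm F} {d : F[X]} : red p d ≠ 0 ↔ ¬ p.1 ∣ d := by
  rw [Ne, AdjoinRoot.mk_eq_zero]

theorem chi_mul [Finite F] {p : Prm F} {d d' : F[X]} (h : ¬ p.1 ∣ d) (h' : ¬ p.1 ∣ d') :
    chi p (d * d') = chi p d * chi p d' := by
  have hfin := finite_kp p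
  have h1 := sq_mul_iff (red_ne.2 h) (red_ne.2 h')
  rw [← map_mul] at h1
  by_cases ha : IsSquare (red p d) <;> by_cases hb : IsSquare (red p d')
  · rw [chi_eq_one.2 ha, chi_eq_one.2 hb, chi_eq_one.2 (h1.2 (iff_of_true ha hb)), one_mul]
  · rw [chi_eq_one.2 ha, chi_eq_neg.2 hb, chi_eq_neg.2 (fun h2 => hb ((h1.1 h2).1 ha)), one_mul]
  · rw [chi_eq_neg.2 ha, chi_eq_one.2 hb, chi_eq_neg.2 (fun h2 => ha ((h1.1 h2).2 hb)), mul_one]
  · rw [chi_eq_neg.2 ha, chi_eq_neg.2 hb, chi_eq_one.2 (h1.2 (iff_of_false ha hb))]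
    norm_num

theorem not_dvd_of_ne {p v : Prm F} (h : p ≠ v) : ¬ p.1 ∣ v.1 := by
  intro hd
  apply h
  apply Subtype.ext
  exact eq_of_monic_of_associated p.2.1 v.2.1
    (p.2.2.associated_of_dvd v.2.2 hd)

theorem not_dvd_prod {p : Prm F} {W : Finset (Prm F)} (h : p ∉ W) : ¬ p.1 ∣ ∏ v ∈ W, v.1 := by
  intro hd
  obtain ⟨v, hv, hpv⟩ := (Prime.dvd_finsetProd_iff p.2.2.prime _).1 hd
  refine not_dvd_of_ne ?_ hpv
  rintro rfl
  exact h hv

theorem chi_prod [Finite F] {p : Prm F} {W : Finset (Prm F)} (h : p ∉ W) :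
    chi p (∏ v ∈ W, v.1) = ∏ v ∈ W, chi p v.1 := by
  classical
  induction W using Finset.induction_on with
  | empty =>
    rw [prod_empty, prod_empty, chi_eq_one, map_one]
    exact IsSquare.one
  | insert a W ha ih =>
    rw [prod_insert ha, prod_insert ha]
    have h1 : p ∉ W := fun h2 => h (mem_insert_of_mem h2)
    have h2 : p ≠ a := fun h2 => h (h2 ▸ mem_insert_self a W)
    rw [chi_mul (not_dvd_of_ne h2) (not_dvd_prod h1), ih h1]

theorem monic_prodP (W : Finset (Prm F)) : (∏ v ∈ W, v.1).Monic :=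
  monic_prod_of_monic _ _ fun v _ => v.2.1

theorem natDeg_prodP (W : Finset (Prm F)) : (∏ v ∈ W, v.1).natDegree = dgS W := by
  unfold dgS
  exact natDegree_prod_of_monic _ _ fun v _ => v.2.1

theorem squarefree_prodP (W : Finset (Prm F)) : Squarefree (∏ v ∈ W, v.1) := by
  apply Finset.squarefree_prod_of_pairwise_isCoprime
  · intro a _ b _ hab
    exact (Irreducible.isRelPrime_iff_not_dvd a.2.2).2 (not_dvd_of_ne hab)
  · intro a _
    exact a.2.2.squarefree

theorem one_le_deg (P : Prm F) : 1 ≤ P.1.natDegree := P.2.2.natDegree_pos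

theorem card_le_dgS (S : Finset (Prm F)) : S.card ≤ dgS S := by
  unfold dgS
  calc S.card = ∑ P ∈ S, 1 := by rw [card_eq_sum_ones]
    _ ≤ _ := sum_le_sum fun P _ => one_le_deg P

end LSTaux

open LSTaux

open Classical in
/-- the version with `k + 1` in the error term -/
theorem LST_core (hREC : StREC) (hA2 : StA2) (hIRR : StIRR) :
  ∀ (F : Type) [Field F] [Fintype F], (2 : F) ≠ 0 → ∀ (ι : Type) [Fintype ι] [Nonempty ι] (g : ι → ℕ)
    (f : ι → F[X][X]), HypF g f → ∃ c C : ℝ, 0 < c ∧ 0 ≤ C ∧ ∀ (k e : ℕ) (S U : Finset (Prm F)),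
      (∀ P ∈ S, GdF f P) → U ⊆ S → (dgS S + k) % 2 = e % 2 →
      c * (Fintype.card F : ℝ) ^ k ≤ k * 2 ^ S.card *
        (((prm F k).filter fun p => p ∉ S ∧ (GdF f p ∧ ∀ i, TyI (f i) p) ∧
          (HasClsF f (insert p S) U e (∏ Q ∈ insert p S, Q.1) ∨
            HasClsF f (insert p S) (insert p U) e (∏ Q ∈ insert p S, Q.1))).card : ℝ) +
        C * (k + 1) * (dgS S + 1) * 2 ^ S.card * Real.sqrt (Fintype.card F) ^ k := by
  intro F _ _ h2 ι _ _ g f hf
  obtain ⟨c₂, C, hc₂, hC, hmain, hchar⟩ := hA2 F h2 ι g f hf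
  have hirr := hIRR F h2 ι g f hf
  -- the bad primes
  have hBfin : {P : Prm F | ∃ i, Bd (f i) P}.Finite := by
    have h1 : ({P : Prm F | P.1.natDegree ≤ ∑ i, (f i).discr.natDegree}).Finite :=
      Set.Finite.preimage (f := fun P : Prm F => P.1) (Subtype.val_injective.injOn)
        (finite_natDegree_le F _)
    refine h1.subset ?_
    rintro P ⟨i, hP⟩
    have h3 : P.1 ∣ (f i).discr := (dvd_pow_self P.1 two_ne_zero).trans hP
    have h4 := natDegree_le_of_dvd h3 (hirr i).2.2.2
    show P.1.natDegree ≤ ∑ i, (f i).discr.natDegree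
    exact h4.trans (single_le_sum (f := fun i => (f i).discr.natDegree)
      (fun _ _ => Nat.zero_le _) (mem_univ i))
  obtain ⟨B, hB⟩ : ∃ B : Finset (Prm F), ∀ P, P ∈ B ↔ ∃ i, Bd (f i) P :=
    ⟨hBfin.toFinset, fun P => by rw [Set.Finite.mem_toFinset]; rfl⟩
  have hGB : ∀ P, GdF f P → P ∉ B := by
    intro P hP hPB
    obtain ⟨i, hi⟩ := (hB P).1 hPB
    exact hP i ((dvd_pow_self P.1 two_ne_zero).trans hi)
  have hq1 : (1 : ℝ) ≤ Fintype.card F := by
    exact_mod_cast Fintype.card_pos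
  have hsq1 : (1 : ℝ) ≤ Real.sqrt (Fintype.card F) := Real.one_le_sqrt.2 hq1
  refine ⟨c₂ / 2 ^ B.card, C * (dgS B + 1) + 1 + C, by positivity, by positivity, ?_⟩
  intro k e S U hS hUS hpar
  set q : ℝ := (Fintype.card F : ℝ) with hq
  set s : ℝ := Real.sqrt q ^ k with hs
  have hs1 : 1 ≤ s := one_le_pow₀ hsq1
  -- the set of all relevant primes
  set T : Finset (Prm F) := S ∪ B with hT
  set G : Finset (Prm F) := (prm F k).filter fun p => GdF f p ∧ ∀ i, TyI (f i) p with hG
  set G' : Finset (Prm F) := G.filter fun p => p ∉ S with hG'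
  have hG'T : ∀ p ∈ G', p ∉ T := by
    intro p hp hpT
    rw [hG', mem_filter, hG, mem_filter] at hp
    rcases mem_union.1 hpT with h | h
    · exact hp.2 h
    · exact hGB p hp.1.2.1 h
  -- the signs
  let sg : Prm F → ℝ := fun v =>
    if IsSquare (-1 : F) ∨ Even (k * v.1.natDegree) then 1 else -1
  have hsg : ∀ v, sg v * sg v = 1 := by
    intro v
    show (if _ then (1 : ℝ) else -1) * (if _ then (1 : ℝ) else -1) = 1
    split_ifs <;> norm_num
  have hrec : ∀ p v : Prm F, p ≠ v → p.1.natDegree = k → chi v p.1 = chi p v.1 * sg v := by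
    intro p v hne hk
    have h1 := hREC F h2 p v hne
    rw [hk] at h1
    show chi v p.1 = chi p v.1 * (if IsSquare (-1 : F) ∨ Even (k * v.1.natDegree) then 1 else -1)
    by_cases ha : IsSquare (red p v.1) <;>
      by_cases hb : IsSquare (-1 : F) ∨ Even (k * v.1.natDegree)
    · rw [if_pos hb, chi_eq_one.2 ha, chi_eq_one.2 (h1.2 (iff_of_true ha hb)), one_mul]
    · rw [if_neg hb, chi_eq_one.2 ha, chi_eq_neg.2 (fun h3 => hb ((h1.1 h3).1 ha)), one_mul]
    · rw [if_pos hb, chi_eq_neg.2 ha, chi_eq_neg.2 (fun h3 => ha ((h1.1 h3).2 hb)), mul_one]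
    · rw [if_neg hb, chi_eq_neg.2 ha, chi_eq_one.2 (h1.2 (iff_of_false ha hb))]
      norm_num
  let tg : Prm F → ℝ := fun v =>
    if v ∈ S then (if v ∈ U then -1 else 1) * chi v (∏ Q ∈ S.erase v, Q.1)
      else chi v (∏ Q ∈ S, Q.1)
  let ep' : Prm F → ℝ := fun v => tg v * sg v
  have htg : ∀ v, |tg v| = 1 := by
    intro v
    show |if v ∈ S then (if v ∈ U then -1 else 1) * chi v (∏ Q ∈ S.erase v, Q.1)
      else chi v (∏ Q ∈ S, Q.1)| = 1
    split_ifs
    · rw [abs_mul, chi_abs]; norm_num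
    · rw [abs_mul, chi_abs]; norm_num
    · exact chi_abs _ _
  have hsga : ∀ v, |sg v| = 1 := by
    intro v
    show |if _ then (1 : ℝ) else -1| = 1
    split_ifs <;> simp
  have hepa : ∀ v, |ep' v| = 1 := by
    intro v
    show |tg v * sg v| = 1
    rw [abs_mul, htg, hsga, one_mul]
  -- primes with the right symbols have the right classes
  have hcls : ∀ p ∈ G', (∀ v ∈ T, chi p v.1 = ep' v) →
      (HasClsF f (insert p S) U e (∏ Q ∈ insert p S, Q.1) ∨
        HasClsF f (insert p S) (insert p U) e (∏ Q ∈ insert p S, Q.1)) := by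
    intro p hp hmatch
    have hpT := hG'T p hp
    rw [hG', mem_filter, hG, mem_filter, mem_prm] at hp
    obtain ⟨⟨hpk, hpG, -⟩, hpS⟩ := hp
    have hpU : p ∉ U := fun h => hpS (hUS h)
    have hch : ∀ v ∈ T, chi v p.1 = tg v := by
      intro v hv
      have hne : p ≠ v := fun h => hpT (h ▸ hv)
      rw [hrec p v hne hpk, hmatch v hv]
      show tg v * sg v * sg v = tg v
      rw [mul_assoc, hsg, mul_one]
    have key : ∀ U' : Finset (Prm F), (∀ v ∈ S, (v ∈ U' ↔ v ∈ U)) →
        (IsSquare (red p (∏ Q ∈ S, Q.1)) ↔ p ∉ U') →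
        HasClsF f (insert p S) U' e (∏ Q ∈ insert p S, Q.1) := by
      intro U' hU' hpU' i
      refine ⟨monic_prodP _, ?_, ?_, ?_⟩
      · rw [natDeg_prodP]
        have h3 : dgS (insert p S) = p.1.natDegree + dgS S := by
          unfold dgS
          exact sum_insert hpS
        rw [h3, hpk, add_comm k, hpar]
      · intro v hv
        rw [mem_insert] at hv
        rcases hv with rfl | hv
        · refine ⟨∏ Q ∈ S, Q.1, ?_, not_dvd_prod hpS, hpU'⟩
          rw [prod_insert hpS]
        · have hne : v ≠ p := fun h => hpS (h ▸ hv)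
          have hvp : ¬ v.1 ∣ p.1 := not_dvd_of_ne hne
          have hve : ¬ v.1 ∣ ∏ Q ∈ S.erase v, Q.1 := not_dvd_prod (notMem_erase v S)
          refine ⟨p.1 * ∏ Q ∈ S.erase v, Q.1, ?_, ?_, ?_⟩
          · rw [prod_insert hpS, ← mul_prod_erase S (fun Q : Prm F => Q.1) hv]
            ring
          · intro h3
            rcases v.2.2.prime.dvd_or_dvd h3 with h3 | h3
            · exact hvp h3
            · exact hve h3
          · rw [← chi_eq_one, chi_mul hvp hve, hch v (mem_union_left _ hv), hU' v hv]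
            show (if v ∈ S then (if v ∈ U then -1 else 1) * chi v (∏ Q ∈ S.erase v, Q.1)
              else chi v (∏ Q ∈ S, Q.1)) * chi v (∏ Q ∈ S.erase v, Q.1) = 1 ↔ v ∉ U
            rw [if_pos hv, mul_assoc, chi_sq, mul_one]
            split_ifs with h3
            · constructor
              · intro h4
                norm_num at h4
              · intro h4
                exact absurd h3 h4
            · exact ⟨fun _ => h3, fun _ => rfl⟩
      · intro b hb
        have hbB : b ∈ B := (hB b).2 ⟨i, hb⟩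
        have hbS : b ∉ S := fun h => hGB b (hS b h) hbB
        have hbp : b ≠ p := fun h => hGB p hpG (h ▸ hbB)
        have hbI : b ∉ insert p S := by
          rw [mem_insert]
          push Not
          exact ⟨hbp, hbS⟩
        refine ⟨not_dvd_prod hbI, ?_⟩
        rw [← chi_eq_one, prod_insert hpS, chi_mul (not_dvd_of_ne hbp) (not_dvd_prod hbS),
          hch b (mem_union_right _ hbB)]
        show (if b ∈ S then (if b ∈ U then -1 else 1) * chi b (∏ Q ∈ S.erase b, Q.1)
              else chi b (∏ Q ∈ S, Q.1)) * chi b (∏ Q ∈ S, Q.1) = 1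
        rw [if_neg hbS, chi_sq]
    by_cases hsqp : IsSquare (red p (∏ Q ∈ S, Q.1))
    · left
      exact key U (fun v _ => Iff.rfl) (iff_of_true hsqp hpU)
    · right
      refine key (insert p U) ?_ (iff_of_false hsqp (not_not.2 (mem_insert_self p U)))
      intro v hv
      rw [mem_insert]
      have hne : v ≠ p := fun h => hpS (h ▸ hv)
      exact ⟨fun h => h.resolve_left hne, Or.inr⟩
  -- the counting
  set N' : Finset (Prm F) := G'.filter fun p => ∀ v ∈ T, chi p v.1 = ep' v with hN'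
  have hsub : N' ⊆ (prm F k).filter fun p => p ∉ S ∧ (GdF f p ∧ ∀ i, TyI (f i) p) ∧
      (HasClsF f (insert p S) U e (∏ Q ∈ insert p S, Q.1) ∨
        HasClsF f (insert p S) (insert p U) e (∏ Q ∈ insert p S, Q.1)) := by
    intro p hp
    rw [hN', mem_filter] at hp
    have h3 := hcls p hp.1 hp.2
    have h4 := hp.1
    rw [hG', mem_filter, hG, mem_filter] at h4
    rw [mem_filter]
    exact ⟨h4.1.1, h4.2, h4.1.2, h3⟩
  have hind : ∀ p ∈ G', ∏ v ∈ T, (1 + ep' v * chi p v.1) =
      if (∀ v ∈ T, chi p v.1 = ep' v) then (2 : ℝ) ^ T.card else 0 := by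
    intro p _
    have hpm : ∀ v, ep' v = 1 ∨ ep' v = -1 := fun v => eq_or_eq_neg_of_abs_eq (hepa v)
    have hcm : ∀ v : Prm F, chi p v.1 = 1 ∨ chi p v.1 = -1 := fun v =>
      eq_or_eq_neg_of_abs_eq (chi_abs p v.1)
    split_ifs with h3
    · rw [prod_congr rfl (g := fun _ => (2 : ℝ)), prod_const]
      intro v hv
      rw [h3 v hv]
      rcases hpm v with h4 | h4 <;> rw [h4] <;> norm_num
    · push Not at h3
      obtain ⟨v, hv, hne⟩ := h3
      apply prod_eq_zero hv
      have h6 : ep' v * chi p v.1 = -1 := by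
        rcases hpm v with h4 | h4 <;> rcases hcm v with h5 | h5
        · exact absurd (h5.trans h4.symm) hne
        · rw [h4, h5]; norm_num
        · rw [h4, h5]; norm_num
        · exact absurd (h5.trans h4.symm) hne
      rw [h6]
      norm_num
  have hcount : ∑ p ∈ G', ∏ v ∈ T, (1 + ep' v * chi p v.1) = (2 : ℝ) ^ T.card * N'.card := by
    rw [sum_congr rfl hind, ← sum_filter, sum_const, nsmul_eq_mul, mul_comm]
  have hexp : ∑ p ∈ G', ∏ v ∈ T, (1 + ep' v * chi p v.1) =
      ∑ W ∈ T.powerset, (∏ v ∈ W, ep' v) * ∑ p ∈ G', chi p (∏ v ∈ W, v.1) := by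
    rw [sum_congr rfl (fun p _ => prod_one_add (f := fun v => ep' v * chi p v.1) T), sum_comm]
    apply sum_congr rfl
    intro W hW
    rw [mul_sum]
    apply sum_congr rfl
    intro p hp
    rw [prod_mul_distrib, chi_prod]
    intro hpW
    exact hG'T p hp (mem_powerset.1 hW hpW)
  -- the bound for nonempty W
  have hGS : (G.filter fun p => p ∈ S).card ≤ S.card := by
    apply card_le_card
    intro p hp
    exact (mem_filter.1 hp).2
  have hW : ∀ W ∈ T.powerset.erase ∅, |(∏ v ∈ W, ep' v) * ∑ p ∈ G', chi p (∏ v ∈ W, v.1)| ≤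
      C * (dgS T + 1) * s + S.card := by
    intro W hW
    rw [mem_erase, mem_powerset] at hW
    obtain ⟨hW0, hWT⟩ := hW
    have hd1 : (∏ v ∈ W, v.1) ≠ 1 := by
      intro h3
      obtain ⟨v, hv⟩ := nonempty_iff_ne_empty.2 hW0
      have h4 : v.1 ∣ 1 := by
        rw [← h3]
        exact dvd_prod_of_mem (fun Q : Prm F => Q.1) hv
      exact v.2.2.not_isUnit (isUnit_of_dvd_one h4)
    have hdi : ∀ i, ∃ P : Prm F, P.1 ∣ (f i).discr ∧ ¬ P.1 ^ 2 ∣ (f i).discr ∧
          (∀ j, j ≠ i → ¬ P.1 ∣ (f j).discr) ∧ ¬ P.1 ∣ ∏ v ∈ W, v.1 := by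
      intro i
      obtain ⟨P, h3, h4, h5⟩ := hf.simple i
      refine ⟨P, h3, h4, h5, ?_⟩
      apply not_dvd_prod
      intro hPW
      rcases mem_union.1 (hWT hPW) with h6 | h6
      · exact hS P h6 i h3
      · obtain ⟨j, hj⟩ := (hB P).1 h6
        by_cases hji : j = i
        · exact h4 (hji ▸ hj)
        · exact h5 j hji ((dvd_pow_self P.1 two_ne_zero).trans hj)
    have hch := hchar (∏ v ∈ W, v.1) (monic_prodP W) (squarefree_prodP W) hd1 hdi k
    have hsplit : ∑ p ∈ G', chi p (∏ v ∈ W, v.1) =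
        ∑ P ∈ (prm F k).filter (fun P => (GdF f P ∧ ∀ i, TyI (f i) P) ∧ ¬ P.1 ∣ ∏ v ∈ W, v.1),
          chi P (∏ v ∈ W, v.1) -
        ∑ P ∈ (G.filter fun p => p ∈ S).filter (fun P => P ∉ W), chi P (∏ v ∈ W, v.1) := by
      rw [eq_sub_iff_add_eq, ← sum_union]
      · apply sum_congr _ (fun _ _ => rfl)
        ext P
        constructor
        · intro h3
          rcases mem_union.1 h3 with h4 | h4
          · have h5 := hG'T P h4
            rw [hG', mem_filter, hG, mem_filter] at h4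
            exact mem_filter.2 ⟨h4.1.1, h4.1.2, not_dvd_prod fun h6 => h5 (hWT h6)⟩
          · obtain ⟨h5, h6⟩ := mem_filter.1 h4
            obtain ⟨h7, -⟩ := mem_filter.1 h5
            rw [hG, mem_filter] at h7
            exact mem_filter.2 ⟨h7.1, h7.2, not_dvd_prod h6⟩
        · intro h3
          obtain ⟨h4, h5, h6⟩ := mem_filter.1 h3
          have hPG : P ∈ G := by
            rw [hG]
            exact mem_filter.2 ⟨h4, h5⟩
          by_cases hPS : P ∈ S
          · exact mem_union_right _ (mem_filter.2 ⟨mem_filter.2 ⟨hPG, hPS⟩, fun h7 =>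
              h6 (dvd_prod_of_mem (fun Q : Prm F => Q.1) h7)⟩)
          · exact mem_union_left _ (mem_filter.2 ⟨hPG, hPS⟩)
      · rw [disjoint_left]
        intro P h3 h4
        rw [hG', mem_filter] at h3
        rw [mem_filter, mem_filter] at h4
        exact h3.2 h4.1.2
    have hdeg : ((∏ v ∈ W, v.1).natDegree : ℝ) ≤ dgS T := by
      rw [natDeg_prodP]
      have : dgS W ≤ dgS T := by
        unfold dgS
        exact sum_le_sum_of_subset hWT
      exact_mod_cast this
    have h6 : |∑ P ∈ (G.filter fun p => p ∈ S).filter (fun P => P ∉ W), chi P (∏ v ∈ W, v.1)| ≤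
        S.card := by
      refine (abs_sum_le_sum_abs _ _).trans ?_
      rw [sum_congr rfl (fun P _ => chi_abs P _), sum_const, nsmul_eq_mul, mul_one]
      exact_mod_cast (card_filter_le _ _).trans hGS
    have h7 : |∏ v ∈ W, ep' v| = 1 := by
      rw [abs_prod, prod_congr rfl (fun v _ => hepa v), prod_const_one]
    rw [abs_mul, h7, one_mul, hsplit]
    have h8 : |∑ P ∈ (prm F k).filter
        (fun P => (GdF f P ∧ ∀ i, TyI (f i) P) ∧ ¬ P.1 ∣ ∏ v ∈ W, v.1),
          chi P (∏ v ∈ W, v.1)| ≤ C * ((∏ v ∈ W, v.1).natDegree + 1) * s := hch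
    have h9 : C * (((∏ v ∈ W, v.1).natDegree : ℝ) + 1) * s ≤ C * (dgS T + 1) * s := by
      apply mul_le_mul_of_nonneg_right _ (by linarith)
      apply mul_le_mul_of_nonneg_left _ hC
      linarith
    have h8' := abs_le.1 h8
    have h6' := abs_le.1 h6
    rw [abs_le]
    constructor <;> linarith [h8'.1, h8'.2, h6'.1, h6'.2]
  -- together
  have hempty : (∏ v ∈ (∅ : Finset (Prm F)), ep' v) *
      ∑ p ∈ G', chi p (∏ v ∈ (∅ : Finset (Prm F)), v.1) = G'.card := by
    rw [prod_empty, prod_empty, one_mul,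
      sum_congr rfl (fun p _ => chi_eq_one.2 (by rw [map_one]; exact IsSquare.one)), sum_const,
      nsmul_eq_mul, mul_one]
  have htot : (2 : ℝ) ^ T.card * N'.card ≥
      G.card - 2 ^ T.card * (C * (dgS T + 1) * s + S.card) := by
    rw [← hcount, hexp, ← add_sum_erase T.powerset _ (empty_mem_powerset T), hempty]
    have h3 : -((2 : ℝ) ^ T.card - 1) * (C * (dgS T + 1) * s + S.card) ≤
        ∑ W ∈ T.powerset.erase ∅, (∏ v ∈ W, ep' v) * ∑ p ∈ G', chi p (∏ v ∈ W, v.1) := by
      have h4 : ∑ W ∈ T.powerset.erase ∅, -(C * (dgS T + 1) * s + S.card) ≤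
          ∑ W ∈ T.powerset.erase ∅, (∏ v ∈ W, ep' v) * ∑ p ∈ G', chi p (∏ v ∈ W, v.1) :=
        sum_le_sum fun W hW' => (abs_le.1 (hW W hW')).1
      rw [sum_const, card_erase_of_mem (empty_mem_powerset T), card_powerset, nsmul_eq_mul] at h4
      have h5 : ((2 ^ T.card - 1 : ℕ) : ℝ) = (2 : ℝ) ^ T.card - 1 := by
        rw [Nat.cast_sub Nat.one_le_two_pow]
        push_cast
        ring
      rw [h5] at h4
      linarith
    have h5 : (G.card : ℝ) ≤ G'.card + S.card := by
      have h6 : G.card = G'.card + (G.filter fun p => p ∈ S).card := by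
        have h7 := card_filter_add_card_filter_not (s := G) (fun p => p ∉ S)
        rw [← h7]
        congr 2
        apply filter_congr
        intro p _
        rw [not_not]
      have h7 : G.card ≤ G'.card + S.card := by omega
      exact_mod_cast h7
    have h8 : 0 ≤ C * (dgS T + 1) * s := by positivity
    nlinarith
  have hTc : (2 : ℝ) ^ T.card ≤ 2 ^ S.card * 2 ^ B.card := by
    rw [← pow_add]
    exact pow_le_pow_right₀ (by norm_num) (card_union_le S B)
  have hTd : (dgS T : ℝ) ≤ dgS S + dgS B := by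
    have : dgS T ≤ dgS S + dgS B := by
      unfold dgS
      rw [hT, ← sum_union_inter]
      exact Nat.le_add_right _ _
    exact_mod_cast this
  have hN : (N'.card : ℝ) ≤ (((prm F k).filter fun p => p ∉ S ∧ (GdF f p ∧ ∀ i, TyI (f i) p) ∧
      (HasClsF f (insert p S) U e (∏ Q ∈ insert p S, Q.1) ∨
        HasClsF f (insert p S) (insert p U) e (∏ Q ∈ insert p S, Q.1))).card : ℝ) := by
    exact_mod_cast card_le_card hsub
  have hmk := hmain k
  set NN : ℝ := (((prm F k).filter fun p => p ∉ S ∧ (GdF f p ∧ ∀ i, TyI (f i) p) ∧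
      (HasClsF f (insert p S) U e (∏ Q ∈ insert p S, Q.1) ∨
        HasClsF f (insert p S) (insert p U) e (∏ Q ∈ insert p S, Q.1))).card : ℝ) with hNN
  have hScard : (S.card : ℝ) ≤ dgS S := by exact_mod_cast card_le_dgS S
  have hk0 : (0 : ℝ) ≤ k := Nat.cast_nonneg k
  -- inequality before the division
  have hE : 0 ≤ NN + (C * (dgS T + 1) * s + S.card) := by positivity
  have h10 : c₂ * q ^ k - C * s ≤ k * (2 ^ S.card * 2 ^ B.card *
      (NN + (C * (dgS T + 1) * s + S.card))) := by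
    have h11 : (G.card : ℝ) ≤ 2 ^ T.card * (NN + (C * (dgS T + 1) * s + S.card)) := by
      have h12 : (2 : ℝ) ^ T.card * N'.card ≤ 2 ^ T.card * NN :=
        mul_le_mul_of_nonneg_left hN (by positivity)
      rw [mul_add]
      linarith
    have h13 : (G.card : ℝ) ≤ 2 ^ S.card * 2 ^ B.card * (NN + (C * (dgS T + 1) * s + S.card)) :=
      h11.trans (mul_le_mul_of_nonneg_right hTc hE)
    exact hmk.trans (mul_le_mul_of_nonneg_left h13 hk0)
  have hB2 : (1 : ℝ) ≤ 2 ^ B.card := one_le_pow₀ (by norm_num)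
  have hS2 : (1 : ℝ) ≤ 2 ^ S.card := one_le_pow₀ (by norm_num)
  have hBpos : (0 : ℝ) < 2 ^ B.card := by positivity
  have hdS0 : (0 : ℝ) ≤ dgS S := Nat.cast_nonneg _
  have hdB0 : (0 : ℝ) ≤ dgS B := Nat.cast_nonneg _
  rw [div_mul_eq_mul_div, div_le_iff₀ hBpos]
  have h14 : C * (dgS T + 1) * s + S.card ≤ (C * (dgS B + 1) + 1) * ((dgS S + 1) * s) := by
    have e1 : C * (dgS T + 1) * s ≤ C * (dgS B + 1) * ((dgS S + 1) * s) := by
      have e2 : (dgS T : ℝ) + 1 ≤ (dgS B + 1) * (dgS S + 1) := by nlinarith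
      calc C * (dgS T + 1) * s ≤ C * ((dgS B + 1) * (dgS S + 1)) * s := by
            apply mul_le_mul_of_nonneg_right _ (by linarith)
            exact mul_le_mul_of_nonneg_left e2 hC
        _ = _ := by ring
    have e3 : (S.card : ℝ) ≤ (dgS S + 1) * s := by nlinarith
    linarith
  have h15 : (k : ℝ) * (2 ^ S.card * 2 ^ B.card * (NN + (C * (dgS T + 1) * s + S.card))) ≤
      k * (2 ^ S.card * 2 ^ B.card * (NN + (C * (dgS B + 1) + 1) * ((dgS S + 1) * s))) := by
    apply mul_le_mul_of_nonneg_left _ hk0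
    apply mul_le_mul_of_nonneg_left _ (by positivity)
    linarith
  have h16 : C * s ≤ C * (dgS S + 1) * 2 ^ S.card * s * 2 ^ B.card := by
    have e4 : (1 : ℝ) ≤ (dgS S + 1) * 2 ^ S.card * 2 ^ B.card := by
      have e5 : (1 : ℝ) ≤ (dgS S + 1) := by linarith
      calc (1 : ℝ) = 1 * 1 * 1 := by norm_num
        _ ≤ (dgS S + 1) * 2 ^ S.card * 2 ^ B.card := by gcongr
    have e6 : 0 ≤ C * s := mul_nonneg hC (by linarith)
    calc C * s = C * s * 1 := by ring
      _ ≤ C * s * ((dgS S + 1) * 2 ^ S.card * 2 ^ B.card) := mul_le_mul_of_nonneg_left e4 e6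
      _ = _ := by ring
  have h17 : (k : ℝ) * (2 ^ S.card * 2 ^ B.card * (NN + (C * (dgS B + 1) + 1) *
      ((dgS S + 1) * s))) + C * (dgS S + 1) * 2 ^ S.card * s * 2 ^ B.card ≤
      (k * 2 ^ S.card * NN + (C * (dgS B + 1) + 1 + C) * (k + 1) * (dgS S + 1) * 2 ^ S.card * s) *
        2 ^ B.card := by
    have e7 : 0 ≤ (C * (dgS B + 1) + 1 + C * k) * (dgS S + 1) * 2 ^ S.card * s * 2 ^ B.card := by
      positivity
    nlinarith
  linarith

theorem hLST (hREC : StREC) (hA2 : StA2) (hIRR : StIRR) : StLST := by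
  intro F _ _ h2 ι _ _ g f hf
  obtain ⟨c, C, hc, hC, h⟩ := LST_core hREC hA2 hIRR F h2 ι g f hf
  refine ⟨c, 2 * C, hc, by linarith, ?_⟩
  intro k e S U hk hS hUS hpar
  refine (h k e S U hS hUS hpar).trans ?_
  apply add_le_add le_rfl
  have h1 : C * ((k : ℝ) + 1) ≤ 2 * C * k := by
    have h2 : (1 : ℝ) ≤ k := by exact_mod_cast hk
    nlinarith
  have h3 : 0 ≤ Real.sqrt (Fintype.card F) ^ k := by positivity
  apply mul_le_mul_of_nonneg_right _ h3
  apply mul_le_mul_of_nonneg_right _ (by positivity)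
  apply mul_le_mul_of_nonneg_right h1 (by positivity)

end Pool.Agent.Helper3.GT

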