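import Pool.Agent.Helper3.GT.Abs

set_option autoImplicit false

namespace Pool.Agent.Helper3.GT

open Finset Filter Topology

private theorem markov_aux {α ι : Type} [Fintype ι] (T : Finset α) (f : ι → α → ℕ) (D : ℕ)
    [DecidablePred fun U => ∀ i, f i U ≤ 2 ^ (2 * D)] :
    (T.card : ℝ) - ∑ i, (∑ U ∈ T, Real.sqrt (f i U)) / 2 ^ D ≤
      ((T.filter fun U => ∀ i, f i U ≤ 2 ^ (2 * D)).card : ℝ) := by
  have h2 : (0 : ℝ) < 2 ^ D := by positivity
  have key : ∀ U ∈ T, (1 : ℝ) - ∑ i, Real.sqrt (f i U) / 2 ^ D ≤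
      if (∀ i, f i U ≤ 2 ^ (2 * D)) then 1 else 0 := by
    intro U _
    split_ifs with h
    · have : 0 ≤ ∑ i, Real.sqrt (f i U) / (2 : ℝ) ^ D :=
        sum_nonneg fun i _ => div_nonneg (Real.sqrt_nonneg _) h2.le
      linarith
    · push Not at h
      obtain ⟨i, hi⟩ := h
      have h1 : (1 : ℝ) ≤ Real.sqrt (f i U) / 2 ^ D := by
        rw [le_div_iff₀ h2, one_mul]
        apply Real.le_sqrt_of_sq_le
        have : ((2 : ℝ) ^ D) ^ 2 = ((2 ^ (2 * D) : ℕ) : ℝ) := by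
          push_cast
          rw [← pow_mul, mul_comm]
        rw [this]
        exact_mod_cast hi.le
      have h3 : Real.sqrt (f i U) / (2 : ℝ) ^ D ≤ ∑ i, Real.sqrt (f i U) / (2 : ℝ) ^ D :=
        single_le_sum (f := fun i => Real.sqrt (f i U) / (2 : ℝ) ^ D)
          (fun i _ => div_nonneg (Real.sqrt_nonneg _) h2.le) (mem_univ i)
      linarith
  have := sum_le_sum key
  rw [sum_sub_distrib, sum_comm] at this
  simp only [sum_const, nsmul_eq_mul, mul_one, ← sum_div] at this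
  rw [← sum_filter] at this
  simp only [sum_const, nsmul_eq_mul, mul_one] at this
  rw [sum_div] at this
  exact this

theorem hMK (hTI : StTI) : StMK := by
  intro ι _ X q e hI
  have := Fintype.ofFinite ι
  choose B hB0 hB using hTI ι X q e hI
  obtain ⟨c, hc, hlow⟩ := hI.lower
  have hBs : 0 ≤ ∑ i, B i := sum_nonneg fun i _ => (hB0 i).le
  obtain ⟨D, hD⟩ := pow_unbounded_of_one_lt ((∑ i, B i) * 2 / c) (by norm_num : (1 : ℝ) < 2)
  have h2 : (0 : ℝ) < 2 ^ D := by positivity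
  have hBD : (∑ i, B i) / 2 ^ D ≤ c / 2 := by
    rw [div_le_div_iff₀ h2 (by norm_num)]
    rw [div_lt_iff₀ hc] at hD
    nlinarith
  refine ⟨2 * D, c / 2, by positivity, ?_⟩
  filter_upwards [hlow] with j hj
  classical
  have hq : (0 : ℝ) ≤ (q : ℝ) ^ j := by positivity
  have key : ∀ S ∈ X.sq j, (1 : ℝ) - ∑ i, X.TT i S / 2 ^ D ≤
      ((S.powerset.filter fun U => ∀ i, X.M i S U ≤ 2 ^ (2 * D)).card : ℝ) / (2 : ℝ) ^ S.card := by
    intro S _
    have hS : (0 : ℝ) < (2 : ℝ) ^ S.card := by positivity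
    have h := markov_aux S.powerset (fun i U => X.M i S U) D
    rw [le_div_iff₀ hS]
    refine le_trans (le_of_eq ?_) h
    rw [card_powerset, sub_mul, one_mul, sum_mul]
    push_cast
    congr 1
    apply sum_congr rfl
    intro i _
    rw [AD.TT]
    field_simp
  have hsum := sum_le_sum key
  rw [sum_sub_distrib, sum_comm] at hsum
  simp only [sum_const, nsmul_eq_mul, mul_one, ← sum_div] at hsum
  have h3 : (∑ i, (∑ S ∈ X.sq j, X.TT i S)) / 2 ^ D ≤ (c / 2) * (q : ℝ) ^ j := by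
    calc (∑ i, (∑ S ∈ X.sq j, X.TT i S)) / 2 ^ D
        ≤ (∑ i, B i * (q : ℝ) ^ j) / 2 ^ D := by
          apply div_le_div_of_nonneg_right _ h2.le
          exact sum_le_sum fun i _ => hB i j
      _ = ((∑ i, B i) / 2 ^ D) * (q : ℝ) ^ j := by
          rw [← sum_mul]; ring
      _ ≤ (c / 2) * (q : ℝ) ^ j := mul_le_mul_of_nonneg_right hBD hq
  have h4 : (c / 2) * (q : ℝ) ^ j ≤ (X.sq j).card - (∑ i, (∑ S ∈ X.sq j, X.TT i S)) / 2 ^ D := by
    linarith
  refine le_of_le_of_eq (le_trans h4 hsum) ?_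
  apply sum_congr rfl
  intro S _
  congr!

end Pool.Agent.Helper3.GT
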