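import Pool.Agent.Helper3.GT.Abs

/-!
# GT: module ND (the last prime)
-/

set_option autoImplicit false

namespace Pool.Agent.Helper3.GT

open Finset Filter Topology

namespace NDpriv

variable {ι : Type} (X : AD ι)

lemma big_card (m : ℕ) (S : Finset X.P) (h : X.dg S = m) :
    (S.filter fun p => m ≤ 2 * X.deg p).card ≤ 2 := by
  have h1 : (S.filter fun p => m ≤ 2 * X.deg p).card * m ≤ 2 * m := by
    calc (S.filter fun p => m ≤ 2 * X.deg p).card * m
        ≤ ∑ p ∈ S.filter (fun p => m ≤ 2 * X.deg p), 2 * X.deg p := by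
          rw [← smul_eq_mul]
          exact card_nsmul_le_sum _ _ _ fun p hp => (mem_filter.1 hp).2
      _ ≤ ∑ p ∈ S, 2 * X.deg p := sum_le_sum_of_subset (filter_subset _ _)
      _ = 2 * m := by rw [← mul_sum]; exact congrArg (2 * ·) h
  rcases Nat.eq_zero_or_pos m with rfl | hm
  · have : S = ∅ := by
      refine eq_empty_of_forall_notMem fun p hp => ?_
      have h2 := single_le_sum (f := X.deg) (fun _ _ => Nat.zero_le _) hp
      have h3 := X.deg_pos p
      have h4 : ∑ p ∈ S, X.deg p = 0 := h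
      omega
    subst this
    simp
  · exact Nat.le_of_mul_le_mul_right h1 hm

end NDpriv

open NDpriv

open Classical in
theorem hND : StND := by
  intro ι X q hq Q Z m L c hc hL huniq hlow
  set A : Finset X.P → Finset X.P → Finset X.P := fun S U =>
    (X.pr (m - X.dg S)).filter fun p =>
      p ∉ S ∧ (Z (insert p S) U ∨ Z (insert p S) (insert p U)) with hA
  let T : Finset (Σ _ : ℕ, Σ _ : Finset X.P, Σ _ : Finset X.P, X.P) :=
    (range (L + 1)).sigma fun n => (X.sq n).sigma fun S =>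
      (S.powerset.filter fun U => Q S U).sigma fun U => A S U
  have hT : T.card = ∑ n ∈ range (L + 1), ∑ S ∈ X.sq n,
      ∑ U ∈ S.powerset.filter (fun U => Q S U), (A S U).card := by
    simp only [T, card_sigma]
  have hq0 : (0 : ℝ) < q := by positivity
  have h1 : c * (q : ℝ) ^ m * X.mass q Q L ≤ m * (T.card : ℝ) := by
    rw [hT, AD.mass, mul_sum]
    push_cast
    rw [mul_sum]
    refine sum_le_sum fun n hn => ?_
    rw [mul_sum, mul_sum]
    refine sum_le_sum fun S hS => ?_
    rw [mul_sum]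
    have hn' : n ≤ L := Nat.lt_succ_iff.1 (mem_range.1 hn)
    have hS' := X.mem_sq.1 hS
    have h2 : ∀ U ∈ S.powerset.filter (fun U => Q S U),
        c * (q : ℝ) ^ m / ((2 : ℝ) ^ S.card * (q : ℝ) ^ n) ≤ m * ((A S U).card : ℝ) := by
      intro U hU
      rw [mem_filter, mem_powerset] at hU
      have h3 := hlow S U hU.1 hU.2 (hS'.trans_le hn')
      have h4 : (q : ℝ) ^ m = (q : ℝ) ^ (m - X.dg S) * (q : ℝ) ^ n := by
        rw [← pow_add, hS']; congr 1; omega
      rw [div_le_iff₀ (by positivity), h4, ← mul_assoc, ← mul_assoc]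
      refine mul_le_mul_of_nonneg_right (h3.trans ?_) (by positivity)
      have h5 : ((m - X.dg S : ℕ) : ℝ) ≤ m := by exact_mod_cast Nat.sub_le _ _
      have h6 : (0 : ℝ) ≤ (A S U).card := by positivity
      have h7 : (0 : ℝ) ≤ 2 ^ S.card := by positivity
      calc ((m - X.dg S : ℕ) : ℝ) * 2 ^ S.card * ((A S U).card : ℝ)
          = ((m - X.dg S : ℕ) : ℝ) * (2 ^ S.card * ((A S U).card : ℝ)) := by ring
        _ ≤ m * (2 ^ S.card * ((A S U).card : ℝ)) :=
            mul_le_mul_of_nonneg_right h5 (by positivity)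
        _ = _ := by ring
    calc c * (q : ℝ) ^ m * (((S.powerset.filter fun U => Q S U).card : ℝ) /
          ((2 : ℝ) ^ S.card * (q : ℝ) ^ n))
        = ∑ U ∈ S.powerset.filter (fun U => Q S U),
            c * (q : ℝ) ^ m / ((2 : ℝ) ^ S.card * (q : ℝ) ^ n) := by
          rw [sum_const, nsmul_eq_mul]; ring
      _ ≤ _ := sum_le_sum h2
  have h2 : T.card ≤ 2 * ((X.sq m).filter fun S => ∃ U ⊆ S, Z S U).card := by
    have hmem : ∀ x ∈ T, x.2.1 ∈ X.sq x.1 ∧ x.1 ≤ L ∧ x.2.2.1 ⊆ x.2.1 ∧
        x.2.2.2 ∈ X.pr (m - x.1) ∧ x.2.2.2 ∉ x.2.1 ∧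
        (Z (insert x.2.2.2 x.2.1) x.2.2.1 ∨
          Z (insert x.2.2.2 x.2.1) (insert x.2.2.2 x.2.2.1)) := by
      intro x hx
      simp only [T, mem_sigma, mem_filter, mem_powerset, mem_range, hA] at hx
      obtain ⟨h1, h2, ⟨h3, h4⟩, h5, h6, h7⟩ := hx
      rw [X.mem_sq.1 h2] at h5
      exact ⟨h2, Nat.lt_succ_iff.1 h1, h3, h5, h6, h7⟩
    refine card_le_mul_card_image_of_maps_to (f := fun x => insert x.2.2.2 x.2.1) ?_ 2 ?_
    · intro x hx
      obtain ⟨h1, h2, h3, h4, h5, h6⟩ := hmem x hx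
      rw [mem_filter]
      refine ⟨?_, ?_⟩
      · rw [X.mem_sq, AD.dg, sum_insert h5, (X.mem_pr _ _).1 h4]
        have := X.mem_sq.1 h1
        rw [AD.dg] at this
        rw [this]
        omega
      · rcases h6 with h6 | h6
        · exact ⟨_, h3.trans (subset_insert _ _), h6⟩
        · exact ⟨_, insert_subset_insert _ h3, h6⟩
    · intro S' hS'
      rw [mem_filter, X.mem_sq] at hS'
      refine le_trans ?_ (big_card X m S' hS'.1)
      refine card_le_card_of_injOn (fun x => x.2.2.2) ?_ ?_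
      · intro x hx
        rw [mem_coe, mem_filter] at hx
        obtain ⟨h1, h2, h3, h4, h5, h6⟩ := hmem x hx.1
        rw [mem_coe, mem_filter, ← hx.2]
        refine ⟨mem_insert_self _ _, ?_⟩
        rw [(X.mem_pr _ _).1 h4]
        omega
      · rintro ⟨n, S, U, p⟩ hx ⟨n', S₂, U₂, p'⟩ hy hxy
        rw [mem_coe, mem_filter] at hx hy
        obtain ⟨h1, h2, h3, h4, h5, h6⟩ := hmem _ hx.1
        obtain ⟨k1, k2, k3, k4, k5, k6⟩ := hmem _ hy.1
        simp only at hxy hx hy h1 h2 h3 h4 h5 h6 k1 k2 k3 k4 k5 k6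
        subst hxy
        have hS : S = S₂ := by
          rw [← erase_insert h5, ← erase_insert k5, hx.2, hy.2]
        subst hS
        have hn : n = n' := by rw [← X.mem_sq.1 h1, X.mem_sq.1 k1]
        subst hn
        have hpU : p ∉ U := fun h => h5 (h3 h)
        have hpU2 : p ∉ U₂ := fun h => h5 (k3 h)
        have hU : U = U₂ := by
          have e1 : ∃ V, V ⊆ insert p S ∧ Z (insert p S) V ∧ V.erase p = U := by
            rcases h6 with h6 | h6
            · exact ⟨U, h3.trans (subset_insert _ _), h6, erase_eq_of_notMem hpU⟩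
            · exact ⟨_, insert_subset_insert _ h3, h6, erase_insert hpU⟩
          have e2 : ∃ V, V ⊆ insert p S ∧ Z (insert p S) V ∧ V.erase p = U₂ := by
            rcases k6 with h6 | h6
            · exact ⟨U₂, k3.trans (subset_insert _ _), h6, erase_eq_of_notMem hpU2⟩
            · exact ⟨_, insert_subset_insert _ k3, h6, erase_insert hpU2⟩
          obtain ⟨V, hV1, hV2, rfl⟩ := e1
          obtain ⟨V', hV1', hV2', rfl⟩ := e2
          rw [huniq _ _ _ hV1 hV1' hV2 hV2']
        subst hU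
        rfl
  calc c * (q : ℝ) ^ m * X.mass q Q L ≤ m * (T.card : ℝ) := h1
    _ ≤ m * ((2 * ((X.sq m).filter fun S => ∃ U ⊆ S, Z S U).card : ℕ) : ℝ) :=
        mul_le_mul_of_nonneg_left (by exact_mod_cast h2) (by positivity)
    _ = _ := by push_cast; ring

end Pool.Agent.Helper3.GT
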