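import Pool.Agent.Helper3.GT.St

/-!
# GT: module RDC
-/

set_option autoImplicit false

namespace Pool.Agent.Helper3.GT

open Polynomial Finset Filter Topology
open Pool.Agent.Helper54.PT (Prm prm mem_prm)
open Pool.Agent.Helper3.HY (fK RR LL kp red)

namespace RDC

theorem ev_lin (s : ℝ) (hs : 1 < s) (A B ε : ℝ) (hε : 0 < ε) :
    ∀ᶠ k : ℕ in atTop, A * k + B ≤ ε * s ^ k := by
  have h1 := (tendsto_pow_const_div_const_pow_of_one_lt 1 hs).const_mul A
  have h2 := (tendsto_pow_const_div_const_pow_of_one_lt 0 hs).const_mul B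
  have h3 := h1.add h2
  rw [mul_zero, mul_zero, add_zero] at h3
  filter_upwards [h3.eventually_lt_const hε] with k hk
  have hsk : 0 < s ^ k := by positivity
  have h4 : A * ((k : ℝ) ^ 1 / s ^ k) + B * ((k : ℝ) ^ 0 / s ^ k) = (A * k + B) / s ^ k := by
    rw [pow_one, pow_zero]; ring
  rw [h4, div_lt_iff₀ hsk] at hk
  exact hk.le

section

variable {F : Type} [Field F]

theorem card_deg_le (S : Finset (Prm F)) (k : ℕ) :
    k * (S.filter fun P => P.1.natDegree = k).card ≤ dgS S := by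
  calc k * (S.filter fun P => P.1.natDegree = k).card
      = ∑ _P ∈ S.filter (fun P => P.1.natDegree = k), k := by
        rw [sum_const, smul_eq_mul, mul_comm]
    _ = ∑ P ∈ S.filter (fun P => P.1.natDegree = k), P.1.natDegree :=
        sum_congr rfl fun P hP => (mem_filter.1 hP).2.symm
    _ ≤ ∑ P ∈ S, P.1.natDegree := sum_le_sum_of_subset (filter_subset _ _)

theorem card_sdiff_ge (Q S : Finset (Prm F)) (k : ℕ) (hQ : ∀ P ∈ Q, P.1.natDegree = k) :
    k * Q.card ≤ k * (Q \ S).card + dgS S := by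
  have h1 : Q.card = (Q \ S).card + (Q ∩ S).card := (card_sdiff_add_card_inter Q S).symm
  have h2 : (Q ∩ S).card ≤ (S.filter fun P => P.1.natDegree = k).card :=
    card_le_card fun P hP => mem_filter.2 ⟨(mem_inter.1 hP).2, hQ P (mem_inter.1 hP).1⟩
  rw [h1, mul_add]
  exact Nat.add_le_add_left ((Nat.mul_le_mul_left k h2).trans (card_deg_le S k)) _

theorem MS_le_one {f : F[X][X]} {S : Finset (Prm F)} {D : F[X]}
    (h : ∀ z ∈ SelS f S D, IsSquare z) : MS f S D ≤ 1 := by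
  have h1 : ((QuotientGroup.mk : (LL f)ˣ → (LL f)ˣ ⧸ (powMonoidHom 2 : (LL f)ˣ →* (LL f)ˣ).range) ''
      SelS f S D) ⊆ {1} := by
    rintro _ ⟨z, hz, rfl⟩
    obtain ⟨w, hw⟩ := h z hz
    rw [Set.mem_singleton_iff, QuotientGroup.eq_one_iff]
    exact ⟨w, by rw [powMonoidHom_apply, hw, pow_two]⟩
  rw [MS]
  exact (Set.ncard_le_ncard h1 (Set.finite_singleton _)).trans (Set.ncard_singleton _).le

theorem MS_congr {f : F[X][X]} {S : Finset (Prm F)} {D D' : F[X]}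
    (h : SelS f S D' = SelS f S D) : MS f S D' = MS f S D := by
  rw [MS, MS, h]

end

/-- The irreducible type: no increase. -/
theorem stepI (hCONTR : StCONTR) (hXH : StXH) (hFAC : StFAC) (F : Type) [Field F] [Fintype F]
    (h2 : (2 : F) ≠ 0) (g : ℕ) (hg : 1 ≤ g) (f : F[X][X]) (hf : f.Monic)
    (hdeg : f.natDegree = 2 * g + 1) (hsep : (fK f).Separable) (hd : f.discr ≠ 0)
    [Fact (Irreducible (fK f))] (P : Prm F) (hP : Gd f P) (hI : TyI f P) (S : Finset (Prm F))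
    (hPS : P ∉ S) (E : F[X]) (hE : ¬ P.1 ∣ E) :
    MS f (insert P S) (P.1 * E) ≤ MS f S (P.1 * E) := by
  have h1 := hCONTR F h2 g hg f hf hdeg hsep hd P hP S hPS E hE
  obtain ⟨h3, h4, -⟩ := hXH F h2 g hg f hf hdeg hsep hd P hP S (P.1 * E)
  have h5 := (hFAC F h2 g hg f hf hdeg P hP).2.2.2.2.2.1 hI
  rw [h5, Nat.sub_self, pow_zero, one_mul] at h1
  have h6 : MS f (insert P S) (P.1 * E) * MS f S (P.1 * E) ≤
      MS f S (P.1 * E) * MS f S (P.1 * E) := by
    refine h1.trans ?_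
    rw [pow_two]
    exact Nat.mul_le_mul h4 h4
  exact Nat.le_of_mul_le_mul_right h6 (by omega)

/-- The type `T` with a nontrivial element: decrease. -/
theorem stepT (hCONTR : StCONTR) (hXH : StXH) (hFAC : StFAC) (F : Type) [Field F] [Fintype F]
    (h2 : (2 : F) ≠ 0) (g : ℕ) (hg : 1 ≤ g) (f : F[X][X]) (hf : f.Monic)
    (hdeg : f.natDegree = 2 * g + 1) (hsep : (fK f).Separable) (hd : f.discr ≠ 0)
    [Fact (Irreducible (fK f))] (P : Prm F) (hP : Gd f P) (hT : TyT g f P) (S : Finset (Prm F))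
    (hPS : P ∉ S) (E : F[X]) (hE : ¬ P.1 ∣ E)
    (hz : ∃ z ∈ SelS f S (P.1 * E), ∃ ψ ∈ facs f P, ep P ψ (z : LL f) ≠ 0) :
    2 * MS f (insert P S) (P.1 * E) ≤ MS f S (P.1 * E) := by
  have h1 := hCONTR F h2 g hg f hf hdeg hsep hd P hP S hPS E hE
  obtain ⟨h3, h4, h7⟩ := hXH F h2 g hg f hf hdeg hsep hd P hP S (P.1 * E)
  have h8 := h7 hz
  have h5 := (hFAC F h2 g hg f hf hdeg P hP).2.2.2.2.2.2 hT
  rw [h5, show 2 - 1 = 1 from rfl, pow_one] at h1
  have h6 : 2 * MS f (insert P S) (P.1 * E) * MS f S (P.1 * E) ≤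
      MS f S (P.1 * E) * MS f S (P.1 * E) := by
    calc 2 * MS f (insert P S) (P.1 * E) * MS f S (P.1 * E)
        = 2 * (MS f (insert P S) (P.1 * E) * MS f S (P.1 * E)) := by ring
      _ ≤ 2 * (2 * XS f S (P.1 * E) P ^ 2) := Nat.mul_le_mul_left 2 h1
      _ = (2 * XS f S (P.1 * E) P) * (2 * XS f S (P.1 * E) P) := by ring
      _ ≤ MS f S (P.1 * E) * MS f S (P.1 * E) := Nat.mul_le_mul h8 h8
  exact Nat.le_of_mul_le_mul_right h6 (by omega)

/-- A nonsquare element of the Selmer set and its small representative. -/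
theorem rep {F : Type} [Field F] {f : F[X][X]} [Fact (Irreducible (fK f))] (z : (LL f)ˣ)
    (hN : IsSquare (Algebra.norm (RatFunc F) (z : LL f))) (hz : ¬ IsSquare z) (β : LL f)
    (hβ : β ≠ 0) (a : F[X][X])
    (h : (z : LL f) * β ^ 2 = algebraMap (RR f) (LL f) (AdjoinRoot.mk f a)) :
    a ≠ 0 ∧ IsSquare (Algebra.norm (RatFunc F)
      (algebraMap (RR f) (LL f) (AdjoinRoot.mk f a))) ∧
      ¬ IsSquare (algebraMap (RR f) (LL f) (AdjoinRoot.mk f a)) := by
  refine ⟨?_, ?_, ?_⟩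
  · rintro rfl
    rw [map_zero, map_zero] at h
    exact mul_ne_zero z.ne_zero (pow_ne_zero 2 hβ) h
  · rw [← h, map_mul, map_pow]
    exact hN.mul (IsSquare.sq _)
  · rintro ⟨w, hw⟩
    rw [← h] at hw
    apply hz
    have hw0 : w ≠ 0 := by
      rintro rfl
      rw [mul_zero] at hw
      exact mul_ne_zero z.ne_zero (pow_ne_zero 2 hβ) hw
    refine ⟨Units.mk0 (w / β) (div_ne_zero hw0 hβ), Units.ext ?_⟩
    rw [Units.val_mul, Units.val_mk0]
    field_simp
    rw [pow_two w]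
    exact hw

end RDC

open RDC in
theorem hRDC (hCONTR : StCONTR) (hXH : StXH) (hFIN : StFIN) (hOE : StOE) (hFAC : StFAC)
    (hIRR : StIRR) (hA1p : StA1p) (hA2 : StA2) : StRDC := by
  classical
  intro F _ _ h2 ι _ g f H i
  have hirr := hIRR F h2 ι g f H
  have hfact : ∀ j, Fact (Irreducible (fK (f j))) := fun j => ⟨(hirr j).1⟩
  have hne : Nonempty ι := ⟨i⟩
  obtain ⟨c₂, C₂, hc₂, hC₂, hA, -⟩ := hA2 F h2 ι g f H
  obtain ⟨c₁, C₁, hc₁, hC₁, hB⟩ := hA1p F h2 ι g f H i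
  obtain ⟨CF, hF⟩ := hFIN F (f i) (H.monic i) (hirr i).2.1 (hirr i).2.2.2
  set q : ℝ := (Fintype.card F : ℝ) with hq
  have hq2 : (2 : ℝ) ≤ q := by
    rw [hq]
    exact_mod_cast Fintype.one_lt_card (α := F)
  have hs : 1 < Real.sqrt q := by
    rw [Real.lt_sqrt (by norm_num)]
    linarith
  have hc0 : 0 < min c₁ c₂ / 2 := by
    have := lt_min hc₁ hc₂
    linarith
  refine ⟨min c₁ c₂ / 2, hc0, fun δ hδ => ?_⟩
  obtain ⟨k₀, hk₀⟩ := eventually_atTop.1 (ev_lin (Real.sqrt q) hs (C₁ * CF / δ + 1 / δ)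
    (C₁ * (CF + 1) + C₂) (min c₁ c₂ / 2) hc0)
  refine ⟨k₀, fun k hk S D hS => ?_⟩
  have hlin := hk₀ k hk
  have hsk : 1 ≤ Real.sqrt q ^ k := one_le_pow₀ hs.le
  have hqk : q ^ k = Real.sqrt q ^ k * Real.sqrt q ^ k := by
    rw [← mul_pow, Real.mul_self_sqrt (by linarith)]
  have hx : (dgS S : ℝ) ≤ k / δ := by
    rw [le_div_iff₀ hδ]
    linarith
  have hx0 : (0 : ℝ) ≤ dgS S := Nat.cast_nonneg _
  have hCF : (0 : ℝ) ≤ CF := Nat.cast_nonneg _
  have hmain : (C₁ * (CF * (dgS S + 1) + 1) + C₂ + dgS S) * Real.sqrt q ^ k ≤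
      min c₁ c₂ / 2 * q ^ k := by
    have h1 : C₁ * (CF * ((dgS S : ℝ) + 1) + 1) + C₂ + dgS S ≤
        min c₁ c₂ / 2 * Real.sqrt q ^ k := by
      refine le_trans ?_ hlin
      have h3 : C₁ * (CF * (dgS S : ℝ)) ≤ C₁ * (CF * (k / δ)) :=
        mul_le_mul_of_nonneg_left (mul_le_mul_of_nonneg_left hx hCF) hC₁
      calc C₁ * (CF * ((dgS S : ℝ) + 1) + 1) + C₂ + dgS S
          = C₁ * (CF * (dgS S : ℝ)) + dgS S + (C₁ * (CF + 1) + C₂) := by ring
        _ ≤ C₁ * (CF * (k / δ)) + k / δ + (C₁ * (CF + 1) + C₂) := by linarith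
        _ = _ := by ring
    rw [hqk]
    calc _ ≤ (min c₁ c₂ / 2 * Real.sqrt q ^ k) * Real.sqrt q ^ k :=
          mul_le_mul_of_nonneg_right h1 (by linarith)
      _ = _ := by ring
  have hqk0 : 0 < q ^ k := by positivity
  have hxs : (dgS S : ℝ) ≤ dgS S * Real.sqrt q ^ k := le_mul_of_one_le_right hx0 hsk
  by_cases hsq : ∀ z ∈ SelS (f i) S D, IsSquare z
  · -- all elements are squares
    refine ⟨((prm F k).filter fun P => GdF f P ∧ ∀ i, TyI (f i) P) \ S, ?_, ?_, ?_⟩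
    · intro P hP
      obtain ⟨hP1, hP2⟩ := mem_sdiff.1 hP
      obtain ⟨hP3, hP4⟩ := mem_filter.1 hP1
      exact ⟨mem_prm.1 hP3, hP4.1, hP2⟩
    · have h1 := hA k
      have h3 := card_sdiff_ge ((prm F k).filter fun P => GdF f P ∧ ∀ i, TyI (f i) P) S k
        (fun P hP => mem_prm.1 (mem_filter.1 hP).1)
      have h3' : (k : ℝ) * (((prm F k).filter fun P => GdF f P ∧ ∀ i, TyI (f i) P).card : ℝ) ≤
          k * ((((prm F k).filter fun P => GdF f P ∧ ∀ i, TyI (f i) P) \ S).card : ℝ) +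
            dgS S := by exact_mod_cast h3
      have h4 : min c₁ c₂ * q ^ k ≤ c₂ * q ^ k :=
        mul_le_mul_of_nonneg_right (min_le_right _ _) hqk0.le
      have h5 : 0 ≤ C₁ * (CF * ((dgS S : ℝ) + 1) + 1) * Real.sqrt q ^ k := by positivity
      have h6 : C₂ * Real.sqrt q ^ k + dgS S ≤ min c₁ c₂ / 2 * q ^ k := by
        refine le_trans ?_ hmain
        linarith
      linarith
    · rintro P hP D' ⟨E, rfl, hE⟩ hSel
      obtain ⟨hP1, hP2⟩ := mem_sdiff.1 hP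
      obtain ⟨hP3, hP4⟩ := mem_filter.1 hP1
      have key : ∀ j, MS (f j) (insert P S) (P.1 * E) ≤ MS (f j) S D := by
        intro j
        rw [← MS_congr (hSel j)]
        exact stepI hCONTR hXH hFAC F h2 (g j) (H.one_le j) (f j) (H.monic j) (H.deg j)
          (hirr j).2.1 (hirr j).2.2.2 P (hP4.1 j) (hP4.2 j) S hP2 E hE
      refine ⟨?_, fun j _ => key j⟩
      have h1 := (key i).trans (MS_le_one hsq)
      exact (Nat.mul_le_mul_left 2 h1).trans (le_max_left _ _)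
  · -- some element is not a square
    push Not at hsq
    obtain ⟨z, hz, hzn⟩ := hsq
    obtain ⟨β, a, hβ, hRp, hza⟩ := (hF S D).2 z hz
    obtain ⟨ha0, haN, has⟩ := rep z hz.1 hzn β hβ a hza
    obtain ⟨Q, hQ, hQc⟩ := hB _ a hRp ha0 haN has k
    refine ⟨Q \ S, ?_, ?_, ?_⟩
    · intro P hP
      obtain ⟨hP1, hP2⟩ := mem_sdiff.1 hP
      exact ⟨(hQ P hP1).1, (hQ P hP1).2.1, hP2⟩
    · have h3 := card_sdiff_ge Q S k (fun P hP => (hQ P hP).1)
      have h3' : (k : ℝ) * (Q.card : ℝ) ≤ k * ((Q \ S).card : ℝ) + dgS S := by exact_mod_cast h3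
      have h4 : min c₁ c₂ * q ^ k ≤ c₁ * q ^ k :=
        mul_le_mul_of_nonneg_right (min_le_left _ _) hqk0.le
      have h5 : 0 ≤ C₂ * Real.sqrt q ^ k := by positivity
      have h6 : C₁ * (CF * ((dgS S : ℝ) + 1) + 1) * Real.sqrt q ^ k + dgS S ≤
          min c₁ c₂ / 2 * q ^ k := by
        refine le_trans ?_ hmain
        linarith
      push_cast at hQc
      linarith
    · rintro P hP D' ⟨E, rfl, hE⟩ hSel
      obtain ⟨hP1, hP2⟩ := mem_sdiff.1 hP
      obtain ⟨hPk, hPG, hPT, hPI, hPne, ψ, hψ, hψn⟩ := hQ P hP1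
      refine ⟨?_, ?_⟩
      · rw [← MS_congr (hSel i)]
        refine le_trans ?_ (le_max_right _ _)
        refine stepT hCONTR hXH hFAC F h2 (g i) (H.one_le i) (f i) (H.monic i) (H.deg i)
          (hirr i).2.1 (hirr i).2.2.2 P (hPG i) hPT S hP2 E hE ⟨z, ?_, ψ, hψ, ?_⟩
        · rw [hSel i]
          exact hz
        · obtain ⟨hoe1, -, -, hoe4⟩ := hOE F h2 (g i) (H.one_le i) (f i) (H.monic i) (H.deg i)
            (hirr i).2.1 P (hPG i)
          have h1 := (hoe4 ψ hψ a (hPne ψ hψ)).2.not.2 hψn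
          have h3 := (hoe1 ψ hψ (z : LL (f i)) (β ^ 2) z.ne_zero (pow_ne_zero 2 hβ)).2
          have h4 := (hoe1 ψ hψ β β hβ hβ).2
          rw [← pow_two] at h4
          have h5 : ep P ψ β + ep P ψ β = 0 := by
            rw [← two_mul]
            have : (2 : ZMod 2) = 0 := rfl
            rw [this, zero_mul]
          rw [← hza, h3, h4, h5, add_zero] at h1
          exact h1
      · intro j hj
        rw [← MS_congr (hSel j)]
        exact stepI hCONTR hXH hFAC F h2 (g j) (H.one_le j) (f j) (H.monic j) (H.deg j)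
          (hirr j).2.1 (hirr j).2.2.2 P (hPG j) (hPI j hj) S hP2 E hE

end Pool.Agent.Helper3.GT
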