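import Pool.Agent.Helper3.GT.St

/-!
# GT: restriction of classes (RE)
-/

set_option autoImplicit false

namespace Pool.Agent.Helper3.GT

open Polynomial Finset
open Pool.Agent.Helper54.PT (Prm)
open Pool.Agent.Helper3.HY (red)

theorem hRE : StRE := by
  intro F _ f S U p hp hU U' hU' e D h
  classical
  obtain ⟨hm, hd, hS, hB⟩ := h
  refine ⟨⟨hm, hd, ?_, hB⟩, ?_⟩
  · intro P hP
    obtain ⟨E, h1, h2, h3⟩ := hS P (Finset.mem_insert_of_mem hP)
    refine ⟨E, h1, h2, ?_⟩
    rw [h3]
    have hPp : P ≠ p := fun h => hp (h ▸ hP)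
    rcases hU' with rfl | rfl
    · exact Iff.rfl
    · rw [Finset.mem_insert]
      constructor
      · intro h hPU
        exact h (Or.inr hPU)
      · rintro h (h4 | h4)
        · exact hPp h4
        · exact h h4
  · obtain ⟨E, h1, h2, -⟩ := hS p (Finset.mem_insert_self p S)
    exact ⟨E, h1, h2⟩

end Pool.Agent.Helper3.GT
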