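import Pool.Agent.Helper3.GT.St
import Pool.Agent.Helper54.HL.All

set_option autoImplicit false

namespace Pool.Agent.Helper3.GT

open Polynomial Finset Filter Topology
open Pool.Agent.Helper54.PT (Prm prm IsAbsP IsAbsInf)
open Pool.Agent.Helper3.HY (fK RR LL kp red TwAt twGroup baseChange co Kfil selmerSet)

theorem hREC : StREC := by
  intro F _ _ h2 P Q hPQ
  have hFSP := (Pool.Agent.Helper54.HL.hFS F h2 P.1 P.2.1 P.2.2).1 (AdjoinRoot.mk P.1 Q.1)
  have hFSQ := (Pool.Agent.Helper54.HL.hFS F h2 Q.1 Q.2.1 Q.2.2).1 (AdjoinRoot.mk Q.1 P.1)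
  have hNS := Pool.Agent.Helper54.HL.aNS F Q.1 P.1 Q.2.1 P.2.1
  have hFd : FiniteDimensional F (AdjoinRoot P.1) :=
    (AdjoinRoot.powerBasis P.2.2.ne_zero).finite
  have hne : Algebra.norm F (AdjoinRoot.mk P.1 Q.1) ≠ 0 := by
    rw [Ne, Algebra.norm_eq_zero_iff, AdjoinRoot.mk_eq_zero]
    intro hd
    exact hPQ (Subtype.ext (eq_of_monic_of_associated P.2.1 Q.2.1
      ((Irreducible.dvd_irreducible_iff_associated P.2.2 Q.2.2).1 hd)))
  change IsSquare (AdjoinRoot.mk Q.1 P.1) ↔ (IsSquare (AdjoinRoot.mk P.1 Q.1) ↔ _)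
  rw [← hFSP, ← hFSQ, hNS]
  generalize Algebra.norm F (AdjoinRoot.mk P.1 Q.1) = r at hne
  have hchar : ringChar F ≠ 2 := by
    intro h
    apply h2
    have := ringChar.spec F 2
    rw [h] at this
    exact_mod_cast this.2 dvd_rfl
  have hneg : ¬ IsSquare (-1 : F) → (IsSquare (-r) ↔ ¬ IsSquare r) := by
    intro h1
    constructor
    · intro ha hb
      exact h1 (by
        have := ha.mul hb.inv
        rwa [neg_mul, mul_inv_cancel₀ hne] at this)
    · intro hb
      rcases FiniteField.pow_dichotomy hchar (a := -1) (neg_ne_zero.2 one_ne_zero) with h | h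
      · exact absurd ((FiniteField.isSquare_iff hchar (neg_ne_zero.2 one_ne_zero)).2 h) h1
      rcases FiniteField.pow_dichotomy hchar hne with h' | h'
      · exact absurd ((FiniteField.isSquare_iff hchar hne).2 h') hb
      rw [FiniteField.isSquare_iff hchar (neg_ne_zero.2 hne), ← neg_one_mul, mul_pow, h, h']
      ring
  rw [mul_comm P.1.natDegree]
  by_cases hev : Even (Q.1.natDegree * P.1.natDegree)
  · rw [hev.neg_one_pow, one_mul]
    simp [hev]
  · rw [(Nat.not_even_iff_odd.1 hev).neg_one_pow, neg_one_mul]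
    by_cases h1 : IsSquare (-1 : F)
    · have : IsSquare (-r) ↔ IsSquare r := by
        constructor
        · intro h
          have := h1.mul h
          rwa [neg_mul_neg, one_mul] at this
        · intro h
          have := h1.mul h
          rwa [neg_one_mul] at this
      simp [h1, this]
    · rw [hneg h1]
      simp [h1, hev]

end Pool.Agent.Helper3.GT
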