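import Pool.Agent.Helper3.GT.St

set_option autoImplicit false

namespace Pool.Agent.Helper3.GT

open Polynomial
open Pool.Agent.Helper54.PT (Prm prm IsAbsP IsAbsInf)
open Pool.Agent.Helper3.HY (fK RR LL kp red TwAt)

namespace SCaux

variable {F : Type} [Field F]

theorem finite_kp [Fintype F] (P : Prm F) : Finite (kp P) := by
  have h := (P.2.1).finite_adjoinRoot
  have h2 := h
  exact Module.finite_of_finite F

theorem sq_mul {k : Type} [Field k] [Finite k] (h2 : (2 : k) ≠ 0) {a b : k} (ha : a ≠ 0)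
    (hb : b ≠ 0) (h : IsSquare a ↔ IsSquare b) : IsSquare (a * b) := by
  classical
  have := Fintype.ofFinite k
  by_cases h1 : IsSquare a
  · exact h1.mul (h.1 h1)
  · have h3 : ¬ IsSquare b := fun hb => h1 (h.2 hb)
    have hc : ringChar k ≠ 2 := by
      intro hc
      apply h2
      have : ((ringChar k : ℕ) : k) = 0 := ringChar.Nat.cast_ringChar
      rw [hc] at this
      exact_mod_cast this
    rw [← quadraticChar_one_iff_isSquare (mul_ne_zero ha hb), map_mul,
      (quadraticChar_neg_one_iff_not_isSquare).2 h1, (quadraticChar_neg_one_iff_not_isSquare).2 h3]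
    norm_num

theorem sub [Fintype F] (h2 : (2 : F) ≠ 0) (hINV : StINV) (f : F[X][X]) (hm : f.Monic) (h1 : f ≠ 1)
    (S U : Finset (Prm F)) (e : ℕ) (D D' : F[X]) (hD : HasCls f S U e D)
    (hD' : HasCls f S U e D') : SelS f S D ⊆ SelS f S D' := by
  obtain ⟨hfin, hinf⟩ := hINV F h2 f hm h1
  rintro z ⟨hz1, hz2, hz3, hz4⟩
  refine ⟨hz1, hz2, ?_, ?_⟩
  · intro P hP v hv hvP
    have hk2 : (2 : kp P) ≠ 0 := by
      have : Fact (Irreducible P.1) := ⟨P.2.2⟩
      intro h
      apply h2
      have h3 : (AdjoinRoot.of P.1) (2 : F) = (AdjoinRoot.of P.1) 0 := by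
        rw [map_ofNat, map_zero]; exact h
      exact AdjoinRoot.coe_injective' h3
    by_cases hPS : P ∈ S
    · obtain ⟨E, hE, hPE, hsq⟩ := hD.2.2.1 P hPS
      obtain ⟨E', hE', hPE', hsq'⟩ := hD'.2.2.1 P hPS
      have h3 := hz3 P hP v hv hvP
      have : Fact (Irreducible P.1) := ⟨P.2.2⟩
      have := finite_kp P
      have hs : IsSquare (red P (E * E')) := by
        rw [map_mul]
        apply sq_mul hk2
        · rwa [Ne, AdjoinRoot.mk_eq_zero]
        · rwa [Ne, AdjoinRoot.mk_eq_zero]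
        · exact hsq.trans hsq'.symm
      have := hfin P 1 E E' hPE hPE' hs v hv hvP z
      rw [pow_one, ← hE, ← hE'] at this
      exact this h3
    · have hB : Bd f P := by tauto
      obtain ⟨hPD, hs⟩ := hD.2.2.2 P hB
      obtain ⟨hPD', hs'⟩ := hD'.2.2.2 P hB
      have := hfin P 0 D D' hPD hPD' (by rw [map_mul]; exact hs.mul hs') v hv hvP z
      rw [pow_zero, one_mul, one_mul] at this
      exact this (hz3 P hP v hv hvP)
  · intro v hv hvI
    exact hinf D D' hD.1 hD'.1 (hD.2.1.trans hD'.2.1.symm) v hv hvI z (hz4 v hv hvI)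

end SCaux

theorem hSC (hINV : StINV) : StSC := by
  intro F _ _ h2 f hm h1 S U e D D' hD hD'
  exact Set.Subset.antisymm (SCaux.sub h2 hINV f hm h1 S U e D D' hD hD')
    (SCaux.sub h2 hINV f hm h1 S U e D' D hD' hD)

end Pool.Agent.Helper3.GT
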