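import Pool.Agent.Helper3.GT.St
import Pool.Agent.Helper3.HY.Base

set_option autoImplicit false

namespace Pool.Agent.Helper3.GT

open Polynomial Finset Filter Topology
open Pool.Agent.Helper54.PT (Prm prm IsAbsP IsAbsInf)
open Pool.Agent.Helper3.HY (fK RR LL kp red TwAt twGroup baseChange)

section

variable {F : Type} [Field F] {f : F[X][X]}

private theorem unitAt_one (P : Prm F) : UnitAt P (1 : LL f) :=
  ⟨1, 1, 1, fun h => P.2.2.not_isUnit (isUnit_of_dvd_one h), by rw [map_one, map_one, mul_one],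
    by rw [map_one, one_pow, mul_one]⟩

private theorem unitAt_mul {P : Prm F} {x y : LL f} (hx : UnitAt P x) (hy : UnitAt P y) :
    UnitAt P (x * y) := by
  obtain ⟨a, r, s, ha, h1, h2⟩ := hx
  obtain ⟨b, r', s', hb, h3, h4⟩ := hy
  refine ⟨a * b, r * r', s * s', fun h => ?_, ?_, ?_⟩
  · rcases P.2.2.prime.dvd_or_dvd h with h | h
    · exact ha h
    · exact hb h
  · rw [map_mul, map_mul, ← h1, ← h3]; ring
  · rw [map_mul, mul_pow, ← h2, ← h4]; ring

private theorem unitAt_inv [Fact (Irreducible (fK f))] {P : Prm F} {x : LL f}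
    (hx : UnitAt P x) : UnitAt P x⁻¹ := by
  obtain ⟨a, r, s, ha, h1, h2⟩ := hx
  have ha0 : a ≠ 0 := fun h => ha (by rw [h]; exact dvd_zero _)
  have hA : algebraMap F[X] (LL f) a ≠ 0 := by
    rw [IsScalarTower.algebraMap_apply F[X] (RatFunc F) (LL f)]
    intro h
    rw [map_eq_zero] at h
    exact ha0 (by
      have := (IsFractionRing.injective F[X] (RatFunc F)).eq_iff (a := a) (b := 0)
      rw [map_zero] at this
      exact this.1 h)
  have h3 : algebraMap F[X] (LL f) a * x * algebraMap (RR f) (LL f) s =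
      algebraMap F[X] (LL f) a ^ 2 := by
    rw [h1, ← map_mul, h2, map_pow, ← IsScalarTower.algebraMap_apply]
  have h4 : x * algebraMap (RR f) (LL f) s = algebraMap F[X] (LL f) a := by
    apply mul_left_cancel₀ hA
    rw [← mul_assoc, h3, sq]
  have hx0 : x ≠ 0 := fun h => hA (by rw [← h4, h, zero_mul])
  refine ⟨a, s, r, ha, ?_, ?_⟩
  · rw [← h4, mul_comm x, mul_assoc, mul_inv_cancel₀ hx0, mul_one]
  · rw [mul_comm, h2]

private theorem evP_one (P : Prm F) [Nontrivial (LL f)] : EvP P (1 : LL f) :=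
  ⟨1, one_ne_zero, by rw [one_pow, mul_one]; exact unitAt_one P⟩

private theorem evP_mul [Fact (Irreducible (fK f))] {P : Prm F} {x y : LL f} (hx : EvP P x)
    (hy : EvP P y) : EvP P (x * y) := by
  obtain ⟨β, hβ, h1⟩ := hx
  obtain ⟨γ, hγ, h2⟩ := hy
  refine ⟨β * γ, mul_ne_zero hβ hγ, ?_⟩
  have : x * y * (β * γ) ^ 2 = (x * β ^ 2) * (y * γ ^ 2) := by ring
  rw [this]
  exact unitAt_mul h1 h2

private theorem evP_inv [Fact (Irreducible (fK f))] {P : Prm F} {x : LL f} (hx : EvP P x) :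
    EvP P x⁻¹ := by
  obtain ⟨β, hβ, h1⟩ := hx
  refine ⟨β⁻¹, inv_ne_zero hβ, ?_⟩
  have : x⁻¹ * β⁻¹ ^ 2 = (x * β ^ 2)⁻¹ := by rw [mul_inv, inv_pow]
  rw [this]
  exact unitAt_inv h1

private theorem evP_sq [Fact (Irreducible (fK f))] {P : Prm F} {x : LL f} (hx : x ≠ 0) :
    EvP P (x ^ 2) := by
  refine ⟨x⁻¹, inv_ne_zero hx, ?_⟩
  have : x ^ 2 * x⁻¹ ^ 2 = 1 := by rw [← mul_pow, mul_inv_cancel₀ hx, one_pow]
  rw [this]
  exact unitAt_one P

private theorem twAt_one (D : F[X]) (v : AbsoluteValue (RatFunc F) ℝ) :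
    TwAt f D v 1 := by
  unfold TwAt
  rw [map_one]
  exact one_mem _

private theorem twAt_mul {D : F[X]} {v : AbsoluteValue (RatFunc F) ℝ} {z w : (LL f)ˣ}
    (hz : TwAt f D v z) (hw : TwAt f D v w) : TwAt f D v (z * w) := by
  unfold TwAt at *
  rw [map_mul]
  exact mul_mem hz hw

private theorem twAt_inv {D : F[X]} {v : AbsoluteValue (RatFunc F) ℝ} {z : (LL f)ˣ}
    (hz : TwAt f D v z) : TwAt f D v z⁻¹ := by
  unfold TwAt at *
  rw [map_inv]
  exact inv_mem hz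

private theorem twAt_sq (D : F[X]) (v : AbsoluteValue (RatFunc F) ℝ) (z : (LL f)ˣ) :
    TwAt f D v (z ^ 2) := by
  unfold TwAt
  rw [map_pow]
  exact Subgroup.subset_closure (Or.inr ⟨_, rfl⟩)

end

theorem hSG : StSG := by
  intro F _ _ f _ _ S D
  refine ⟨{ carrier := SelS f S D, one_mem' := ?_, mul_mem' := ?_, inv_mem' := ?_ }, rfl, ?_⟩
  · rintro z w ⟨hz1, hz2, hz3, hz4⟩ ⟨hw1, hw2, hw3, hw4⟩
    refine ⟨?_, fun P h1 h2 => ?_, fun P h v hv hP => twAt_mul (hz3 P h v hv hP) (hw3 P h v hv hP),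
      fun v hv hP => twAt_mul (hz4 v hv hP) (hw4 v hv hP)⟩
    · rw [Units.val_mul, map_mul]
      exact hz1.mul hw1
    · rw [Units.val_mul]
      exact evP_mul (hz2 P h1 h2) (hw2 P h1 h2)
  · refine ⟨?_, fun P _ _ => ?_, fun P _ v _ _ => twAt_one D v, fun v _ _ => twAt_one D v⟩
    · rw [Units.val_one, map_one]
      exact ⟨1, (mul_one 1).symm⟩
    · rw [Units.val_one]
      exact evP_one P
  · rintro z ⟨hz1, hz2, hz3, hz4⟩
    refine ⟨?_, fun P h1 h2 => ?_, fun P h v hv hP => twAt_inv (hz3 P h v hv hP),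
      fun v hv hP => twAt_inv (hz4 v hv hP)⟩
    · have h : ((z⁻¹ : (LL f)ˣ) : LL f) = z * ((z⁻¹ : (LL f)ˣ) : LL f) ^ 2 := by
        rw [sq, ← mul_assoc, Units.mul_inv, one_mul]
      rw [h, map_mul, map_pow]
      exact hz1.mul ⟨_, sq _⟩
    · rw [Units.val_inv_eq_inv_val]
      exact evP_inv (hz2 P h1 h2)
  · intro z
    change z ^ 2 ∈ SelS f S D
    refine ⟨?_, fun P _ _ => ?_, fun P _ v _ _ => twAt_sq D v z, fun v _ _ => twAt_sq D v z⟩
    · rw [Units.val_pow_eq_pow_val, map_pow]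
      exact ⟨_, sq _⟩
    · rw [Units.val_pow_eq_pow_val]
      exact evP_sq z.ne_zero

end Pool.Agent.Helper3.GT
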