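import Pool.Agent.Helper3.GT.St
import Pool.Agent.Helper24.TW.A15

/-!
# GT: module SQF
-/

set_option autoImplicit false

namespace Pool.Agent.Helper3.GT

open Polynomial Finset Filter Topology
open Pool.Agent.Helper54.PT (Prm prm mon mem_mon pd PData sy pd_lower)
open Pool.Agent.Helper24.TWA15 (card_mon')

namespace SQF

section

variable {F : Type} [Field F]

theorem dvd_prod_iff (S : Finset (Prm F)) (P : Prm F) : P.1 ∣ ∏ Q ∈ S, Q.1 ↔ P ∈ S := by
  constructor
  · intro h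
    obtain ⟨Q, hQ, hd⟩ := (P.2.2.prime.dvd_finsetProd_iff _).1 h
    have : P = Q := Subtype.ext
      (eq_of_monic_of_associated P.2.1 Q.2.1 (P.2.2.associated_of_dvd Q.2.2 hd))
    rwa [this]
  · intro h
    exact Finset.dvd_prod_of_mem (fun Q : Prm F => Q.1) h

theorem prod_inj : Function.Injective fun S : Finset (Prm F) => ∏ Q ∈ S, Q.1 := by
  intro S T h
  ext P
  rw [← dvd_prod_iff S P, ← dvd_prod_iff T P]
  simp only at h
  rw [h]

theorem prod_monic (S : Finset (Prm F)) : (∏ Q ∈ S, Q.1).Monic :=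
  monic_prod_of_monic _ _ fun Q _ => Q.2.1

theorem prod_natDegree (S : Finset (Prm F)) : (∏ Q ∈ S, Q.1).natDegree = dgS S :=
  natDegree_prod_of_monic _ _ fun Q _ => Q.2.1

theorem finite_dvd (D₀ : F[X]) (h : D₀ ≠ 0) : {P : Prm F | P.1 ∣ D₀}.Finite := by
  classical
  refine Set.Finite.of_finite_image (f := fun P : Prm F => P.1) ?_ Subtype.val_injective.injOn
  refine ((UniqueFactorizationMonoid.normalizedFactors D₀).toFinset.finite_toSet).subset ?_
  rintro _ ⟨P, hP, rfl⟩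
  rw [mem_coe, Multiset.mem_toFinset]
  exact (Polynomial.mem_normalizedFactors_iff h).2 ⟨P.2.2, P.2.1, hP⟩

end

variable {F : Type} [Field F] [Fintype F]

theorem upper (n : ℕ) : {S : Finset (Prm F) | dgS S = n}.Finite ∧
    {S : Finset (Prm F) | dgS S = n}.ncard ≤ Fintype.card F ^ n := by
  have hmaps : ∀ S ∈ {S : Finset (Prm F) | dgS S = n}, ∏ Q ∈ S, Q.1 ∈ (mon F n : Set F[X]) := by
    intro S hS
    rw [mem_coe, mem_mon]
    exact ⟨prod_monic S, (prod_natDegree S).trans hS⟩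
  refine ⟨?_, ?_⟩
  · refine Set.Finite.of_finite_image (f := fun S : Finset (Prm F) => ∏ Q ∈ S, Q.1) ?_
      prod_inj.injOn
    refine ((mon F n).finite_toSet).subset ?_
    rintro _ ⟨S, hS, rfl⟩
    exact hmaps S hS
  · have h := Set.ncard_le_ncard_of_injOn (fun S : Finset (Prm F) => ∏ Q ∈ S, Q.1) hmaps
      prod_inj.injOn ((mon F n).finite_toSet)
    rwa [Set.ncard_coe_finset, card_mon', Nat.card_eq_fintype_card] at h

end SQF

open SQF in
theorem hSQF : StSQF := by
  classical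
  intro F _ _ _ D₀ hD₀
  refine ⟨upper, ?_⟩
  have hfin := finite_dvd D₀ hD₀
  have : Fintype {P : Prm F // P.1 ∣ D₀} := hfin.fintype
  have : Fact (Nat.Prime 2) := ⟨Nat.prime_two⟩
  let lg : F → ZMod 2 := fun _ => 0
  have hrec : ∀ P Q : Prm F, P ≠ Q → sy lg Q.1 P.1 = sy lg P.1 Q.1 := fun _ _ _ => rfl
  let R : {P : Prm F // P.1 ∣ D₀} → Prm F := Subtype.val
  obtain ⟨c, hc, h⟩ := pd_lower hrec R
  refine ⟨c, hc, ?_⟩
  filter_upwards [h] with n hn
  rw [Nat.card_eq_fintype_card] at hn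
  refine hn.trans ?_
  have hfin2 : {S : Finset (Prm F) | dgS S = n ∧ ∀ P ∈ S, ¬ P.1 ∣ D₀}.Finite :=
    (upper n).1.subset fun S hS => hS.1
  have hinj : Function.Injective fun T : Finset {P : Prm F // ∀ r, P ≠ R r} =>
      T.map (Function.Embedding.subtype _) := Finset.map_injective _
  have key : ((pd lg hrec R).sq n).card ≤
      {S : Finset (Prm F) | dgS S = n ∧ ∀ P ∈ S, ¬ P.1 ∣ D₀}.ncard := by
    rw [← Set.ncard_coe_finset]
    refine Set.ncard_le_ncard_of_injOn (fun T : Finset {P : Prm F // ∀ r, P ≠ R r} =>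
      T.map (Function.Embedding.subtype _)) ?_ hinj.injOn hfin2
    intro T hT
    have hT' := (PData.mem_sq _).1 (mem_coe.1 hT)
    refine ⟨?_, ?_⟩
    · exact (sum_map (M := ℕ) T (Function.Embedding.subtype _)
        (fun P : Prm F => P.1.natDegree)).trans hT'
    · intro P hP hd
      obtain ⟨Q, hQ, rfl⟩ := mem_map.1 hP
      exact Q.2 ⟨Q.1, hd⟩ rfl
  exact_mod_cast key

end Pool.Agent.Helper3.GT
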