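import Pool.Agent.Helper3.GT.Abs

/-!
# GT, module ST: one step (double counting of masses)
-/

set_option autoImplicit false

namespace Pool.Agent.Helper3.GT

open Finset

namespace M_ST

variable {ι : Type} (X : AD ι)

/-- the sets of degree at most `N` -/
def W (N : ℕ) : Finset (Finset X.P) := (range (N + 1)).biUnion X.sq

theorem mem_W {N : ℕ} {S : Finset X.P} : S ∈ W X N ↔ X.dg S ≤ N := by
  rw [W, mem_biUnion]
  constructor
  · rintro ⟨k, hk, hp⟩
    rw [X.mem_sq.1 hp]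
    exact Nat.lt_succ_iff.1 (mem_range.1 hk)
  · intro h
    exact ⟨X.dg S, mem_range.2 (Nat.lt_succ_of_le h), X.mem_sq.2 rfl⟩

/-- the weight -/
noncomputable def w (q : ℕ) (S : Finset X.P) : ℝ := 1 / ((2 : ℝ) ^ S.card * (q : ℝ) ^ X.dg S)

theorem w_nonneg (q : ℕ) (S : Finset X.P) : 0 ≤ w X q S := by
  unfold w; positivity

open Classical in
theorem mass_eq (q : ℕ) (Q : Finset X.P → Finset X.P → Prop) (N : ℕ) :
    X.mass q Q N = ∑ S ∈ W X N, ∑ _U ∈ S.powerset.filter (fun U => Q S U), w X q S := by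
  rw [AD.mass, W, sum_biUnion]
  · apply sum_congr rfl
    intro n _
    apply sum_congr rfl
    intro S hS
    rw [sum_const, nsmul_eq_mul, w, X.mem_sq.1 hS]
    ring
  · intro a _ b _ hab
    rw [Function.onFun, disjoint_left]
    intro S h1 h2
    exact hab ((X.mem_sq.1 h1).symm.trans (X.mem_sq.1 h2))

theorem dg_insert {S : Finset X.P} {p : X.P} (hp : p ∉ S) :
    X.dg (insert p S) = X.deg p + X.dg S := by
  rw [AD.dg, sum_insert hp, AD.dg]

theorem w_insert (q : ℕ) {S : Finset X.P} {p : X.P} (hp : p ∉ S) :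
    w X q (insert p S) = w X q S * (1 / (q : ℝ) ^ X.deg p) / 2 := by
  rw [w, w, dg_insert X hp, card_insert_of_notMem hp, pow_succ, pow_add]
  rw [mul_one_div, div_div, div_div]
  congr 1
  ring

end M_ST

open M_ST Classical in
theorem hST : StST := by
  intro ι X q hq Q Q' K L c hK hc hyp
  have hq0 : (0 : ℝ) < q := by
    have : 0 < q := by omega
    exact_mod_cast this
  -- the pairs
  set A1 : Finset (Σ _ : Finset X.P, Finset X.P) :=
    (W X (L * K)).sigma (fun S => S.powerset.filter (fun U => Q S U)) with hA1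
  set B1 : Finset (Σ _ : Finset X.P, Finset X.P) :=
    (W X ((L + 2) * K)).sigma (fun S => S.powerset.filter (fun U => Q' S U)) with hB1
  let A2 : (Σ _ : Finset X.P, Finset X.P) → Finset X.P := fun x =>
    ((Ico K (2 * K)).biUnion X.pr).filter (fun p => p ∉ x.1 ∧ Q' (insert p x.1) x.2 ∧
      Q' (insert p x.1) (insert p x.2))
  let B2 : (Σ _ : Finset X.P, Finset X.P) → Finset X.P := fun x => x.1.filter (fun p => K ≤ X.deg p)
  have hmA : X.mass q Q (L * K) = ∑ x ∈ A1, w X q x.1 := by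
    rw [mass_eq, hA1, sum_sigma]
  have hmB : X.mass q Q' ((L + 2) * K) = ∑ x ∈ B1, w X q x.1 := by
    rw [mass_eq, hB1, sum_sigma]
  -- lower bound
  have hlow : ∀ x ∈ A1, c / 2 ≤ ∑ p ∈ A2 x, 1 / (q : ℝ) ^ X.deg p := by
    rintro ⟨S, U⟩ hx
    rw [hA1, mem_sigma, mem_filter, mem_powerset, mem_W] at hx
    obtain ⟨hS, hU, hQ⟩ := hx
    have e1 : ∑ p ∈ A2 ⟨S, U⟩, 1 / (q : ℝ) ^ X.deg p = ∑ k ∈ Ico K (2 * K),
        (((X.pr k).filter fun p =>
        p ∉ S ∧ Q' (insert p S) U ∧ Q' (insert p S) (insert p U)).card : ℝ) / (q : ℝ) ^ k := by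
      show ∑ p ∈ ((Ico K (2 * K)).biUnion X.pr).filter (fun p => p ∉ S ∧ Q' (insert p S) U ∧
        Q' (insert p S) (insert p U)), 1 / (q : ℝ) ^ X.deg p = _
      rw [filter_biUnion, sum_biUnion]
      · apply sum_congr rfl
        intro k _
        rw [Finset.sum_congr rfl (g := fun _ => 1 / (q : ℝ) ^ k), sum_const, nsmul_eq_mul,
          mul_one_div]
        intro p hp
        rw [(X.mem_pr k p).1 (mem_filter.1 hp).1]
      · intro a _ b _ hab
        rw [Function.onFun, disjoint_left]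
        intro p h1 h2
        exact hab (((X.mem_pr a p).1 (mem_filter.1 h1).1).symm.trans
          ((X.mem_pr b p).1 (mem_filter.1 h2).1))
    rw [e1]
    have hKr : (0 : ℝ) < K := by exact_mod_cast hK
    calc c / 2 = ∑ k ∈ Ico K (2 * K), c / (2 * K) := by
          rw [sum_const, Nat.card_Ico, nsmul_eq_mul]
          have : ((2 * K - K : ℕ) : ℝ) = K := by
            congr 1; omega
          rw [this]
          field_simp
      _ ≤ _ := by
          apply sum_le_sum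
          intro k hk
          rw [mem_Ico] at hk
          have h1 := hyp S U hU hQ hS k hk.1 hk.2
          have hk0 : (0 : ℝ) < k := by
            have : 0 < k := by omega
            exact_mod_cast this
          have hqk : (0 : ℝ) < (q : ℝ) ^ k := by positivity
          rw [div_le_div_iff₀ (by positivity) hqk]
          have hk2 : (k : ℝ) ≤ 2 * K := by
            have : k ≤ 2 * K := by omega
            exact_mod_cast this
          calc c * (q : ℝ) ^ k ≤ _ := h1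
            _ ≤ (2 * K) * (((X.pr k).filter fun p =>
              p ∉ S ∧ Q' (insert p S) U ∧ Q' (insert p S) (insert p U)).card : ℝ) := by
                apply mul_le_mul_of_nonneg_right hk2 (by positivity)
            _ = _ := by ring
  have hlow2 : c * X.mass q Q (L * K) / 2 ≤
      ∑ x ∈ A1, ∑ p ∈ A2 x, w X q x.1 * (1 / (q : ℝ) ^ X.deg p) := by
    rw [hmA]
    have : c * (∑ x ∈ A1, w X q x.1) / 2 = ∑ x ∈ A1, w X q x.1 * (c / 2) := by
      rw [← sum_mul]; ring
    rw [this]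
    apply sum_le_sum
    intro x hx
    rw [← mul_sum]
    exact mul_le_mul_of_nonneg_left (hlow x hx) (w_nonneg X q x.1)
  -- upper bound
  have hB2 : ∀ x ∈ B1, ((B2 x).card : ℝ) ≤ L + 2 := by
    rintro ⟨S, U⟩ hx
    rw [hB1, mem_sigma, mem_W] at hx
    have h1 : (B2 ⟨S, U⟩).card * K ≤ X.dg S := by
      calc (B2 ⟨S, U⟩).card * K = ∑ p ∈ B2 ⟨S, U⟩, K := by rw [sum_const, smul_eq_mul]
        _ ≤ ∑ p ∈ B2 ⟨S, U⟩, X.deg p := sum_le_sum (fun p hp => (mem_filter.1 hp).2)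
        _ ≤ ∑ p ∈ S, X.deg p :=
            sum_le_sum_of_subset_of_nonneg (filter_subset _ _) (fun _ _ _ => Nat.zero_le _)
    have h2 : (B2 ⟨S, U⟩).card * K ≤ (L + 2) * K := h1.trans hx.1
    have h3 : (B2 ⟨S, U⟩).card ≤ L + 2 := Nat.le_of_mul_le_mul_right h2 hK
    exact_mod_cast h3
  have hup1 : ∑ x ∈ B1, ∑ p ∈ B2 x, w X q x.1 ≤ (L + 2) * X.mass q Q' ((L + 2) * K) := by
    rw [hmB, mul_sum]
    apply sum_le_sum
    intro x hx
    rw [sum_const, nsmul_eq_mul]
    exact mul_le_mul_of_nonneg_right (hB2 x hx) (w_nonneg X q x.1)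
  -- membership facts
  have hmem : ∀ x ∈ A1, ∀ p ∈ A2 x, p ∉ x.1 ∧ x.2 ⊆ x.1 ∧ p ∉ x.2 ∧
      (⟨insert p x.1, x.2⟩ : Σ _ : Finset X.P, Finset X.P) ∈ B1 ∧
      (⟨insert p x.1, insert p x.2⟩ : Σ _ : Finset X.P, Finset X.P) ∈ B1 ∧ K ≤ X.deg p := by
    rintro ⟨S, U⟩ hx p hp
    rw [hA1, mem_sigma, mem_filter, mem_powerset, mem_W] at hx
    obtain ⟨hS, hU, hQ⟩ := hx
    obtain ⟨hp1, hp2, hp3, hp4⟩ := mem_filter.1 hp
    rw [mem_biUnion] at hp1
    obtain ⟨k, hk, hpk⟩ := hp1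
    rw [mem_Ico] at hk
    have hdeg := (X.mem_pr k p).1 hpk
    have hdg : X.dg (insert p S) ≤ (L + 2) * K := by
      rw [dg_insert X hp2, hdeg]
      have : X.dg S ≤ L * K := hS
      have e : (L + 2) * K = L * K + 2 * K := by ring
      rw [e]; omega
    refine ⟨hp2, hU, fun h => hp2 (hU h), ?_, ?_, by rw [hdeg]; exact hk.1⟩
    · rw [hB1, mem_sigma, mem_filter, mem_powerset, mem_W]
      exact ⟨hdg, hU.trans (subset_insert _ _), hp3⟩
    · rw [hB1, mem_sigma, mem_filter, mem_powerset, mem_W]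
      exact ⟨hdg, insert_subset_insert _ hU, hp4⟩
  -- the two injections
  let T := Σ _ : (Σ _ : Finset X.P, Finset X.P), X.P
  let A : Finset T := A1.sigma A2
  let B : Finset T := B1.sigma B2
  let φ : T → T := fun t => ⟨⟨insert t.2 t.1.1, t.1.2⟩, t.2⟩
  let ψ : T → T := fun t => ⟨⟨insert t.2 t.1.1, insert t.2 t.1.2⟩, t.2⟩
  have key : ∀ t ∈ A, t.2 ∉ t.1.1 ∧ t.2 ∉ t.1.2 ∧ φ t ∈ B ∧ ψ t ∈ B := by
    rintro ⟨x, p⟩ ht
    obtain ⟨h1, h2⟩ := mem_sigma.1 ht
    obtain ⟨g1, g2, g3, g4, g5, g6⟩ := hmem x h1 p h2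
    refine ⟨g1, g3, ?_, ?_⟩
    · exact mem_sigma.2 ⟨g4, mem_filter.2 ⟨mem_insert_self _ _, g6⟩⟩
    · exact mem_sigma.2 ⟨g5, mem_filter.2 ⟨mem_insert_self _ _, g6⟩⟩
  have hφ : Set.InjOn φ (A : Set T) := by
    rintro ⟨⟨S, U⟩, p⟩ h1 ⟨⟨S', U'⟩, p'⟩ h2 he
    have k1 := key _ (mem_coe.1 h1)
    have k2 := key _ (mem_coe.1 h2)
    have e1 : insert p S = insert p' S' := congrArg (fun t : T => t.1.1) he
    have e2 : U = U' := congrArg (fun t : T => t.1.2) he
    have e3 : p = p' := congrArg (fun t : T => t.2) he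
    have k1' : p ∉ S := k1.1
    have k2' : p' ∉ S' := k2.1
    subst e2
    subst e3
    have : S = S' := by
      rw [← erase_insert k1', ← erase_insert k2', e1]
    rw [this]
  have hψ : Set.InjOn ψ (A : Set T) := by
    rintro ⟨⟨S, U⟩, p⟩ h1 ⟨⟨S', U'⟩, p'⟩ h2 he
    have k1 := key _ (mem_coe.1 h1)
    have k2 := key _ (mem_coe.1 h2)
    have e1 : insert p S = insert p' S' := congrArg (fun t : T => t.1.1) he
    have e2 : insert p U = insert p' U' := congrArg (fun t : T => t.1.2) he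
    have e3 : p = p' := congrArg (fun t : T => t.2) he
    have k1' : p ∉ S ∧ p ∉ U := ⟨k1.1, k1.2.1⟩
    have k2' : p' ∉ S' ∧ p' ∉ U' := ⟨k2.1, k2.2.1⟩
    subst e3
    have h3 : S = S' := by
      rw [← erase_insert k1'.1, ← erase_insert k2'.1, e1]
    have h4 : U = U' := by
      rw [← erase_insert k1'.2, ← erase_insert k2'.2, e2]
    rw [h3, h4]
  have hup2 : ∑ x ∈ A1, ∑ p ∈ A2 x, w X q x.1 * (1 / (q : ℝ) ^ X.deg p) ≤
      ∑ x ∈ B1, ∑ p ∈ B2 x, w X q x.1 := by
    rw [← sum_sigma (s := A1) (t := A2) (f := fun t => w X q t.1.1 * (1 / (q : ℝ) ^ X.deg t.2)),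
      ← sum_sigma (s := B1) (t := B2) (f := fun t => w X q t.1.1)]
    show ∑ t ∈ A, w X q t.1.1 * (1 / (q : ℝ) ^ X.deg t.2) ≤ ∑ t ∈ B, w X q t.1.1
    have e1 : ∑ t ∈ A, w X q t.1.1 * (1 / (q : ℝ) ^ X.deg t.2) =
        ∑ t ∈ A, w X q (φ t).1.1 + ∑ t ∈ A, w X q (ψ t).1.1 := by
      rw [← sum_add_distrib]
      apply sum_congr rfl
      intro t ht
      show _ = w X q (insert t.2 t.1.1) + w X q (insert t.2 t.1.1)
      rw [w_insert X q (key t ht).1]
      ring
    have e2 : ∑ t ∈ A, w X q (φ t).1.1 = ∑ t ∈ A.image φ, w X q t.1.1 := by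
      rw [sum_image hφ]
    have e3 : ∑ t ∈ A, w X q (ψ t).1.1 = ∑ t ∈ A.image ψ, w X q t.1.1 := by
      rw [sum_image hψ]
    have e4 : ∑ t ∈ A, w X q t.1.1 * (1 / (q : ℝ) ^ X.deg t.2) =
        ∑ t ∈ A.image φ, w X q t.1.1 + ∑ t ∈ A.image ψ, w X q t.1.1 := by
      rw [e1]
      exact congrArg₂ (· + ·) e2 e3
    rw [e4, ← sum_union]
    · apply sum_le_sum_of_subset_of_nonneg
      · intro t ht
        rw [mem_union, mem_image, mem_image] at ht
        rcases ht with ⟨s, hs, rfl⟩ | ⟨s, hs, rfl⟩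
        · exact (key s hs).2.2.1
        · exact (key s hs).2.2.2
      · intro t _ _
        exact w_nonneg X q t.1.1
    · rw [disjoint_left]
      intro t h1 h2
      rw [mem_image] at h1 h2
      obtain ⟨s, hs, rfl⟩ := h1
      obtain ⟨s', hs', he⟩ := h2
      have k1 := key s hs
      have g1 : (ψ s').2 = (φ s).2 := by rw [he]
      have g2 : (ψ s').1.2 = (φ s).1.2 := by rw [he]
      have g3 : s'.2 = s.2 := g1
      have g4 : insert s'.2 s'.1.2 = s.1.2 := g2
      apply k1.2.1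
      rw [← g4, g3]
      exact mem_insert_self _ _
  have hfin := (hlow2.trans hup2).trans hup1
  linarith

end Pool.Agent.Helper3.GT
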