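import Pool.Agent.Helper3.GT.Abs

/-! Module TI: tightness. -/

set_option autoImplicit false

namespace Pool.Agent.Helper3.GT

open Finset Filter Topology

namespace TIaux

variable {ι : Type} (X : AD ι)

theorem TT_nonneg (i : ι) (S : Finset X.P) : 0 ≤ X.TT i S := by
  unfold AD.TT
  apply div_nonneg
  · exact sum_nonneg fun _ _ => Real.sqrt_nonneg _
  · positivity

theorem TT_insert (i : ι) (S : Finset X.P) (p : X.P) (hp : p ∉ S) :
    X.TT i (insert p S) = (∑ U ∈ S.powerset, (Real.sqrt (X.M i (insert p S) U) +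
      Real.sqrt (X.M i (insert p S) (insert p U)))) / (2 * 2 ^ S.card) := by
  unfold AD.TT
  rw [Finset.sum_powerset_insert hp, card_insert_of_notMem hp, ← sum_add_distrib, pow_succ,
    mul_comm (2 : ℝ)]

theorem TT_mul {A0 : ℝ}
    (hmul : ∀ i S U p, U ⊆ S → p ∉ S → ∀ U' : Finset X.P, U' = U ∨ U' = insert p U →
      Real.sqrt (X.M i (insert p S) U') ≤ A0 * Real.sqrt (X.M i S U))
    (i : ι) (S : Finset X.P) (p : X.P) (hp : p ∉ S) :
    X.TT i (insert p S) ≤ A0 * X.TT i S := by
  rw [TT_insert X i S p hp, div_le_iff₀ (by positivity)]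
  have h1 : ∑ U ∈ S.powerset, (Real.sqrt (X.M i (insert p S) U) +
      Real.sqrt (X.M i (insert p S) (insert p U))) ≤
      ∑ U ∈ S.powerset, (2 * A0) * Real.sqrt (X.M i S U) := by
    apply sum_le_sum
    intro U hU
    have hU' := mem_powerset.1 hU
    have h2 := hmul i S U p hU' hp U (Or.inl rfl)
    have h3 := hmul i S U p hU' hp (insert p U) (Or.inr rfl)
    linarith
  refine h1.trans (le_of_eq ?_)
  rw [← mul_sum]
  unfold AD.TT
  field_simp

theorem TT_contr {A ρ : ℝ} {q k : ℕ} (i : ι) (S : Finset X.P)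
    (hc : ∀ U, U ⊆ S →
      (k : ℝ) * ∑ p ∈ (X.pr k).filter (fun p => p ∉ S), Real.sqrt (X.M i (insert p S) U) ≤
        (q : ℝ) ^ k * (A + ρ * Real.sqrt (X.M i S U)) ∧
      (k : ℝ) * ∑ p ∈ (X.pr k).filter (fun p => p ∉ S),
        Real.sqrt (X.M i (insert p S) (insert p U)) ≤
        (q : ℝ) ^ k * (A + ρ * Real.sqrt (X.M i S U))) :
    (k : ℝ) * ∑ p ∈ (X.pr k).filter (fun p => p ∉ S), X.TT i (insert p S) ≤
      (q : ℝ) ^ k * (A + ρ * X.TT i S) := by
  have h1 : ∑ p ∈ (X.pr k).filter (fun p => p ∉ S), X.TT i (insert p S) =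
      (∑ U ∈ S.powerset, (∑ p ∈ (X.pr k).filter (fun p => p ∉ S),
          Real.sqrt (X.M i (insert p S) U) +
        ∑ p ∈ (X.pr k).filter (fun p => p ∉ S),
          Real.sqrt (X.M i (insert p S) (insert p U)))) / (2 * 2 ^ S.card) := by
    rw [sum_congr rfl (fun p hp => TT_insert X i S p (mem_filter.1 hp).2), ← sum_div]
    congr 1
    rw [sum_comm]
    apply sum_congr rfl
    intro U _
    rw [sum_add_distrib]
  rw [h1, ← mul_div_assoc, div_le_iff₀ (by positivity), mul_sum]
  have h2 : ∑ U ∈ S.powerset, (k : ℝ) * (∑ p ∈ (X.pr k).filter (fun p => p ∉ S),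
          Real.sqrt (X.M i (insert p S) U) +
        ∑ p ∈ (X.pr k).filter (fun p => p ∉ S),
          Real.sqrt (X.M i (insert p S) (insert p U))) ≤
      ∑ U ∈ S.powerset, (2 * (q : ℝ) ^ k * A + 2 * (q : ℝ) ^ k * ρ * Real.sqrt (X.M i S U)) := by
    apply sum_le_sum
    intro U hU
    obtain ⟨h3, h4⟩ := hc U (mem_powerset.1 hU)
    rw [mul_add]
    linarith
  refine h2.trans (le_of_eq ?_)
  rw [sum_add_distrib, sum_const, card_powerset, nsmul_eq_mul, ← mul_sum]
  unfold AD.TT
  push_cast
  field_simp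

theorem dc (f : Finset X.P → ℝ) (j : ℕ) :
    (j : ℝ) * ∑ S ∈ X.sq j, f S = ∑ k ∈ range (j + 1), ∑ S ∈ X.sq (j - k),
      (k : ℝ) * ∑ p ∈ (X.pr k).filter (fun p => p ∉ S), f (insert p S) := by
  have h1 : (j : ℝ) * ∑ S ∈ X.sq j, f S = ∑ S ∈ X.sq j, ∑ p ∈ S, (X.deg p : ℝ) * f S := by
    rw [mul_sum]
    apply sum_congr rfl
    intro S hS
    rw [← sum_mul]
    congr 1
    have h2 : X.dg S = j := X.mem_sq.1 hS
    rw [← h2]
    unfold AD.dg
    push_cast
    rfl
  have h2 : ∑ S ∈ X.sq j, ∑ p ∈ S, (X.deg p : ℝ) * f S =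
      ∑ p ∈ X.upto j, ∑ S ∈ (X.sq j).filter (fun S => p ∈ S), (X.deg p : ℝ) * f S := by
    apply sum_comm'
    intro S p
    rw [mem_filter, X.mem_upto]
    constructor
    · rintro ⟨h3, h4⟩
      refine ⟨⟨h3, h4⟩, ?_⟩
      have h5 : X.dg S = j := X.mem_sq.1 h3
      rw [← h5]
      exact single_le_sum (f := X.deg) (fun _ _ => Nat.zero_le _) h4
    · rintro ⟨⟨h3, h4⟩, -⟩
      exact ⟨h3, h4⟩
  have h3 : ∀ p ∈ X.upto j, ∑ S ∈ (X.sq j).filter (fun S => p ∈ S), (X.deg p : ℝ) * f S =
      ∑ S ∈ (X.sq (j - X.deg p)).filter (fun S => p ∉ S), (X.deg p : ℝ) * f (insert p S) := by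
    intro p hp
    rw [X.mem_upto] at hp
    refine sum_nbij' (fun S => S.erase p) (fun S => insert p S) ?_ ?_ ?_ ?_ ?_
    · intro S hS
      rw [mem_filter] at hS ⊢
      refine ⟨?_, notMem_erase p S⟩
      rw [X.mem_sq] at hS ⊢
      have h4 : X.deg p + X.dg (S.erase p) = X.dg S := by
        unfold AD.dg
        exact add_sum_erase S X.deg hS.2
      omega
    · intro S hS
      rw [mem_filter] at hS ⊢
      refine ⟨?_, mem_insert_self p S⟩
      rw [X.mem_sq] at hS ⊢
      have h4 : X.dg (insert p S) = X.deg p + X.dg S := by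
        unfold AD.dg
        exact sum_insert hS.2
      omega
    · intro S hS
      exact insert_erase (mem_filter.1 hS).2
    · intro S hS
      exact erase_insert (mem_filter.1 hS).2
    · intro S hS
      show (X.deg p : ℝ) * f S = (X.deg p : ℝ) * f (insert p (S.erase p))
      rw [insert_erase (mem_filter.1 hS).2]
  have h4 : ∑ p ∈ X.upto j, ∑ S ∈ (X.sq (j - X.deg p)).filter (fun S => p ∉ S),
        (X.deg p : ℝ) * f (insert p S) =
      ∑ k ∈ range (j + 1), ∑ p ∈ X.pr k, ∑ S ∈ (X.sq (j - k)).filter (fun S => p ∉ S),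
        (k : ℝ) * f (insert p S) := by
    unfold AD.upto
    rw [sum_biUnion]
    · apply sum_congr rfl
      intro k _
      apply sum_congr rfl
      intro p hp
      rw [(X.mem_pr k p).1 hp]
    · intro a _ b _ hab
      rw [Function.onFun, disjoint_left]
      intro p h5 h6
      exact hab (by rw [← (X.mem_pr a p).1 h5, (X.mem_pr b p).1 h6])
  rw [h1, h2, sum_congr rfl h3, h4]
  apply sum_congr rfl
  intro k _
  rw [sum_congr rfl (fun S _ => mul_sum _ _ _)]
  apply sum_comm'
  intro p S
  rw [mem_filter, mem_filter]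
  constructor
  · rintro ⟨h5, h6, h7⟩
    exact ⟨⟨h5, h7⟩, h6⟩
  · rintro ⟨⟨h5, h7⟩, h6⟩
    exact ⟨h5, h6, h7⟩

end TIaux

open TIaux

theorem hTI : StTI := by
  classical
  intro ι _ X q e hX i
  obtain ⟨A0, hA0, hmul⟩ := hX.mul
  obtain ⟨A, ρ, hA, hρ0, hρ1, hcontr⟩ := hX.contr
  have hq1 : (1 : ℝ) ≤ q := by
    have := hX.two_le
    exact_mod_cast (by omega : 1 ≤ q)
  have hq0 : (0 : ℝ) < q := by linarith
  set δ : ℝ := (1 - ρ) / (4 * (A0 + 1)) with hδ
  have hδ0 : 0 < δ := div_pos (by linarith) (by linarith)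
  have hδA : A0 * δ ≤ (1 - ρ) / 4 := by
    rw [hδ, ← mul_div_assoc, div_le_div_iff₀ (by linarith) (by norm_num)]
    nlinarith
  obtain ⟨k0, hk0⟩ := hcontr δ hδ0
  -- the sums
  let F : ℕ → ℝ := fun j => ∑ S ∈ X.sq j, X.TT i S
  have hF0 : ∀ j, 0 ≤ F j := fun j => sum_nonneg fun S _ => TT_nonneg X i S
  -- the bound for one k
  have hone : ∀ j k : ℕ, k ≤ j →
      ∑ S ∈ X.sq (j - k), (k : ℝ) * ∑ p ∈ (X.pr k).filter (fun p => p ∉ S), X.TT i (insert p S) ≤
      (q : ℝ) ^ k * (A * (q : ℝ) ^ (j - k) + ρ * F (j - k)) +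
        (if k < k0 ∨ (k : ℝ) < δ * j then (q : ℝ) ^ k * (A0 * F (j - k)) else 0) := by
    intro j k hkj
    by_cases hcase : k < k0 ∨ (k : ℝ) < δ * j
    · rw [if_pos hcase]
      have h1 : ∑ S ∈ X.sq (j - k), (k : ℝ) *
          ∑ p ∈ (X.pr k).filter (fun p => p ∉ S), X.TT i (insert p S) ≤
          ∑ S ∈ X.sq (j - k), (q : ℝ) ^ k * (A0 * X.TT i S) := by
        apply sum_le_sum
        intro S _
        have h2 : ∑ p ∈ (X.pr k).filter (fun p => p ∉ S), X.TT i (insert p S) ≤
            ((X.pr k).card : ℝ) * (A0 * X.TT i S) := by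
          calc ∑ p ∈ (X.pr k).filter (fun p => p ∉ S), X.TT i (insert p S)
              ≤ ∑ p ∈ (X.pr k).filter (fun p => p ∉ S), A0 * X.TT i S := by
                apply sum_le_sum
                intro p hp
                exact TT_mul X hmul i S p (mem_filter.1 hp).2
            _ = (((X.pr k).filter (fun p => p ∉ S)).card : ℝ) * (A0 * X.TT i S) := by
                rw [sum_const, nsmul_eq_mul]
            _ ≤ ((X.pr k).card : ℝ) * (A0 * X.TT i S) := by
                apply mul_le_mul_of_nonneg_right _ (mul_nonneg hA0 (TT_nonneg X i S))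
                exact_mod_cast card_filter_le _ _
        have h3 : (k : ℝ) * ((X.pr k).card : ℝ) ≤ (q : ℝ) ^ k := by
          exact_mod_cast hX.pnt k
        calc (k : ℝ) * ∑ p ∈ (X.pr k).filter (fun p => p ∉ S), X.TT i (insert p S)
            ≤ (k : ℝ) * (((X.pr k).card : ℝ) * (A0 * X.TT i S)) :=
              mul_le_mul_of_nonneg_left h2 (Nat.cast_nonneg k)
          _ = ((k : ℝ) * ((X.pr k).card : ℝ)) * (A0 * X.TT i S) := by ring
          _ ≤ (q : ℝ) ^ k * (A0 * X.TT i S) :=
              mul_le_mul_of_nonneg_right h3 (mul_nonneg hA0 (TT_nonneg X i S))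
      have h6 : ∑ S ∈ X.sq (j - k), (q : ℝ) ^ k * (A0 * X.TT i S) =
          (q : ℝ) ^ k * (A0 * F (j - k)) := by
        rw [← mul_sum, ← mul_sum]
      rw [h6] at h1
      have h4 : 0 ≤ (q : ℝ) ^ k * (A * (q : ℝ) ^ (j - k) + ρ * F (j - k)) := by
        have := hF0 (j - k)
        positivity
      linarith
    · rw [if_neg hcase, add_zero]
      push Not at hcase
      obtain ⟨hc1, hc2⟩ := hcase
      have h1 : ∑ S ∈ X.sq (j - k), (k : ℝ) *
          ∑ p ∈ (X.pr k).filter (fun p => p ∉ S), X.TT i (insert p S) ≤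
          ∑ S ∈ X.sq (j - k), ((q : ℝ) ^ k * A + (q : ℝ) ^ k * ρ * X.TT i S) := by
        apply sum_le_sum
        intro S hS
        have hdg : X.dg S = j - k := X.mem_sq.1 hS
        have h2 : δ * X.dg S ≤ k := by
          rw [hdg]
          refine le_trans (mul_le_mul_of_nonneg_left ?_ hδ0.le) hc2
          exact_mod_cast Nat.sub_le j k
        have h3 := TT_contr X (A := A) (ρ := ρ) (q := q) (k := k) i S (by
          intro U hU
          have h4 := hk0 k hc1 i S U hU h2
          constructor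
          · convert h4.1 using 3
          · convert h4.2 using 3)
        linarith
      refine h1.trans ?_
      rw [sum_add_distrib, sum_const, nsmul_eq_mul, ← mul_sum]
      have h5 : ∑ S ∈ X.sq (j - k), X.TT i S = F (j - k) := rfl
      rw [h5]
      have h6 : ((X.sq (j - k)).card : ℝ) ≤ (q : ℝ) ^ (j - k) := by
        exact_mod_cast hX.upper (j - k)
      have h7 : ((X.sq (j - k)).card : ℝ) * ((q : ℝ) ^ k * A) ≤
          (q : ℝ) ^ (j - k) * ((q : ℝ) ^ k * A) :=
        mul_le_mul_of_nonneg_right h6 (by positivity)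
      linarith
  -- the constants
  obtain ⟨j0, hj0⟩ := exists_nat_gt (4 * A0 * (k0 + 1) / (1 - ρ))
  have h1ρ : 0 < 1 - ρ := by linarith
  set B : ℝ := 1 + 2 * A / (1 - ρ) + ∑ j ∈ range (j0 + 1), F j with hB
  have hBs : 0 ≤ ∑ j ∈ range (j0 + 1), F j := sum_nonneg fun j _ => hF0 j
  have hBA : 0 ≤ 2 * A / (1 - ρ) := div_nonneg (by linarith) h1ρ.le
  have hB0 : 0 < B := by linarith
  refine ⟨B, hB0, ?_⟩
  have hmain : ∀ j, F j ≤ B * (q : ℝ) ^ j := by
    intro j
    induction j using Nat.strong_induction_on with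
    | _ j ih =>
    have hqj : (1 : ℝ) ≤ (q : ℝ) ^ j := one_le_pow₀ hq1
    by_cases hj : j ≤ j0
    · have h1 : F j ≤ ∑ j ∈ range (j0 + 1), F j :=
        single_le_sum (f := F) (fun j _ => hF0 j) (mem_range.2 (by omega))
      have h2 : F j ≤ B := by linarith
      calc F j ≤ B * 1 := by rw [mul_one]; exact h2
        _ ≤ B * (q : ℝ) ^ j := mul_le_mul_of_nonneg_left hqj hB0.le
    · push Not at hj
      have hjpos : (0 : ℝ) < j := by
        have : 0 < j := by omega
        exact_mod_cast this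
      have hdc := dc X (fun S => X.TT i S) j
      have hsum : (j : ℝ) * F j ≤ ∑ k ∈ range (j + 1),
          (if k = 0 then 0 else (q : ℝ) ^ j * (A + ρ * B) +
            (if k < k0 ∨ (k : ℝ) < δ * j then (q : ℝ) ^ j * (A0 * B) else 0)) := by
        show (j : ℝ) * ∑ S ∈ X.sq j, X.TT i S ≤ _
        rw [hdc]
        apply sum_le_sum
        intro k hk
        have hkj : k ≤ j := by
          have := mem_range.1 hk
          omega
        by_cases hk0' : k = 0
        · rw [if_pos hk0']
          subst hk0'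
          rw [Nat.cast_zero]
          simp
        · rw [if_neg hk0']
          refine (hone j k hkj).trans ?_
          have hlt : j - k < j := by omega
          have h1 := ih (j - k) hlt
          have hqq : (q : ℝ) ^ k * (q : ℝ) ^ (j - k) = (q : ℝ) ^ j := by
            rw [← pow_add]
            congr 1
            omega
          have hqk : (0 : ℝ) < (q : ℝ) ^ k := by positivity
          have h2 : (q : ℝ) ^ k * (A * (q : ℝ) ^ (j - k) + ρ * F (j - k)) ≤
              (q : ℝ) ^ j * (A + ρ * B) := by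
            have h3 : ρ * F (j - k) ≤ ρ * (B * (q : ℝ) ^ (j - k)) :=
              mul_le_mul_of_nonneg_left h1 hρ0
            calc (q : ℝ) ^ k * (A * (q : ℝ) ^ (j - k) + ρ * F (j - k))
                ≤ (q : ℝ) ^ k * (A * (q : ℝ) ^ (j - k) + ρ * (B * (q : ℝ) ^ (j - k))) := by
                  apply mul_le_mul_of_nonneg_left _ hqk.le
                  linarith
              _ = ((q : ℝ) ^ k * (q : ℝ) ^ (j - k)) * (A + ρ * B) := by ring
              _ = _ := by rw [hqq]
          have h4 : (if k < k0 ∨ (k : ℝ) < δ * j then (q : ℝ) ^ k * (A0 * F (j - k)) else 0) ≤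
              (if k < k0 ∨ (k : ℝ) < δ * j then (q : ℝ) ^ j * (A0 * B) else 0) := by
            split_ifs
            · calc (q : ℝ) ^ k * (A0 * F (j - k)) ≤
                  (q : ℝ) ^ k * (A0 * (B * (q : ℝ) ^ (j - k))) := by
                    apply mul_le_mul_of_nonneg_left _ hqk.le
                    exact mul_le_mul_of_nonneg_left h1 hA0
                _ = ((q : ℝ) ^ k * (q : ℝ) ^ (j - k)) * (A0 * B) := by ring
                _ = _ := by rw [hqq]
            · exact le_refl _
          linarith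
      have hcount : ∑ k ∈ range (j + 1),
          (if k = 0 then 0 else (q : ℝ) ^ j * (A + ρ * B) +
            (if k < k0 ∨ (k : ℝ) < δ * j then (q : ℝ) ^ j * (A0 * B) else 0)) ≤
          (j : ℝ) * ((q : ℝ) ^ j * (A + ρ * B)) + (k0 + (δ * j + 1)) * ((q : ℝ) ^ j * (A0 * B)) := by
        rw [sum_range_succ']
        rw [if_pos rfl, add_zero]
        have h1 : ∀ k ∈ range j, (if k + 1 = 0 then 0 else (q : ℝ) ^ j * (A + ρ * B) +
            (if k + 1 < k0 ∨ ((k + 1 : ℕ) : ℝ) < δ * j then (q : ℝ) ^ j * (A0 * B) else 0)) ≤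
            (q : ℝ) ^ j * (A + ρ * B) + ((if k < k0 then (q : ℝ) ^ j * (A0 * B) else 0) +
              (if k < ⌈δ * j⌉₊ then (q : ℝ) ^ j * (A0 * B) else 0)) := by
          intro k _
          rw [if_neg (Nat.succ_ne_zero k)]
          have hnn : 0 ≤ (q : ℝ) ^ j * (A0 * B) := by positivity
          have h2 : (if k + 1 < k0 ∨ ((k + 1 : ℕ) : ℝ) < δ * j then
              (q : ℝ) ^ j * (A0 * B) else 0) ≤
              ((if k < k0 then (q : ℝ) ^ j * (A0 * B) else 0) +
              (if k < ⌈δ * j⌉₊ then (q : ℝ) ^ j * (A0 * B) else 0)) := by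
            by_cases hc : k + 1 < k0 ∨ ((k + 1 : ℕ) : ℝ) < δ * j
            · rw [if_pos hc]
              rcases hc with hc | hc
              · rw [if_pos (by omega : k < k0)]
                split_ifs <;> linarith
              · have h3 : k < ⌈δ * j⌉₊ := by
                  rw [Nat.lt_ceil]
                  push_cast at hc
                  linarith
                rw [if_pos h3]
                split_ifs <;> linarith
            · rw [if_neg hc]
              split_ifs <;> linarith
          linarith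
        refine (sum_le_sum h1).trans ?_
        have hcut : ∀ m : ℕ, ∑ k ∈ range j, (if k < m then (q : ℝ) ^ j * (A0 * B) else 0) ≤
            (m : ℝ) * ((q : ℝ) ^ j * (A0 * B)) := by
          intro m
          have hnn : 0 ≤ (q : ℝ) ^ j * (A0 * B) := by positivity
          rw [← sum_filter, sum_const, nsmul_eq_mul]
          apply mul_le_mul_of_nonneg_right _ hnn
          have h4 : ((range j).filter (fun k => k < m)).card ≤ m := by
            calc ((range j).filter (fun k => k < m)).card ≤ (range m).card := by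
                  apply card_le_card
                  intro k hk
                  exact mem_range.2 (mem_filter.1 hk).2
              _ = m := card_range m
          exact_mod_cast h4
        rw [sum_add_distrib, sum_add_distrib, sum_const, card_range, nsmul_eq_mul]
        have h5 := hcut k0
        have h6 := hcut ⌈δ * j⌉₊
        have h7 : (⌈δ * j⌉₊ : ℝ) ≤ δ * j + 1 := (Nat.ceil_lt_add_one (by positivity)).le
        have hnn : 0 ≤ (q : ℝ) ^ j * (A0 * B) := by positivity
        have h8 := mul_le_mul_of_nonneg_right h7 hnn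
        linarith
      have hfin : (j : ℝ) * F j ≤ (j : ℝ) * (B * (q : ℝ) ^ j) := by
        refine (hsum.trans hcount).trans ?_
        have hqjp : (0 : ℝ) < (q : ℝ) ^ j := by positivity
        have h1 : A ≤ (1 - ρ) / 2 * B := by
          have h2 : 2 * A / (1 - ρ) ≤ B := by linarith
          rw [div_le_iff₀ h1ρ] at h2
          linarith
        have h2 : A0 * (k0 + 1) ≤ (1 - ρ) / 4 * j := by
          have h3 : 4 * A0 * (k0 + 1) / (1 - ρ) < (j : ℝ) := by
            refine hj0.trans ?_
            exact_mod_cast hj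
          rw [div_lt_iff₀ h1ρ] at h3
          linarith
        have h3 : (j : ℝ) * (A + ρ * B) + (k0 + (δ * j + 1)) * (A0 * B) ≤ j * B := by
          have e1 : (k0 + (δ * j + 1)) * (A0 * B) = (A0 * (k0 + 1)) * B + (A0 * δ) * (j * B) := by
            ring
          rw [e1]
          have e2 := mul_le_mul_of_nonneg_right h2 hB0.le
          have e3 := mul_le_mul_of_nonneg_right hδA (mul_nonneg hjpos.le hB0.le)
          have e4 := mul_le_mul_of_nonneg_left h1 hjpos.le
          nlinarith
        have h4 := mul_le_mul_of_nonneg_left h3 hqjp.le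
        calc (j : ℝ) * ((q : ℝ) ^ j * (A + ρ * B)) + (k0 + (δ * j + 1)) * ((q : ℝ) ^ j * (A0 * B))
            = (q : ℝ) ^ j * ((j : ℝ) * (A + ρ * B) + (k0 + (δ * j + 1)) * (A0 * B)) := by ring
          _ ≤ (q : ℝ) ^ j * (j * B) := h4
          _ = (j : ℝ) * (B * (q : ℝ) ^ j) := by ring
      exact le_of_mul_le_mul_left hfin hjpos
  exact hmain

end Pool.Agent.Helper3.GT

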