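import Pool.Agent.Helper3.GT.St

set_option autoImplicit false

namespace Pool.Agent.Helper3.GT

open Polynomial Finset Filter Topology
open Pool.Agent.Helper54.PT (Prm prm IsAbsP IsAbsInf)
open Pool.Agent.Helper3.HY (fK RR LL kp red TwAt twGroup baseChange)

private theorem zmod2_add_self (x : ZMod 2) : x + x = 0 := by
  revert x; decide

theorem hXH (hFIN : StFIN) (hSG : StSG) (hOE : StOE) : StXH := by
  intro F _ _ h2 g hg f hm hdeg hsep hdisc _ P hP S D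
  have hnt : Nontrivial (LL f) := inferInstance
  obtain ⟨C, hC⟩ := hFIN F f hm hsep hdisc
  obtain ⟨hfin, -⟩ := hC S D
  obtain ⟨H, hH, hHsq⟩ := hSG F f hm S D
  obtain ⟨hmul, -, -, -⟩ := hOE F h2 g hg f hm hdeg hsep P hP
  have hmemH : ∀ z : (LL f)ˣ, z ∈ SelS f S D ↔ z ∈ H := fun z => by
    rw [← hH]; rfl
  set π : (LL f)ˣ → (LL f)ˣ ⧸ (powMonoidHom 2 : (LL f)ˣ →* (LL f)ˣ).range :=
    QuotientGroup.mk with hπ
  set A := π '' SelS f S D with hA
  set B := π '' {z | z ∈ SelS f S D ∧ ∀ ψ ∈ facs f P, ep P ψ (z : LL f) = 0} with hB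
  have hBA : B ⊆ A := Set.image_mono fun z hz => hz.1
  have hBfin : B.Finite := hfin.subset hBA
  have hep1 : ∀ ψ ∈ facs f P, ep P ψ (1 : LL f) = 0 := by
    intro ψ hψ
    have h := (hmul ψ hψ 1 1 one_ne_zero one_ne_zero).2
    rw [mul_one] at h
    have h' : ep P ψ (1 : LL f) + 0 = ep P ψ (1 : LL f) + ep P ψ (1 : LL f) := by
      rw [add_zero]; exact h
    exact (add_left_cancel h').symm
  have hXB : XS f S D P = B.ncard := rfl
  have hMA : MS f S D = A.ncard := rfl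
  rw [hXB, hMA]
  refine ⟨?_, Set.ncard_le_ncard hBA hfin, ?_⟩
  · rw [Nat.one_le_iff_ne_zero, ← Nat.pos_iff_ne_zero, Set.ncard_pos hBfin]
    refine ⟨π 1, 1, ⟨(hmemH 1).2 H.one_mem, fun ψ hψ => ?_⟩, rfl⟩
    rw [Units.val_one]
    exact hep1 ψ hψ
  · rintro ⟨z₀, hz₀, ψ₀, hψ₀, hne⟩
    have hinj : Function.Injective fun b : (LL f)ˣ ⧸ (powMonoidHom 2 : (LL f)ˣ →* (LL f)ˣ).range =>
        π z₀ * b := (Equiv.mulLeft (π z₀)).injective
    have hsub : (fun b => π z₀ * b) '' B ⊆ A := by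
      rintro _ ⟨_, ⟨z, hz, rfl⟩, rfl⟩
      refine ⟨z₀ * z, (hmemH _).2 (H.mul_mem ((hmemH _).1 hz₀) ((hmemH _).1 hz.1)), ?_⟩
      exact QuotientGroup.mk_mul _ z₀ z
    have hdis : Disjoint ((fun b => π z₀ * b) '' B) B := by
      rw [Set.disjoint_left]
      rintro _ ⟨_, ⟨z, hz, rfl⟩, rfl⟩ ⟨w, hw, hwe⟩
      have hwe' : (QuotientGroup.mk w : (LL f)ˣ ⧸ (powMonoidHom 2 : (LL f)ˣ →* (LL f)ˣ).range) =
          QuotientGroup.mk (z₀ * z) := hwe.trans (QuotientGroup.mk_mul _ z₀ z).symm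
      rw [QuotientGroup.eq] at hwe'
      obtain ⟨u, hu⟩ := hwe'
      have hu2 : u ^ 2 = w⁻¹ * (z₀ * z) := hu
      have h3 : w * (u * u) = z₀ * z := by
        rw [← sq, hu2, ← mul_assoc, mul_inv_cancel, one_mul]
      have h4 : (w : LL f) * ((u : LL f) * (u : LL f)) = (z₀ : LL f) * (z : LL f) := by
        have := congrArg (fun t : (LL f)ˣ => (t : LL f)) h3
        simpa only [Units.val_mul] using this
      have h5 := congrArg (ep P ψ₀) h4
      rw [(hmul ψ₀ hψ₀ (w : LL f) ((u : LL f) * (u : LL f)) w.ne_zero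
          (mul_ne_zero u.ne_zero u.ne_zero)).2,
        (hmul ψ₀ hψ₀ (u : LL f) (u : LL f) u.ne_zero u.ne_zero).2,
        (hmul ψ₀ hψ₀ (z₀ : LL f) (z : LL f) z₀.ne_zero z.ne_zero).2,
        hw.2 ψ₀ hψ₀, hz.2 ψ₀ hψ₀, zmod2_add_self, add_zero, add_zero] at h5
      exact hne h5.symm
    calc 2 * B.ncard = ((fun b => π z₀ * b) '' B).ncard + B.ncard := by
          rw [Set.ncard_image_of_injective _ hinj, two_mul]
      _ = (((fun b => π z₀ * b) '' B) ∪ B).ncard :=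
          (Set.ncard_union_eq hdis (hBfin.image _) hBfin).symm
      _ ≤ A.ncard := Set.ncard_le_ncard (Set.union_subset hsub hBA) hfin

end Pool.Agent.Helper3.GT
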