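import Pool.Agent.Helper3.GT.Asm
import Pool.Agent.Helper3.GT.M_AB
import Pool.Agent.Helper3.GT.M_CONTR
import Pool.Agent.Helper3.GT.M_CRT
import Pool.Agent.Helper3.GT.M_CTR
import Pool.Agent.Helper3.GT.M_FAC
import Pool.Agent.Helper3.GT.M_IRR
import Pool.Agent.Helper3.GT.M_LST
import Pool.Agent.Helper3.GT.M_MK
import Pool.Agent.Helper3.GT.M_ND
import Pool.Agent.Helper3.GT.M_RDC
import Pool.Agent.Helper3.GT.M_RE
import Pool.Agent.Helper3.GT.M_REC
import Pool.Agent.Helper3.GT.M_SB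
import Pool.Agent.Helper3.GT.M_SC
import Pool.Agent.Helper3.GT.M_SG
import Pool.Agent.Helper3.GT.M_SQF
import Pool.Agent.Helper3.GT.M_ST
import Pool.Agent.Helper3.GT.M_TI
import Pool.Agent.Helper3.GT.M_XH

/-!
# GT: the main theorem from the local, the Chebotarev and the duality parts
-/

set_option autoImplicit false

namespace Pool.Agent.Helper3.GT

/-- The main theorem from (FIN), (L1), (L2), (OE), (INV), (ISOG), (A1), (A1'), (A2). -/
theorem main_rest (hFIN : StFIN) (hL1 : StL1) (hL2 : StL2) (hOE : StOE) (hINV : StINV)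
    (hISOG : StISOG) (hA1 : StA1) (hA1p : StA1p) (hA2 : StA2) : StMain := by
  have hCONTR : StCONTR := Pool.Agent.Helper3.GT.hCONTR hFIN hSG hOE hISOG hL2 hFAC
  have hXH : StXH := Pool.Agent.Helper3.GT.hXH hFIN hSG hOE
  exact main_of (Pool.Agent.Helper3.GT.hAB (hMK hTI) hST hND) hIRR (hCTR hCONTR hFIN hOE hFAC hA1 hXH)
    (hRDC hCONTR hXH hFIN hOE hFAC hIRR hA1p hA2) (hLST hREC hA2 hIRR) hSQF hCONTR hXH (hSC hINV) hRE
    hCRT hFIN hSG hFAC (hSB hL1 hSG)

end Pool.Agent.Helper3.GT
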