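import Pool.Agent.Helper3.GT.StL
import Pool.Agent.Helper54.HL.M_CV
import Pool.Agent.Helper54.HL.M_RA
import Pool.Agent.Helper54.HL.M_RB
import Pool.Agent.Helper54.HL.M_NMB
import Pool.Agent.Helper54.HL.M_NR

/-!
# GT module CG: comparison of `RepG` with `Rep`
-/

set_option autoImplicit false

namespace Pool.Agent.Helper3.GT

open Polynomial Finset
open Pool.Agent.Helper54.PT (Prm prm IsAbsP IsAbsInf)
open Pool.Agent.Helper3.HY (fK RR LL kp red TwAt twGroup baseChange NearOne IsTwPoint)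
open Pool.Agent.Helper54.HL

namespace CGm

section

variable {F : Type} [Field F] {f : F[X][X]} {P : Prm F} {O k : Type} [CommRing O] [Field k]
  [Algebra O k] {i : F[X] →+* O} {j : RatFunc F →+* k} {ρ : O →+* kp P} {g₀ : O[X]}

theorem rep_ne {π : O} (hA : RepA k π ρ g₀) {z : AdjoinRoot (tk k g₀)} {e : ℤ}
    {s : AdjoinRoot (g₀.map ρ)} (hr : Rep π ρ g₀ z e s) : z ≠ 0 := by
  rintro rfl
  have h1 := hA.mul _ _ _ _ _ _ hr (hA.pow 1)
  rw [zero_mul] at h1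
  have h2 := (hA.uniq _ _ _ _ _ hr h1).1
  omega

theorem ev_ne {π : O} (hA : RepA k π ρ g₀) [Fact (Irreducible (fK f))]
    (hd : tk k g₀ ∣ (fK f).map j) {z : LL f} (hz : z ≠ 0) :
    pr hd (baseChange j (fK f) z) ≠ 0 := by
  have : Fact (Irreducible (tk k g₀)) := ⟨hA.irr⟩
  intro h0
  have h1 : pr hd (baseChange j (fK f) (z * z⁻¹)) = 0 := by
    rw [map_mul, map_mul, h0, zero_mul]
  rw [mul_inv_cancel₀ hz, map_one, map_one] at h1
  exact one_ne_zero h1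

theorem rep_mk (hL : LD P i j ρ) {π : O} (hA : RepA k π ρ g₀)
    (hd : tk k g₀ ∣ (fK f).map j) (p : F[X][X])
    (h : AdjoinRoot.mk (g₀.map ρ) (p.map (red P)) ≠ 0) :
    Rep π ρ g₀ (pr hd (baseChange j (fK f) (algebraMap (RR f) (LL f) (AdjoinRoot.mk f p)))) 0
      (AdjoinRoot.mk (g₀.map ρ) (p.map (red P))) := by
  rw [ev_mk_CV hL hd, ← hL.map_red]
  rw [← hL.map_red] at h
  exact hA.int _ h

theorem rep_P (hL : LD P i j ρ) (hA : RepA k (i P.1) ρ g₀)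
    (hd : tk k g₀ ∣ (fK f).map j) (e : ℤ) :
    Rep (i P.1) ρ g₀ (pr hd (baseChange j (fK f)
      (algebraMap (RatFunc F) (LL f) (algebraMap F[X] (RatFunc F) P.1 ^ e)))) e 1 := by
  have h : pr hd (baseChange j (fK f)
      (algebraMap (RatFunc F) (LL f) (algebraMap F[X] (RatFunc F) P.1 ^ e))) =
      AdjoinRoot.mk (tk k g₀) (C (algebraMap O k (i P.1) ^ e)) := by
    have h1 : algebraMap (RatFunc F) (LL f) (algebraMap F[X] (RatFunc F) P.1 ^ e) =
        AdjoinRoot.mk (fK f) (C (algebraMap F[X] (RatFunc F) P.1 ^ e)) := rfl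
    rw [h1, baseChange_mk_CV, pr_mk, Polynomial.map_C, map_zpow₀, hL.comp]
  rw [h]
  exact hA.pow e

theorem repG_rep (hL : LD P i j ρ) (hA : RepA k (i P.1) ρ g₀)
    (hirr : Irreducible (g₀.map ρ)) (hd : tk k g₀ ∣ (fK f).map j) {z : LL f} {e : ℤ}
    {s : AdjoinRoot (g₀.map ρ)} (h : RepG P (g₀.map ρ) z e s) :
    Rep (i P.1) ρ g₀ (pr hd (baseChange j (fK f) z)) e s := by
  have : Fact (Irreducible (g₀.map ρ)) := ⟨hirr⟩
  obtain ⟨hs, p, a, ha, hp, hz⟩ := h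
  have h1 := rep_mk hL hA hd a ha
  have h2 : AdjoinRoot.mk (g₀.map ρ) (p.map (red P)) ≠ 0 := by
    rw [hp]; exact mul_ne_zero hs ha
  have h3 := rep_mk hL hA hd p h2
  have h4 := rep_P hL hA hd e
  have h5 := hA.mul _ _ _ _ _ _ h4 h3
  rw [← map_mul, ← map_mul, ← hz, map_mul, map_mul] at h5
  have hz0 : pr hd (baseChange j (fK f) z) ≠ 0 := left_ne_zero_of_mul (rep_ne hA h5)
  obtain ⟨e', s', h6⟩ := hA.ex _ hz0
  have h7 := hA.mul _ _ _ _ _ _ h6 h1
  obtain ⟨h8, h9⟩ := hA.uniq _ _ _ _ _ h7 h5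
  rw [one_mul, hp] at h9
  have h10 : e' = e := by omega
  have h11 : s' = s := mul_right_cancel₀ ha h9
  rw [← h10, ← h11]
  exact h6

/-- The division step. -/
theorem step {ψ : (kp P)[X]} (hψ : Irreducible ψ) (hsq : Squarefree (f.map (red P)))
    (hf : ψ ∣ f.map (red P)) {p : F[X][X]} (hp : ψ ∣ p.map (red P)) :
    ∃ H p' : F[X][X], AdjoinRoot.mk ψ (H.map (red P)) ≠ 0 ∧
      AdjoinRoot.mk f H * AdjoinRoot.mk f p =
        AdjoinRoot.mk f (C P.1) * AdjoinRoot.mk f p' := by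
  obtain ⟨h', hh'⟩ := hf
  obtain ⟨w', hw'⟩ := hp
  obtain ⟨G, hG⟩ := red_surj_CV (P := P) ψ
  obtain ⟨H, hH⟩ := red_surj_CV (P := P) h'
  obtain ⟨w, hw⟩ := red_surj_CV (P := P) w'
  obtain ⟨c, hc⟩ := red_eq_zero_CV (P := P) (f - G * H) (by
    rw [Polynomial.map_sub, Polynomial.map_mul, hG, hH, hh', sub_self])
  obtain ⟨u, hu⟩ := red_eq_zero_CV (P := P) (p - G * w) (by
    rw [Polynomial.map_sub, Polynomial.map_mul, hG, hw, hw', sub_self])
  refine ⟨H, H * u - c * w, ?_, ?_⟩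
  · rw [hH, Ne, AdjoinRoot.mk_eq_zero]
    rintro ⟨t, ht⟩
    refine hψ.not_isUnit (hsq ψ ⟨t, ?_⟩)
    rw [hh', ht]; ring
  · rw [← map_mul, ← map_mul, AdjoinRoot.mk_eq_mk]
    refine ⟨w, ?_⟩
    have e1 : p = G * w + C P.1 * u := by rw [← hu]; ring
    have e2 : f = G * H + C P.1 * c := by rw [← hc]; ring
    rw [e1]
    calc H * (G * w + C P.1 * u) - C P.1 * (H * u - c * w)
        = (G * H + C P.1 * c) * w := by ring
      _ = f * w := by rw [← e2]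

theorem exist_nat (hL : LD P i j ρ) (hA : RepA k (i P.1) ρ g₀) (hB : RepB k (i P.1) ρ g₀)
    (hirr : Irreducible (g₀.map ρ)) (hd : tk k g₀ ∣ (fK f).map j)
    (hsq : Squarefree (f.map (red P))) (hfd : g₀.map ρ ∣ f.map (red P)) (m : ℕ) :
    ∀ (p : F[X][X]) (s : AdjoinRoot (g₀.map ρ)),
      Rep (i P.1) ρ g₀ (pr hd (baseChange j (fK f) (algebraMap (RR f) (LL f) (AdjoinRoot.mk f p))))
        m s →
      ∃ (n : ℕ) (p₁ a₁ : F[X][X]), AdjoinRoot.mk (g₀.map ρ) (a₁.map (red P)) ≠ 0 ∧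
        AdjoinRoot.mk (g₀.map ρ) (p₁.map (red P)) ≠ 0 ∧
        AdjoinRoot.mk f p * AdjoinRoot.mk f a₁ =
          AdjoinRoot.mk f (C P.1) ^ n * AdjoinRoot.mk f p₁ := by
  have : Fact (Irreducible (g₀.map ρ)) := ⟨hirr⟩
  induction m using Nat.strong_induction_on with
  | _ m ih =>
    intro p s hr
    by_cases h0 : AdjoinRoot.mk (g₀.map ρ) (p.map (red P)) = 0
    · obtain ⟨H, p', hH, hHp⟩ := step hirr hsq hfd (AdjoinRoot.mk_eq_zero.1 h0)
      have h1 := rep_mk hL hA hd H hH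
      have h2 := hA.mul _ _ _ _ _ _ h1 hr
      have h3 : algebraMap (RR f) (LL f) (AdjoinRoot.mk f (C P.1)) =
          algebraMap (RatFunc F) (LL f) (algebraMap F[X] (RatFunc F) P.1 ^ (1 : ℤ)) := by
        rw [zpow_one, Pool.Agent.Helper3.HY.algebraMap_mk, Polynomial.map_C]
        rfl
      rw [← map_mul, ← map_mul, ← map_mul, hHp, map_mul, map_mul, map_mul, h3] at h2
      have h4 := rep_P hL hA hd 1
      have h5 := right_ne_zero_of_mul (rep_ne hA h2)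
      obtain ⟨e', s', h6⟩ := hA.ex _ h5
      obtain ⟨m', hm', -⟩ := hB.ord (p'.map i) e' s' (by rw [← ev_mk_CV hL hd]; exact h6)
      have h7 := hA.mul _ _ _ _ _ _ h4 h6
      have h8 := (hA.uniq _ _ _ _ _ h2 h7).1
      subst hm'
      obtain ⟨n, p₁, a₁, ha₁, hp₁, hh⟩ := ih m' (by omega) p' s' h6
      refine ⟨n + 1, p₁, H * a₁, ?_, hp₁, ?_⟩
      · rw [Polynomial.map_mul, map_mul]
        exact mul_ne_zero hH ha₁
      · rw [map_mul]
        calc AdjoinRoot.mk f p * (AdjoinRoot.mk f H * AdjoinRoot.mk f a₁)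
            = (AdjoinRoot.mk f H * AdjoinRoot.mk f p) * AdjoinRoot.mk f a₁ := by ring
          _ = AdjoinRoot.mk f (C P.1) * (AdjoinRoot.mk f p' * AdjoinRoot.mk f a₁) := by
              rw [hHp]; ring
          _ = _ := by rw [hh]; ring
    · refine ⟨0, p, 1, ?_, h0, ?_⟩
      · rw [Polynomial.map_one, map_one]; exact one_ne_zero
      · rw [map_one, pow_zero, mul_one, one_mul]

theorem exG [Fact (Irreducible (fK f))] (hL : LD P i j ρ) (hA : RepA k (i P.1) ρ g₀)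
    (hB : RepB k (i P.1) ρ g₀)
    (hirr : Irreducible (g₀.map ρ)) (hd : tk k g₀ ∣ (fK f).map j)
    (hsq : Squarefree (f.map (red P))) (hfd : g₀.map ρ ∣ f.map (red P)) (z : LL f) (hz : z ≠ 0) :
    ∃ (e : ℤ) (s : AdjoinRoot (g₀.map ρ)), RepG P (g₀.map ρ) z e s := by
  have : Fact (Irreducible (g₀.map ρ)) := ⟨hirr⟩
  obtain ⟨q, rfl⟩ := AdjoinRoot.mk_surjective z
  obtain ⟨b, hb, hbq⟩ := IsLocalization.integerNormalization_spec (nonZeroDivisors F[X]) q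
  set p := IsLocalization.integerNormalization (nonZeroDivisors F[X]) q with hp
  have hb0 : b ≠ 0 := nonZeroDivisors.ne_zero hb
  have hbq' : p.map (algebraMap F[X] (RatFunc F)) = C (algebraMap F[X] (RatFunc F) b) * q := by
    rw [hbq, ← Polynomial.smul_eq_C_mul]
    exact (algebraMap_smul (RatFunc F) b q).symm
  have hzp : algebraMap (RR f) (LL f) (AdjoinRoot.mk f p) =
      algebraMap (RatFunc F) (LL f) (algebraMap F[X] (RatFunc F) b) * AdjoinRoot.mk (fK f) q := by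
    rw [Pool.Agent.Helper3.HY.algebraMap_mk, hbq', map_mul]
    rfl
  have hinjA : Function.Injective (algebraMap F[X] (RatFunc F)) := RatFunc.algebraMap_injective F
  have hbK : algebraMap F[X] (RatFunc F) b ≠ 0 := by rwa [Ne, map_eq_zero_iff _ hinjA]
  have hbL : algebraMap (RatFunc F) (LL f) (algebraMap F[X] (RatFunc F) b) ≠ 0 := by
    rwa [Ne, map_eq_zero]
  have hpne : algebraMap (RR f) (LL f) (AdjoinRoot.mk f p) ≠ 0 := by
    rw [hzp]; exact mul_ne_zero hbL hz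
  obtain ⟨e, s, hes⟩ := hA.ex _ (ev_ne hA hd hpne)
  obtain ⟨m, rfl, -⟩ := hB.ord (p.map i) e s (by rw [← ev_mk_CV hL hd]; exact hes)
  obtain ⟨n, p₁, a₁, ha₁, hp₁, hh⟩ := exist_nat hL hA hB hirr hd hsq hfd m p s hes
  obtain ⟨l, b', hb', hbb⟩ := WfDvdMonoid.max_power_factor hb0 P.2.2
  have hb'0 : AdjoinRoot.mk (g₀.map ρ) (C (red P b')) ≠ 0 := by
    have h1 : red P b' ≠ 0 := by rwa [Ne, AdjoinRoot.mk_eq_zero]
    have h2 : AdjoinRoot.mk (g₀.map ρ) (C (red P b')) =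
        algebraMap (kp P) (AdjoinRoot (g₀.map ρ)) (red P b') := rfl
    rw [h2]
    rwa [Ne, map_eq_zero]
  have ha : AdjoinRoot.mk (g₀.map ρ) ((C b' * a₁).map (red P)) ≠ 0 := by
    rw [Polynomial.map_mul, Polynomial.map_C, map_mul]
    exact mul_ne_zero hb'0 ha₁
  refine ⟨(n : ℤ) - l, AdjoinRoot.mk (g₀.map ρ) (p₁.map (red P)) *
    (AdjoinRoot.mk (g₀.map ρ) ((C b' * a₁).map (red P)))⁻¹, mul_ne_zero hp₁ (inv_ne_zero ha),
    p₁, C b' * a₁, ha, ?_, ?_⟩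
  · rw [inv_mul_cancel_right₀ ha]
  · have hPK : algebraMap F[X] (RatFunc F) P.1 ≠ 0 := by
      rw [Ne, map_eq_zero_iff _ hinjA]; exact P.2.2.ne_zero
    set PL := algebraMap (RatFunc F) (LL f) (algebraMap F[X] (RatFunc F) P.1) with hPL
    have hPL0 : PL ≠ 0 := by rwa [hPL, Ne, map_eq_zero]
    have hc : ∀ c : F[X], algebraMap (RR f) (LL f) (AdjoinRoot.mk f (C c)) =
        algebraMap (RatFunc F) (LL f) (algebraMap F[X] (RatFunc F) c) := by
      intro c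
      rw [Pool.Agent.Helper3.HY.algebraMap_mk, Polynomial.map_C]
      rfl
    have h1 := congrArg (algebraMap (RR f) (LL f)) hh
    rw [map_mul, map_mul, map_pow, hc, ← hPL, hzp, hbb, map_mul, map_mul, map_pow, map_pow,
      ← hPL] at h1
    rw [map_mul, map_mul, hc, map_zpow₀, ← hPL, zpow_sub₀ hPL0, zpow_natCast, zpow_natCast,
      div_mul_eq_mul_div, eq_div_iff (pow_ne_zero _ hPL0), ← h1]
    ring

end

end CGm

open CGm in
theorem hCG : StCG := by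
  intro F _ _ f hf _ P hsq O k _ _ _ _ _ _ i j ρ hL g₀ ψ hg hirr hgd hgψ z hz
  subst hgψ
  have aNB : StNB := (hNMB hNR).2.1
  have hA : RepA k (i P.1) ρ g₀ := hRA O k (kp P) (i P.1) ρ hL.unif hL.surj hL.ker g₀ hg hirr
  have hB : RepB k (i P.1) ρ g₀ :=
    hRB hRA aNB O k (kp P) (i P.1) ρ hL.unif hL.surj hL.ker g₀ hg hirr
  have hd : tk k g₀ ∣ (fK f).map j := by
    rw [hL.map f]; exact Polynomial.map_dvd _ hgd
  have hfd : g₀.map ρ ∣ f.map (red P) := by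
    rw [← hL.map_red]; exact Polynomial.map_dvd _ hgd
  have hex := exG hL hA hB hirr hd hsq hfd z hz
  have huniq : ∀ (e e' : ℤ) (s s' : AdjoinRoot (g₀.map ρ)), RepG P (g₀.map ρ) z e s →
      RepG P (g₀.map ρ) z e' s' → e = e' ∧ s = s' := fun e e' s s' h h' =>
    hA.uniq _ _ _ _ _ (repG_rep hL hA hirr hd h) (repG_rep hL hA hirr hd h')
  have hcmp : cmp g₀ (baseChange j (fK f) z) = pr hd (baseChange j (fK f) z) := by
    rw [cmp, dif_pos hd]
  have hiff : ∀ (e : ℤ) (s : AdjoinRoot (g₀.map ρ)), RepG P (g₀.map ρ) z e s ↔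
      Rep (i P.1) ρ g₀ (cmp g₀ (baseChange j (fK f) z)) e s := by
    intro e s
    rw [hcmp]
    constructor
    · exact repG_rep hL hA hirr hd
    · intro h
      obtain ⟨e', s', h'⟩ := hex
      obtain ⟨h1, h2⟩ := hA.uniq _ _ _ _ _ h (repG_rep hL hA hirr hd h')
      rw [h1, h2]
      exact h'
  refine ⟨hex, huniq, ?_, ?_⟩
  · by_cases hx : ∃ (e : ℤ) (s : AdjoinRoot (g₀.map ρ)), Even e ∧ RepG P (g₀.map ρ) z e s
    · have hy : ∃ (e : ℤ) (s : AdjoinRoot (g₀.map ρ)), Even e ∧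
          Rep (i P.1) ρ g₀ (cmp g₀ (baseChange j (fK f) z)) e s := by
        obtain ⟨e, s, he, h⟩ := hx
        exact ⟨e, s, he, (hiff e s).1 h⟩
      rw [om, omL, if_pos hx, if_pos hy]
    · have hy : ¬ ∃ (e : ℤ) (s : AdjoinRoot (g₀.map ρ)), Even e ∧
          Rep (i P.1) ρ g₀ (cmp g₀ (baseChange j (fK f) z)) e s := by
        rintro ⟨e, s, he, h⟩
        exact hx ⟨e, s, he, (hiff e s).2 h⟩
      rw [om, omL, if_neg hx, if_neg hy]
  · by_cases hx : ∃ (e : ℤ) (s : AdjoinRoot (g₀.map ρ)), IsSquare s ∧ RepG P (g₀.map ρ) z e s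
    · have hy : ∃ (e : ℤ) (s : AdjoinRoot (g₀.map ρ)), IsSquare s ∧
          Rep (i P.1) ρ g₀ (cmp g₀ (baseChange j (fK f) z)) e s := by
        obtain ⟨e, s, he, h⟩ := hx
        exact ⟨e, s, he, (hiff e s).1 h⟩
      rw [ep, epL, if_pos hx, if_pos hy]
    · have hy : ¬ ∃ (e : ℤ) (s : AdjoinRoot (g₀.map ρ)), IsSquare s ∧
          Rep (i P.1) ρ g₀ (cmp g₀ (baseChange j (fK f) z)) e s := by
        rintro ⟨e, s, he, h⟩
        exact hx ⟨e, s, he, (hiff e s).2 h⟩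
      rw [ep, epL, if_neg hx, if_neg hy]

end Pool.Agent.Helper3.GT
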