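import Pool.Agent.Helper3.GT.StL
import Pool.Agent.Helper3.GT.M_FAC
import Pool.Agent.Helper54.HL.All
import Pool.Agent.Helper3.HY.Base

/-!
# GT module EIP (helper68)
-/

set_option autoImplicit false

namespace Pool.Agent.Helper3.GT

open Polynomial Finset
open Pool.Agent.Helper54.PT (Prm prm IsAbsP IsAbsInf)
open Pool.Agent.Helper3.HY (fK RR LL kp red TwAt twGroup baseChange NearOne IsTwPoint algebraMap_mk)
open Pool.Agent.Helper54.HL

/-- Clearing denominators by a power of the uniformizer. -/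
private lemma clear_EIP {O k : Type} [CommRing O] [IsDomain O] [IsDiscreteValuationRing O] [Field k]
    [Algebra O k] [IsFractionRing O k] {π : O} (hπ : Irreducible π) (Y : k[X]) :
    ∃ (r : ℕ) (Y₀ : O[X]), C (algebraMap O k (π ^ r)) * Y = tk k Y₀ := by
  obtain ⟨b, hb, hY⟩ := IsLocalization.integerNormalization_spec (nonZeroDivisors O) (S := k) Y
  obtain ⟨r, u, hu⟩ := IsDiscreteValuationRing.associated_pow_irreducible
    (nonZeroDivisors.ne_zero hb) hπ
  refine ⟨r, C (u : O) * IsLocalization.integerNormalization (nonZeroDivisors O) Y, ?_⟩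
  rw [show tk k (C (u : O) * IsLocalization.integerNormalization (nonZeroDivisors O) Y) =
    (C (u : O) * IsLocalization.integerNormalization (nonZeroDivisors O) Y).map
      (algebraMap O k) from rfl, Polynomial.map_mul, hY, map_C, ← hu, map_mul, C_mul,
    ← algebraMap_smul k b Y, smul_eq_C_mul]
  ring

/-- Approximation of a monic polynomial. -/
private lemma approx_EIP {F O : Type} [Field F] [CommRing O] [IsDomain O]
    (i : F[X] →+* O) (π : O) (hd : ∀ (c : O) (n : ℕ), ∃ a : F[X], π ^ n ∣ c - i a)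
    (U₀ : O[X]) (hm : U₀.Monic) (N : ℕ) :
    ∃ (U₁ : F[X][X]) (E : O[X]), U₀ - U₁.map i = C (π ^ N) * E := by
  choose a ha using fun l : ℕ => hd (U₀.coeff l) N
  choose e he using ha
  obtain ⟨m, hm'⟩ : ∃ m, U₀.natDegree = m := ⟨_, rfl⟩
  have h := hm.as_sum
  rw [hm'] at h
  refine ⟨X ^ m + ∑ l ∈ Finset.range m, C (a l) * X ^ l,
    ∑ l ∈ Finset.range m, C (e l) * X ^ l, ?_⟩
  conv_lhs => rw [h]
  rw [Polynomial.map_add, Polynomial.map_pow, map_X, Polynomial.map_sum,
    add_sub_add_left_eq_sub, ← Finset.sum_sub_distrib, Finset.mul_sum]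
  refine Finset.sum_congr rfl fun l _ => ?_
  rw [Polynomial.map_mul, map_C, Polynomial.map_pow, map_X, ← sub_mul, ← C_sub, he l, C_mul]
  ring

theorem hEIP (hUF : StUF) (hNU : StNU) : StEIP := by
  classical
  intro F _ _ h2F f hf hfd _ P hBd O k _ _ _ _ _ _ i j ρ hLD D hD U V hUi hUc hUV hIrr y' hy'
  obtain ⟨U₀, hU₀m, hU₀, ψ, n, hψm, hψi, hn, hψn⟩ := hIrr
  have hinj : Function.Injective (algebraMap O k) := IsFractionRing.injective O k
  have hh : (fK f).map j = tk k (f.map i) := hLD.map f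
  have hf₀ : (f.map i).Monic := hf.map i
  set m := U.natDegree with hm
  have hUm : U.Monic := by rw [← hU₀]; exact hU₀m.map _
  have hm0 : U₀.natDegree = m := by rw [hm, ← hU₀, hU₀m.natDegree_map]
  have hjD : j (algebraMap F[X] (RatFunc F) D) = algebraMap O k (i D) := (hLD.comp D).symm
  have hρunit : ∀ c : O, ρ c ≠ 0 → IsUnit c := by
    intro c hc
    by_contra hcu
    apply hc
    rw [hLD.ker]
    have h12 : c ∈ IsLocalRing.maximalIdeal O := (IsLocalRing.mem_maximalIdeal c).2 hcu
    rw [(IsDiscreteValuationRing.irreducible_iff_uniformizer _).1 hLD.unif,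
      Ideal.mem_span_singleton] at h12
    exact h12
  have hiD : IsUnit (i D) := by
    apply hρunit
    rw [hLD.rho]
    intro h
    exact hD (AdjoinRoot.mk_eq_zero.1 h)
  rw [hjD] at hy' hUV
  -- the inverse
  obtain ⟨Y', rfl⟩ := AdjoinRoot.mk_surjective y'
  obtain ⟨r₀, Y₀, hY₀⟩ := clear_EIP (k := k) hLD.unif Y'
  obtain ⟨U₁, E, hE⟩ := approx_EIP i (i P.1) hLD.dense U₀ hU₀m (r₀ + 1)
  have hEk : U - tk k (U₁.map i) = C (algebraMap O k (i P.1)) * (C (algebraMap O k (i P.1 ^ r₀)) *
      tk k E) := by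
    have h5 := congrArg (fun p : O[X] => p.map (algebraMap O k)) hE
    simp only [Polynomial.map_sub, Polynomial.map_mul, map_C] at h5
    rw [← hU₀]
    refine h5.trans ?_
    rw [pow_succ, map_mul, C_mul]
    ring
  -- the element `z`
  set zp : F[X][X] := C (-D) ^ m * U₁ with hzp
  set z : LL f := algebraMap (RR f) (LL f) (AdjoinRoot.mk f zp) with hz
  have hbc : baseChange j (fK f) z =
      AdjoinRoot.mk ((fK f).map j) (C (-algebraMap O k (i D)) ^ m * tk k (U₁.map i)) := by
    rw [hz, algebraMap_mk, baseChange]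
    have h5 : ∀ p : (RatFunc F)[X], AdjoinRoot.map j (fK f) ((fK f).map j) dvd_rfl
        (AdjoinRoot.mk (fK f) p) = AdjoinRoot.mk ((fK f).map j) (p.map j) := by
      intro p
      rw [AdjoinRoot.map, AdjoinRoot.lift_mk, ← Polynomial.eval₂_map, ← AdjoinRoot.aeval_eq,
        Polynomial.aeval_def]
      rfl
    rw [h5]
    congr 1
    have h6 : ∀ g : F[X][X], (g.map (algebraMap F[X] (RatFunc F))).map j = tk k (g.map i) :=
      fun g => hLD.map g
    rw [h6, hzp, Polynomial.map_mul, Polynomial.map_pow, map_C]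
    rw [show tk k (C (i (-D)) ^ m * U₁.map i) = (C (i (-D)) ^ m * U₁.map i).map (algebraMap O k)
      from rfl, Polynomial.map_mul, Polynomial.map_pow, map_C, map_neg, map_neg]
  set p : O[X] := -(C (-(i D)) ^ m * Y₀ * E) with hp
  have hw1 : baseChange j (fK f) z * AdjoinRoot.mk ((fK f).map j) Y' =
      1 + AdjoinRoot.mk ((fK f).map j) (C (algebraMap O k (i P.1)) * tk k p) := by
    rw [hbc, ← hy', ← map_mul, ← map_mul, ← map_add]
    congr 1
    have h5 : tk k (U₁.map i) = U - C (algebraMap O k (i P.1)) *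
        (C (algebraMap O k (i P.1 ^ r₀)) * tk k E) := by rw [← hEk]; ring
    have h6 : tk k p = -(C (-algebraMap O k (i D)) ^ m * (C (algebraMap O k (i P.1 ^ r₀)) * Y') *
        tk k E) := by
      rw [hY₀, hp]
      rw [show tk k (-(C (-(i D)) ^ m * Y₀ * E)) = (-(C (-(i D)) ^ m * Y₀ * E)).map
        (algebraMap O k) from rfl, Polynomial.map_neg, Polynomial.map_mul, Polynomial.map_mul,
        Polynomial.map_pow, map_C, map_neg]
    rw [h5, h6]
    ring
  have hNr : Nr (i P.1) (baseChange j (fK f) z * AdjoinRoot.mk ((fK f).map j) Y') := ⟨p, hw1⟩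
  obtain ⟨hNG1, hNG2, hNG3⟩ := aNG O k (i P.1) hLD.unif (f.map i) hf₀ _ hh
  obtain ⟨w', hw', hNr'⟩ := hNG2 _ hNr
  obtain ⟨p', hp'⟩ := hNr'
  have hz0 : z ≠ 0 := by
    intro h
    rw [h, map_zero, zero_mul, zero_mul] at hw'
    have h5 : Nontrivial (AdjoinRoot ((fK f).map j)) := by
      refine AdjoinRoot.nontrivial _ ?_
      rw [degree_map]
      have h6 : Irreducible (fK f) := Fact.out
      exact (degree_pos_of_irreducible h6).ne'
    exact zero_ne_one hw'
  refine ⟨Units.mk0 z hz0, ?_, by rw [Units.val_mk0]; exact hNr⟩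
  have hred : U₁.map (red P) = ψ ^ n := by
    rw [← hψn, ← hLD.map_red]
    have h5 := congrArg (fun p : O[X] => p.map ρ) hE
    simp only [Polynomial.map_sub, Polynomial.map_mul, map_C] at h5
    rw [pow_succ, map_mul, (hLD.ker (i P.1)).2 dvd_rfl, mul_zero, C_0, zero_mul, sub_eq_zero] at h5
    exact h5.symm
  have hUnit : UnitAt P (algebraMap (RR f) (LL f) (AdjoinRoot.mk f (C (-D) ^ m))) := by
    refine (hNU F f hf hfd P).1 (C (-D) ^ m) ?_
    intro ψ' hψ' _ hdv
    rw [Polynomial.map_pow, map_C] at hdv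
    have h5 := hψ'.prime.dvd_of_dvd_pow hdv
    have h6 : red P (-D) ≠ 0 := by
      rw [map_neg, neg_ne_zero]
      intro h
      exact hD (AdjoinRoot.mk_eq_zero.1 h)
    exact hψ'.not_isUnit (isUnit_of_dvd_unit h5 (isUnit_C.2 (isUnit_iff_ne_zero.2 h6)))
  have hU₁0 : AdjoinRoot.mk f U₁ ≠ 0 := by
    intro h
    apply hz0
    rw [hz, hzp, map_mul, h, mul_zero, map_zero]
  have hEv : EvP P (algebraMap (RR f) (LL f) (AdjoinRoot.mk f U₁)) := by
    by_cases hψf : ψ ∈ facs f P
    · have hfin : Finite (kp P) := by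
        have : Module.Finite F (kp P) := P.2.1.finite_adjoinRoot
        exact Module.finite_of_finite F
      obtain ⟨m', hm', hev⟩ := aOP O k (kp P) (i P.1) ρ hLD.unif hLD.surj hLD.ker (f.map i) U₀ hf₀
        hU₀m (by rw [hU₀]; exact hUi) (by rw [hU₀, ← hh]; exact hUc) ψ n hψi hψn (i D) (i D) 0 hiD
        (by rw [pow_zero, one_mul]) V (by rw [hU₀, ← hh]; exact hUV)
      rw [zero_mul, add_zero] at hev
      -- the orders agree
      have hass : Ring.ord (AdjoinRoot (f.map i)) (AdjoinRoot.mk (f.map i) U₀) =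
          Ring.ord (AdjoinRoot (f.map i)) (AdjoinRoot.mk (f.map i) (U₁.map i)) := by
        have hdvd : ∀ g : O[X], AdjoinRoot.mk ((fK f).map j) (tk k g) = 0 →
            AdjoinRoot.mk (f.map i) g = 0 := by
          intro g hg
          rw [AdjoinRoot.mk_eq_zero, hh] at hg
          rw [AdjoinRoot.mk_eq_zero]
          exact (map_dvd_map _ hinj hf₀).1 hg
        -- `w₀` is a unit
        have hunit : AdjoinRoot.mk (f.map i) (1 + C (i P.1) * p) *
            AdjoinRoot.mk (f.map i) (1 + C (i P.1) * p') = 1 := by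
          rw [← sub_eq_zero, ← map_mul, ← map_one (AdjoinRoot.mk (f.map i)), ← map_sub]
          apply hdvd
          have h5 : tk k ((1 + C (i P.1) * p) * (1 + C (i P.1) * p') - 1) =
              (1 + C (algebraMap O k (i P.1)) * tk k p) *
                (1 + C (algebraMap O k (i P.1)) * tk k p') - 1 := by
            simp only [tk, Polynomial.map_sub, Polynomial.map_mul, Polynomial.map_add,
              Polynomial.map_one, map_C]
          rw [h5, map_sub, map_mul, map_add, map_add, map_one, ← hw1, ← hp', hw', sub_self]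
        have hmul : AdjoinRoot.mk (f.map i) (C (-(i D)) ^ m) * AdjoinRoot.mk (f.map i) (U₁.map i) =
            AdjoinRoot.mk (f.map i) (C (-(i D)) ^ m) * (AdjoinRoot.mk (f.map i) U₀ *
            AdjoinRoot.mk (f.map i) (1 + C (i P.1) * p)) := by
          rw [← map_mul, ← map_mul, ← map_mul, ← sub_eq_zero, ← map_sub]
          apply hdvd
          have h5 : tk k (C (-(i D)) ^ m * U₁.map i - C (-(i D)) ^ m *
              (U₀ * (1 + C (i P.1) * p))) =
              C (-algebraMap O k (i D)) ^ m * tk k (U₁.map i) -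
                (C (-algebraMap O k (i D)) ^ m * U) * (1 + C (algebraMap O k (i P.1)) * tk k p) := by
            rw [← hU₀]
            simp only [tk, Polynomial.map_sub, Polynomial.map_mul, Polynomial.map_add,
              Polynomial.map_one, Polynomial.map_pow, map_C, map_neg, Polynomial.map_neg]
            ring
          have h7 : AdjoinRoot.mk ((fK f).map j)
              (1 + C (algebraMap O k (i P.1)) * tk k p) =
              baseChange j (fK f) z * AdjoinRoot.mk ((fK f).map j) Y' := by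
            rw [hw1, map_add, map_one]
          have h6 : AdjoinRoot.mk ((fK f).map j) (C (-algebraMap O k (i D)) ^ m * U) *
              (baseChange j (fK f) z * AdjoinRoot.mk ((fK f).map j) Y') =
              baseChange j (fK f) z * (AdjoinRoot.mk ((fK f).map j)
                (C (-algebraMap O k (i D)) ^ m * U) * AdjoinRoot.mk ((fK f).map j) Y') := by ring
          rw [h5, map_sub, ← hbc, map_mul _ (C (-algebraMap O k (i D)) ^ m * U), h7, h6, hy',
            mul_one, sub_self]
        have hDu : IsUnit (AdjoinRoot.mk (f.map i) (C (-(i D)) ^ m)) := by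
          rw [map_pow]
          refine IsUnit.pow m ?_
          exact (hiD.neg.map (C : O →+* O[X])).map (AdjoinRoot.mk (f.map i))
        have hmul2 := hDu.mul_left_cancel hmul
        rw [hmul2, Ring.ord, Ring.ord,
          Ideal.span_singleton_mul_right_unit (IsUnit.of_mul_eq_one _ hunit)]
      refine hUF F f hf hfd P hBd O k i j ρ hLD ψ hψf U₁ hU₁0 ?_ m' (by rw [← hass, hm']) hev
      intro ψ' hψ' hne hdv
      obtain ⟨hψ'm, hψ'i, -⟩ := (MFAC.mem_facs f hf P ψ').1 hψ'
      rw [hred] at hdv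
      have h5 := hψ'i.prime.dvd_of_dvd_pow hdv
      exact hne (eq_of_monic_of_associated hψ'm hψm
        (hψ'i.associated_of_dvd hψi h5))
    · refine ⟨1, one_ne_zero, ?_⟩
      rw [one_pow, mul_one]
      refine (hNU F f hf hfd P).1 U₁ ?_
      intro ψ' hψ' hdf hdv
      rw [hred] at hdv
      have h5 := hψ'.prime.dvd_of_dvd_pow hdv
      have h6 : Associated ψ' ψ := hψ'.associated_of_dvd hψi h5
      exact hψf ((MFAC.mem_facs f hf P ψ).2 ⟨hψm, hψi, (h6.dvd_iff_dvd_left).1 hdf⟩)
  obtain ⟨β, hβ, hβu⟩ := hEv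
  refine ⟨β, hβ, ?_⟩
  rw [Units.val_mk0]
  have h5 : z * β ^ 2 = algebraMap (RR f) (LL f) (AdjoinRoot.mk f (C (-D) ^ m)) *
      (algebraMap (RR f) (LL f) (AdjoinRoot.mk f U₁) * β ^ 2) := by
    rw [hz, hzp, map_mul, map_mul]
    ring
  rw [h5]
  exact (hNU F f hf hfd P).2.2.1 _ _ hUnit hβu

end Pool.Agent.Helper3.GT
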