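import Pool.Agent.Helper3.GT.StL

/-!
# GT, module HF: Hensel factorization over a discrete valuation ring
-/

set_option autoImplicit false

namespace Pool.Agent.Helper3.GT

open Polynomial Finset
open Pool.Agent.Helper54.HL

namespace HFaux

theorem split {O k κ : Type} [CommRing O] [IsDomain O] [IsDiscreteValuationRing O] [Field k]
    [Algebra O k] [IsFractionRing O k] [Field κ] (π : O) (ρ : O →+* κ) (hL : LS k π ρ)
    (hirr : ∀ U : k[X], U.Monic → Irreducible U → IrrInt ρ U ∨ IrrBig π U)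
    (f₀ : O[X]) (hm : f₀.Monic) (U : k[X]) (hU : U.Monic) (hi : Irreducible U)
    (hd : U ∣ tk k f₀) : IrrInt ρ U := by
  rcases hirr U hU hi with h | h
  · exact h
  · exfalso
    obtain ⟨U₀, hU₀⟩ := IsIntegrallyClosed.eq_map_mul_C_of_dvd k hm hd
    rw [hU.leadingCoeff, C_1, mul_one] at hU₀
    obtain ⟨_, h2⟩ := h
    have hdeg : 1 ≤ U.natDegree := hi.natDegree_pos
    obtain ⟨c, hc⟩ := h2 U.natDegree hdeg
    rw [coeff_natDegree, hU.leadingCoeff] at hc
    have h0 : U.coeff 0 = algebraMap O k (U₀.coeff 0) := by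
      rw [← hU₀, coeff_map]
    rw [h0, ← map_mul, ← map_one (algebraMap O k)] at hc
    have hc' := IsFractionRing.injective O k hc
    apply hL.unif.not_isUnit
    apply IsUnit.of_mul_eq_one (U₀.coeff 0 * c)
    rw [hc']; ring

end HFaux

theorem hHF : StHF := by
  intro O k κ _ _ _ _ _ _ _ π ρ hL hirr f₀ fac hm hsq hfac
  classical
  have hmk : (tk k f₀).Monic := hm.map _
  have hne : tk k f₀ ≠ 0 := hmk.ne_zero
  have hTmon : ∀ U ∈ UniqueFactorizationMonoid.normalizedFactors (tk k f₀), U.Monic := by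
    intro U hU
    have hi := UniqueFactorizationMonoid.irreducible_of_normalized_factor U hU
    rw [← UniqueFactorizationMonoid.normalize_normalized_factor U hU]
    exact Polynomial.monic_normalize hi.ne_zero
  -- a lift for every factor
  have key : ∀ U ∈ UniqueFactorizationMonoid.normalizedFactors (tk k f₀),
      ∃ U₀ : O[X], U₀.Monic ∧ tk k U₀ = U ∧
        ∃ (ψ : κ[X]) (n : ℕ), ψ.Monic ∧ Irreducible ψ ∧ 1 ≤ n ∧ U₀.map ρ = ψ ^ n := by
    intro U hU
    exact HFaux.split π ρ hL hirr f₀ hm U (hTmon U hU)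
      (UniqueFactorizationMonoid.irreducible_of_normalized_factor U hU)
      (UniqueFactorizationMonoid.dvd_of_mem_normalizedFactors hU)
  choose! L hL1 hL2 hL3 using key
  set T := UniqueFactorizationMonoid.normalizedFactors (tk k f₀) with hT
  set S : Multiset O[X] := T.map L with hS
  have hSprod : S.prod = f₀ := by
    apply Polynomial.map_injective (algebraMap O k) (IsFractionRing.injective O k)
    rw [Polynomial.map_multiset_prod, hS, Multiset.map_map]
    have h1 : T.map (fun U => (L U).map (algebraMap O k)) = T := by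
      conv_rhs => rw [← Multiset.map_id T]
      exact Multiset.map_congr rfl fun U hU => hL2 U hU
    change (T.map (fun U => (L U).map (algebraMap O k))).prod = _
    rw [h1]
    have hTm : T.prod.Monic := by
      have := Polynomial.monic_multiset_prod_of_monic T id hTmon
      rwa [Multiset.map_id] at this
    exact Polynomial.eq_of_monic_of_associated hTm hmk
      (UniqueFactorizationMonoid.prod_normalizedFactors hne)
  have hNprod : (S.map fun s => s.map ρ).prod = f₀.map ρ := by
    rw [← Polynomial.map_multiset_prod, hSprod]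
  have hS1 : ∀ s ∈ S, s.Monic := by
    intro s hs
    obtain ⟨U, hU, rfl⟩ := Multiset.mem_map.1 hs
    exact hL1 U hU
  have hSdvd : ∀ s ∈ S, s.map ρ ∣ f₀.map ρ := by
    intro s hs
    rw [← hNprod]
    exact Multiset.dvd_prod (Multiset.mem_map_of_mem _ hs)
  have hS2 : ∀ s ∈ S, Irreducible (s.map ρ) := by
    intro s hs
    obtain ⟨U, hU, rfl⟩ := Multiset.mem_map.1 hs
    obtain ⟨ψ, n, _, hi, hn, h⟩ := hL3 U hU
    have hd := hSdvd _ hs
    rw [h] at hd ⊢
    have hn1 : n = 1 := by
      by_contra hne1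
      have h2 : ψ * ψ ∣ ψ ^ n := by
        rw [← pow_two]; exact pow_dvd_pow _ (by omega)
      exact hi.not_isUnit (hsq ψ (h2.trans hd))
    rw [hn1, pow_one]
    exact hi
  have hnod : (S.map fun s => s.map ρ).Nodup := by
    rw [Multiset.nodup_iff_ne_cons_cons]
    intro a t h
    have ha : a ∈ S.map fun s => s.map ρ := by rw [h]; exact Multiset.mem_cons_self _ _
    obtain ⟨s, hs, rfl⟩ := Multiset.mem_map.1 ha
    apply (hS2 s hs).not_isUnit
    apply hsq
    rw [← hNprod, h, Multiset.prod_cons, Multiset.prod_cons, ← mul_assoc]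
    exact dvd_mul_right _ _
  have hSn : S.Nodup := Multiset.Nodup.of_map _ hnod
  have hinj : ∀ s ∈ S, ∀ t ∈ S, s.map ρ = t.map ρ → s = t := fun s hs t ht hst =>
    Multiset.inj_on_of_nodup_map hnod s hs t ht hst
  have hfac' : ∀ ψ ∈ fac, ∃ s ∈ S, s.map ρ = ψ := by
    intro ψ hψ
    obtain ⟨h1, h2, h3⟩ := (hfac ψ).1 hψ
    rw [← hNprod] at h3
    obtain ⟨a, ha, hd⟩ := h2.prime.exists_mem_multiset_dvd h3
    obtain ⟨s, hs, rfl⟩ := Multiset.mem_map.1 ha
    refine ⟨s, hs, ?_⟩
    exact (Polynomial.eq_of_monic_of_associated h1 ((hS1 s hs).map ρ)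
      (h2.associated_of_dvd (hS2 s hs) hd)).symm
  choose! g hg1 hg2 using hfac'
  refine ⟨g, fun ψ hψ => hS1 _ (hg1 ψ hψ), hg2, fun ψ hψ => ((hfac ψ).1 hψ).2.1, ?_⟩
  have him : fac = S.toFinset.image fun s => s.map ρ := by
    ext ψ
    rw [Finset.mem_image]
    constructor
    · intro hψ
      exact ⟨g ψ, Multiset.mem_toFinset.2 (hg1 ψ hψ), hg2 ψ hψ⟩
    · rintro ⟨s, hs, rfl⟩
      have hs' := Multiset.mem_toFinset.1 hs
      exact (hfac _).2 ⟨(hS1 s hs').map ρ, hS2 s hs', hSdvd s hs'⟩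
  have hgs : ∀ s ∈ S, g (s.map ρ) = s := by
    intro s hs
    have hψ : s.map ρ ∈ fac := (hfac _).2 ⟨(hS1 s hs).map ρ, hS2 s hs, hSdvd s hs⟩
    exact hinj _ (hg1 _ hψ) s hs (hg2 _ hψ)
  rw [him, Finset.prod_image (fun s hs t ht hst => hinj s (Multiset.mem_toFinset.1 hs) t
    (Multiset.mem_toFinset.1 ht) hst)]
  rw [Finset.prod_congr rfl (fun s hs => hgs s (Multiset.mem_toFinset.1 hs))]
  rw [← hSprod, Finset.prod, Multiset.toFinset_val, Multiset.dedup_eq_self.2 hSn, Multiset.map_id']

end Pool.Agent.Helper3.GT
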