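import Pool.Agent.Helper3.GT.StL

/-!
# GT: module INV (the local groups depend on the class of `D` only)
-/

set_option autoImplicit false

namespace Pool.Agent.Helper3.GT

open Polynomial Finset
open Pool.Agent.Helper54.PT (Prm prm IsAbsP IsAbsInf)
open Pool.Agent.Helper3.HY (fK RR LL kp red TwAt twGroup baseChange NearOne IsTwPoint)
open Pool.Agent.Helper54.HL

namespace MINV

theorem twAt_of_sq {F : Type} [Field F] (hTWS : StTWS) (f : F[X][X])
    (v : AbsoluteValue (RatFunc F) ℝ) (A D D' : F[X]) (hD' : D' ≠ 0)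
    (hsq : IsSquare (algebraMap (RatFunc F) v.Completion (algebraMap F[X] (RatFunc F) (D * D'))))
    (hD : D ≠ 0) (z : (LL f)ˣ) (hz : TwAt f (A * D) v z) : TwAt f (A * D') v z := by
  obtain ⟨b, hb⟩ := hsq
  set φ : F[X] →+* v.Completion :=
    (algebraMap (RatFunc F) v.Completion).comp (algebraMap F[X] (RatFunc F)) with hφ
  have hinj : Function.Injective φ :=
    (algebraMap (RatFunc F) v.Completion).injective.comp (IsFractionRing.injective F[X] (RatFunc F))
  have h1 : φ D ≠ 0 := fun h => hD (hinj (by rw [h, map_zero]))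
  have h2 : φ D' ≠ 0 := fun h => hD' (hinj (by rw [h, map_zero]))
  have hb' : φ D * φ D' = b * b := by
    rw [← map_mul]
    exact hb
  have hb0 : b ≠ 0 := by
    rintro rfl
    rw [mul_zero] at hb'
    exact mul_ne_zero h1 h2 hb'
  have hz' : Units.map (baseChange (algebraMap (RatFunc F) v.Completion) (fK f) : LL f →* _) z ∈
    twGroup ((fK f).map (algebraMap (RatFunc F) v.Completion)) (φ (A * D)) := hz
  have h3 : φ (A * D) = φ (A * D') * (b / φ D') ^ 2 := by
    rw [map_mul, map_mul]
    field_simp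
    rw [mul_assoc, hb']
    ring
  rw [h3] at hz'
  exact hTWS _ _ _ _ (div_ne_zero hb0 h2) hz'

end MINV

theorem hINV (hTWS : StTWS) (hSQI : StSQI) (hSQP : StSQP) : StINV := by
  intro F _ _ h2 f _ _
  refine ⟨?_, ?_⟩
  · intro P n D D' hD hD' hsq v hv hvP z hz
    refine MINV.twAt_of_sq hTWS f v (P.1 ^ n) D D' ?_ (hSQP F h2 P v hv hvP D D' hD hD' hsq) ?_ z hz
    · rintro rfl
      exact hD' (dvd_zero _)
    · rintro rfl
      exact hD (dvd_zero _)
  · intro D D' hD hD' hdeg v hv hvI z hz
    have h := MINV.twAt_of_sq hTWS f v 1 D D' hD'.ne_zero (hSQI F h2 v hv hvI D D' hD hD' hdeg)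
      hD.ne_zero z (by rwa [one_mul])
    rwa [one_mul] at h

end Pool.Agent.Helper3.GT
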