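import Pool.Agent.Helper3.GT.StL
import Pool.Agent.Helper54.HL.All

/-!
# GT, local part: untwisted smooth places
-/

set_option autoImplicit false

namespace Pool.Agent.Helper3.GT

open Polynomial Finset
open Pool.Agent.Helper54.PT (Prm prm IsAbsP IsAbsInf)
open Pool.Agent.Helper3.HY (fK RR LL kp red TwAt twGroup baseChange NearOne IsTwPoint)
open Pool.Agent.Helper54.HL

section

variable {F : Type} [Field F] {f : F[X][X]} [Fact (Irreducible (fK f))]

private lemma one_L1 (P : Prm F) : UnitAt P (1 : LL f) := by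
  refine ⟨1, 1, 1, fun h => P.2.2.not_isUnit (isUnit_of_dvd_one h), ?_, ?_⟩
  · rw [map_one, map_one, one_mul]
  · rw [map_one, one_mul, one_pow]

/-- The units which are a unit times a square at `P`. -/
private noncomputable def Cl_L1 (P : Prm F) (f : F[X][X]) [Fact (Irreducible (fK f))]
    (hmul : ∀ x y : LL f, UnitAt P x → UnitAt P y → UnitAt P (x * y))
    (hinv : ∀ x : LL f, UnitAt P x → x ≠ 0 ∧ UnitAt P x⁻¹) : Subgroup (LL f)ˣ where
  carrier := {z | EvP P (z : LL f)}
  mul_mem' := by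
    rintro a b ⟨β, hβ, ha⟩ ⟨γ, hγ, hb⟩
    refine ⟨β * γ, mul_ne_zero hβ hγ, ?_⟩
    have := hmul _ _ ha hb
    rwa [show (a : LL f) * β ^ 2 * (b * γ ^ 2) = ((a * b : (LL f)ˣ) : LL f) * (β * γ) ^ 2 by
      rw [Units.val_mul]; ring] at this
  one_mem' := by
    refine ⟨1, one_ne_zero, ?_⟩
    rw [Units.val_one, one_pow, one_mul]
    exact one_L1 P
  inv_mem' := by
    rintro a ⟨β, hβ, ha⟩
    refine ⟨β⁻¹, inv_ne_zero hβ, ?_⟩
    have := (hinv _ ha).2
    rwa [mul_inv, ← inv_pow, ← Units.val_inv_eq_inv_val] at this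

private lemma mem_Cl_L1 {P : Prm F} {hmul hinv} {z : (LL f)ˣ} :
    z ∈ Cl_L1 P f hmul hinv ↔ EvP P (z : LL f) := Iff.rfl

private lemma sq_L1 (P : Prm F) (z : (LL f)ˣ) : EvP P ((z ^ 2 : (LL f)ˣ) : LL f) := by
  refine ⟨(z⁻¹ : (LL f)ˣ), Units.ne_zero _, ?_⟩
  rw [Units.val_pow_eq_pow_val, ← mul_pow, Units.mul_inv, one_pow]
  exact one_L1 P

end

theorem hL1 (hEIP : StEIP) (hNU : StNU) : StL1 := by
  intro F _ _ hF2 g hg f hf hdeg _ _ P hBd D hPD v hv hP z hz
  obtain ⟨O, _, _, _, _, _, i, ρ, hLD, _, hirr⟩ := aLD F P v hv hP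
  set j : RatFunc F →+* v.Completion := algebraMap (RatFunc F) v.Completion with hj
  set Dk : v.Completion := j (algebraMap F[X] (RatFunc F) D) with hDk
  have hD0 : D ≠ 0 := by rintro rfl; exact hPD (dvd_zero _)
  have hDk0 : Dk ≠ 0 := by
    rw [hDk, Ne, map_eq_zero, map_eq_zero_iff _ (RatFunc.algebraMap_injective F)]
    exact hD0
  have hd1 : 1 ≤ f.natDegree := by omega
  obtain ⟨-, hnear, hmul, hinv, -⟩ := hNU F f hf hd1 P
  have hmem : z ∈ Cl_L1 P f hmul hinv := by
    refine aIN F f hf P O v.Completion i j ρ hLD Dk hDk0 (Cl_L1 P f hmul hinv) ?_ ?_ ?_ z hz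
    · intro z hz
      refine mem_Cl_L1.2 ⟨1, one_ne_zero, ?_⟩
      rw [one_pow, mul_one]
      exact hnear _ (Units.ne_zero _) hz
    · intro z
      exact mem_Cl_L1.2 (sq_L1 P z)
    · rintro y y' hyy ⟨U, V, hU, hUirr, hcop, hdiv, hy⟩
      rcases hirr U hU hUirr with hI | hB
      · have e : AdjoinRoot.mk ((fK f).map j)
            (C (-j (algebraMap F[X] (RatFunc F) D)) ^ U.natDegree * U) * y' = 1 := by
          rw [← hDk, ← hy]; exact hyy
        obtain ⟨z, hz1, hz2⟩ := hEIP F hF2 f hf hd1 P hBd O v.Completion i j ρ hLD D hPD U V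
          hUirr hcop hdiv hI y' e
        exact ⟨z, mem_Cl_L1.2 hz1, hz2⟩
      · have hmap : (fK f).map j = tk v.Completion (f.map i) := hLD.map f
        have hf₀ : (f.map i).Monic := hf.map i
        have hodd : Odd (f.map i).natDegree := by
          rw [hf.natDegree_map, hdeg]; exact ⟨g, rfl⟩
        obtain ⟨c, w, hc, hw, e⟩ := aBG O v.Completion (i P.1) hLD.unif (f.map i) hf₀ hodd
          ((fK f).map j) hmap Dk hDk0 U V hU hB hcop hdiv
        obtain ⟨hmulN, hinvN, -⟩ := aNG O v.Completion (i P.1) hLD.unif (f.map i) hf₀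
          ((fK f).map j) hmap
        obtain ⟨w', hww, hw'⟩ := hinvN w hw
        have ecc : algebraMap v.Completion (AdjoinRoot ((fK f).map j)) c *
            algebraMap v.Completion (AdjoinRoot ((fK f).map j)) c⁻¹ = 1 := by
          rw [← map_mul, mul_inv_cancel₀ hc, map_one]
        obtain ⟨z, hz0, hz⟩ := aDE F f hf P O v.Completion i j ρ hLD _ _ ecc
        refine ⟨(Units.mk0 z hz0) ^ 2, mem_Cl_L1.2 (sq_L1 P _), ?_⟩
        have hyy2 : algebraMap v.Completion (AdjoinRoot ((fK f).map j)) c ^ 2 * w * y' = 1 := by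
          rw [← e, ← hy]; exact hyy
        have e3 : algebraMap v.Completion (AdjoinRoot ((fK f).map j)) c ^ 2 * y' = w' := by
          calc _ = (algebraMap v.Completion (AdjoinRoot ((fK f).map j)) c ^ 2 * y') * (w * w') := by
                rw [hww, mul_one]
            _ = (algebraMap v.Completion (AdjoinRoot ((fK f).map j)) c ^ 2 * w * y') * w' := by ring
            _ = w' := by rw [hyy2, one_mul]
        have e4 : baseChange j (fK f) (((Units.mk0 z hz0) ^ 2 : (LL f)ˣ) : LL f) * y' =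
            (baseChange j (fK f) z * algebraMap v.Completion (AdjoinRoot ((fK f).map j)) c⁻¹) *
            (baseChange j (fK f) z * algebraMap v.Completion (AdjoinRoot ((fK f).map j)) c⁻¹) * w' := by
          rw [Units.val_pow_eq_pow_val, Units.val_mk0, map_pow, ← e3]
          calc _ = (baseChange j (fK f) z) ^ 2 * y' * 1 := by ring
            _ = (baseChange j (fK f) z) ^ 2 * y' *
                ((algebraMap v.Completion (AdjoinRoot ((fK f).map j)) c *
                  algebraMap v.Completion (AdjoinRoot ((fK f).map j)) c⁻¹) ^ 2) := by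
                rw [ecc, one_pow]
            _ = _ := by ring
        rw [e4]
        exact hmulN _ _ (hmulN _ _ hz hz) hw'
  exact mem_Cl_L1.1 hmem

end Pool.Agent.Helper3.GT
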