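import Pool.Agent.Helper3.GT.StL
import Pool.Agent.Helper54.HL.All

/-!
# GT, module L2: good places, ramified twists
-/

set_option autoImplicit false

namespace Pool.Agent.Helper3.GT

open Polynomial Finset
open Pool.Agent.Helper54.PT (Prm prm IsAbsP IsAbsInf)
open Pool.Agent.Helper3.HY (fK RR LL kp red TwAt twGroup baseChange NearOne IsTwPoint)
open Pool.Agent.Helper54.HL

private lemma add_self_L2 : ∀ a : ZMod 2, a + a = 0 := by decide

private lemma eq_of_add_L2 : ∀ a b : ZMod 2, a + b = 0 → b = a := by decide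

private lemma deg_L2 : ∀ d e : ZMod 2, d + e = 1 → d * e = 0 := by decide

/-- Distinct monic irreducible polynomials have a squarefree product. -/
private lemma sqf_L2 {κ : Type} [Field κ] (s : Finset κ[X])
    (hs : ∀ ψ ∈ s, ψ.Monic ∧ Irreducible ψ) : Squarefree (∏ ψ ∈ s, ψ) := by
  refine Finset.squarefree_prod_of_pairwise_isCoprime ?_ ?_
  · intro ψ hψ φ hφ hne
    exact ((Irreducible.coprime_iff_not_dvd (hs ψ hψ).2).2 (fun h => hne
      (eq_of_monic_of_associated (hs ψ hψ).1 (hs φ hφ).1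
        ((hs ψ hψ).2.associated_of_dvd (hs φ hφ).2 h)))).isRelPrime
  · intro ψ hψ
    exact (hs ψ hψ).2.squarefree

/-- The final computation in `ZMod 2`. -/
private lemma final_L2 {A : Type} [DecidableEq A] (s : Finset A) (t d : A → ZMod 2)
    (E : A → A → ZMod 2) (η : ZMod 2) (hd : ∑ a ∈ s, d a = 1)
    (hE : ∀ a ∈ s, ∀ b ∈ s, a ≠ b → E a b + E b a = d a * d b * η)
    (ψ : A) (hψ : ψ ∈ s)
    (h0 : ∀ φ ∈ s, ∑ a ∈ s, t a * (d a + if φ = a then 1 else 0) = 0) :
    ∑ a ∈ s, t a * (if ψ = a then ∑ b ∈ s.erase a, E a b else E a ψ) = 0 := by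
  have hT : ∀ φ ∈ s, t φ = ∑ a ∈ s, t a * d a := by
    intro φ hφ
    have h := h0 φ hφ
    simp only [mul_add, Finset.sum_add_distrib, mul_ite, mul_one, mul_zero,
      Finset.sum_ite_eq, hφ, if_true] at h
    exact eq_of_add_L2 _ _ h
  set T := ∑ a ∈ s, t a * d a with hTdef
  have h1 : ∑ a ∈ s, t a * (if ψ = a then ∑ b ∈ s.erase a, E a b else E a ψ) =
      T * ∑ a ∈ s, (if ψ = a then ∑ b ∈ s.erase a, E a b else E a ψ) := by
    rw [Finset.mul_sum]
    exact Finset.sum_congr rfl fun a ha => by rw [hT a ha]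
  have h2 : ∑ a ∈ s, (if ψ = a then ∑ b ∈ s.erase a, E a b else E a ψ) = 0 := by
    rw [← Finset.add_sum_erase s _ hψ, if_pos rfl]
    have h3 : ∑ a ∈ s.erase ψ, (if ψ = a then ∑ b ∈ s.erase a, E a b else E a ψ) =
        ∑ a ∈ s.erase ψ, E a ψ := by
      refine Finset.sum_congr rfl fun a ha => ?_
      rw [if_neg (Ne.symm (Finset.ne_of_mem_erase ha))]
    rw [h3, ← Finset.sum_add_distrib]
    have h4 : ∑ a ∈ s.erase ψ, (E ψ a + E a ψ) = ∑ a ∈ s.erase ψ, d ψ * d a * η := by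
      refine Finset.sum_congr rfl fun a ha => ?_
      exact hE ψ hψ a (Finset.mem_of_mem_erase ha) (Ne.symm (Finset.ne_of_mem_erase ha))
    rw [h4, ← Finset.sum_mul, ← Finset.mul_sum]
    have h5 : d ψ + ∑ a ∈ s.erase ψ, d a = 1 := by rw [Finset.add_sum_erase s d hψ, hd]
    rw [deg_L2 _ _ h5, zero_mul]
  rw [h1, h2, mul_zero]

theorem hL2 (hLSD : StLSD) (hCG : StCG) (hOM : StOM) (hNL : StNL) (hNP : StNP) (hRC : StRC)
    (hPC : StPC) (hOE2 : StOE2) (hFAC : StFAC) : StL2 := by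
  classical
  intro F _ _ h2F g hg f hf hdeg _ _ P hGd D hPD v hv hPv z hz hEv
  obtain ⟨O, _, _, _, _, _, i, ρ, gg, hLD, hLS, hIrr, hFz⟩ := hLSD F h2F g hg f hf hdeg P hGd v hv hPv
  obtain ⟨hfac, hprod, hsum, -, -, -, -⟩ := hFAC F h2F g hg f hf hdeg P hGd
  have : Finite (kp P) := hLS.fin
  set j : RatFunc F →+* v.Completion := algebraMap (RatFunc F) v.Completion with hj
  obtain ⟨η, hη⟩ := hRC (kp P) hLS.two
  have hsq : Squarefree (f.map (red P)) := by
    rw [← hprod]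
    exact sqf_L2 _ fun ψ hψ => ⟨((hfac ψ).1 hψ).1, ((hfac ψ).1 hψ).2.1⟩
  have hf₀ : (f.map i).Monic := hf.map i
  have hmap : (fK f).map j = tk v.Completion (f.map i) := hLD.map f
  have hρunit : ∀ c : O, ρ c ≠ 0 → IsUnit c := by
    intro c hc
    by_contra hcu
    apply hc
    rw [hLD.ker]
    have h12 : c ∈ IsLocalRing.maximalIdeal O := (IsLocalRing.mem_maximalIdeal c).2 hcu
    rw [(IsDiscreteValuationRing.irreducible_iff_uniformizer _).1 hLD.unif,
      Ideal.mem_span_singleton] at h12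
    exact h12
  have hρD : ρ (i D) ≠ 0 := by
    rw [hLD.rho]
    intro h
    exact hPD (AdjoinRoot.mk_eq_zero.1 h)
  have hiD : IsUnit (i D) := hρunit _ hρD
  have hDv : j (algebraMap F[X] (RatFunc F) (P.1 * D)) =
      algebraMap O v.Completion (i P.1 * i D) := by
    rw [← hLD.comp, map_mul i]
  have hDv0 : j (algebraMap F[X] (RatFunc F) (P.1 * D)) ≠ 0 := by
    rw [hDv, map_ne_zero_iff _ (IsFractionRing.injective O v.Completion)]
    exact mul_ne_zero hLD.unif.ne_zero hiD.ne_zero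
  -- the factors
  have hggm : ∀ ψ ∈ facs f P, (gg ψ).Monic := hFz.monic
  have hggr : ∀ ψ ∈ facs f P, (gg ψ).map ρ = ψ := hFz.red
  have hggi : ∀ ψ ∈ facs f P, Irreducible ψ := hFz.irr
  have hggd : ∀ ψ ∈ facs f P, gg ψ ∣ f.map i := by
    intro ψ hψ
    rw [← hFz.prod]
    exact Finset.dvd_prod_of_mem gg hψ
  have hOMψ : ∀ ψ ∈ facs f P, _ := fun ψ hψ => hOM O v.Completion (kp P) (i P.1) ρ hLS (f.map i)
    (gg ψ) hf₀ (hggm ψ hψ) (by rw [hggr ψ hψ]; exact hggi ψ hψ) (hggd ψ hψ) ((fK f).map j) hmap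
  have hCGψ : ∀ ψ ∈ facs f P, ∀ z : LL f, z ≠ 0 →
      om P ψ z = omL (i P.1) ρ (gg ψ) (baseChange j (fK f) z) ∧
      ep P ψ z = epL (i P.1) ρ (gg ψ) (baseChange j (fK f) z) := by
    intro ψ hψ z hz
    exact (hCG F f hf P hsq O v.Completion i j ρ hLD (gg ψ) ψ (hggm ψ hψ) (hggi ψ hψ) (hggd ψ hψ)
      (hggr ψ hψ) z hz).2.2
  -- additivity
  have hinv : ∀ z : (LL f)ˣ, baseChange j (fK f) (z : LL f) *
      baseChange j (fK f) ((z⁻¹ : (LL f)ˣ) : LL f) = 1 := by
    intro z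
    rw [← map_mul, ← Units.val_mul, mul_inv_cancel, Units.val_one, map_one]
  have hadd : ∀ ψ ∈ facs f P, ∀ z w : (LL f)ˣ,
      om P ψ ((z * w : (LL f)ˣ) : LL f) = om P ψ (z : LL f) + om P ψ (w : LL f) ∧
      ep P ψ ((z * w : (LL f)ˣ) : LL f) = ep P ψ (z : LL f) + ep P ψ (w : LL f) := by
    intro ψ hψ z w
    have h1 := hCGψ ψ hψ _ z.ne_zero
    have h2 := hCGψ ψ hψ _ w.ne_zero
    have h3 := hCGψ ψ hψ _ (z * w).ne_zero
    rw [h1.1, h1.2, h2.1, h2.2, h3.1, h3.2, Units.val_mul, map_mul]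
    exact (hOMψ ψ hψ).1 _ _ _ _ (hinv z) (hinv w)
  have hone : ∀ ψ ∈ facs f P, om P ψ (((1 : (LL f)ˣ) : LL f)) = 0 ∧
      ep P ψ (((1 : (LL f)ˣ) : LL f)) = 0 := by
    intro ψ hψ
    have h1 := hadd ψ hψ 1 1
    rw [mul_one] at h1
    rw [h1.1, h1.2]
    exact ⟨add_self_L2 _, add_self_L2 _⟩
  let E : (kp P)[X] → (kp P)[X] → ZMod 2 := fun ψ' ψ => Ecl (-ρ (i D)) ψ' ψ
  let Cl : Subgroup (LL f)ˣ :=
    { carrier := {z | ∃ t : (kp P)[X] → ZMod 2, ∀ ψ ∈ facs f P,
        om P ψ (z : LL f) = ∑ a ∈ facs f P, t a * ((a.natDegree : ZMod 2) + if ψ = a then 1 else 0) ∧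
        ep P ψ (z : LL f) = ∑ a ∈ facs f P, t a *
          (if ψ = a then ∑ b ∈ (facs f P).erase a, E a b else E a ψ)}
      mul_mem' := by
        rintro x y ⟨t, ht⟩ ⟨u, hu⟩
        refine ⟨fun a => t a + u a, fun ψ hψ => ?_⟩
        have h1 := hadd ψ hψ x y
        rw [h1.1, h1.2, (ht ψ hψ).1, (ht ψ hψ).2, (hu ψ hψ).1, (hu ψ hψ).2]
        simp only [add_mul, Finset.sum_add_distrib, and_self]
      one_mem' := by
        refine ⟨fun _ => 0, fun ψ hψ => ?_⟩
        have h1 := hone ψ hψ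
        rw [h1.1, h1.2]
        simp
      inv_mem' := by
        rintro x ⟨t, ht⟩
        refine ⟨t, fun ψ hψ => ?_⟩
        have h1 := hadd ψ hψ x x⁻¹
        rw [mul_inv_cancel, (hone ψ hψ).1, (hone ψ hψ).2] at h1
        rw [eq_of_add_L2 _ _ h1.1.symm, eq_of_add_L2 _ _ h1.2.symm]
        exact ht ψ hψ }
  have hCl : ∀ z : (LL f)ˣ, z ∈ Cl ↔ ∃ t : (kp P)[X] → ZMod 2, ∀ ψ ∈ facs f P,
        om P ψ (z : LL f) = ∑ a ∈ facs f P, t a * ((a.natDegree : ZMod 2) + if ψ = a then 1 else 0) ∧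
        ep P ψ (z : LL f) = ∑ a ∈ facs f P, t a *
          (if ψ = a then ∑ b ∈ (facs f P).erase a, E a b else E a ψ) := fun z => Iff.rfl
  have hCl0 : ∀ z : (LL f)ˣ, (∀ ψ ∈ facs f P, om P ψ (z : LL f) = 0 ∧ ep P ψ (z : LL f) = 0) →
      z ∈ Cl := by
    intro z h
    rw [hCl]
    refine ⟨fun _ => 0, fun ψ hψ => ?_⟩
    rw [(h ψ hψ).1, (h ψ hψ).2]
    simp
  have hmem : z ∈ Cl := by
    refine aIN F f hf P O v.Completion i j ρ hLD _ hDv0 Cl ?_ ?_ ?_ z hz
    · intro x hx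
      apply hCl0
      intro ψ hψ
      have h1 := hCGψ ψ hψ _ x.ne_zero
      rw [h1.1, h1.2]
      exact (hOMψ ψ hψ).2.1 _ ((hNO F f hf P O v.Completion i j ρ hLD (x : LL f)).1 hx)
    · intro x
      apply hCl0
      intro ψ hψ
      have h1 := hadd ψ hψ x x
      rw [sq, h1.1, h1.2]
      exact ⟨add_self_L2 _, add_self_L2 _⟩
    · rintro y y' hyy ⟨U, V, hU, hUirr, hcop, hdiv, hy⟩
      obtain ⟨z₁, hz1, hw⟩ := aDE F f hf P O v.Completion i j ρ hLD y y' hyy
      refine ⟨Units.mk0 z₁ hz1, ?_, hw⟩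
      -- values at z₁ are those at y
      have hval : ∀ ψ ∈ facs f P, om P ψ z₁ = omL (i P.1) ρ (gg ψ) y ∧
          ep P ψ z₁ = epL (i P.1) ρ (gg ψ) y := by
        intro ψ hψ
        have h1 := hCGψ ψ hψ z₁ hz1
        have h2 := (hOMψ ψ hψ).1 (baseChange j (fK f) z₁ * y')
          (y * baseChange j (fK f) ((((Units.mk0 z₁ hz1)⁻¹ : (LL f)ˣ)) : LL f)) y y' (by
            have h3 := hinv (Units.mk0 z₁ hz1)
            rw [Units.val_mk0] at h3
            calc (baseChange j (fK f) z₁ * y') *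
                (y * baseChange j (fK f) ((((Units.mk0 z₁ hz1)⁻¹ : (LL f)ˣ)) : LL f))
                = (y * y') * (baseChange j (fK f) z₁ *
                  baseChange j (fK f) ((((Units.mk0 z₁ hz1)⁻¹ : (LL f)ˣ)) : LL f)) := by ring
              _ = 1 := by rw [h3, hyy, one_mul]) hyy
        have h4 : baseChange j (fK f) z₁ * y' * y = baseChange j (fK f) z₁ := by
          rw [mul_assoc, mul_comm y' y, hyy, mul_one]
        rw [h4, ((hOMψ ψ hψ).2.1 _ hw).1, ((hOMψ ψ hψ).2.1 _ hw).2, zero_add, zero_add] at h2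
        rw [h1.1, h1.2]
        exact h2
      have hodd : Odd (f.map i).natDegree := by
        rw [hf.natDegree_map, hdeg]; exact ⟨g, rfl⟩
      rcases hIrr U hU hUirr with hI | hB
      · -- integral points
        obtain ⟨n, ψ', hψ'm, hψ'i, hn, hval2⟩ := hPC O v.Completion (kp P) (i P.1) ρ hLS (f.map i)
          (facs f P) gg hf₀ hFz (fun ψ hψ => ((hfac ψ).1 hψ).1) ((fK f).map j) hmap (i D) hiD U V hU
          hUirr hcop hI (by rw [← hDv]; exact hdiv)
        rw [← hDv, ← hy] at hval2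
        rw [hCl]
        by_cases hψ' : ψ' ∈ facs f P
        · refine ⟨fun a => if a = ψ' then (n : ZMod 2) else 0, fun ψ hψ => ?_⟩
          have e1 : ∀ G : (kp P)[X] → ZMod 2,
              ∑ a ∈ facs f P, (if a = ψ' then (n : ZMod 2) else 0) * G a = n * G ψ' := by
            intro G
            rw [Finset.sum_eq_single ψ']
            · rw [if_pos rfl]
            · intro b _ hb
              rw [if_neg hb, zero_mul]
            · intro h
              exact absurd hψ' h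
          rw [Units.val_mk0, e1, e1]
          have h1 := hval ψ hψ
          have h2 := hval2 ψ hψ
          refine ⟨?_, ?_⟩
          · rw [h1.1, h2.1]
          · by_cases h3 : ψ = ψ'
            · subst h3
              rw [if_pos rfl, h1.2]
              have hnorm := hNP v.Completion ((fK f).map j) (by rw [hmap]; exact hf₀.map _)
                (by rw [hmap, hf₀.natDegree_map]; exact hodd) _ hDv0 y ⟨U, V, hU, hcop, hdiv, hy⟩
              have h4 := (hNL O v.Completion (kp P) (i P.1) ρ hLS (f.map i) (facs f P) gg hFz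
                ((fK f).map j) hmap y y' hyy hnorm).2
              rw [← Finset.add_sum_erase _ _ hψ'] at h4
              have h5 := eq_of_add_L2 _ _ (by rw [add_comm] at h4; exact h4)
              rw [h5, Finset.mul_sum]
              refine Finset.sum_congr rfl fun b hb => ?_
              exact (hval2 b (Finset.mem_of_mem_erase hb)).2 (Finset.ne_of_mem_erase hb)
            · rw [if_neg h3, h1.2]
              exact h2.2 h3
        · have hn0 : (n : ZMod 2) = 0 := by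
            rw [ZMod.natCast_eq_zero_iff]
            exact (hn hψ').two_dvd
          refine ⟨fun _ => 0, fun ψ hψ => ?_⟩
          have h1 := hval ψ hψ
          have h2 := hval2 ψ hψ
          have h3 : ψ ≠ ψ' := fun h => hψ' (h ▸ hψ)
          rw [Units.val_mk0, h1.1, h1.2, h2.1, h2.2 h3, hn0]
          simp
      · -- points with a pole
        apply hCl0
        obtain ⟨c, w, hc, hw', e⟩ := aBG O v.Completion (i P.1) hLD.unif (f.map i) hf₀ hodd
          ((fK f).map j) hmap _ hDv0 U V hU hB hcop hdiv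
        rw [← hy] at e
        intro ψ hψ
        rw [Units.val_mk0, (hval ψ hψ).1, (hval ψ hψ).2, e]
        set cc := algebraMap v.Completion (AdjoinRoot ((fK f).map j)) c with hcc
        have ecc : cc * algebraMap v.Completion (AdjoinRoot ((fK f).map j)) c⁻¹ = 1 := by
          rw [hcc, ← map_mul, mul_inv_cancel₀ hc, map_one]
        set cc' := algebraMap v.Completion (AdjoinRoot ((fK f).map j)) c⁻¹ with hcc'
        have h1 := (hOMψ ψ hψ).1 cc cc' cc cc' ecc ecc
        have h2 := (hOMψ ψ hψ).1 (cc * cc) (cc' * cc') w (cc ^ 2 * y')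
          (by calc cc * cc * (cc' * cc') = (cc * cc') * (cc * cc') := by ring
                _ = 1 := by rw [ecc, one_mul])
          (by rw [e] at hyy
              calc w * (cc ^ 2 * y') = cc ^ 2 * w * y' := by ring
                _ = 1 := hyy)
        rw [sq, h2.1, h2.2, h1.1, h1.2, ((hOMψ ψ hψ).2.1 w hw').1, ((hOMψ ψ hψ).2.1 w hw').2,
          add_zero, add_zero]
        exact ⟨add_self_L2 _, add_self_L2 _⟩
  -- conclusion
  obtain ⟨t, ht⟩ := (hCl z).1 hmem
  have hom0 := (hOE2 F h2F g hg f hf hdeg P hGd (z : LL f) z.ne_zero).1 hEv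
  intro ψ hψ
  rw [(ht ψ hψ).2]
  have hc : -ρ (i D) ≠ 0 := neg_ne_zero.2 hρD
  refine final_L2 (facs f P) t (fun a => (a.natDegree : ZMod 2)) E η ?_ ?_ ψ hψ ?_
  · rw [← Nat.cast_sum, hsum]
    push_cast
    have h2 : (2 : ZMod 2) = 0 := by decide
    rw [h2, zero_mul, zero_add]
  · intro a ha b hb hab
    have h1 := hη (-ρ (i D)) hc a b ((hfac a).1 ha).1 ((hfac b).1 hb).1 (hggi a ha) (hggi b hb) hab
    rw [Nat.cast_mul] at h1
    exact h1
  · intro φ hφ
    rw [← (ht φ hφ).1]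
    exact hom0 φ hφ

end Pool.Agent.Helper3.GT
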