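import Pool.Agent.Helper3.GT.StL
import Pool.Agent.Helper3.GT.M_FAC
import Pool.Agent.Helper54.HL.All

/-!
# GT: module LSD (the local data at `P`)
-/

set_option autoImplicit false

namespace Pool.Agent.Helper3.GT

open Polynomial Finset
open Pool.Agent.Helper54.PT (Prm prm IsAbsP IsAbsInf)
open Pool.Agent.Helper3.HY (fK RR LL kp red TwAt twGroup baseChange NearOne IsTwPoint)
open Pool.Agent.Helper54.HL

theorem hLSD (hHF : StHF) (hFAC : StFAC) : StLSD := by
  intro F _ _ h2 g hg f hf hdeg P hP v hv hvP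
  obtain ⟨O, _, _, _, _, _, i, ρ, hL, -, hU⟩ := aLD F P v hv hvP
  have hfin : Finite (kp P) := by
    have : Module.Finite F (kp P) := (AdjoinRoot.powerBasis' P.2.1).finite
    exact Module.finite_of_finite F
  have h2k : (2 : kp P) ≠ 0 := by
    intro h
    apply h2
    have h3 : algebraMap F (kp P) 2 = 0 := by rw [map_ofNat]; exact h
    exact (map_eq_zero_iff _ (algebraMap F (kp P)).injective).1 h3
  have hS : LS v.Completion (i P.1) ρ := ⟨hL.unif, hL.surj, hL.ker, hfin, h2k⟩
  have hsq : Squarefree ((f.map i).map ρ) := by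
    rw [hL.map_red]
    have hsep : (f.map (red P)).Separable := MFAC.coprime_red f hf (by omega) P hP
    exact hsep.squarefree
  obtain ⟨gg, hgg⟩ := hHF O v.Completion (kp P) (i P.1) ρ hS hU (f.map i) (facs f P)
    (hf.map i) hsq (by
      intro ψ
      rw [hL.map_red]
      exact (hFAC F h2 g hg f hf hdeg P hP).1 ψ)
  exact ⟨O, _, _, _, _, _, i, ρ, gg, hL, hS, hU, hgg⟩

end Pool.Agent.Helper3.GT
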