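import Pool.Agent.Helper3.GT.M_RC

/-!
# GT, local part: norms (module NL)
-/

set_option autoImplicit false

namespace Pool.Agent.Helper3.GT

open Polynomial Finset
open Pool.Agent.Helper54.HL

section

variable {O k κ : Type} [CommRing O] [Field k] [Algebra O k] [Field κ] {π : O} {ρ : O →+* κ}
  {g₀ : O[X]}

theorem omL_eq_NL (hA : RepA k π ρ g₀) {h : k[X]} {y : AdjoinRoot h} {e : ℤ}
    {s : AdjoinRoot (g₀.map ρ)} (hr : Rep π ρ g₀ (cmp g₀ y) e s) :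
    omL π ρ g₀ y = (e : ZMod 2) := by
  classical
  unfold omL
  split_ifs with h1
  · obtain ⟨e', s', hev, hr'⟩ := h1
    rw [(hA.uniq _ _ _ _ _ hr hr').1]
    exact ((ZMod.intCast_eq_zero_iff_even (n := e')).2 hev).symm
  · have h2 : ¬ Even e := fun h3 => h1 ⟨e, s, h3, hr⟩
    rw [Int.not_even_iff_odd] at h2
    exact ((ZMod.intCast_eq_one_iff_odd (n := e)).2 h2).symm

theorem epL_eq_NL [Finite κ] (h2 : (2 : κ) ≠ 0) (hm : g₀.Monic) (hi : Irreducible (g₀.map ρ))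
    (hA : RepA k π ρ g₀) {h : k[X]} {y : AdjoinRoot h} {e : ℤ}
    {s : AdjoinRoot (g₀.map ρ)} (hr : Rep π ρ g₀ (cmp g₀ y) e s) :
    epL π ρ g₀ y = chi_RC (Algebra.norm κ s) := by
  classical
  refine zmod_eq_RC ?_
  rw [chi_eq_zero_RC, (hFS κ h2 _ (hm.map ρ) hi).1]
  unfold epL
  split_ifs with h1
  · obtain ⟨e', s', hev, hr'⟩ := h1
    rw [(hA.uniq _ _ _ _ _ hr hr').2]
    exact ⟨fun _ => hev, fun _ => rfl⟩
  · exact ⟨fun h' => absurd h' (by decide), fun h' => absurd ⟨e, s, h', hr⟩ h1⟩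

theorem cmp_mk_NL {h : k[X]} (hd : tk k g₀ ∣ h) (p : k[X]) :
    cmp g₀ (AdjoinRoot.mk h p) = AdjoinRoot.mk (tk k g₀) p := by
  classical
  unfold cmp
  rw [dif_pos hd, pr_mk]

end

theorem chi_prod_RC {κ : Type} [Field κ] [Finite κ] (h2 : (2 : κ) ≠ 0) {ι : Type} (s : Finset ι)
    (x : ι → κ) (hx : ∀ i ∈ s, x i ≠ 0) : chi_RC (∏ i ∈ s, x i) = ∑ i ∈ s, chi_RC (x i) := by
  classical
  induction s using Finset.induction_on with
  | empty => rw [prod_empty, sum_empty, chi_eq_zero_RC]; exact IsSquare.one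
  | insert a s ha ih =>
    rw [prod_insert ha, sum_insert ha, chi_mul_RC h2 (hx a (mem_insert_self a s))
      (prod_ne_zero_iff.2 fun i hi => hx i (mem_insert_of_mem hi)),
      ih fun i hi => hx i (mem_insert_of_mem hi)]

theorem norm_prod_NL {B : Type} [CommRing B] [IsDomain B] {ι : Type} (s : Finset ι) (g : ι → B[X])
    (hg : ∀ i ∈ s, (g i).Monic) (p : B[X]) :
    Algebra.norm B (AdjoinRoot.mk (∏ i ∈ s, g i) p) =
      ∏ i ∈ s, Algebra.norm B (AdjoinRoot.mk (g i) p) := by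
  classical
  induction s using Finset.induction_on with
  | empty =>
    rw [prod_empty, prod_empty, hNR B 1 p monic_one]
    simp
  | insert a s ha ih =>
    rw [prod_insert ha, prod_insert ha, aNM B _ _ p (hg a (mem_insert_self a s))
      (monic_prod_of_monic _ _ fun i hi => hg i (mem_insert_of_mem hi)),
      ih fun i hi => hg i (mem_insert_of_mem hi)]

theorem prod_zpow_NL {k ι : Type} [Field k] {a : k} (ha : a ≠ 0) (s : Finset ι) (f : ι → ℤ) :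
    ∏ i ∈ s, a ^ (f i) = a ^ (∑ i ∈ s, f i) := by
  classical
  induction s using Finset.induction_on with
  | empty => simp
  | insert b s hb ih => rw [prod_insert hb, sum_insert hb, zpow_add₀ ha, ih]

theorem hNL : StNL := by
  intro O k κ _ _ _ _ _ _ _ π ρ hLS f₀ fac g hFz h hh y y' hyy hsq
  subst hh
  classical
  have := hLS.fin
  have hirr : ∀ ψ ∈ fac, Irreducible ((g ψ).map ρ) := fun ψ hψ => by
    rw [hFz.red ψ hψ]; exact hFz.irr ψ hψ
  have hA : ∀ ψ ∈ fac, RepA k π ρ (g ψ) := fun ψ hψ =>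
    hRA O k κ π ρ hLS.unif hLS.surj hLS.ker (g ψ) (hFz.monic ψ hψ) (hirr ψ hψ)
  have hB : ∀ ψ ∈ fac, RepB k π ρ (g ψ) := fun ψ hψ =>
    aRB O k κ π ρ hLS.unif hLS.surj hLS.ker (g ψ) (hFz.monic ψ hψ) (hirr ψ hψ)
  have hd : ∀ ψ ∈ fac, tk k (g ψ) ∣ tk k f₀ := fun ψ hψ =>
    Polynomial.map_dvd _ (by rw [← hFz.prod]; exact dvd_prod_of_mem g hψ)
  obtain ⟨p, rfl⟩ := AdjoinRoot.mk_surjective y
  have hex : ∀ ψ ∈ fac, ∃ (e : ℤ) (s : AdjoinRoot ((g ψ).map ρ)) (c : O),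
      Rep π ρ (g ψ) (AdjoinRoot.mk (tk k (g ψ)) p) e s ∧ ρ c = Algebra.norm κ s ∧
        Algebra.norm k (AdjoinRoot.mk (tk k (g ψ)) p) =
          algebraMap O k π ^ (e * (g ψ).natDegree) * algebraMap O k c := by
    intro ψ hψ
    have : Fact (Irreducible (tk k (g ψ))) := ⟨(hA ψ hψ).irr⟩
    have hne : AdjoinRoot.mk (tk k (g ψ)) p ≠ 0 := by
      intro h0
      have h1 := congrArg (pr (hd ψ hψ)) hyy
      rw [map_mul, pr_mk, h0, zero_mul, map_one] at h1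
      exact zero_ne_one h1
    obtain ⟨e, s, hr⟩ := (hA ψ hψ).ex _ hne
    obtain ⟨c, hc⟩ := (hB ψ hψ).norm _ _ _ hr
    exact ⟨e, s, c, hr, hc⟩
  choose! e s c hr hc hn using hex
  have hsn : ∀ ψ ∈ fac, Algebra.norm κ (s ψ) ≠ 0 := by
    intro ψ hψ
    have hF : Fact (Irreducible ((g ψ).map ρ)) := ⟨hirr ψ hψ⟩
    have hfd : FiniteDimensional κ (AdjoinRoot ((g ψ).map ρ)) :=
      (AdjoinRoot.powerBasis (hirr ψ hψ).ne_zero).finite
    rw [Ne, Algebra.norm_eq_zero_iff]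
    exact (hr ψ hψ).1
  have hnorm : Algebra.norm k (AdjoinRoot.mk (tk k f₀) p) =
      algebraMap O k π ^ (∑ ψ ∈ fac, e ψ * (g ψ).natDegree) *
        algebraMap O k (∏ ψ ∈ fac, c ψ) := by
    have h1 : tk k f₀ = ∏ ψ ∈ fac, tk k (g ψ) := by
      rw [← hFz.prod]
      exact Polynomial.map_prod _ _ _
    have h2 := norm_prod_NL fac (fun ψ => tk k (g ψ)) (fun ψ hψ => (hFz.monic ψ hψ).map _) p
    rw [← h1] at h2
    rw [h2, map_prod, prod_congr rfl hn, prod_mul_distrib]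
    congr 1
    exact prod_zpow_NL (H94.am_ne hLS.unif) fac _
  rw [hnorm] at hsq
  have hρc : ρ (∏ ψ ∈ fac, c ψ) = ∏ ψ ∈ fac, Algebra.norm κ (s ψ) := by
    rw [map_prod]; exact prod_congr rfl hc
  have hρne : ρ (∏ ψ ∈ fac, c ψ) ≠ 0 := by
    rw [hρc]; exact prod_ne_zero_iff.2 hsn
  obtain ⟨hev, hsqc⟩ := H94.sq_lemma hLS.unif (fun h' => hρne ((hLS.ker _).2 h')) hsq
  have hcmp : ∀ ψ ∈ fac, cmp (g ψ) (AdjoinRoot.mk (tk k f₀) p) = AdjoinRoot.mk (tk k (g ψ)) p :=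
    fun ψ hψ => cmp_mk_NL (hd ψ hψ) p
  refine ⟨?_, ?_⟩
  · have h1 : ∀ ψ ∈ fac, (ψ.natDegree : ZMod 2) * omL π ρ (g ψ) (AdjoinRoot.mk (tk k f₀) p) =
        ((e ψ * (g ψ).natDegree : ℤ) : ZMod 2) := by
      intro ψ hψ
      rw [omL_eq_NL (hA ψ hψ) (by rw [hcmp ψ hψ]; exact hr ψ hψ)]
      have h2 : ψ.natDegree = (g ψ).natDegree := by
        rw [← (hFz.monic ψ hψ).natDegree_map ρ, hFz.red ψ hψ]
      rw [h2]; push_cast; ring
    rw [sum_congr rfl h1, ← Int.cast_sum, ZMod.intCast_eq_zero_iff_even]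
    exact hev
  · have h1 : ∀ ψ ∈ fac, epL π ρ (g ψ) (AdjoinRoot.mk (tk k f₀) p) =
        chi_RC (Algebra.norm κ (s ψ)) := by
      intro ψ hψ
      exact epL_eq_NL hLS.two (hFz.monic ψ hψ) (hirr ψ hψ) (hA ψ hψ)
        (by rw [hcmp ψ hψ]; exact hr ψ hψ)
    rw [sum_congr rfl h1, ← chi_prod_RC hLS.two fac _ hsn, ← hρc, chi_eq_zero_RC]
    exact hsqc.map ρ

end Pool.Agent.Helper3.GT
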