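import Pool.Agent.Helper3.GT.StL
import Pool.Agent.Helper54.HL.All

/-!
# GT: the norm of the value at a point is a square
-/

set_option autoImplicit false

namespace Pool.Agent.Helper3.GT

open Polynomial Finset
open Pool.Agent.Helper3.HY (IsTwPoint)
open Pool.Agent.Helper54.HL

private lemma norm_C_NP {k : Type} [Field k] (U : k[X]) (hU : U.Monic) (c : k) :
    Algebra.norm k (AdjoinRoot.mk U (C c)) = c ^ U.natDegree := by
  have h : AdjoinRoot.mk U (C c) = algebraMap k (AdjoinRoot U) c := rfl
  rw [h, Algebra.norm_algebraMap, (AdjoinRoot.powerBasis' hU).finrank, AdjoinRoot.powerBasis'_dim]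

/-- the norm of the value at a point is a square -/
theorem hNP : StNP := by
  intro k _ h hh hodd D _ y hy
  obtain ⟨U, V, hU, -, hdiv, rfl⟩ := hy
  obtain ⟨s, hs⟩ := hodd
  have n2 : D ^ U.natDegree * Algebra.norm k (AdjoinRoot.mk U h) =
      (Algebra.norm k (AdjoinRoot.mk U V)) ^ 2 := by
    have e : AdjoinRoot.mk U (C D) * AdjoinRoot.mk U h = AdjoinRoot.mk U V ^ 2 := by
      rw [← map_mul, ← map_pow, ← sub_eq_zero, ← map_sub]
      exact AdjoinRoot.mk_eq_zero.2 hdiv
    rw [← norm_C_NP U hU D, ← map_mul, e, map_pow]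
  refine ⟨D ^ (U.natDegree * s) * Algebra.norm k (AdjoinRoot.mk U V), ?_⟩
  have h1 : ((-1 : k) ^ (h.natDegree * U.natDegree)) * ((-1) ^ (h.natDegree * U.natDegree)) = 1 := by
    rw [← mul_pow]
    norm_num
  calc Algebra.norm k (AdjoinRoot.mk h (C (-D) ^ U.natDegree * U))
      = (((-1 : k) ^ (h.natDegree * U.natDegree)) * ((-1) ^ (h.natDegree * U.natDegree))) *
        (D ^ (h.natDegree * U.natDegree) * Algebra.norm k (AdjoinRoot.mk U h)) := by
        rw [map_mul, map_mul, aNS k h U hh hU, map_pow, map_pow, norm_C_NP h hh, ← pow_mul, neg_pow D]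
        ring
    _ = D ^ (h.natDegree * U.natDegree) * Algebra.norm k (AdjoinRoot.mk U h) := by
        rw [h1, one_mul]
    _ = D ^ (U.natDegree * s) * D ^ (U.natDegree * s) *
        (D ^ U.natDegree * Algebra.norm k (AdjoinRoot.mk U h)) := by
        have h2 : h.natDegree * U.natDegree =
            U.natDegree * s + U.natDegree * s + U.natDegree := by
          rw [hs]
          ring
        rw [h2, pow_add, pow_add]
        ring
    _ = _ := by
        rw [n2]
        ring

end Pool.Agent.Helper3.GT
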