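import Pool.Agent.Helper3.GT.StL
import Pool.Agent.Helper54.HL.M_CV

/-!
# GT module NU: units at `P`
-/

set_option autoImplicit false

namespace Pool.Agent.Helper3.GT

open Polynomial Finset
open Pool.Agent.Helper54.PT (Prm prm IsAbsP IsAbsInf)
open Pool.Agent.Helper3.HY (fK RR LL kp red TwAt twGroup baseChange NearOne IsTwPoint)
open Pool.Agent.Helper54.HL

namespace NUm

section

variable {F : Type} [Field F] {f : F[X][X]} {P : Prm F}

theorem towerA (a : F[X]) : algebraMap F[X] (LL f) a =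
    algebraMap (RR f) (LL f) (algebraMap F[X] (RR f) a) :=
  IsScalarTower.algebraMap_apply F[X] (RR f) (LL f) a

theorem inj (hm : f.Monic) : Function.Injective (algebraMap (RR f) (LL f)) := by
  rw [injective_iff_map_eq_zero]
  intro x hx
  obtain ⟨p, rfl⟩ := AdjoinRoot.mk_surjective x
  rw [Pool.Agent.Helper3.HY.algebraMap_mk, AdjoinRoot.mk_eq_zero, fK,
    Polynomial.map_dvd_map _ (RatFunc.algebraMap_injective F) hm] at hx
  exact AdjoinRoot.mk_eq_zero.2 hx

theorem injA (hm : f.Monic) (h1 : 1 ≤ f.natDegree) :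
    Function.Injective (algebraMap F[X] (LL f)) := by
  intro x y h
  rw [towerA, towerA] at h
  have h2 := inj hm h
  have h3 : Function.Injective (AdjoinRoot.of f) := by
    apply AdjoinRoot.of.injective_of_degree_ne_zero
    intro h0
    have h0' := natDegree_eq_zero_iff_degree_le_zero.2 h0.le
    omega
  exact h3 h2

/-- The key statement: if `p` and `f` are coprime modulo `P`, then `p(θ)` divides an element of
`F[t]` prime to `P`. -/
theorem key (hm : f.Monic) {p : F[X][X]} (hc : IsCoprime (p.map (red P)) (f.map (red P))) :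
    ∃ (a : F[X]) (s : RR f), ¬ P.1 ∣ a ∧ algebraMap F[X] (RR f) a = AdjoinRoot.mk f p * s := by
  obtain ⟨u, v, huv⟩ := hc
  obtain ⟨u', hu'⟩ := red_surj_CV (P := P) u
  obtain ⟨v', hv'⟩ := red_surj_CV (P := P) v
  obtain ⟨b, hb⟩ := red_eq_zero_CV (P := P) (u' * p + v' * f - 1) (by
    rw [Polynomial.map_sub, Polynomial.map_add, Polynomial.map_mul, Polynomial.map_mul, hu', hv',
      huv, Polynomial.map_one, sub_self])
  have h1 : (1 : RR f) = AdjoinRoot.mk f u' * AdjoinRoot.mk f p -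
      algebraMap F[X] (RR f) P.1 * AdjoinRoot.mk f b := by
    have e : (1 : F[X][X]) = u' * p + v' * f - C P.1 * b := by rw [← hb]; ring
    have e2 := congrArg (AdjoinRoot.mk f) e
    rw [map_one, map_sub, map_add, map_mul, map_mul, map_mul, AdjoinRoot.mk_self, mul_zero,
      add_zero, mk_C_CV] at e2
    exact e2
  -- Nakayama for the module `RR f / (p(θ))`
  have hfin : Module.Finite F[X] (RR f) := hm.finite_adjoinRoot
  let J : Ideal (RR f) := Ideal.span {AdjoinRoot.mk f p}
  have hM : (⊤ : Submodule F[X] (RR f ⧸ J)) ≤ Ideal.span {P.1} • (⊤ : Submodule F[X] (RR f ⧸ J)) := by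
    intro x _
    obtain ⟨y, rfl⟩ := Ideal.Quotient.mk_surjective x
    have h2 : Ideal.Quotient.mk J y = P.1 • Ideal.Quotient.mk J (-(AdjoinRoot.mk f b * y)) := by
      have h3 : Ideal.Quotient.mk J y =
          Ideal.Quotient.mk J (P.1 • (-(AdjoinRoot.mk f b * y))) := by
        rw [Ideal.Quotient.eq, Algebra.smul_def]
        refine Ideal.mem_span_singleton.2 ⟨AdjoinRoot.mk f u' * y, ?_⟩
        calc y - algebraMap F[X] (RR f) P.1 * -(AdjoinRoot.mk f b * y)
            = 1 * y + algebraMap F[X] (RR f) P.1 * AdjoinRoot.mk f b * y := by ring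
          _ = _ := by rw [h1]; ring
      rw [h3]
      rfl
    rw [h2]
    exact Submodule.smul_mem_smul (Ideal.mem_span_singleton_self _) trivial
  obtain ⟨r, hr1, hr2⟩ := Submodule.exists_sub_one_mem_and_smul_eq_zero_of_fg_of_le_smul
    (Ideal.span {P.1}) (⊤ : Submodule F[X] (RR f ⧸ J)) (Module.Finite.fg_top) hM
  have h4 := hr2 (Ideal.Quotient.mk J 1) trivial
  have h5 : r • Ideal.Quotient.mk J 1 = Ideal.Quotient.mk J (r • (1 : RR f)) := rfl
  rw [h5, Ideal.Quotient.eq_zero_iff_mem, Algebra.smul_def, mul_one] at h4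
  obtain ⟨s, hs⟩ := Ideal.mem_span_singleton.1 h4
  refine ⟨r, s, ?_, hs⟩
  intro h6
  have h7 : P.1 ∣ 1 := by
    have h8 := Ideal.mem_span_singleton.1 hr1
    have := dvd_sub h6 h8
    rwa [sub_sub_cancel] at this
  exact P.2.2.not_isUnit (isUnit_of_dvd_one h7)

theorem unit_mul {x y : LL f} (hx : UnitAt P x) (hy : UnitAt P y) : UnitAt P (x * y) := by
  obtain ⟨a, r, s, ha, h1, h2⟩ := hx
  obtain ⟨a', r', s', ha', h1', h2'⟩ := hy
  refine ⟨a * a', r * r', s * s', ?_, ?_, ?_⟩
  · intro h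
    rcases (P.2.2.prime.dvd_or_dvd h) with h | h
    · exact ha h
    · exact ha' h
  · rw [map_mul, map_mul, ← h1, ← h1']; ring
  · rw [map_mul]
    calc r * r' * (s * s') = (r * s) * (r' * s') := by ring
      _ = _ := by rw [h2, h2']; ring

theorem unit_inv (hm : f.Monic) (h1d : 1 ≤ f.natDegree) [Fact (Irreducible (fK f))] {x : LL f}
    (hx : UnitAt P x) : x ≠ 0 ∧ UnitAt P x⁻¹ := by
  obtain ⟨a, r, s, ha, h1, h2⟩ := hx
  have ha0 : algebraMap F[X] (LL f) a ≠ 0 := by
    rw [Ne, map_eq_zero_iff _ (injA hm h1d)]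
    rintro rfl
    exact ha (dvd_zero _)
  have h3 : algebraMap (RR f) (LL f) r * algebraMap (RR f) (LL f) s =
      algebraMap F[X] (LL f) a ^ 2 := by
    rw [← map_mul, h2, map_pow, ← towerA]
  have hx0 : x ≠ 0 := by
    rintro rfl
    rw [mul_zero] at h1
    rw [← h1, zero_mul] at h3
    exact pow_ne_zero 2 ha0 h3.symm
  refine ⟨hx0, a, s, r, ha, ?_, by rw [mul_comm]; exact h2⟩
  rw [← h1] at h3
  have h4 : algebraMap F[X] (LL f) a * (x * algebraMap (RR f) (LL f) s) =
      algebraMap F[X] (LL f) a * algebraMap F[X] (LL f) a := by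
    rw [← mul_assoc, h3]; ring
  have h5 := mul_left_cancel₀ ha0 h4
  rw [← h5]
  field_simp

theorem unit_of_coprime (hm : f.Monic) {p : F[X][X]}
    (hc : IsCoprime (p.map (red P)) (f.map (red P))) :
    UnitAt P (algebraMap (RR f) (LL f) (AdjoinRoot.mk f p)) := by
  obtain ⟨a, s, ha, h⟩ := key hm hc
  refine ⟨a, algebraMap F[X] (RR f) a * AdjoinRoot.mk f p, s, ha, ?_, ?_⟩
  · rw [map_mul, ← towerA]
  · rw [mul_assoc, ← h]; ring

end

end NUm

open NUm in
theorem hNU : StNU := by
  intro F _ _ f hm h1d _ P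
  have hfne : f.map (red P) ≠ 0 := (hm.map (red P)).ne_zero
  have h1 : ∀ p : F[X][X], (∀ ψ : (kp P)[X], Irreducible ψ → ψ ∣ f.map (red P) →
      ¬ ψ ∣ p.map (red P)) → UnitAt P (algebraMap (RR f) (LL f) (AdjoinRoot.mk f p)) := by
    intro p hp
    refine unit_of_coprime hm ?_
    refine (isCoprime_of_irreducible_dvd (fun h => hfne h.1) ?_).symm
    exact hp
  have hcst : ∀ (a : F[X]) (q : F[X][X]), ¬ P.1 ∣ a →
      UnitAt P (algebraMap (RR f) (LL f) (AdjoinRoot.mk f (C a + C P.1 * q))) := by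
    intro a q ha
    refine h1 _ fun ψ hψ _ hd => ?_
    rw [Polynomial.map_add, Polynomial.map_mul, Polynomial.map_C, Polynomial.map_C,
      show red P P.1 = 0 from AdjoinRoot.mk_self, C_0, zero_mul, add_zero] at hd
    have h2 : red P a ≠ 0 := by rwa [Ne, AdjoinRoot.mk_eq_zero]
    exact hψ.not_isUnit (isUnit_of_dvd_unit hd (isUnit_C.2 (IsUnit.mk0 _ h2)))
  refine ⟨h1, ?_, fun x y hx hy => unit_mul hx hy, fun x hx => unit_inv hm h1d hx, ?_⟩
  · rintro z hz ⟨r, a, ha, h2⟩
    obtain ⟨q, rfl⟩ := AdjoinRoot.mk_surjective r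
    have ha1 := hcst a 0 ha
    rw [mul_zero, add_zero] at ha1
    obtain ⟨ha0, hai⟩ := unit_inv hm h1d ha1
    have h3 := unit_mul hai (hcst a q ha)
    have h4 : z = (algebraMap (RR f) (LL f) (AdjoinRoot.mk f (C a)))⁻¹ *
        algebraMap (RR f) (LL f) (AdjoinRoot.mk f (C a + C P.1 * q)) := by
      rw [map_add, map_mul, map_add, map_mul, mk_C_CV, mk_C_CV, ← towerA, ← towerA, ← h2]
      rw [mk_C_CV, ← towerA] at ha0
      field_simp
      ring
    rw [h4]
    exact h3
  · rintro x hx ⟨a, r, ha, h2⟩ ⟨b, s, hb, h3⟩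
    refine ⟨a * b, algebraMap F[X] (RR f) b * r, algebraMap F[X] (RR f) a * s, ?_, ?_, ?_⟩
    · intro h
      rcases (P.2.2.prime.dvd_or_dvd h) with h | h
      · exact ha h
      · exact hb h
    · rw [map_mul, map_mul, ← h2, ← towerA]; ring
    · have h4 : r * s = algebraMap F[X] (RR f) (a * b) := by
        apply inj hm
        rw [map_mul, ← h2, ← h3, ← towerA, map_mul]
        field_simp
      calc algebraMap F[X] (RR f) b * r * (algebraMap F[X] (RR f) a * s)
          = algebraMap F[X] (RR f) a * algebraMap F[X] (RR f) b * (r * s) := by ring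
        _ = _ := by rw [h4, map_mul]; ring

end Pool.Agent.Helper3.GT
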