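import Pool.Agent.Helper3.GT.StL
import Pool.Agent.Helper3.GT.M_FAC
import Pool.Agent.Helper54.HL.M_NMB
import Pool.Agent.Helper54.HL.M_NR
import Pool.Agent.Helper92.TW.C7

/-!
# GT: module OE (`om` and `ep` at a good place)
-/

set_option autoImplicit false

namespace Pool.Agent.Helper3.GT

open Polynomial Finset
open Pool.Agent.Helper54.PT (Prm prm IsAbsP IsAbsInf)
open Pool.Agent.Helper3.HY (fK RR LL kp red TwAt twGroup baseChange NearOne IsTwPoint)
open Pool.Agent.Helper54.HL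

namespace MOE

theorem baseChange_mk {k k' : Type} [Field k] [Field k'] (j : k →+* k') (h p : k[X]) :
    baseChange j h (AdjoinRoot.mk h p) = AdjoinRoot.mk (h.map j) (p.map j) := by
  rw [baseChange, AdjoinRoot.map, AdjoinRoot.lift_mk, ← AdjoinRoot.aeval_eq, Polynomial.aeval_def,
    Polynomial.eval₂_map]
  rfl

theorem algebraMap_mk {F : Type} [Field F] (f a : F[X][X]) :
    algebraMap (RR f) (LL f) (AdjoinRoot.mk f a) =
      AdjoinRoot.mk (fK f) (a.map (algebraMap F[X] (RatFunc F))) := by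
  show AdjoinRoot.map (algebraMap F[X] (RatFunc F)) f (fK f) dvd_rfl (AdjoinRoot.mk f a) = _
  rw [AdjoinRoot.map, AdjoinRoot.lift_mk, ← AdjoinRoot.aeval_eq, Polynomial.aeval_def,
    Polynomial.eval₂_map]
  rfl

theorem mk_ne_zero {F : Type} [Field F] (f a : F[X][X]) (hm : f.Monic) (P : Prm F)
    (ψ : (kp P)[X]) (hψ : ψ ∣ f.map (red P)) (ha : AdjoinRoot.mk ψ (a.map (red P)) ≠ 0) :
    algebraMap (RR f) (LL f) (AdjoinRoot.mk f a) ≠ 0 := by
  intro h
  rw [algebraMap_mk, AdjoinRoot.mk_eq_zero] at h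
  have h1 : f ∣ a := (Polynomial.map_dvd_map _ (IsFractionRing.injective F[X] (RatFunc F)) hm).1 h
  exact ha (AdjoinRoot.mk_eq_zero.2 (hψ.trans (Polynomial.map_dvd _ h1)))

theorem norm_sq {F : Type} [Field F] (hNB : StNB) (f : F[X][X]) (hm : f.Monic) {k : Type}
    [Field k] (j : RatFunc F →+* k) (z : LL f) (hz : IsSquare (Algebra.norm (RatFunc F) z)) :
    IsSquare (Algebra.norm k (baseChange j (fK f) z)) := by
  obtain ⟨p, rfl⟩ := AdjoinRoot.mk_surjective z
  rw [baseChange_mk, ← hNB (RatFunc F) k j (fK f) p (hm.map _)]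
  exact hz.map j

end MOE

open MOE in
theorem hOE (hLSD : StLSD) (hCG : StCG) (hOM : StOM) (hNL : StNL) (hOE2 : StOE2) : StOE := by
  classical
  intro F _ _ h2 g hg f hm hdeg _ _ P hP
  have hNB : StNB := (hNMB hNR).2.1
  obtain ⟨hmem, -, -, -, -, -, -⟩ := hFAC F h2 g hg f hm hdeg P hP
  have hsep : (f.map (red P)).Separable := MFAC.coprime_red f hm (by omega) P hP
  have hsqf : Squarefree (f.map (red P)) := hsep.squarefree
  obtain ⟨v, hv, hvP⟩ := Pool.Agent.Helper54.PT.exists_absP P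
  obtain ⟨O, _, _, _, _, _, i, ρ, gg, hLD, hLS, -, hFz⟩ := hLSD F h2 g hg f hm hdeg P hP v hv hvP
  set j : RatFunc F →+* v.Completion := algebraMap (RatFunc F) v.Completion with hj
  have hdvd : ∀ ψ ∈ facs f P, gg ψ ∣ f.map i := by
    intro ψ hψ
    rw [← hFz.prod]
    exact Finset.dvd_prod_of_mem _ hψ
  have hCG' := fun ψ (hψ : ψ ∈ facs f P) (z : LL f) (hz : z ≠ 0) =>
    hCG F f hm P hsqf O v.Completion i j ρ hLD (gg ψ) ψ (hFz.monic ψ hψ) (hFz.irr ψ hψ)
      (hdvd ψ hψ) (hFz.red ψ hψ) z hz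
  have hOM' := fun ψ (hψ : ψ ∈ facs f P) =>
    hOM O v.Completion (kp P) (i P.1) ρ hLS (f.map i) (gg ψ) (hm.map i) (hFz.monic ψ hψ)
      (by rw [hFz.red ψ hψ]; exact hFz.irr ψ hψ) (hdvd ψ hψ) ((fK f).map j) (hLD.map f)
  have hunit : ∀ z : LL f, z ≠ 0 →
      baseChange j (fK f) z * baseChange j (fK f) z⁻¹ = 1 := by
    intro z hz
    rw [← map_mul, mul_inv_cancel₀ hz, map_one]
  refine ⟨?_, ?_, ?_, ?_⟩
  · intro ψ hψ z w hz hw
    have h1 := (hOM' ψ hψ).1 _ _ _ _ (hunit z hz) (hunit w hw)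
    rw [(hCG' ψ hψ _ (mul_ne_zero hz hw)).2.2.1, (hCG' ψ hψ _ (mul_ne_zero hz hw)).2.2.2,
      (hCG' ψ hψ _ hz).2.2.1, (hCG' ψ hψ _ hz).2.2.2, (hCG' ψ hψ _ hw).2.2.1,
      (hCG' ψ hψ _ hw).2.2.2, map_mul]
    exact h1
  · exact fun z hz => hOE2 F h2 g hg f hm hdeg P hP z hz
  · intro z hz hsq
    have h1 := hNL O v.Completion (kp P) (i P.1) ρ hLS (f.map i) (facs f P) gg hFz
      ((fK f).map j) (hLD.map f) _ _ (hunit z hz) (norm_sq hNB f hm j z hsq)
    have h3 : ∑ ψ ∈ facs f P, (ψ.natDegree : ZMod 2) * om P ψ z =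
        ∑ ψ ∈ facs f P, (ψ.natDegree : ZMod 2) *
          omL (i P.1) ρ (gg ψ) (baseChange j (fK f) z) :=
      Finset.sum_congr rfl fun ψ hψ => by rw [(hCG' ψ hψ z hz).2.2.1]
    have h4 : ∑ ψ ∈ facs f P, ep P ψ z =
        ∑ ψ ∈ facs f P, epL (i P.1) ρ (gg ψ) (baseChange j (fK f) z) :=
      Finset.sum_congr rfl fun ψ hψ => by rw [(hCG' ψ hψ z hz).2.2.2]
    rw [h3, h4]
    exact ⟨h1.1, fun _ => h1.2⟩
  · intro ψ hψ a ha
    have hz := mk_ne_zero f a hm P ψ ((hmem ψ).1 hψ).2.2 ha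
    have hrep : RepG P ψ (algebraMap (RR f) (LL f) (AdjoinRoot.mk f a)) 0
        (AdjoinRoot.mk ψ (a.map (red P))) := by
      refine ⟨ha, a, 1, ?_, ?_, ?_⟩
      · rw [Polynomial.map_one, map_one]
        intro h10
        apply ha
        rw [← mul_one (AdjoinRoot.mk ψ (a.map (red P))), h10, mul_zero]
      · rw [Polynomial.map_one, map_one, mul_one]
      · rw [map_one, map_one, mul_one, zpow_zero, map_one, one_mul]
    constructor
    · unfold om
      rw [if_pos ⟨0, _, Even.zero, hrep⟩]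
    · unfold ep
      constructor
      · intro h
        by_contra hns
        rw [if_neg] at h
        · exact one_ne_zero h
        · rintro ⟨e, s, hs, hr⟩
          have := (hCG' ψ hψ _ hz).2.1 _ _ _ _ hrep hr
          rw [this.2] at hns
          exact hns hs
      · intro h
        rw [if_pos ⟨0, _, h, hrep⟩]

end Pool.Agent.Helper3.GT
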