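import Pool.Agent.Helper3.GT.StL
import Pool.Agent.Helper54.HL.M_RA
import Pool.Agent.Helper54.HL.M_RB
import Pool.Agent.Helper54.HL.M_NR
import Pool.Agent.Helper54.HL.M_NMB

/-!
# GT, module OM: the calculus of `omL` and `epL`
-/

set_option autoImplicit false

namespace Pool.Agent.Helper3.GT

open Polynomial Finset
open Pool.Agent.Helper54.HL

namespace OMaux

/-- Squares in a finite field of odd characteristic. -/
theorem sqm {K : Type} [Field K] [Finite K] (h2 : (2 : K) ≠ 0) {a b : K} (ha : a ≠ 0)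
    (hb : b ≠ 0) : IsSquare (a * b) ↔ (IsSquare a ↔ IsSquare b) := by
  classical
  have _ := Fintype.ofFinite K
  have hc : ringChar K ≠ 2 := by
    intro h
    apply h2
    have := ringChar.Nat.cast_ringChar (R := K)
    rw [h] at this
    exact_mod_cast this
  have key : ∀ x : K, x ≠ 0 → (IsSquare x ↔ quadraticChar K x = 1) := fun x hx =>
    (quadraticChar_one_iff_isSquare hx).symm
  have kn : ∀ x : K, x ≠ 0 → (¬ IsSquare x ↔ quadraticChar K x = -1) := fun x _ =>
    quadraticChar_neg_one_iff_not_isSquare.symm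
  rw [key _ (mul_ne_zero ha hb), map_mul]
  by_cases h1 : IsSquare a
  · rw [(key a ha).1 h1, one_mul, ← key b hb]
    exact ⟨fun h => ⟨fun _ => h, fun _ => h1⟩, fun h => h.1 h1⟩
  · rw [(kn a ha).1 h1]
    by_cases h3 : IsSquare b
    · rw [(key b hb).1 h3]
      constructor
      · intro h; norm_num at h
      · intro h; exact absurd (h.2 h3) h1
    · rw [(kn b hb).1 h3]
      constructor
      · intro _; exact ⟨fun h => absurd h h1, fun h => absurd h h3⟩
      · intro _; norm_num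

variable {O k κ : Type} [CommRing O] [IsDomain O] [IsDiscreteValuationRing O] [Field k]
  [Algebra O k] [IsFractionRing O k] [Field κ]

theorem cmp_eq {g₀ : O[X]} {h : k[X]} (hd : tk k g₀ ∣ h) (y : AdjoinRoot h) :
    cmp g₀ y = pr hd y := by
  rw [cmp, dif_pos hd]

theorem om_eq {π : O} {ρ : O →+* κ} {g₀ : O[X]} (RA : RepA k π ρ g₀) {h : k[X]}
    {y : AdjoinRoot h} {e : ℤ} {s : AdjoinRoot (g₀.map ρ)} (hR : Rep π ρ g₀ (cmp g₀ y) e s) :
    omL π ρ g₀ y = (e : ZMod 2) := by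
  classical
  unfold omL
  by_cases he : Even e
  · rw [if_pos ⟨e, s, he, hR⟩]
    exact ((ZMod.intCast_zmod_eq_zero_iff_dvd e 2).2 he.two_dvd).symm
  · rw [if_neg]
    · rw [Int.not_even_iff_odd] at he
      obtain ⟨m, rfl⟩ := he
      push_cast
      rw [show (2 : ZMod 2) = 0 from rfl]
      ring
    · rintro ⟨e', s', he', hR'⟩
      exact he ((RA.uniq _ _ _ _ _ hR hR').1 ▸ he')

theorem ep_eq {π : O} {ρ : O →+* κ} {g₀ : O[X]} (RA : RepA k π ρ g₀) {h : k[X]}
    {y : AdjoinRoot h} {e : ℤ} {s : AdjoinRoot (g₀.map ρ)} (hR : Rep π ρ g₀ (cmp g₀ y) e s) :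
    (epL π ρ g₀ y = 0 ↔ IsSquare s) ∧ (epL π ρ g₀ y = 1 ↔ ¬ IsSquare s) := by
  classical
  unfold epL
  by_cases hs : IsSquare s
  · rw [if_pos ⟨e, s, hs, hR⟩]
    simp [hs]
  · rw [if_neg]
    · simp [hs]
    · rintro ⟨e', s', hs', hR'⟩
      exact hs ((RA.uniq _ _ _ _ _ hR hR').2 ▸ hs')

end OMaux

open OMaux in
theorem hOM : StOM := by
  intro O k κ _ _ _ _ _ _ _ π ρ hL f₀ g₀ hf hg hirr hgf h hh
  classical
  have RA : RepA k π ρ g₀ := hRA O k κ π ρ hL.unif hL.surj hL.ker g₀ hg hirr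
  have RB : RepB k π ρ g₀ :=
    (hRB hRA (hNMB hNR).2.1) O k κ π ρ hL.unif hL.surj hL.ker g₀ hg hirr
  have hd : tk k g₀ ∣ h := by
    rw [hh]; exact Polynomial.map_dvd _ hgf
  have _ : Fact (Irreducible (g₀.map ρ)) := ⟨hirr⟩
  have _ : Fact (Irreducible (tk k g₀)) := ⟨RA.irr⟩
  have _ : Finite κ := hL.fin
  have hne0 : g₀.map ρ ≠ 0 := hirr.ne_zero
  have _ : Finite (AdjoinRoot (g₀.map ρ)) := by
    have := (AdjoinRoot.powerBasis hne0).finite
    exact Module.finite_of_finite κ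
  have h2 : (2 : AdjoinRoot (g₀.map ρ)) ≠ 0 := by
    have := (algebraMap κ (AdjoinRoot (g₀.map ρ))).injective.ne hL.two
    rwa [map_zero, map_ofNat] at this
  have hmk : ∀ p : O[X], cmp g₀ (AdjoinRoot.mk h (tk k p)) = AdjoinRoot.mk (tk k g₀) (tk k p) := by
    intro p
    rw [cmp_eq hd, pr_mk]
  have hπ : ρ π = 0 := (hL.ker π).2 (dvd_refl _)
  have hunit : ∀ y y' : AdjoinRoot h, y * y' = 1 → cmp g₀ y ≠ 0 := by
    intro y y' hy h0
    have : pr hd (y * y') = 1 := by rw [hy, map_one]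
    rw [map_mul, ← cmp_eq hd y, h0, zero_mul] at this
    exact zero_ne_one this
  refine ⟨?_, ?_, ?_, ?_, ?_, ?_⟩
  · intro y y' w w' hy hw
    obtain ⟨e, s, hs⟩ := RA.ex _ (hunit y y' hy)
    obtain ⟨e', s', hs'⟩ := RA.ex _ (hunit w w' hw)
    have hm : Rep π ρ g₀ (cmp g₀ (y * w)) (e + e') (s * s') := by
      rw [cmp_eq hd, map_mul, ← cmp_eq hd y, ← cmp_eq hd w]
      exact RA.mul _ _ _ _ _ _ hs hs'
    constructor
    · rw [om_eq RA hm, om_eq RA hs, om_eq RA hs']
      push_cast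
      ring
    · have hsq := sqm h2 hs.1 hs'.1
      have a1 := ep_eq RA hm
      have a2 := ep_eq RA hs
      have a3 := ep_eq RA hs'
      by_cases c1 : IsSquare s
      · by_cases c2 : IsSquare s'
        · rw [a1.1.2 (hsq.2 (by simp [c1, c2])), a2.1.2 c1, a3.1.2 c2, add_zero]
        · rw [a1.2.2 (fun hc => c2 ((hsq.1 hc).1 c1)), a2.1.2 c1, a3.2.2 c2, zero_add]
      · by_cases c2 : IsSquare s'
        · rw [a1.2.2 (fun hc => c1 ((hsq.1 hc).2 c2)), a2.2.2 c1, a3.1.2 c2, add_zero]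
        · rw [a1.1.2 (hsq.2 (by simp [c1, c2])), a2.2.2 c1, a3.2.2 c2]
          rfl
  · rintro w ⟨p, rfl⟩
    have h1 : (1 + AdjoinRoot.mk h (C (algebraMap O k π) * tk k p) : AdjoinRoot h)
        = AdjoinRoot.mk h (tk k (1 + C π * p)) := by
      simp [tk]
    rw [h1]
    have hred : (1 + C π * p).map ρ = 1 := by
      simp [hπ]
    have hR := RA.int (1 + C π * p) (by rw [hred, map_one]; exact one_ne_zero)
    rw [← hmk] at hR
    constructor
    · rw [om_eq RA hR]; simp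
    · rw [(ep_eq RA hR).1, hred, map_one]
      exact IsSquare.one
  · intro u hu
    have h1 : algebraMap k (AdjoinRoot h) (algebraMap O k u) = AdjoinRoot.mk h (tk k (C u)) := by
      rw [tk, Polynomial.map_C, AdjoinRoot.mk_C]
      rfl
    have hne : AdjoinRoot.mk (g₀.map ρ) ((C u).map ρ) ≠ 0 := by
      rw [Polynomial.map_C, AdjoinRoot.mk_C]
      exact (((hu.map ρ).map (AdjoinRoot.of (g₀.map ρ))).ne_zero)
    have hR := RA.int (C u) hne
    rw [← hmk, ← h1] at hR
    constructor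
    · rw [om_eq RA hR]; simp
    · rw [(ep_eq RA hR).1, Polynomial.map_C]
  · have h1 : algebraMap k (AdjoinRoot h) (algebraMap O k π) = AdjoinRoot.mk h (tk k (C π)) := by
      rw [tk, Polynomial.map_C, AdjoinRoot.mk_C]
      rfl
    have hR := RA.pow 1
    have h3 : AdjoinRoot.mk (tk k g₀) (C (algebraMap O k π ^ (1 : ℤ)))
        = cmp g₀ (AdjoinRoot.mk h (tk k (C π))) := by
      rw [hmk, zpow_one]
      exact congrArg _ (Polynomial.map_C _).symm
    rw [h3, ← h1] at hR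
    constructor
    · rw [om_eq RA hR]; simp
    · rw [(ep_eq RA hR).1]
      exact IsSquare.one
  · intro p hp
    have hR := RA.int p hp
    rw [← hmk] at hR
    exact ⟨by rw [om_eq RA hR]; simp, (ep_eq RA hR).1⟩
  · intro p y' hy m hm
    obtain ⟨e, s, hs⟩ := RA.ex _ (hunit _ _ hy)
    have hs1 := hs
    rw [hmk] at hs1
    obtain ⟨m', he, hm'⟩ := RB.ord p e s hs1
    rw [om_eq RA hs, he]
    have : m = m' := by
      rw [hm] at hm'
      exact_mod_cast hm'
    rw [this]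
    simp

end Pool.Agent.Helper3.GT
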