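import Pool.Agent.Helper3.GT.M_NL

/-!
# GT, local part: the classes of integral points for a ramified twist (module PC)
-/

set_option autoImplicit false

namespace Pool.Agent.Helper3.GT

open Polynomial Finset
open Pool.Agent.Helper54.HL

theorem hPC : StPC := by
  intro O k κ _ _ _ _ _ _ _ π ρ hLS f₀ fac g hf₀ hFz hfm h hh D' hD' U V hU hUirr hcop hint hdvd
  subst hh
  classical
  have := hLS.fin
  obtain ⟨U₀, hU₀, rfl, ψ', n, hψ', hψ'i, hn, hUρ⟩ := hint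
  have hπ := hLS.unif
  have hρ := hLS.surj
  have hk := hLS.ker
  have hDne : ρ D' ≠ 0 := (hD'.map ρ).ne_zero
  have hirr : ∀ ψ ∈ fac, Irreducible ((g ψ).map ρ) := fun ψ hψ => by
    rw [hFz.red ψ hψ]; exact hFz.irr ψ hψ
  have hA : ∀ ψ ∈ fac, RepA k π ρ (g ψ) := fun ψ hψ =>
    hRA O k κ π ρ hπ hρ hk (g ψ) (hFz.monic ψ hψ) (hirr ψ hψ)
  have hB : ∀ ψ ∈ fac, RepB k π ρ (g ψ) := fun ψ hψ =>
    aRB O k κ π ρ hπ hρ hk (g ψ) (hFz.monic ψ hψ) (hirr ψ hψ)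
  have hgd : ∀ ψ ∈ fac, g ψ ∣ f₀ := fun ψ hψ => by
    rw [← hFz.prod]; exact dvd_prod_of_mem g hψ
  have hd : ∀ ψ ∈ fac, tk k (g ψ) ∣ tk k f₀ := fun ψ hψ => Polynomial.map_dvd _ (hgd ψ hψ)
  -- coprimality
  have hco : ∀ ψ ∈ fac, ψ ≠ ψ' → IsCoprime ψ' ψ := by
    intro ψ hψ hne
    rw [hψ'i.coprime_iff_not_dvd]
    intro hdv
    exact hne (eq_of_monic_of_associated (hfm ψ hψ) hψ'
      ((hψ'i.dvd_irreducible_iff_associated (hFz.irr ψ hψ)).1 hdv).symm)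
  have hdegU : (tk k U₀).natDegree = n * ψ'.natDegree := by
    rw [tk, hU₀.natDegree_map, ← hU₀.natDegree_map ρ, hUρ, natDegree_pow]
  obtain ⟨m, hm, hev⟩ := aOP O k κ π ρ hπ hρ hk f₀ U₀ hf₀ hU₀ hUirr hcop ψ' n hψ'i hUρ
    (π * D') D' 1 hD' (by rw [pow_one]) V hdvd
  rw [one_mul] at hev
  -- the order is concentrated at `ψ'`
  have hunit : ∀ T : Finset κ[X], T ⊆ fac → ψ' ∉ T →
      IsUnit (AdjoinRoot.mk U₀ (∏ ψ ∈ T, g ψ)) := by
    intro T hT hnT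
    apply unit_of_coprime_LA hπ hρ hk hU₀
    rw [hUρ, Polynomial.map_prod]
    refine IsCoprime.prod_left fun ψ hψ => ?_
    rw [hFz.red ψ (hT hψ)]
    exact (hco ψ (hT hψ) (fun h => hnT (h ▸ hψ))).symm.pow_right
  refine ⟨n, ψ', hψ', hψ'i, ?_, ?_⟩
  · intro hnf
    have h1 := hunit fac (subset_refl _) hnf
    rw [hFz.prod] at h1
    rw [hOS O f₀ U₀, Ring.ord_of_isUnit h1] at hm
    have hm0 : m = 0 := by exact_mod_cast hm.symm
    rwa [hm0, zero_add] at hev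
  · intro ψ hψ
    have hcmp := cmp_mk_NL (g₀ := g ψ) (hd ψ hψ)
      (C (-algebraMap O k (π * D')) ^ (tk k U₀).natDegree * tk k U₀)
    have hco' : ψ ≠ ψ' → Rep π ρ (g ψ) (AdjoinRoot.mk (tk k (g ψ))
        (C (-algebraMap O k (π * D')) ^ (tk k U₀).natDegree * tk k U₀)) (tk k U₀).natDegree
        (AdjoinRoot.mk ((g ψ).map ρ) (C (-ρ D') ^ (tk k U₀).natDegree * U₀.map ρ)) := by
      intro hne
      refine rep_pt_LA (hA ψ hψ) (hirr ψ hψ) hDne U₀ ?_ _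
      rw [hUρ, hFz.red ψ hψ]
      intro hdv
      have h3 : ψ ∣ ψ' := (hFz.irr ψ hψ).prime.dvd_of_dvd_pow hdv
      exact (hFz.irr ψ hψ).not_isUnit ((hco ψ hψ hne).isUnit_of_dvd' h3 dvd_rfl)
    by_cases hne : ψ = ψ'
    · refine ⟨?_, fun h => absurd hne h⟩
      rw [if_pos hne]
      have hz0 : AdjoinRoot.mk (tk k (g ψ)) (tk k U₀) ≠ 0 := by
        rw [Ne, AdjoinRoot.mk_eq_zero]
        intro h0
        have h10 : IsCoprime (tk k U₀) (tk k (g ψ)) := hcop.of_isCoprime_of_dvd_right (hd ψ hψ)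
        exact (hA ψ hψ).irr.not_isUnit (h10.symm.isUnit_of_dvd' dvd_rfl h0)
      have : Fact (Irreducible (tk k (g ψ))) := ⟨(hA ψ hψ).irr⟩
      obtain ⟨e0, s, hs⟩ := (hA ψ hψ).ex _ hz0
      obtain ⟨m0, hm0, hord0⟩ := (hB ψ hψ).ord U₀ e0 s hs
      have hm01 : m = m0 := by
        have h1 : Ring.ord (AdjoinRoot f₀) (AdjoinRoot.mk f₀ U₀) =
            Ring.ord (AdjoinRoot (g ψ)) (AdjoinRoot.mk (g ψ) U₀) := by
          rw [hOS O f₀ U₀, hOS O (g ψ) U₀, ← hFz.prod, ← mul_prod_erase fac g hψ, map_mul]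
          exact Ring.ord_mul_of_isUnit_right
            (hunit (fac.erase ψ) (erase_subset _ _) (by rw [← hne]; exact notMem_erase ψ fac)) _
        rw [h1, hord0] at hm
        exact_mod_cast hm.symm
      have hu0 : ρ ((-D') ^ (tk k U₀).natDegree) ≠ 0 := by
        rw [map_pow, map_neg]
        exact pow_ne_zero _ (neg_ne_zero.2 hDne)
      have hrep := (hA ψ hψ).mul _ _ _ _ _ _ ((hA ψ hψ).mul _ _ _ _ _ _
        ((hA ψ hψ).pow (((tk k U₀).natDegree : ℕ) : ℤ))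
        (H94.rep_const (hA ψ hψ) (hirr ψ hψ) hu0)) hs
      have hval : cmp (g ψ) (AdjoinRoot.mk (tk k f₀)
          (C (-algebraMap O k (π * D')) ^ (tk k U₀).natDegree * tk k U₀)) =
          AdjoinRoot.mk (tk k (g ψ)) (C (algebraMap O k π ^ (((tk k U₀).natDegree : ℕ) : ℤ))) *
          AdjoinRoot.mk (tk k (g ψ)) (C (algebraMap O k ((-D') ^ (tk k U₀).natDegree))) *
          AdjoinRoot.mk (tk k (g ψ)) (tk k U₀) := by
        rw [hcmp, ← map_mul, ← map_mul, ← C_mul]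
        congr 2
        rw [← C_pow]
        congr 1
        rw [zpow_natCast, map_pow, ← mul_pow, map_neg, map_mul]
        ring
      rw [← hval] at hrep
      rw [omL_eq_NL (hA ψ hψ) hrep, hm0, ← hm01, hdegU]
      have h5 : ((m : ℕ) : ZMod 2) = n := by
        have h6 : ((m + n : ℕ) : ZMod 2) = 0 := (ZMod.natCast_eq_zero_iff_even).2 hev
        push_cast at h6
        have h7 : ∀ a b : ZMod 2, a + b = 0 → a = b := by decide
        exact h7 _ _ h6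
      push_cast
      rw [h5]; ring
    · rw [if_neg hne, add_zero]
      have h1 := hco' hne
      rw [← hcmp] at h1
      refine ⟨?_, fun _ => ?_⟩
      · rw [omL_eq_NL (hA ψ hψ) h1, hdegU]
        push_cast; rfl
      · rw [epL_eq_NL hLS.two (hFz.monic ψ hψ) (hirr ψ hψ) (hA ψ hψ) h1, hFz.red ψ hψ, hUρ, hdegU]
        have h2 : AdjoinRoot.mk ψ (C (-ρ D') ^ (n * ψ'.natDegree) * ψ' ^ n) =
            AdjoinRoot.mk ψ (C (-ρ D') ^ ψ'.natDegree * ψ') ^ n := by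
          rw [show C (-ρ D') ^ (n * ψ'.natDegree) * ψ' ^ n = (C (-ρ D') ^ ψ'.natDegree * ψ') ^ n by
            rw [mul_pow, ← pow_mul, mul_comm n]]
          exact map_pow _ _ _
        have h3 : Algebra.norm κ (AdjoinRoot.mk ψ (C (-ρ D') ^ ψ'.natDegree * ψ')) =
            (-ρ D') ^ (ψ.natDegree * ψ'.natDegree) * Algebra.norm κ (AdjoinRoot.mk ψ ψ') := by
          rw [map_mul, map_mul, ← C_pow, norm_const_LC (hfm ψ hψ), ← pow_mul,
            mul_comm ψ'.natDegree]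
        have hN := norm_ne_RC (hfm ψ hψ) hψ' (hFz.irr ψ hψ) hψ'i hne
        rw [h2, map_pow, chi_pow_RC hLS.two ?_, Ecl_eq_RC hLS.two _ (hfm ψ hψ) (hFz.irr ψ hψ), h3]
        rw [h3]
        exact mul_ne_zero (pow_ne_zero _ (neg_ne_zero.2 hDne)) hN

end Pool.Agent.Helper3.GT
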