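import Pool.Agent.Helper3.GT.StL
import Pool.Agent.Helper54.HL.All

/-!
# GT, local part: reciprocity for the classes `Ecl` (module RC)
-/

set_option autoImplicit false

namespace Pool.Agent.Helper3.GT

open Polynomial Finset
open Pool.Agent.Helper54.HL

/-- The class of `x` modulo squares. -/
noncomputable def chi_RC {κ : Type} [Field κ] (x : κ) : ZMod 2 := by
  classical exact if IsSquare x then 0 else 1

theorem chi_eq_zero_RC {κ : Type} [Field κ] (x : κ) : chi_RC x = 0 ↔ IsSquare x := by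
  classical
  unfold chi_RC
  split_ifs with h
  · exact ⟨fun _ => h, fun _ => rfl⟩
  · exact ⟨fun h' => absurd h' (by decide), fun h' => absurd h' h⟩

theorem chi_of_not_RC {κ : Type} [Field κ] {x : κ} (h : ¬ IsSquare x) : chi_RC x = 1 := by
  classical
  unfold chi_RC
  rw [if_neg h]

theorem zmod_eq_RC {a b : ZMod 2} (h : a = 0 ↔ b = 0) : a = b := by
  revert a b; decide

theorem chi_congr_RC {κ κ' : Type} [Field κ] [Field κ'] {x : κ} {y : κ'}
    (h : IsSquare x ↔ IsSquare y) : chi_RC x = chi_RC y :=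
  zmod_eq_RC (by rw [chi_eq_zero_RC, chi_eq_zero_RC, h])

theorem chi_mul_RC {κ : Type} [Field κ] [Finite κ] (h2 : (2 : κ) ≠ 0) {x y : κ} (hx : x ≠ 0)
    (hy : y ≠ 0) : chi_RC (x * y) = chi_RC x + chi_RC y := by
  classical
  haveI : Fintype κ := Fintype.ofFinite κ
  have hchar : ringChar κ ≠ 2 := by
    intro hc
    apply h2
    have := ringChar.Nat.cast_ringChar (R := κ)
    rw [hc] at this
    exact_mod_cast this
  by_cases h : IsSquare x
  · rw [(chi_eq_zero_RC x).2 h, zero_add]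
    refine chi_congr_RC ⟨fun h' => ?_, fun h' => h.mul h'⟩
    have := h'.div h
    rwa [mul_div_cancel_left₀ _ hx] at this
  · by_cases h' : IsSquare y
    · rw [(chi_eq_zero_RC y).2 h', add_zero]
      refine chi_congr_RC ⟨fun h'' => ?_, fun h'' => h''.mul h'⟩
      have := h''.div h'
      rwa [mul_div_cancel_right₀ _ hy] at this
    · rw [chi_of_not_RC h, chi_of_not_RC h', (chi_eq_zero_RC _).2]
      · decide
      · rw [← quadraticChar_one_iff_isSquare (mul_ne_zero hx hy), map_mul,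
          quadraticChar_neg_one_iff_not_isSquare.2 h, quadraticChar_neg_one_iff_not_isSquare.2 h']
        norm_num

theorem chi_sq_RC {κ : Type} [Field κ] (x : κ) : chi_RC (x * x) = 0 :=
  (chi_eq_zero_RC _).2 ⟨x, rfl⟩

theorem chi_pow_RC {κ : Type} [Field κ] [Finite κ] (h2 : (2 : κ) ≠ 0) {x : κ} (hx : x ≠ 0)
    (n : ℕ) : chi_RC (x ^ n) = n * chi_RC x := by
  induction n with
  | zero => rw [pow_zero, Nat.cast_zero, zero_mul, chi_eq_zero_RC]; exact IsSquare.one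
  | succ n ih =>
    rw [pow_succ, chi_mul_RC h2 (pow_ne_zero _ hx) hx, ih]
    push_cast; ring

theorem Ecl_eq_RC {κ : Type} [Field κ] [Finite κ] (h2 : (2 : κ) ≠ 0) (c : κ) {ψ' ψ : κ[X]}
    (hm : ψ.Monic) (hi : Irreducible ψ) :
    Ecl c ψ' ψ = chi_RC (c ^ (ψ.natDegree * ψ'.natDegree) * Algebra.norm κ (AdjoinRoot.mk ψ ψ')) := by
  classical
  haveI hF : Fact (Irreducible ψ) := ⟨hi⟩
  have hfr : Module.finrank κ (AdjoinRoot ψ) = ψ.natDegree := by
    rw [(AdjoinRoot.powerBasis hi.ne_zero).finrank, AdjoinRoot.powerBasis_dim]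
  have h1 : Algebra.norm κ (AdjoinRoot.mk ψ (C c ^ ψ'.natDegree * ψ')) =
      c ^ (ψ.natDegree * ψ'.natDegree) * Algebra.norm κ (AdjoinRoot.mk ψ ψ') := by
    rw [map_mul, map_mul, map_pow, AdjoinRoot.mk_C, ← AdjoinRoot.algebraMap_eq, map_pow,
      Algebra.norm_algebraMap, hfr, ← pow_mul]
  refine zmod_eq_RC ?_
  rw [chi_eq_zero_RC, ← h1, (hFS κ h2 ψ hm hi).1]
  unfold Ecl
  split_ifs with h
  · exact ⟨fun _ => h, fun _ => rfl⟩
  · exact ⟨fun h' => absurd h' (by decide), fun h' => absurd h' h⟩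

theorem norm_ne_RC {κ : Type} [Field κ] {ψ' ψ : κ[X]} (hm : ψ.Monic) (hm' : ψ'.Monic)
    (hi : Irreducible ψ) (hi' : Irreducible ψ') (hne : ψ ≠ ψ') :
    Algebra.norm κ (AdjoinRoot.mk ψ ψ') ≠ 0 := by
  haveI hF : Fact (Irreducible ψ) := ⟨hi⟩
  haveI hfd : FiniteDimensional κ (AdjoinRoot ψ) := (AdjoinRoot.powerBasis hi.ne_zero).finite
  rw [Ne, Algebra.norm_eq_zero_iff, AdjoinRoot.mk_eq_zero]
  intro hd
  exact hne (eq_of_monic_of_associated hm hm' (hi.associated_of_dvd hi' hd))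

theorem hRC : StRC := by
  intro κ _ _ h2
  refine ⟨chi_RC (-1 : κ), ?_⟩
  intro c hc ψ ψ' hm hm' hi hi' hne
  rw [Ecl_eq_RC h2 c hm' hi', Ecl_eq_RC h2 c hm hi, aNS κ ψ ψ' hm hm']
  have hN : Algebra.norm κ (AdjoinRoot.mk ψ' ψ) ≠ 0 := norm_ne_RC hm' hm hi' hi hne.symm
  have hne1 : (-1 : κ) ≠ 0 := neg_ne_zero.2 one_ne_zero
  rw [mul_comm ψ'.natDegree]
  rw [chi_mul_RC h2 (pow_ne_zero _ hc) hN, chi_mul_RC h2 (pow_ne_zero _ hc)
    (mul_ne_zero (pow_ne_zero _ hne1) hN), chi_mul_RC h2 (pow_ne_zero _ hne1) hN,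
    chi_pow_RC h2 hne1]
  have h3 : ∀ a b e : ZMod 2, a + b + (a + (e + b)) = e := by decide
  exact h3 _ _ _

end Pool.Agent.Helper3.GT
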