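import Pool.Agent.Helper3.GT.StL
import Pool.Agent.Helper3.GT.M_FAC
import Pool.Agent.Helper3.HY.Base
import Pool.Agent.Helper92.TW.C7

/-!
# GT: module REP (existence and uniqueness of `RepG`)
-/

set_option autoImplicit false

namespace Pool.Agent.Helper3.GT

open Polynomial Finset
open Pool.Agent.Helper54.PT (Prm prm IsAbsP IsAbsInf)
open Pool.Agent.Helper3.HY (fK RR LL kp red TwAt twGroup baseChange NearOne IsTwPoint)
open Pool.Agent.Helper54.HL

namespace MREP

theorem mk_eq_zero {F : Type} [Field F] (f : F[X][X]) (hf : f.Monic) (p : F[X][X])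
    (h : algebraMap (RR f) (LL f) (AdjoinRoot.mk f p) = 0) : AdjoinRoot.mk f p = 0 := by
  have h1 : algebraMap (RR f) (LL f) (AdjoinRoot.mk f p) =
      AdjoinRoot.mk (fK f) (p.map (algebraMap F[X] (RatFunc F))) :=
    Pool.Agent.Helper3.HY.algebraMap_mk p
  rw [h1, AdjoinRoot.mk_eq_zero] at h
  rw [AdjoinRoot.mk_eq_zero]
  exact (Polynomial.map_dvd_map _ (RatFunc.algebraMap_injective F) hf).1 h

theorem ne_zero {F : Type} [Field F] (f : F[X][X]) (hf : f.Monic)
    [Fact (Irreducible (fK f))] (P : Prm F)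
    (ψ : (kp P)[X]) (hψ : Irreducible ψ) (hd : ψ ∣ f.map (red P)) (e : ℤ) (s : AdjoinRoot ψ)
    (h : RepG P (f := f) ψ 0 e s) : False := by
  have _ : Fact (Irreducible ψ) := ⟨hψ⟩
  obtain ⟨hs, p, a, ha, hp, hz⟩ := h
  rw [zero_mul] at hz
  have hP : algebraMap (RatFunc F) (LL f) (algebraMap F[X] (RatFunc F) P.1 ^ e) ≠ 0 := by
    rw [Ne, map_eq_zero]
    refine zpow_ne_zero _ ?_
    rw [Ne, map_eq_zero_iff _ (RatFunc.algebraMap_injective F)]
    exact P.2.1.ne_zero
  have h1 := (mul_eq_zero.1 hz.symm).resolve_left hP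
  have h2 := mk_eq_zero f hf p h1
  rw [AdjoinRoot.mk_eq_zero] at h2
  have h3 : AdjoinRoot.mk ψ (p.map (red P)) = 0 := by
    rw [AdjoinRoot.mk_eq_zero]
    exact hd.trans (Polynomial.map_dvd _ h2)
  rw [h3] at hp
  rcases mul_eq_zero.1 hp.symm with h4 | h4
  · exact hs h4
  · exact ha h4

end MREP

theorem hREP (hLSD : StLSD) (hCG : StCG) : StREP := by
  intro F _ _ h2 g hg f hf hdeg _ P hP ψ hψ
  obtain ⟨v, hv, hvP⟩ := Pool.Agent.Helper54.PT.exists_absP (F := F) P
  obtain ⟨O, _, _, _, _, _, i, ρ, gg, hL, hS, -, hgg⟩ := hLSD F h2 g hg f hf hdeg P hP v hv hvP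
  have hsq : Squarefree (f.map (red P)) := by
    have hsep : (f.map (red P)).Separable := MFAC.coprime_red f hf (by omega) P hP
    exact hsep.squarefree
  have hd : gg ψ ∣ f.map i := by
    rw [← hgg.prod]
    exact Finset.dvd_prod_of_mem _ hψ
  have key := hCG F f hf P hsq O v.Completion i (algebraMap (RatFunc F) v.Completion) ρ hL
    (gg ψ) ψ (hgg.monic ψ hψ) (hgg.irr ψ hψ) hd (hgg.red ψ hψ)
  have hψd : ψ ∣ f.map (red P) := by
    have h3 := Polynomial.map_dvd ρ hd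
    rwa [hgg.red ψ hψ, hL.map_red] at h3
  refine ⟨fun z hz => (key z hz).1, fun z e e' s s' h h' => ?_⟩
  by_cases hz : z = 0
  · rw [hz] at h
    exact (MREP.ne_zero f hf P ψ (hgg.irr ψ hψ) hψd e s h).elim
  · exact (key z hz).2.1 e e' s s' h h'

end Pool.Agent.Helper3.GT
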