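import Pool.Agent.Helper3.GT.StL

set_option autoImplicit false

namespace Pool.Agent.Helper3.GT

open Polynomial Finset
open Pool.Agent.Helper54.PT (Prm prm IsAbsP IsAbsInf)
open Pool.Agent.Helper3.HY (fK RR LL kp red TwAt twGroup baseChange NearOne IsTwPoint)
open Pool.Agent.Helper54.HL

theorem hTWS : StTWS := by
  intro k _ h D c hc
  obtain ⟨uc, huc⟩ : ∃ uc : (AdjoinRoot h)ˣ, (uc : AdjoinRoot h) = AdjoinRoot.mk h (C c) := by
    refine ⟨⟨AdjoinRoot.mk h (C c), AdjoinRoot.mk h (C c⁻¹), ?_, ?_⟩, rfl⟩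
    · rw [← map_mul, ← C_mul, mul_inv_cancel₀ hc, C_1, map_one]
    · rw [← map_mul, ← C_mul, inv_mul_cancel₀ hc, C_1, map_one]
  rw [twGroup, Subgroup.closure_le]
  rintro z (hz | ⟨w, rfl⟩)
  · obtain ⟨U, V, hU, hco, hdvd, hzv⟩ := hz
    have hpt : IsTwPoint h D ((z * ((uc ^ U.natDegree) ^ 2)⁻¹ : (AdjoinRoot h)ˣ) :
        AdjoinRoot h) := by
      refine ⟨U, C c⁻¹ * V, hU, hco, ?_, ?_⟩
      · have h1 : C D * h - (C c⁻¹ * V) ^ 2 = C (c⁻¹ ^ 2) * (C (D * c ^ 2) * h - V ^ 2) := by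
          have h2 : (C (c⁻¹ ^ 2) * C (D * c ^ 2) : k[X]) = C D := by
            rw [← C_mul]
            congr 1
            field_simp
          rw [mul_sub, ← mul_assoc, h2, mul_pow, C_pow]
        rw [h1]
        exact hdvd.mul_left _
      · rw [Units.val_mul, ← Units.eq_mul_inv_iff_mul_eq]
        rw [inv_inv, Units.val_pow_eq_pow_val, Units.val_pow_eq_pow_val, huc, hzv,
          ← map_pow (AdjoinRoot.mk h), ← map_pow (AdjoinRoot.mk h), ← map_mul (AdjoinRoot.mk h)]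
        congr 1
        have h3 : (C (-(D * c ^ 2)) : k[X]) = C (-D) * (C c) ^ 2 := by
          rw [← C_pow, ← C_mul, neg_mul]
        rw [h3]
        ring
    have h4 : z = (z * ((uc ^ U.natDegree) ^ 2)⁻¹) * (uc ^ U.natDegree) ^ 2 := by group
    rw [h4]
    exact mul_mem (Subgroup.subset_closure (Or.inl hpt))
      (Subgroup.subset_closure (Or.inr ⟨uc ^ U.natDegree, rfl⟩))
  · exact Subgroup.subset_closure (Or.inr ⟨w, rfl⟩)

end Pool.Agent.Helper3.GT
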