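import Pool.Agent.Helper3.GT.StL
import Pool.Agent.Helper3.GT.M_FAC
import Pool.Agent.Helper54.HL.M_OV
import Pool.Agent.Helper3.HY.M_De2

/-!
# GT module UF (helper68)
-/

set_option autoImplicit false

namespace Pool.Agent.Helper3.GT

open Polynomial Finset
open Pool.Agent.Helper54.PT (Prm prm IsAbsP IsAbsInf)
open Pool.Agent.Helper3.HY (fK RR LL kp red TwAt twGroup baseChange NearOne IsTwPoint)
open Pool.Agent.Helper54.HL

namespace MUF

variable {F : Type} [Field F] {f : F[X][X]} {P : Prm F}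

/-- The residue map to `kp[x] / ψ`. -/
noncomputable def res (ψ : (kp P)[X]) (hψ : ψ ∣ f.map (red P)) : RR f →+* AdjoinRoot ψ :=
  AdjoinRoot.map (red P) f ψ hψ

theorem res_mk (ψ : (kp P)[X]) (hψ : ψ ∣ f.map (red P)) (p : F[X][X]) :
    res ψ hψ (AdjoinRoot.mk f p) = AdjoinRoot.mk ψ (p.map (red P)) := by
  rw [res, AdjoinRoot.map, AdjoinRoot.lift_mk, ← Polynomial.eval₂_map,
    ← AdjoinRoot.aeval_eq, Polynomial.aeval_def]
  rfl

theorem res_C (ψ : (kp P)[X]) (hψ : ψ ∣ f.map (red P)) (a : F[X]) :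
    res ψ hψ (algebraMap F[X] (RR f) a) = AdjoinRoot.mk ψ (C (red P a)) := by
  have h := res_mk ψ hψ (C a)
  rw [Polynomial.map_C] at h
  exact h

theorem res_C_ne (ψ : (kp P)[X]) (hi : Irreducible ψ) (hψ : ψ ∣ f.map (red P)) (a : F[X])
    (ha : ¬ P.1 ∣ a) : res ψ hψ (algebraMap F[X] (RR f) a) ≠ 0 := by
  rw [res_C]
  intro h
  rw [AdjoinRoot.mk_eq_zero] at h
  have h6 : red P a ≠ 0 := fun h => ha (AdjoinRoot.mk_eq_zero.1 h)
  exact hi.not_isUnit (isUnit_of_dvd_unit h (isUnit_C.2 (isUnit_iff_ne_zero.2 h6)))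

theorem res_P (ψ : (kp P)[X]) (hψ : ψ ∣ f.map (red P)) :
    res ψ hψ (algebraMap F[X] (RR f) P.1) = 0 := by
  rw [res_C, show red P P.1 = 0 from AdjoinRoot.mk_self, C_0, map_zero]

theorem res_surj (ψ : (kp P)[X]) (hψ : ψ ∣ f.map (red P)) :
    Function.Surjective (res (f := f) ψ hψ) := by
  intro y
  obtain ⟨q, rfl⟩ := AdjoinRoot.mk_surjective y
  obtain ⟨p, rfl⟩ := Polynomial.map_surjective (red P) AdjoinRoot.mk_surjective q
  exact ⟨AdjoinRoot.mk f p, res_mk ψ hψ p⟩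

theorem vanP_of_res {ψ : (kp P)[X]} (hψ : ψ ∣ f.map (red P)) (r : RR f) (h : res ψ hψ r = 0) :
    VanP P ψ (algebraMap (RR f) (LL f) r) := by
  obtain ⟨p, rfl⟩ := AdjoinRoot.mk_surjective r
  refine ⟨1, p, P.2.2.not_dvd_one, by rw [map_one, one_mul], ?_⟩
  rw [res_mk, AdjoinRoot.mk_eq_zero] at h
  exact h

end MUF

open MUF in
theorem hUF (hPI : StPI) (_hNU : StNU) : StUF := by
  classical
  intro F _ _ f hf hfd hirr P hBd O k _ _ _ _ _ _ i j ρ hL ψ hψf p hp0 hoth m hord hev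
  obtain ⟨hψm, hψi, hψd⟩ := (MFAC.mem_facs f hf P ψ).1 hψf
  have : Fact (Irreducible ψ) := ⟨hψi⟩
  have hinj : Function.Injective (algebraMap (RR f) (LL f)) := Pool.Agent.Helper3.HY.De2.inj hf
  have : IsDomain (RR f) := hinj.isDomain (algebraMap (RR f) (LL f))
  have hA : ∀ a : F[X], algebraMap (RR f) (LL f) (algebraMap F[X] (RR f) a) =
      algebraMap F[X] (LL f) a := fun a =>
    (IsScalarTower.algebraMap_apply F[X] (RR f) (LL f) a).symm
  have hcl : ∀ (a : F[X]) (z r : RR f), algebraMap F[X] (LL f) a * algebraMap (RR f) (LL f) z =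
      algebraMap (RR f) (LL f) r → algebraMap F[X] (RR f) a * z = r := by
    intro a z r h
    apply hinj
    rw [map_mul, hA]
    exact h
  -- elements of `F[X]` prime to `P` become units
  have hρunit : ∀ c : O, ρ c ≠ 0 → IsUnit c := by
    intro c hc
    by_contra hcu
    apply hc
    rw [hL.ker]
    have h12 : c ∈ IsLocalRing.maximalIdeal O := (IsLocalRing.mem_maximalIdeal c).2 hcu
    rw [(IsDiscreteValuationRing.irreducible_iff_uniformizer _).1 hL.unif,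
      Ideal.mem_span_singleton] at h12
    exact h12
  have hunit : ∀ a : F[X], ¬ P.1 ∣ a → IsUnit (phi_OV i f (algebraMap F[X] (RR f) a)) := by
    intro a ha
    rw [phi_C_OV]
    refine IsUnit.map _ (hρunit _ ?_)
    rw [hL.rho]
    exact fun h => ha (AdjoinRoot.mk_eq_zero.1 h)
  obtain ⟨ϖ, hϖ, hfact⟩ := hPI F f hf hfd P hBd
  obtain ⟨-, ⟨a, pw, ha, haw, hpw⟩, hdiv⟩ := hϖ ψ hψf
  obtain ⟨w, hw⟩ : ∃ w : RR f, w = AdjoinRoot.mk f pw := ⟨_, rfl⟩
  rw [← hw] at haw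
  have hresw : res ψ hψd w = 0 := by
    rw [hw, res_mk, AdjoinRoot.mk_eq_zero]; exact hpw
  have hP0 : algebraMap F[X] (RR f) P.1 ≠ 0 := by
    intro h0
    have h1 : algebraMap F[X] (LL f) P.1 = 0 := by rw [← hA, h0, map_zero]
    rw [IsScalarTower.algebraMap_apply F[X] (RatFunc F) (LL f), map_eq_zero,
      map_eq_zero_iff _ (RatFunc.algebraMap_injective F)] at h1
    exact P.2.2.ne_zero h1
  have ha0 : algebraMap F[X] (RR f) a ≠ 0 := by
    intro h
    apply res_C_ne ψ hψi hψd a ha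
    rw [h, map_zero]
  have hϖ0 : ϖ ψ ≠ 0 := by
    intro h0
    obtain ⟨y, -, hy⟩ := hdiv _ (vanP_of_res hψd _ (res_P (f := f) ψ hψd))
    rw [h0, zero_mul] at hy
    exact hP0 (hinj (by rw [hy, map_zero]))
  have hw0 : w ≠ 0 := by
    intro h
    rw [h, map_zero] at haw
    rcases mul_eq_zero.1 haw with h1 | h1
    · rw [← hA] at h1
      exact ha0 (hinj (by rw [h1, map_zero]))
    · exact hϖ0 h1
  -- the ideal of `w` is maximal
  have hqM : ∀ x : RR f, res ψ hψd x = 0 → phi_OV i f x ∈ Ideal.span {phi_OV i f w} := by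
    intro x hx
    obtain ⟨y, ⟨b, s, hb, hbs⟩, hy⟩ := hdiv _ (vanP_of_res hψd _ hx)
    have h1 : algebraMap F[X] (RR f) (a * b) * x = w * s := by
      apply hcl
      rw [map_mul, map_mul, ← haw, ← hbs, hy]
      ring
    have h2 := hunit (a * b) (fun h => (P.2.2.prime.dvd_or_dvd h).elim ha hb)
    rw [← Ideal.unit_mul_mem_iff_mem _ h2, ← map_mul, h1, map_mul]
    exact Ideal.mul_mem_right _ _ (Ideal.mem_span_singleton_self _)
  have hπM : algebraMap O (AdjoinRoot (f.map i)) (i P.1) ∈ Ideal.span {phi_OV i f w} := by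
    rw [← phi_C_OV]; exact hqM _ (res_P ψ hψd)
  have h1M : (1 : AdjoinRoot (f.map i)) ∉ Ideal.span {phi_OV i f w} := by
    intro h
    obtain ⟨y, hy⟩ := Ideal.mem_span_singleton.1 h
    obtain ⟨r, b', hrb⟩ := dense_OV hL y
    obtain ⟨y', hy'⟩ := inj_OV hL (1 - w * r) (b' * phi_OV i f w) (by
      rw [map_sub, map_one, map_mul, hy, hrb]; ring)
    have h2 := congrArg (res ψ hψd) hy'
    rw [map_sub, map_one, map_mul, map_mul, hresw, res_P, zero_mul, zero_mul, sub_zero] at h2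
    exact one_ne_zero h2
  have hmax : (Ideal.span {phi_OV i f w}).IsMaximal := by
    rw [Ideal.isMaximal_iff]
    refine ⟨h1M, ?_⟩
    intro I x hI hx hxI
    obtain ⟨r, b', hrb⟩ := dense_OV hL x
    have hr : res ψ hψd r ≠ 0 := by
      intro hr
      refine hx ?_
      rw [hrb]
      exact add_mem (hqM r hr) (Ideal.mul_mem_right _ _ hπM)
    obtain ⟨y, hy⟩ := res_surj ψ hψd (res ψ hψd r)⁻¹
    have hys : res ψ hψd (1 - y * r) = 0 := by
      rw [map_sub, map_one, map_mul, hy, inv_mul_cancel₀ hr, sub_self]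
    have h2 : (1 : AdjoinRoot (f.map i)) = phi_OV i f y *
        (x - algebraMap O (AdjoinRoot (f.map i)) (i P.1) * b') + phi_OV i f (1 - y * r) := by
      rw [hrb, add_sub_cancel_right, ← map_mul, ← map_add, add_sub_cancel, map_one]
    rw [h2]
    exact add_mem (Ideal.mul_mem_left _ _ (sub_mem hxI (Ideal.mul_mem_right _ _ (hI hπM))))
      (hI (hqM _ hys))
  have hordw : Ring.ord (AdjoinRoot (f.map i)) (phi_OV i f w) = 1 := by
    rw [Ring.ord, Module.length_eq_one_iff, isSimpleModule_iff_isCoatom]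
    exact hmax.out
  -- the factorization of `z`
  obtain ⟨z, hz⟩ : ∃ z : RR f, z = AdjoinRoot.mk f p := ⟨_, rfl⟩
  rw [← hz] at hp0 ⊢
  have hz0 : algebraMap (RR f) (LL f) z ≠ 0 := fun h => hp0 (hinj (by rw [h, map_zero]))
  obtain ⟨mm, u, hu, hzu⟩ := hfact _ hz0 ⟨1, z, P.2.2.not_dvd_one, by rw [map_one, one_mul]⟩
  have hmm : ∀ ψ' ∈ facs f P, ψ' ≠ ψ → mm ψ' = 0 := by
    intro ψ' hψ'f hne
    by_contra hmm0
    obtain ⟨hψ'm, hψ'i, hψ'd⟩ := (MFAC.mem_facs f hf P ψ').1 hψ'f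
    have : Fact (Irreducible ψ') := ⟨hψ'i⟩
    obtain ⟨au, ru, su, hau, hru, -⟩ := hu
    have hex : ∀ ψ'' : (kp P)[X], ∃ (b : F[X]) (r : RR f), ψ'' ∈ facs f P → ¬ P.1 ∣ b ∧
        algebraMap F[X] (LL f) b * ϖ ψ'' = algebraMap (RR f) (LL f) r ∧
        (ψ'' = ψ' → res ψ' hψ'd r = 0) := by
      intro ψ''
      by_cases h : ψ'' ∈ facs f P
      · obtain ⟨-, ⟨b, q, hb, hbq, hq⟩, -⟩ := hϖ ψ'' h
        refine ⟨b, AdjoinRoot.mk f q, fun _ => ⟨hb, hbq, ?_⟩⟩
        rintro rfl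
        rw [res_mk, AdjoinRoot.mk_eq_zero]
        exact hq
      · exact ⟨1, 1, fun h' => absurd h' h⟩
    choose b r hbr using hex
    have h1 : algebraMap F[X] (RR f) (au * ∏ ψ'' ∈ facs f P, b ψ'' ^ mm ψ'') * z =
        ru * ∏ ψ'' ∈ facs f P, r ψ'' ^ mm ψ'' := by
      apply hcl
      rw [map_mul, map_mul, hzu, map_prod, map_prod, ← hru]
      have h2 : ∏ ψ'' ∈ facs f P, algebraMap (RR f) (LL f) (r ψ'' ^ mm ψ'') =
          (∏ ψ'' ∈ facs f P, algebraMap F[X] (LL f) (b ψ'' ^ mm ψ'')) *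
            ∏ ψ'' ∈ facs f P, ϖ ψ'' ^ mm ψ'' := by
        rw [← prod_mul_distrib]
        refine prod_congr rfl fun ψ'' h => ?_
        rw [map_pow, ← (hbr ψ'' h).2.1, mul_pow, map_pow]
      rw [h2]
      ring
    have h3 : res ψ' hψ'd (∏ ψ'' ∈ facs f P, r ψ'' ^ mm ψ'') = 0 := by
      rw [map_prod]
      refine prod_eq_zero hψ'f ?_
      rw [map_pow, (hbr ψ' hψ'f).2.2 rfl, zero_pow hmm0]
    have h4 := congrArg (res ψ' hψ'd) h1
    rw [map_mul (res ψ' hψ'd), map_mul (res ψ' hψ'd) ru, h3, mul_zero] at h4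
    rcases mul_eq_zero.1 h4 with h5 | h5
    · refine res_C_ne ψ' hψ'i hψ'd _ ?_ h5
      intro h6
      rcases P.2.2.prime.dvd_or_dvd h6 with h7 | h7
      · exact hau h7
      · obtain ⟨ψ'', h8, h9⟩ := (P.2.2.prime.dvd_finsetProd_iff _).1 h7
        exact (hbr ψ'' h8).1 (P.2.2.prime.dvd_of_dvd_pow h9)
    · rw [hz, res_mk, AdjoinRoot.mk_eq_zero] at h5
      exact hoth ψ' hψ'f hne h5
  have hzu' : algebraMap (RR f) (LL f) z = u * ϖ ψ ^ mm ψ := by
    rw [hzu]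
    congr 1
    refine prod_eq_single_of_mem ψ hψf ?_
    intro ψ' h1 h2
    rw [hmm ψ' h1 h2, pow_zero]
  -- the order
  have hordz : Ring.ord (AdjoinRoot (f.map i)) (phi_OV i f z) = mm ψ := by
    obtain ⟨au, ru, su, hau, hru, hrs⟩ := hu
    have h1 : algebraMap F[X] (RR f) (au * a ^ mm ψ) * z = ru * w ^ mm ψ := by
      apply hcl
      rw [map_mul, map_mul, hzu', ← hru, map_pow, map_pow, ← haw, mul_pow]
      ring
    have h2 : IsUnit (phi_OV i f ru) := by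
      have h3 := congrArg (phi_OV i f) hrs
      rw [map_mul, map_pow] at h3
      exact isUnit_of_mul_isUnit_left (h3 ▸ (hunit au hau).pow 2)
    have h4 := hunit (au * a ^ mm ψ) (fun h => (P.2.2.prime.dvd_or_dvd h).elim hau
      (fun h' => ha (P.2.2.prime.dvd_of_dvd_pow h')))
    have h5 := congrArg (phi_OV i f) h1
    rw [map_mul (phi_OV i f), map_mul (phi_OV i f) ru, map_pow] at h5
    have hspan : Ideal.span {phi_OV i f z} = Ideal.span {phi_OV i f w ^ mm ψ} := by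
      rw [← Ideal.span_singleton_mul_left_unit h4, h5, Ideal.span_singleton_mul_left_unit h2]
    rw [Ring.ord, hspan]
    change Ring.ord (AdjoinRoot (f.map i)) (phi_OV i f w ^ mm ψ) = mm ψ
    rw [Ring.ord_pow (nzd_OV hf hL w hw0), hordw, nsmul_one]
  have hm : m = mm ψ := by
    rw [hz, phi_mk_OV, hord] at hordz
    exact_mod_cast hordz
  obtain ⟨l, hl⟩ := hm ▸ hev
  refine ⟨(ϖ ψ ^ l)⁻¹, inv_ne_zero (pow_ne_zero _ hϖ0), ?_⟩
  have h1 : algebraMap (RR f) (LL f) z * (ϖ ψ ^ l)⁻¹ ^ 2 = u := by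
    rw [hzu', hl, pow_add]
    field_simp
  rw [h1]
  exact hu

end Pool.Agent.Helper3.GT
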