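import Pool.Agent.Helper3.GT.M_FAC
import Pool.Agent.Helper3.GT.M_HF
import Pool.Agent.Helper3.GT.M_OM
import Pool.Agent.Helper3.GT.M_NL
import Pool.Agent.Helper3.GT.M_NP
import Pool.Agent.Helper3.GT.M_RC
import Pool.Agent.Helper3.GT.M_PC
import Pool.Agent.Helper3.GT.M_CG
import Pool.Agent.Helper3.GT.M_LSD
import Pool.Agent.Helper3.GT.M_REP
import Pool.Agent.Helper3.GT.M_NU
import Pool.Agent.Helper3.GT.M_UF
import Pool.Agent.Helper3.GT.M_EIP
import Pool.Agent.Helper3.GT.M_SQI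
import Pool.Agent.Helper3.GT.M_INV
import Pool.Agent.Helper3.GT.M_OE
import Pool.Agent.Helper3.GT.M_L1
import Pool.Agent.Helper3.GT.M_L2
import Pool.Agent.Helper3.GT.M_TWS

/-!
# GT: the local part
-/

set_option autoImplicit false

namespace Pool.Agent.Helper3.GT

theorem lsd_all : StLSD := hLSD hHF hFAC

theorem l1_of (hPI : StPI) : StL1 := hL1 (hEIP (hUF hPI hNU) hNU) hNU

theorem l2_of (hOE2 : StOE2) : StL2 := hL2 lsd_all hCG hOM hNL hNP hRC hPC hOE2 hFAC

theorem oe_of (hOE2 : StOE2) : StOE := hOE lsd_all hCG hOM hNL hOE2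

theorem inv_of (hSQP : StSQP) : StINV := hINV hTWS hSQI hSQP

end Pool.Agent.Helper3.GT
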