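import Pool.Agent.Helper54.GT.AllC
import Pool.Agent.Helper54.GT.A_CD
import Pool.Agent.Helper54.GT.A_CHR
import Pool.Agent.Helper54.GT.A_DIV
import Pool.Agent.Helper54.GT.A_DSC
import Pool.Agent.Helper54.GT.A_EB
import Pool.Agent.Helper54.GT.A_FIX
import Pool.Agent.Helper54.GT.A_GAL
import Pool.Agent.Helper54.GT.A_IRB
import Pool.Agent.Helper54.GT.A_KD
import Pool.Agent.Helper54.GT.A_KI
import Pool.Agent.Helper54.GT.A_KIa
import Pool.Agent.Helper54.GT.A_KIb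
import Pool.Agent.Helper54.GT.A_KIc
import Pool.Agent.Helper54.GT.A_LI
import Pool.Agent.Helper54.GT.A_ORD
import Pool.Agent.Helper54.GT.A_PRM
import Pool.Agent.Helper54.GT.A_RT
import Pool.Agent.Helper54.GT.A_SPN
import Pool.Agent.Helper54.GT.A_SQM
import Pool.Agent.Helper54.GT.A_UN
import Pool.Agent.Helper54.GT.B_A1
import Pool.Agent.Helper54.GT.B_A1p
import Pool.Agent.Helper54.GT.B_A2
import Pool.Agent.Helper54.GT.B_AUI
import Pool.Agent.Helper54.GT.B_AUS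
import Pool.Agent.Helper54.GT.B_CN0
import Pool.Agent.Helper54.GT.B_CN1
import Pool.Agent.Helper54.GT.B_CN2
import Pool.Agent.Helper54.GT.B_CNT
import Pool.Agent.Helper54.GT.B_DAT
import Pool.Agent.Helper54.GT.B_EXT
import Pool.Agent.Helper54.GT.B_RAUT
import Pool.Agent.Helper54.GT.B_RBS
import Pool.Agent.Helper54.GT.B_RIND
import Pool.Agent.Helper54.GT.B_RMUL
import Pool.Agent.Helper54.GT.B_TP
import Pool.Agent.Helper54.GT.B_YR
import Pool.Agent.Helper54.GT.B_YT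
import Pool.Agent.Helper3.GT.A_SGN0
import Pool.Agent.Helper3.GT.M_FAC

/-!
# GT: the Chebotarev statements
-/

set_option autoImplicit false

namespace Pool.Agent.Helper54.GT

theorem xKIa : StKIa := aKIa aPRM
theorem xKIb : StKIb := aKIb aPRM aCHR aFIX aDSC
theorem xKIc : StKIc := aKIc aPRM
theorem xKI : StKI := aKI aPRM aIRB aUN xKIa xKIb xKIc aCD
theorem xKD : StKD := aKD aPRM aCHR aFIX aDSC
theorem xORD : StORD := aORD aSPN aPRM
theorem xAUI : StAUI := bAUI aPRM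
theorem xAUS : StAUS := bAUS xAUI
theorem xEXT : StEXT := bEXT aPRM xAUI
theorem xRAUT : StRAUT := bRAUT xEXT xAUI xAUS
theorem xRBS : StRBS := bRBS (bRIND aLI) bRMUL
theorem xDAT : StDAT := bDAT xRBS bRMUL xRAUT xEXT xAUI
theorem xYR : StYR := bYR xDAT bRMUL cSz
theorem xCNT : StCNT := bCNT xYR bYT xRAUT xORD cCh cTs cZr
theorem xCN0 : StCN0 := bCN0 xCNT aGAL aRT
theorem xCN1 : StCN1 := bCN1 xCNT aGAL xKI
theorem xCN2 : StCN2 := bCN2 xCNT aGAL xKD
theorem xTP : StTP := bTP aDSC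
theorem xFAC : Pool.Agent.Helper3.GT.StFAC := Pool.Agent.Helper3.GT.hFAC

/-- (A1) -/
theorem stA1 : Pool.Agent.Helper3.GT.StA1 :=
  bA1 xCN1 aRT aEB xTP aSQM aDIV Pool.Agent.Helper3.GT.hSGN aUN xFAC

/-- (A1') -/
theorem stA1p : Pool.Agent.Helper3.GT.StA1p :=
  bA1p xCN1 aRT aEB xTP aSQM aDIV aUN xFAC

/-- (A2) -/
theorem stA2 : Pool.Agent.Helper3.GT.StA2 :=
  bA2 xCN0 xCN2 aRT aEB xTP aDIV

end Pool.Agent.Helper54.GT
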