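import Pool.Agent.Helper3.GT.St

/-!
# GT: finiteness and small representatives (FIN)
-/

set_option autoImplicit false

namespace Pool.Agent.Helper3.GT

open Polynomial Finset Filter Topology
open Pool.Agent.Helper54.PT (Prm prm IsAbsP IsAbsInf)
open Pool.Agent.Helper3.HY (fK RR LL kp red TwAt twGroup baseChange co Kfil selmerSet)

namespace FINaux

theorem finite_prm_dvd {F : Type} [Field F] [Fintype F] {d : F[X]} (hd : d ≠ 0) :
    {P : Prm F | P.1 ∣ d}.Finite := by
  refine Set.Finite.of_injOn (f := fun P : Prm F => P.1) (t := {p : F[X] | p.natDegree ≤ d.natDegree})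
    (fun P hP => natDegree_le_of_dvd hP hd) (fun P _ Q _ h => Subtype.ext h)
    (Pool.Agent.Helper54.PT.finite_natDegree_le F _)

theorem finite_Rp {F : Type} [Field F] [Fintype F] (f : F[X][X]) (c : ℕ) :
    {a : F[X][X] | Rp f c a}.Finite := by
  refine Set.Finite.of_injOn (f := fun (a : F[X][X]) (i : Fin f.natDegree) => a.coeff i)
    (t := Set.pi Set.univ fun _ => {p : F[X] | p.natDegree ≤ c}) ?_ ?_
    (Set.Finite.pi fun _ => Pool.Agent.Helper54.PT.finite_natDegree_le F _)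
  · intro a ha i _
    exact ha.2 i
  · intro a ha b hb h
    ext1 i
    rcases lt_or_ge i f.natDegree with hi | hi
    · exact congrFun h ⟨i, hi⟩
    · rw [coeff_eq_zero_of_natDegree_lt (lt_of_lt_of_le ha.1 hi),
        coeff_eq_zero_of_natDegree_lt (lt_of_lt_of_le hb.1 hi)]

end FINaux

open FINaux in
theorem hFIN (hSMALL : StSMALL) : StFIN := by
  classical
  intro F _ _ f hm hsep hd _
  obtain ⟨C, hC⟩ := hSMALL F f hm hsep
  have hB : {P : Prm F | Bd f P}.Finite :=
    (finite_prm_dvd hd).subset fun P hP => (dvd_pow_self P.1 two_ne_zero).trans hP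
  obtain ⟨B, hB'⟩ := hB.exists_finset
  have key : ∀ (S : Finset (Prm F)) (D : F[X]), ∀ z ∈ SelS f S D, ∃ (β : LL f) (a : F[X][X]), β ≠ 0 ∧
      Rp f (C * (dgS B + 1) * (dgS S + 1)) a ∧
        (z : LL f) * β ^ 2 = algebraMap (RR f) (LL f) (AdjoinRoot.mk f a) := by
    intro S D z hz
    obtain ⟨β, a, hβ, ha, h⟩ := hC (S ∪ B) z z.ne_zero (fun P hP => by
      rw [mem_union, not_or] at hP
      exact hz.2.1 P hP.1 fun h => hP.2 ((hB' P).2 h))
    refine ⟨β, a, hβ, ⟨ha.1, fun i => (ha.2 i).trans ?_⟩, h⟩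
    have h1 : dgS (S ∪ B) ≤ dgS S + dgS B := by
      unfold dgS
      rw [← sum_union_inter]
      exact Nat.le_add_right _ _
    calc C * (dgS (S ∪ B) + 1) ≤ C * ((dgS B + 1) * (dgS S + 1)) :=
          Nat.mul_le_mul_left _ (by nlinarith)
      _ = _ := by ring
  refine ⟨C * (dgS B + 1), fun S D => ⟨?_, key S D⟩⟩
  refine ((finite_Rp f (C * (dgS B + 1) * (dgS S + 1))).image fun a =>
    if h : algebraMap (RR f) (LL f) (AdjoinRoot.mk f a) ≠ 0 then
      (QuotientGroup.mk (Units.mk0 _ h) : (LL f)ˣ ⧸ (powMonoidHom 2 : (LL f)ˣ →* (LL f)ˣ).range)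
    else 1).subset ?_
  rintro _ ⟨z, hz, rfl⟩
  obtain ⟨β, a, hβ, ha, h⟩ := key S D z hz
  have h0 : algebraMap (RR f) (LL f) (AdjoinRoot.mk f a) ≠ 0 := by
    rw [← h]
    exact mul_ne_zero z.ne_zero (pow_ne_zero 2 hβ)
  refine ⟨a, ha, ?_⟩
  simp only
  rw [dif_pos h0, eq_comm, QuotientGroup.eq]
  refine ⟨Units.mk0 β hβ, ?_⟩
  ext
  simp only [powMonoidHom_apply, Units.val_pow_eq_pow_val, Units.val_mk0, Units.val_mul]
  rw [← h, ← mul_assoc, Units.inv_mul, one_mul]

end Pool.Agent.Helper3.GT
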