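import Pool.Agent.Helper3.GT.StL
import Pool.Agent.Helper3.GT.M_FAC
import Pool.Agent.Helper3.GT.M_REP
import Pool.Agent.Helper3.HY.M_De2

/-!
# GT: module OE2 (`EvP` means that all valuations at the good prime are even)
-/

set_option autoImplicit false

namespace Pool.Agent.Helper3.GT

open Polynomial Finset
open Pool.Agent.Helper54.PT (Prm prm IsAbsP IsAbsInf)
open Pool.Agent.Helper3.HY (fK RR LL kp red TwAt twGroup baseChange NearOne IsTwPoint)
open Pool.Agent.Helper54.HL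

namespace MOE2

variable {F : Type} [Field F] {f : F[X][X]}

/-- The exponent relation. -/
def E (P : Prm F) (ψ : (kp P)[X]) (z : LL f) (e : ℤ) : Prop := ∃ s, RepG P ψ z e s

/-- Shorthand for the integral elements. -/
noncomputable def ii (f : F[X][X]) (p : F[X][X]) : LL f :=
  algebraMap (RR f) (LL f) (AdjoinRoot.mk f p)

theorem ii_mul (p q : F[X][X]) : ii f (p * q) = ii f p * ii f q := by
  unfold ii; rw [map_mul, map_mul]

theorem ii_add (p q : F[X][X]) : ii f (p + q) = ii f p + ii f q := by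
  unfold ii; rw [map_add, map_add]

theorem ii_C (a : F[X]) : ii f (C a) = algebraMap F[X] (LL f) a := by
  unfold ii
  rw [AdjoinRoot.mk_C, IsScalarTower.algebraMap_apply F[X] (RR f) (LL f)]
  rfl

theorem ii_C' (a : F[X]) : ii f (C a) =
    algebraMap (RatFunc F) (LL f) (algebraMap F[X] (RatFunc F) a) := by
  rw [ii_C, IsScalarTower.algebraMap_apply F[X] (RatFunc F) (LL f)]

theorem ii_one : ii f 1 = 1 := by
  unfold ii; rw [map_one, map_one]

theorem ii_inj (hf : f.Monic) {p q : F[X][X]} (h : ii f p = ii f q) : f ∣ p - q := by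
  have h1 := Pool.Agent.Helper3.HY.De2.inj hf h
  rwa [AdjoinRoot.mk_eq_mk] at h1

theorem algP_ne [Fact (Irreducible (fK f))] (P : Prm F) :
    algebraMap (RatFunc F) (LL f) (algebraMap F[X] (RatFunc F) P.1) ≠ 0 := by
  rw [Ne, map_eq_zero]
  rw [map_eq_zero_iff _ (RatFunc.algebraMap_injective F)]
  exact P.2.1.ne_zero

theorem P_ne (P : Prm F) : algebraMap F[X] (RatFunc F) P.1 ≠ 0 := by
  rw [Ne, map_eq_zero_iff _ (RatFunc.algebraMap_injective F)]
  exact P.2.1.ne_zero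

theorem red_P (P : Prm F) : red P P.1 = 0 := AdjoinRoot.mk_self

theorem E.mul {P : Prm F} {ψ : (kp P)[X]} (hψ : Irreducible ψ) {z w : LL f} {e d : ℤ}
    (hz : E P ψ z e) (hw : E P ψ w d) : E P ψ (z * w) (e + d) := by
  have : Fact (Irreducible ψ) := ⟨hψ⟩
  obtain ⟨s, hs, p, a, ha, hp, h⟩ := hz
  obtain ⟨t, ht, q, b, hb, hq, h'⟩ := hw
  refine ⟨s * t, mul_ne_zero hs ht, p * q, a * b, ?_, ?_, ?_⟩
  · rw [Polynomial.map_mul, map_mul]; exact mul_ne_zero ha hb
  · rw [Polynomial.map_mul, map_mul, Polynomial.map_mul, map_mul, hp, hq]; ring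
  · have h1 : z * ii f a = algebraMap (RatFunc F) (LL f) (algebraMap F[X] (RatFunc F) P.1 ^ e) *
      ii f p := h
    have h2 : w * ii f b = algebraMap (RatFunc F) (LL f) (algebraMap F[X] (RatFunc F) P.1 ^ d) *
      ii f q := h'
    change z * w * ii f (a * b) = algebraMap (RatFunc F) (LL f)
      (algebraMap F[X] (RatFunc F) P.1 ^ (e + d)) * ii f (p * q)
    rw [zpow_add₀ (P_ne P), map_mul, ii_mul, ii_mul]
    linear_combination (ii f b) * w * h1 + (algebraMap (RatFunc F) (LL f)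
      (algebraMap F[X] (RatFunc F) P.1 ^ e) * ii f p) * h2

theorem E.inv [Fact (Irreducible (fK f))] {P : Prm F} {ψ : (kp P)[X]} (hψ : Irreducible ψ)
    {z : LL f} {e : ℤ} (hz0 : z ≠ 0) (hz : E P ψ z e) : E P ψ z⁻¹ (-e) := by
  have : Fact (Irreducible ψ) := ⟨hψ⟩
  obtain ⟨s, hs, p, a, ha, hp, h⟩ := hz
  refine ⟨s⁻¹, inv_ne_zero hs, a, p, ?_, ?_, ?_⟩
  · rw [hp]; exact mul_ne_zero hs ha
  · rw [hp]; field_simp
  · rw [zpow_neg, map_inv₀]
    have h1 : algebraMap (RatFunc F) (LL f) (algebraMap F[X] (RatFunc F) P.1 ^ e) ≠ 0 := by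
      rw [Ne, map_eq_zero]; exact zpow_ne_zero _ (P_ne P)
    field_simp
    rw [h]
    ring

theorem E.one {P : Prm F} {ψ : (kp P)[X]} (hψ : Irreducible ψ) : E P ψ (1 : LL f) 0 := by
  have : Fact (Irreducible ψ) := ⟨hψ⟩
  refine ⟨1, one_ne_zero, 1, 1, ?_, ?_, ?_⟩
  · rw [Polynomial.map_one, map_one]; exact one_ne_zero
  · rw [one_mul]
  · rw [zpow_zero, map_one, map_one, map_one]

theorem E.npow {P : Prm F} {ψ : (kp P)[X]} (hψ : Irreducible ψ) {z : LL f} {e : ℤ}
    (hz : E P ψ z e) (n : ℕ) : E P ψ (z ^ n) (n * e) := by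
  induction n with
  | zero => simpa using E.one hψ
  | succ n ih =>
    rw [pow_succ]
    have := ih.mul hψ hz
    convert this using 1
    push_cast; ring

theorem E.zpow [Fact (Irreducible (fK f))] {P : Prm F} {ψ : (kp P)[X]} (hψ : Irreducible ψ)
    {z : LL f} {e : ℤ} (hz0 : z ≠ 0) (hz : E P ψ z e) (n : ℤ) : E P ψ (z ^ n) (n * e) := by
  obtain ⟨m, rfl | rfl⟩ := n.eq_nat_or_neg
  · rw [zpow_natCast]; exact hz.npow hψ m
  · rw [zpow_neg, zpow_natCast]
    have := (hz.npow hψ m).inv hψ (pow_ne_zero _ hz0)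
    convert this using 1
    ring

theorem E.prod {P : Prm F} {ψ : (kp P)[X]} (hψ : Irreducible ψ) {ι : Type} (S : Finset ι)
    (x : ι → LL f) (e : ι → ℤ) (h : ∀ i ∈ S, E P ψ (x i) (e i)) :
    E P ψ (∏ i ∈ S, x i) (∑ i ∈ S, e i) := by
  classical
  induction S using Finset.induction_on with
  | empty => simpa using E.one hψ
  | insert a S ha ih =>
    rw [Finset.prod_insert ha, Finset.sum_insert ha]
    exact (h a (Finset.mem_insert_self _ _)).mul hψ
      (ih fun i hi => h i (Finset.mem_insert_of_mem hi))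

theorem E.int {P : Prm F} {ψ : (kp P)[X]} (hψ : Irreducible ψ) (p : F[X][X])
    (hp : AdjoinRoot.mk ψ (p.map (red P)) ≠ 0) : E P ψ (ii f p) 0 := by
  have : Fact (Irreducible ψ) := ⟨hψ⟩
  refine ⟨_, hp, p, 1, ?_, ?_, ?_⟩
  · rw [Polynomial.map_one, map_one]; exact one_ne_zero
  · rw [Polynomial.map_one, map_one, mul_one]
  · rw [zpow_zero, map_one, map_one, map_one, mul_one, one_mul]
    rfl

/-- Exponents of integral elements. -/
theorem E.nonneg (hf : f.Monic) {P : Prm F} {ψ : (kp P)[X]} (hψ : Irreducible ψ)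
    (hd : ψ ∣ f.map (red P)) {G : F[X][X]} {e : ℤ} (h : E P ψ (ii f G) e)
    (hG : AdjoinRoot.mk ψ (G.map (red P)) = 0) : 1 ≤ e := by
  have : Fact (Irreducible ψ) := ⟨hψ⟩
  by_contra hlt
  obtain ⟨n, hn⟩ : ∃ n : ℕ, e = -(n : ℤ) := ⟨(-e).toNat, by omega⟩
  obtain ⟨s, hs, p, a, ha, hp, h⟩ := h
  have h1 : ii f (C P.1 ^ n * (G * a)) = ii f p := by
    rw [ii_mul, ii_mul, ← map_pow, ii_C', map_pow, map_pow]
    have h2 : algebraMap (RatFunc F) (LL f) (algebraMap F[X] (RatFunc F) P.1) ^ n *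
        algebraMap (RatFunc F) (LL f) (algebraMap F[X] (RatFunc F) P.1 ^ e) = 1 := by
      rw [← map_pow, ← map_mul, hn, zpow_neg, zpow_natCast, mul_inv_cancel₀
        (pow_ne_zero _ (P_ne P)), map_one]
    have h3 : ii f G * ii f a = algebraMap (RatFunc F) (LL f)
      (algebraMap F[X] (RatFunc F) P.1 ^ e) * ii f p := h
    rw [h3, ← mul_assoc, h2, one_mul]
  have h4 := hd.trans (Polynomial.map_dvd (red P) (ii_inj hf h1))
  rw [← AdjoinRoot.mk_eq_zero (f := ψ)] at h4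
  rw [Polynomial.map_sub, map_sub, Polynomial.map_mul, Polynomial.map_mul, map_mul, map_mul, hG,
    zero_mul, mul_zero, zero_sub, neg_eq_zero, hp] at h4
  exact mul_ne_zero hs ha h4

/-- Elements with exponent zero are unit-like: the numerator of a multiple of `P` vanishes. -/
theorem E.resid (hf : f.Monic) {P : Prm F} {ψ : (kp P)[X]} (hψ : Irreducible ψ)
    (hd : ψ ∣ f.map (red P)) {x : LL f} (h : E P ψ x 0) (b p : F[X][X])
    (hb : ii f (C P.1 * b) * x = ii f p) : ψ ∣ p.map (red P) := by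
  have : Fact (Irreducible ψ) := ⟨hψ⟩
  obtain ⟨s, hs, q, a, ha, hq, h⟩ := h
  have h3 : x * ii f a = ii f q := by
    have : x * ii f a = algebraMap (RatFunc F) (LL f)
      (algebraMap F[X] (RatFunc F) P.1 ^ (0 : ℤ)) * ii f q := h
    rwa [zpow_zero, map_one, one_mul] at this
  have h1 : ii f (p * a) = ii f (C P.1 * b * q) := by
    rw [ii_mul, ← hb, mul_assoc, h3, ← ii_mul]
  have h4 := hd.trans (Polynomial.map_dvd (red P) (ii_inj hf h1))
  rw [← AdjoinRoot.mk_eq_zero (f := ψ)] at h4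
  rw [Polynomial.map_sub, map_sub, Polynomial.map_mul, Polynomial.map_mul, Polynomial.map_mul,
    Polynomial.map_C, red_P, C_0, zero_mul, zero_mul, map_zero, sub_zero, map_mul] at h4
  rw [← AdjoinRoot.mk_eq_zero]
  exact (mul_eq_zero.1 h4).resolve_right ha

theorem exists_lift (P : Prm F) (q : (kp P)[X]) : ∃ G : F[X][X], G.map (red P) = q :=
  Polynomial.map_surjective _ AdjoinRoot.mk_surjective q

/-- The local uniformizers. -/
theorem exists_unif [Fact (Irreducible (fK f))] (hf : f.Monic) (P : Prm F)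
    (hex : ∀ ψ ∈ facs f P, ∀ z : LL f, z ≠ 0 → ∃ e, E P ψ z e) (ψ : (kp P)[X])
    (hψ : ψ ∈ facs f P) :
    ∃ x : LL f, x ≠ 0 ∧ E P ψ x 1 ∧ ∀ ψ' ∈ facs f P, ψ' ≠ ψ → E P ψ' x 0 := by
  obtain ⟨hm, hirr, hd⟩ := (MFAC.mem_facs f hf P ψ).1 hψ
  have : Fact (Irreducible ψ) := ⟨hirr⟩
  obtain ⟨G, hG⟩ := exists_lift P ψ
  have hres : ∀ ψ' ∈ facs f P, ψ' ≠ ψ → AdjoinRoot.mk ψ' ψ ≠ 0 := by
    intro ψ' hψ' hne h0
    obtain ⟨hm', hirr', hd'⟩ := (MFAC.mem_facs f hf P ψ').1 hψ'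
    rw [AdjoinRoot.mk_eq_zero] at h0
    exact hne (eq_of_monic_of_associated hm' hm (hirr'.associated_of_dvd hirr h0))
  have hG0 : AdjoinRoot.mk ψ (G.map (red P)) = 0 := by rw [hG, AdjoinRoot.mk_self]
  by_cases hx : ii f G = 0
  · have hx2 : ii f (G + C P.1) = algebraMap (RatFunc F) (LL f)
        (algebraMap F[X] (RatFunc F) P.1) := by
      rw [ii_add, hx, zero_add, ii_C']
    refine ⟨ii f (G + C P.1), ?_, ⟨1, one_ne_zero, 1, 1, ?_, ?_, ?_⟩, ?_⟩
    · rw [hx2]; exact algP_ne P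
    · rw [Polynomial.map_one, map_one]; exact one_ne_zero
    · rw [one_mul]
    · rw [zpow_one, hx2]
    · intro ψ' hψ' hne
      refine E.int ((MFAC.mem_facs f hf P ψ').1 hψ').2.1 _ ?_
      rw [Polynomial.map_add, Polynomial.map_C, red_P, C_0, add_zero, hG]
      exact hres ψ' hψ' hne
  · obtain ⟨e, he⟩ := hex ψ hψ _ hx
    have h1 := he.nonneg hf hirr hd hG0
    rcases h1.eq_or_lt with h1 | h1
    · refine ⟨ii f G, hx, by rw [h1]; exact he, ?_⟩
      intro ψ' hψ' hne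
      refine E.int ((MFAC.mem_facs f hf P ψ').1 hψ').2.1 _ ?_
      rw [hG]
      exact hres ψ' hψ' hne
    · obtain ⟨n, hn⟩ : ∃ n : ℕ, e = n + 2 := ⟨(e - 2).toNat, by omega⟩
      obtain ⟨s, hs, p, a, ha, hp, h⟩ := he
      have h3 : ii f G * ii f a = algebraMap (RatFunc F) (LL f)
        (algebraMap F[X] (RatFunc F) P.1 ^ e) * ii f p := h
      have h4 : ii f (G + C P.1) * ii f a = algebraMap (RatFunc F) (LL f)
        (algebraMap F[X] (RatFunc F) P.1 ^ (1 : ℤ)) * ii f (C P.1 ^ (n + 1) * p + a) := by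
        rw [ii_add, add_mul, h3, hn, ii_add, ii_mul, ← map_pow, ii_C', ii_C', zpow_one, mul_add,
          ← mul_assoc, ← map_mul, map_pow]
        congr 3
        rw [← pow_succ', show (n : ℤ) + 2 = ((n + 1 + 1 : ℕ) : ℤ) by push_cast; ring,
          zpow_natCast]
      have hres1 : AdjoinRoot.mk ψ ((C P.1 ^ (n + 1) * p + a).map (red P)) =
          AdjoinRoot.mk ψ (a.map (red P)) := by
        rw [Polynomial.map_add, Polynomial.map_mul, Polynomial.map_pow, Polynomial.map_C, red_P,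
          C_0, zero_pow (Nat.succ_ne_zero n), zero_mul, zero_add]
      refine ⟨ii f (G + C P.1), ?_, ⟨1, one_ne_zero, C P.1 ^ (n + 1) * p + a, a, ha, ?_, h4⟩, ?_⟩
      · intro h0
        rw [h0, zero_mul] at h4
        have h5 : ii f (C P.1 ^ (n + 1) * p + a) = 0 := by
          refine (mul_eq_zero.1 h4.symm).resolve_left ?_
          rw [zpow_one]; exact algP_ne P
        have h6 : ii f (C P.1 ^ (n + 1) * p + a) = ii f 0 := by
          rw [h5]; unfold ii; rw [map_zero, map_zero]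
        have h7 := hd.trans (Polynomial.map_dvd (red P) (ii_inj hf h6))
        rw [sub_zero, ← AdjoinRoot.mk_eq_zero (f := ψ), hres1] at h7
        exact ha h7
      · rw [one_mul, hres1]
      · intro ψ' hψ' hne
        refine E.int ((MFAC.mem_facs f hf P ψ').1 hψ').2.1 _ ?_
        rw [Polynomial.map_add, Polynomial.map_C, red_P, C_0, add_zero, hG]
        exact hres ψ' hψ' hne

/-- If all the factors of `f` modulo `P` divide the residue then `P` divides. -/
theorem P_dvd (hf : f.Monic) (P : Prm F) (hprod : ∏ ψ ∈ facs f P, ψ = f.map (red P))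
    (p : F[X][X]) (h : ∀ ψ ∈ facs f P, ψ ∣ p.map (red P)) :
    ∃ q : F[X][X], ii f p = ii f (C P.1 * q) := by
  have h1 : f.map (red P) ∣ p.map (red P) := by
    rw [← hprod]
    refine Finset.prod_dvd_of_coprime ?_ h
    intro ψ hψ ψ' hψ' hne
    obtain ⟨hm, hirr, -⟩ := (MFAC.mem_facs f hf P ψ).1 hψ
    obtain ⟨hm', hirr', -⟩ := (MFAC.mem_facs f hf P ψ').1 hψ'
    refine (hirr.coprime_iff_not_dvd).2 fun hdd => hne ?_
    exact eq_of_monic_of_associated hm hm' (hirr.associated_of_dvd hirr' hdd)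
  obtain ⟨u, hu⟩ := h1
  obtain ⟨U, hU⟩ := exists_lift P u
  have h2 : (p - f * U).map (red P) = 0 := by
    rw [Polynomial.map_sub, Polynomial.map_mul, hU, hu, sub_self]
  have h3 : C P.1 ∣ p - f * U := by
    rw [Polynomial.C_dvd_iff_dvd_coeff]
    intro i
    have h4 := congrArg (fun q : (kp P)[X] => q.coeff i) h2
    simp only [coeff_map, coeff_zero] at h4
    exact AdjoinRoot.mk_eq_zero.1 h4
  obtain ⟨q, hq⟩ := h3
  refine ⟨q, ?_⟩
  rw [← hq]
  unfold ii
  rw [map_sub, map_mul, AdjoinRoot.mk_self, zero_mul, sub_zero]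

theorem inP_of_zero [Fact (Irreducible (fK f))] (hf : f.Monic) (P : Prm F)
    (hprod : ∏ ψ ∈ facs f P, ψ = f.map (red P)) (x : LL f) (hx : ∀ ψ ∈ facs f P, E P ψ x 0) :
    InP P x := by
  have key : ∀ (m : ℕ) (b : F[X]) (p : F[X][X]), ¬ P.1 ∣ b →
      ii f (C (P.1 ^ m * b)) * x = ii f p → InP P x := by
    intro m
    induction m with
    | zero =>
      intro b p hb h
      rw [pow_zero, one_mul, ii_C] at h
      exact ⟨b, AdjoinRoot.mk f p, hb, h⟩
    | succ m ih =>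
      intro b p hb h
      have h1 : ∀ ψ ∈ facs f P, ψ ∣ p.map (red P) := by
        intro ψ hψ
        obtain ⟨-, hirr, hd⟩ := (MFAC.mem_facs f hf P ψ).1 hψ
        refine (hx ψ hψ).resid hf hirr hd (C (P.1 ^ m * b)) p ?_
        rw [← h, ← C_mul, pow_succ']
        ring_nf
      obtain ⟨q, hq⟩ := P_dvd hf P hprod p h1
      refine ih b q hb ?_
      have h2 : ii f (C P.1) ≠ 0 := by rw [ii_C']; exact algP_ne P
      apply mul_left_cancel₀ h2
      rw [← ii_mul, ← hq, ← h, ← mul_assoc, ← ii_mul, ← C_mul, pow_succ']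
      ring_nf
  obtain ⟨a, ha, r, hr⟩ := Pool.Agent.Helper3.HY.De2.surj hf x
  obtain ⟨p, rfl⟩ := AdjoinRoot.mk_surjective r
  obtain ⟨m, b, hb, hab⟩ := WfDvdMonoid.max_power_factor ha P.2.2
  refine key m b p hb ?_
  rw [← hab, ii_C, mul_comm, IsScalarTower.algebraMap_apply F[X] (RR f) (LL f), hr]
  rfl

end MOE2

open MOE2 in
theorem hOE2 (hREP : StREP) (hNU : StNU) (hFAC : StFAC) : StOE2 := by
  classical
  intro F _ _ h2 g hg f hf hdeg _ P hP z hz
  obtain ⟨hmem, hprod, -⟩ := hFAC F h2 g hg f hf hdeg P hP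
  obtain ⟨-, -, -, -, hNU5⟩ := hNU F f hf (by omega) P
  have hex : ∀ ψ ∈ facs f P, ∀ z : LL f, z ≠ 0 → ∃ e, E P ψ z e := fun ψ hψ z hz =>
    (hREP F h2 g hg f hf hdeg P hP ψ hψ).1 z hz
  constructor
  · rintro ⟨β, hβ, a, r, s, ha, har, hrs⟩ ψ hψ
    obtain ⟨-, hirr, hd⟩ := (hmem ψ).1 hψ
    have : Fact (Irreducible ψ) := ⟨hirr⟩
    obtain ⟨p, rfl⟩ := AdjoinRoot.mk_surjective r
    obtain ⟨q, rfl⟩ := AdjoinRoot.mk_surjective s
    obtain ⟨b, hb⟩ := hex ψ hψ β hβ
    have hCa : AdjoinRoot.mk ψ ((C a : F[X][X]).map (red P)) ≠ 0 := by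
      rw [Polynomial.map_C, AdjoinRoot.mk_C]
      intro h0
      rw [map_eq_zero] at h0
      exact ha (AdjoinRoot.mk_eq_zero.1 h0)
    have hp : AdjoinRoot.mk ψ (p.map (red P)) ≠ 0 := by
      intro h0
      have h1 : AdjoinRoot.mk f (p * q - C a ^ 2) = 0 := by
        rw [map_sub, map_mul, hrs, map_pow, AdjoinRoot.mk_C]
        exact sub_self _
      rw [AdjoinRoot.mk_eq_zero] at h1
      have h3 := hd.trans (Polynomial.map_dvd (red P) h1)
      rw [← AdjoinRoot.mk_eq_zero (f := ψ), Polynomial.map_sub, map_sub, Polynomial.map_mul,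
        map_mul, h0, zero_mul, zero_sub, neg_eq_zero, Polynomial.map_pow, map_pow] at h3
      exact pow_ne_zero 2 hCa h3
    have h0 : E P ψ (z * β ^ 2) 0 := by
      refine ⟨AdjoinRoot.mk ψ (p.map (red P)) / AdjoinRoot.mk ψ ((C a : F[X][X]).map (red P)),
        div_ne_zero hp hCa, p, C a, hCa, ?_, ?_⟩
      · field_simp
      · rw [zpow_zero, map_one, one_mul, ← har, mul_comm]
        rw [IsScalarTower.algebraMap_apply F[X] (RR f) (LL f), AdjoinRoot.mk_C]
        rfl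
    have h1 : E P ψ z (0 + -(2 * b)) := by
      have h2 := h0.mul hirr ((hb.npow hirr 2).inv hirr (pow_ne_zero 2 hβ))
      rwa [mul_assoc, mul_inv_cancel₀ (pow_ne_zero 2 hβ), mul_one] at h2
    obtain ⟨s, hs⟩ := h1
    unfold om
    rw [if_pos]
    exact ⟨_, s, ⟨-b, by ring⟩, hs⟩
  · intro hom
    have he : ∀ ψ ∈ facs f P, ∃ e : ℤ, E P ψ z (2 * e) := by
      intro ψ hψ
      have h1 := hom ψ hψ
      unfold om at h1
      by_contra hne
      rw [if_neg] at h1
      · exact one_ne_zero h1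
      · rintro ⟨e, s, ⟨e', rfl⟩, hs⟩
        exact hne ⟨e', s, by rwa [two_mul]⟩
    choose! e he using he
    choose! ϖ hϖ0 hϖ1 hϖ2 using exists_unif hf P hex
    set β : LL f := ∏ ψ ∈ facs f P, ϖ ψ ^ (- e ψ) with hβ
    have hβ0 : β ≠ 0 := Finset.prod_ne_zero_iff.2 fun ψ hψ => zpow_ne_zero _ (hϖ0 ψ hψ)
    have hEβ : ∀ ψ ∈ facs f P, E P ψ β (- e ψ) := by
      intro ψ hψ
      have hirr := ((hmem ψ).1 hψ).2.1
      have h1 := E.prod hirr (facs f P) (fun ψ' => ϖ ψ' ^ (- e ψ'))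
        (fun ψ' => - e ψ' * (if ψ' = ψ then 1 else 0)) (by
          intro ψ' hψ'
          refine E.zpow hirr (hϖ0 ψ' hψ') ?_ _
          split_ifs with heq
          · subst heq; exact hϖ1 ψ' hψ'
          · exact hϖ2 ψ' hψ' ψ hψ (Ne.symm heq))
      simp only [mul_ite, mul_one, mul_zero] at h1
      rwa [Finset.sum_ite_eq' (facs f P) ψ, if_pos hψ] at h1
    have hx0 : z * β ^ 2 ≠ 0 := mul_ne_zero hz (pow_ne_zero 2 hβ0)
    have hEx : ∀ ψ ∈ facs f P, E P ψ (z * β ^ 2) 0 := by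
      intro ψ hψ
      have hirr := ((hmem ψ).1 hψ).2.1
      have h1 := (he ψ hψ).mul hirr ((hEβ ψ hψ).npow hirr 2)
      convert h1 using 1
      push_cast; ring
    refine ⟨β, hβ0, hNU5 _ hx0 (inP_of_zero hf P hprod _ hEx) (inP_of_zero hf P hprod _ ?_)⟩
    intro ψ hψ
    have h1 := (hEx ψ hψ).inv ((hmem ψ).1 hψ).2.1 hx0
    rwa [neg_zero] at h1

end Pool.Agent.Helper3.GT
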