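import Pool.Agent.Helper3.GT.M_UF
import Pool.Agent.Helper3.HY.M_De3

/-!
# GT module PI (helper68): the localization at `P` is a principal ideal domain
-/

set_option autoImplicit false

namespace Pool.Agent.Helper3.GT

open Polynomial Finset
open Pool.Agent.Helper54.PT (Prm prm IsAbsP IsAbsInf)
open Pool.Agent.Helper3.HY (fK RR LL kp red TwAt twGroup baseChange NearOne IsTwPoint)
open Pool.Agent.Helper54.HL

namespace MPI

open MUF

variable {F : Type} [Field F]

/-- The elements of `F[X]` prime to `P`. -/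
def Spm (f : F[X][X]) (P : Prm F) : Submonoid (RR f) where
  carrier := {r | ∃ a : F[X], ¬ P.1 ∣ a ∧ r = algebraMap F[X] (RR f) a}
  one_mem' := ⟨1, P.2.2.not_dvd_one, by rw [map_one]⟩
  mul_mem' := by
    rintro _ _ ⟨a, ha, rfl⟩ ⟨b, hb, rfl⟩
    exact ⟨a * b, fun h => (P.2.2.prime.dvd_or_dvd h).elim ha hb, by rw [map_mul]⟩

/-- The localization. -/
abbrev BB (f : F[X][X]) (P : Prm F) : Type := Localization (Spm f P)

variable {f : F[X][X]} {P : Prm F}

theorem C_dvd_of_map {p : F[X][X]} (h : p.map (red P) = 0) : C P.1 ∣ p := by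
  rw [C_dvd_iff_dvd_coeff]
  intro l
  have h7 := congrArg (fun p => coeff p l) h
  simp only [coeff_map, coeff_zero] at h7
  exact AdjoinRoot.mk_eq_zero.1 h7

/-- Lifting a relation modulo `P`. -/
theorem lift_rel {p Ψ : F[X][X]} (h : Ψ.map (red P) ∣ p.map (red P)) :
    ∃ c d : F[X][X], p = c * Ψ + d * C P.1 := by
  obtain ⟨c, hc⟩ := h
  obtain ⟨c', rfl⟩ := Polynomial.map_surjective (red P) AdjoinRoot.mk_surjective c
  obtain ⟨d, hd⟩ := C_dvd_of_map (P := P) (p := p - c' * Ψ) (by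
    rw [Polynomial.map_sub, Polynomial.map_mul, hc, mul_comm, sub_self])
  exact ⟨c', d, by rw [mul_comm d, ← hd]; ring⟩

theorem Spm_ne [IsDomain (RR f)] (hinj : Function.Injective (algebraMap F[X] (RR f))) :
    Spm f P ≤ nonZeroDivisors (RR f) := by
  rintro _ ⟨a, ha, rfl⟩
  refine mem_nonZeroDivisors_of_ne_zero ?_
  intro h
  apply ha
  rw [hinj (h.trans (map_zero _).symm)]
  exact dvd_zero _

/-- The residue map. -/
noncomputable def resB (ψ : (kp P)[X]) [Fact (Irreducible ψ)] (hψ : ψ ∣ f.map (red P)) :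
    BB f P →+* AdjoinRoot ψ :=
  IsLocalization.lift (M := Spm f P) (g := res ψ hψ) (by
    rintro ⟨_, a, ha, rfl⟩
    exact (isUnit_iff_ne_zero).2 (res_C_ne ψ Fact.out hψ a ha))

theorem resB_alg (ψ : (kp P)[X]) [Fact (Irreducible ψ)] (hψ : ψ ∣ f.map (red P)) (r : RR f) :
    resB ψ hψ (algebraMap (RR f) (BB f P) r) = res ψ hψ r :=
  IsLocalization.lift_eq _ _

theorem resB_surj (ψ : (kp P)[X]) [Fact (Irreducible ψ)] (hψ : ψ ∣ f.map (red P)) :
    Function.Surjective (resB (f := f) (P := P) ψ hψ) := by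
  intro y
  obtain ⟨r, hr⟩ := res_surj ψ hψ y
  exact ⟨algebraMap _ _ r, by rw [resB_alg, hr]⟩

/-- Elements of the localization. -/
theorem exB (x : BB f P) : ∃ (a : F[X]) (r : RR f), ¬ P.1 ∣ a ∧
    algebraMap (RR f) (BB f P) (algebraMap F[X] (RR f) a) * x = algebraMap (RR f) (BB f P) r ∧
    IsUnit (algebraMap (RR f) (BB f P) (algebraMap F[X] (RR f) a)) := by
  obtain ⟨⟨r, ⟨_, a, ha, rfl⟩⟩, h⟩ := IsLocalization.surj (Spm f P) x
  refine ⟨a, r, ha, by rw [mul_comm]; exact h, ?_⟩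
  exact IsLocalization.map_units (M := Spm f P) (BB f P) ⟨algebraMap F[X] (RR f) a, a, ha, rfl⟩

theorem unitB (a : F[X]) (ha : ¬ P.1 ∣ a) :
    IsUnit (algebraMap (RR f) (BB f P) (algebraMap F[X] (RR f) a)) :=
  IsLocalization.map_units (M := Spm f P) (BB f P) ⟨algebraMap F[X] (RR f) a, a, ha, rfl⟩

/-- A prime ideal containing `P` and a lift of `ψ` contains the kernel of the residue map, and
every element of the kernel is a combination. -/
theorem ker_rel (ψ : (kp P)[X]) [Fact (Irreducible ψ)] (hψ : ψ ∣ f.map (red P)) (Ψ : F[X][X])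
    (hΨ : Ψ.map (red P) = ψ) (x : BB f P) (hx : resB ψ hψ x = 0) : ∃ c d : BB f P,
    x = c * algebraMap (RR f) (BB f P) (algebraMap F[X] (RR f) P.1) +
      d * algebraMap (RR f) (BB f P) (AdjoinRoot.mk f Ψ) := by
  obtain ⟨a, r, ha, har, hu⟩ := exB x
  obtain ⟨p, rfl⟩ := AdjoinRoot.mk_surjective r
  have h1 := congrArg (resB ψ hψ) har
  rw [map_mul, hx, mul_zero, resB_alg, res_mk] at h1
  have h2 : ψ ∣ p.map (red P) := AdjoinRoot.mk_eq_zero.1 h1.symm
  obtain ⟨c, d, hcd⟩ := lift_rel (P := P) (p := p) (Ψ := Ψ) (by rw [hΨ]; exact h2)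
  obtain ⟨u, hu⟩ := hu
  refine ⟨↑u⁻¹ * algebraMap (RR f) (BB f P) (AdjoinRoot.mk f d),
    ↑u⁻¹ * algebraMap (RR f) (BB f P) (AdjoinRoot.mk f c), ?_⟩
  rw [← hu] at har
  have h3 : x = ↑u⁻¹ * (↑u * x) := by rw [Units.inv_mul_cancel_left]
  rw [h3, har, hcd, map_add, map_mul, map_mul, map_add, map_mul, map_mul]
  have h4 : AdjoinRoot.mk f (C P.1) = algebraMap F[X] (RR f) P.1 := rfl
  rw [h4]
  ring

end MPI

open MUF MPI in
theorem hPI (hSMO : StSMO) (hNU : StNU) : StPI := by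
  classical
  intro F _ _ f hf hfd hirr P hBd
  have hinj : Function.Injective (algebraMap (RR f) (LL f)) := Pool.Agent.Helper3.HY.De2.inj hf
  have : IsDomain (RR f) := hinj.isDomain (algebraMap (RR f) (LL f))
  have hA : ∀ a : F[X], algebraMap (RR f) (LL f) (algebraMap F[X] (RR f) a) =
      algebraMap F[X] (LL f) a := fun a =>
    (IsScalarTower.algebraMap_apply F[X] (RR f) (LL f) a).symm
  have hinjL : Function.Injective (algebraMap F[X] (LL f)) := by
    intro a b hab
    rw [IsScalarTower.algebraMap_apply F[X] (RatFunc F) (LL f),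
      IsScalarTower.algebraMap_apply F[X] (RatFunc F) (LL f) b] at hab
    exact RatFunc.algebraMap_injective F ((algebraMap (RatFunc F) (LL f)).injective hab)
  have hinjF : Function.Injective (algebraMap F[X] (RR f)) := by
    intro a b hab
    apply hinjL
    rw [← hA, ← hA, hab]
  have hS : Spm f P ≤ nonZeroDivisors (RR f) := Spm_ne hinjF
  have hfin : Module.Finite F[X] (RR f) := hf.finite_adjoinRoot
  have hint : Algebra.IsIntegral F[X] (RR f) := Algebra.IsIntegral.of_finite F[X] (RR f)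
  have hnoe : IsNoetherianRing (RR f) := IsNoetherianRing.of_finite F[X] (RR f)
  have hdomB : IsDomain (BB f P) := IsLocalization.isDomain_localization hS
  have hnoeB : IsNoetherianRing (BB f P) := IsLocalization.isNoetherianRing (Spm f P) _ hnoe
  have hinjB : Function.Injective (algebraMap (RR f) (BB f P)) := IsLocalization.injective _ hS
  -- the prime ideals
  choose! lf hlf using fun ψ : (kp P)[X] =>
    Polynomial.map_surjective (red P) AdjoinRoot.mk_surjective ψ
  have hprimes : ∀ 𝔮 : Ideal (BB f P), 𝔮.IsPrime → 𝔮 ≠ ⊥ → ∃ (ψ : (kp P)[X])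
      (hψf : ψ ∈ facs f P) (hψ : ψ ∣ f.map (red P)) (hi : Fact (Irreducible ψ)),
      𝔮 = RingHom.ker (resB ψ hψ) := by
    intro 𝔮 h𝔮 hne
    -- `P ∈ 𝔮`
    have hP𝔮 : algebraMap (RR f) (BB f P) (algebraMap F[X] (RR f) P.1) ∈ 𝔮 := by
      obtain ⟨b, hb, hb0⟩ := Submodule.exists_mem_ne_zero_of_ne_bot hne
      obtain ⟨a, r, ha, har, hu⟩ := exB b
      have hr : r ∈ 𝔮.comap (algebraMap (RR f) (BB f P)) := by
        rw [Ideal.mem_comap, ← har]
        exact Ideal.mul_mem_left _ _ hb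
      have hr0 : r ≠ 0 := by
        rintro rfl
        rw [map_zero] at har
        exact (mul_ne_zero hu.ne_zero hb0) har
      have h1 : (𝔮.comap (algebraMap (RR f) (BB f P))).comap (algebraMap F[X] (RR f)) ≠ ⊥ :=
        Ideal.comap_ne_bot_of_integral_mem hr0 hr (Algebra.IsIntegral.isIntegral r)
      obtain ⟨c, hc, hc0⟩ := Submodule.exists_mem_ne_zero_of_ne_bot h1
      rw [Ideal.mem_comap, Ideal.mem_comap] at hc
      obtain ⟨n, c', hc', rfl⟩ := WfDvdMonoid.max_power_factor hc0 P.2.2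
      rw [map_mul, map_mul, map_pow, map_pow] at hc
      rw [mul_comm, Ideal.unit_mul_mem_iff_mem _ (unitB c' hc')] at hc
      exact h𝔮.mem_of_pow_mem n hc
    -- a factor
    obtain ⟨ψ, hψf, hψ𝔮⟩ : ∃ ψ ∈ facs f P,
        algebraMap (RR f) (BB f P) (AdjoinRoot.mk f (lf ψ)) ∈ 𝔮 := by
      have h0 : f.map (red P) ≠ 0 := (hf.map _).ne_zero
      obtain ⟨M, hM⟩ : ∃ M, M = UniqueFactorizationMonoid.normalizedFactors (f.map (red P)) :=
        ⟨_, rfl⟩
      have h1 : M.prod = f.map (red P) := by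
        rw [hM, UniqueFactorizationMonoid.prod_normalizedFactors_eq h0]
        exact (hf.map (red P)).normalize_eq_self
      have h2 : ((M.map lf).prod).map (red P) = f.map (red P) := by
        refine Eq.trans ?_ h1
        rw [← coe_mapRingHom, map_multiset_prod, Multiset.map_map]
        congr 1
        conv_rhs => rw [← Multiset.map_id M]
        refine Multiset.map_congr rfl fun ψ _ => ?_
        simp only [Function.comp_apply, coe_mapRingHom, id_eq]
        exact hlf ψ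
      obtain ⟨d, hd⟩ := C_dvd_of_map (P := P) (p := f - (M.map lf).prod) (by
        rw [Polynomial.map_sub, h2, sub_self])
      have h3 : algebraMap (RR f) (BB f P) (AdjoinRoot.mk f (M.map lf).prod) ∈ 𝔮 := by
        have h4 : AdjoinRoot.mk f (M.map lf).prod =
            -(algebraMap F[X] (RR f) P.1 * AdjoinRoot.mk f d) := by
          have h5 : AdjoinRoot.mk f (C P.1) = algebraMap F[X] (RR f) P.1 := rfl
          rw [← h5, ← map_mul, ← hd, map_sub, AdjoinRoot.mk_self]
          ring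
        rw [h4, map_neg, map_mul]
        exact neg_mem (Ideal.mul_mem_right _ _ hP𝔮)
      rw [← Ideal.Quotient.eq_zero_iff_mem, map_multiset_prod, map_multiset_prod,
        map_multiset_prod, Multiset.prod_eq_zero_iff, Multiset.mem_map] at h3
      obtain ⟨x1, hx1, hx2⟩ := h3
      obtain ⟨x2, hx3, rfl⟩ := Multiset.mem_map.1 hx1
      obtain ⟨x3, hx4, rfl⟩ := Multiset.mem_map.1 hx3
      obtain ⟨ψ, hψ, rfl⟩ := Multiset.mem_map.1 hx4
      refine ⟨ψ, ?_, Ideal.Quotient.eq_zero_iff_mem.1 hx2⟩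
      unfold facs
      rw [Multiset.mem_toFinset, ← hM]
      exact hψ
    obtain ⟨hψm, hψi, hψd⟩ := (MFAC.mem_facs f hf P ψ).1 hψf
    have hfact : Fact (Irreducible ψ) := ⟨hψi⟩
    refine ⟨ψ, hψf, hψd, hfact, ?_⟩
    have hmax : (RingHom.ker (resB (f := f) ψ hψd)).IsMaximal :=
      RingHom.ker_isMaximal_of_surjective _ (resB_surj ψ hψd)
    refine (hmax.eq_of_le h𝔮.ne_top ?_).symm
    intro x hx
    obtain ⟨c, d, rfl⟩ := ker_rel ψ hψd (lf ψ) (hlf ψ) x ((RingHom.mem_ker).1 hx)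
    exact add_mem (Ideal.mul_mem_left _ _ hP𝔮) (Ideal.mul_mem_left _ _ hψ𝔮)
  -- the localizations
  have hdvr : IsDedekindDomainDvr (BB f P) := by
    refine ⟨?_⟩
    intro 𝔮 hne h𝔮
    obtain ⟨ψ, hψf, hψd, hfact, rfl⟩ := hprimes 𝔮 h𝔮 hne
    have hψi : Irreducible ψ := Fact.out
    obtain ⟨α, β, hαβ⟩ := lift_rel (P := P) (p := f) (Ψ := lf ψ) (by rw [hlf]; exact hψd)
    have h1 := hSMO F f hf hfd P hBd (lf ψ) α β (by rw [hlf]; exact hψi) hαβ
    rw [hlf] at h1
    refine Pool.Agent.Helper3.HY.De3.dvr _ hne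
      (algebraMap (RR f) (BB f P) (algebraMap F[X] (RR f) P.1))
      (algebraMap (RR f) (BB f P) (AdjoinRoot.mk f (lf ψ)))
      (algebraMap (RR f) (BB f P) (AdjoinRoot.mk f β))
      (algebraMap (RR f) (BB f P) (AdjoinRoot.mk f α)) ?_ ?_ ?_ ?_ ?_
    · intro x hx
      exact ker_rel ψ hψd (lf ψ) (hlf ψ) x ((RingHom.mem_ker).1 hx)
    · rw [RingHom.mem_ker, resB_alg, res_P]
    · rw [RingHom.mem_ker, resB_alg, res_mk, hlf, AdjoinRoot.mk_self]
    · have h5 : AdjoinRoot.mk f (C P.1) = algebraMap F[X] (RR f) P.1 := rfl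
      rw [← h5, ← map_mul, ← map_mul, ← map_mul, ← map_mul, ← map_add, ← map_add, add_comm, ← hαβ,
        AdjoinRoot.mk_self, map_zero]
    · rw [RingHom.mem_ker, RingHom.mem_ker, resB_alg, resB_alg, res_mk, res_mk,
        AdjoinRoot.mk_eq_zero, AdjoinRoot.mk_eq_zero]
      tauto
  have hded : IsDedekindDomain (BB f P) := inferInstance
  have hpid : IsPrincipalIdealRing (BB f P) := by
    refine IsPrincipalIdealRing.of_finite_primes ?_
    refine Set.Finite.subset (s := {⊥} ∪ ((facs f P : Set (kp P)[X]).image fun ψ =>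
      if h : ψ ∣ f.map (red P) ∧ Irreducible ψ then
        RingHom.ker (@resB F _ f P ψ ⟨h.2⟩ h.1) else ⊥)) ?_ ?_
    · exact (Set.finite_singleton _).union ((facs f P).finite_toSet.image _)
    · intro 𝔮 h𝔮
      by_cases hne : 𝔮 = ⊥
      · left; exact hne
      · right
        obtain ⟨ψ, hψf, hψd, hfact, rfl⟩ := hprimes 𝔮 h𝔮 hne
        refine ⟨ψ, hψf, ?_⟩
        have h : ψ ∣ f.map (red P) ∧ Irreducible ψ := ⟨hψd, Fact.out⟩
        simp only [dif_pos h]
  -- the map to `LL f`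
  obtain ⟨ι, hι⟩ : ∃ ι : BB f P →+* LL f, ∀ r : RR f,
      ι (algebraMap (RR f) (BB f P) r) = algebraMap (RR f) (LL f) r := by
    refine ⟨IsLocalization.lift (M := Spm f P) (g := algebraMap (RR f) (LL f)) ?_,
      fun r => IsLocalization.lift_eq _ _⟩
    rintro ⟨_, a, ha, rfl⟩
    rw [isUnit_iff_ne_zero]
    intro h
    rw [hA] at h
    exact ha (by rw [hinjL (h.trans (map_zero _).symm)]; exact dvd_zero _)
  have hιinj : Function.Injective ι := by
    rw [injective_iff_map_eq_zero]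
    intro x hx
    obtain ⟨a, r, ha, har, hu⟩ := exB x
    have h1 := congrArg ι har
    rw [map_mul, hx, mul_zero, hι] at h1
    have h2 : r = 0 := hinj (h1.symm.trans (map_zero _).symm)
    rw [h2, map_zero] at har
    exact (mul_eq_zero.1 har).resolve_left hu.ne_zero
  have hInP : ∀ x : BB f P, InP P (ι x) := by
    intro x
    obtain ⟨a, r, ha, har, hu⟩ := exB x
    refine ⟨a, r, ha, ?_⟩
    rw [← hA, ← hι, ← hι, ← map_mul, har]
  have hInP' : ∀ x : LL f, InP P x → ∃ b, ι b = x := by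
    rintro x ⟨a, r, ha, har⟩
    obtain ⟨u, hu⟩ := unitB (f := f) a ha
    refine ⟨↑u⁻¹ * algebraMap (RR f) (BB f P) r, ?_⟩
    have h1 : ι (↑u * (↑u⁻¹ * algebraMap (RR f) (BB f P) r)) = ι (↑u) * x := by
      rw [Units.mul_inv_cancel_left, hι, hu, hι, hA, har]
    rw [map_mul] at h1
    refine mul_left_cancel₀ ?_ h1
    intro h
    exact u.ne_zero (hιinj (h.trans (map_zero _).symm))
  -- generators
  have hgen : ∀ ψ : (kp P)[X], ∃ b : BB f P, ∀ (hi : Fact (Irreducible ψ))
      (hψ : ψ ∣ f.map (red P)), RingHom.ker (resB ψ hψ) = Ideal.span {b} := by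
    intro ψ
    by_cases h : ψ ∣ f.map (red P) ∧ Irreducible ψ
    · obtain ⟨b, hb⟩ := (IsPrincipalIdealRing.principal
        (RingHom.ker (@resB F _ f P ψ ⟨h.2⟩ h.1))).principal
      exact ⟨b, fun _ _ => hb⟩
    · exact ⟨0, fun hi hψ => absurd ⟨hψ, hi.out⟩ h⟩
  choose b hb using hgen
  refine ⟨fun ψ => ι (b ψ), ?_, ?_⟩
  · intro ψ hψf
    obtain ⟨hψm, hψi, hψd⟩ := (MFAC.mem_facs f hf P ψ).1 hψf
    have hfact : Fact (Irreducible ψ) := ⟨hψi⟩
    refine ⟨hInP _, ?_, ?_⟩
    · have h1 : resB ψ hψd (b ψ) = 0 := by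
        rw [← RingHom.mem_ker, hb ψ hfact hψd]
        exact Ideal.mem_span_singleton_self _
      obtain ⟨a, r, ha, har, hu⟩ := exB (b ψ)
      obtain ⟨p, rfl⟩ := AdjoinRoot.mk_surjective r
      refine ⟨a, p, ha, ?_, ?_⟩
      · rw [← hA, ← hι, ← hι, ← map_mul, har]
      · have h2 := congrArg (resB ψ hψd) har
        rw [map_mul, h1, mul_zero, resB_alg, res_mk] at h2
        exact AdjoinRoot.mk_eq_zero.1 h2.symm
    · rintro x ⟨a, p, ha, hap, hp⟩
      obtain ⟨y, rfl⟩ := hInP' x ⟨a, _, ha, hap⟩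
      have h1 : resB ψ hψd y = 0 := by
        have h2 : algebraMap (RR f) (BB f P) (algebraMap F[X] (RR f) a) * y =
            algebraMap (RR f) (BB f P) (AdjoinRoot.mk f p) := by
          apply hιinj
          rw [map_mul, hι, hι, hA, hap]
        have h3 := congrArg (resB ψ hψd) h2
        rw [map_mul, resB_alg, resB_alg, res_mk, AdjoinRoot.mk_eq_zero.2 hp] at h3
        exact (mul_eq_zero.1 h3).resolve_left (res_C_ne ψ hψi hψd a ha)
      rw [← RingHom.mem_ker, hb ψ hfact hψd, Ideal.mem_span_singleton] at h1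
      obtain ⟨w, rfl⟩ := h1
      exact ⟨ι w, hInP _, by rw [map_mul]⟩
  · -- the factorization
    have hfac : ∀ x : BB f P, x ≠ 0 → ∃ (m : (kp P)[X] → ℕ) (u : BB f P), IsUnit u ∧
        x = u * ∏ ψ ∈ facs f P, b ψ ^ m ψ := by
      intro x
      refine UniqueFactorizationMonoid.induction_on_prime x ?_ ?_ ?_
      · intro h; exact absurd rfl h
      · intro u hu _
        exact ⟨fun _ => 0, u, hu, by simp⟩
      · intro y p hy hp ih _
        obtain ⟨m, u, hu, hyu⟩ := ih hy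
        have h1 : (Ideal.span {p}).IsPrime := (Ideal.span_singleton_prime hp.ne_zero).2 hp
        obtain ⟨ψ, hψf, hψd, hfact, h2⟩ := hprimes _ h1 (by
          rw [Ne, Ideal.span_singleton_eq_bot]; exact hp.ne_zero)
        rw [hb ψ hfact hψd, Ideal.span_singleton_eq_span_singleton] at h2
        obtain ⟨v, hv⟩ := h2.symm
        refine ⟨m + (Pi.single ψ 1 : (kp P)[X] → ℕ), u * v, hu.mul v.isUnit, ?_⟩
        have h3 : ∏ ψ' ∈ facs f P, b ψ' ^ (m + (Pi.single ψ 1 : (kp P)[X] → ℕ)) ψ' =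
            (∏ ψ' ∈ facs f P, b ψ' ^ m ψ') * b ψ := by
          simp only [Pi.add_apply, pow_add]
          rw [prod_mul_distrib]
          congr 1
          rw [prod_eq_single_of_mem ψ hψf]
          · rw [Pi.single_eq_same, pow_one]
          · intro ψ' _ hne
            rw [Pi.single_eq_of_ne hne, pow_zero]
        rw [h3, ← hv, hyu]
        ring
    intro x hx0 hx
    obtain ⟨y, rfl⟩ := hInP' x hx
    have hy0 : y ≠ 0 := by
      rintro rfl
      exact hx0 (map_zero _)
    obtain ⟨m, u, hu, hyu⟩ := hfac y hy0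
    obtain ⟨u, rfl⟩ := hu
    refine ⟨m, ι u, ?_, ?_⟩
    · have h1 : ι u * ι ↑u⁻¹ = 1 := by rw [← map_mul, Units.mul_inv, map_one]
      have h2 : ι (u : BB f P) ≠ 0 := left_ne_zero_of_mul_eq_one h1
      refine (hNU F f hf hfd P).2.2.2.2 _ h2 (hInP _) ?_
      rw [← eq_inv_of_mul_eq_one_right h1]
      exact hInP _
    · rw [hyu, map_mul, map_prod]
      simp only [map_pow]

end Pool.Agent.Helper3.GT
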