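import Pool.Agent.Helper3.GT.St
import Pool.Agent.Helper3.HY.Base

/-! MP_1d384c (GT): normalization at infinity (SI). -/

set_option autoImplicit false

namespace Pool.Agent.Helper3.GT

open Polynomial Finset Filter Topology
open Pool.Agent.Helper3.HY (fK RR LL co Kfil)

namespace SIaux

/-- In a principal ideal domain with finitely many prime ideals every nonzero element is a unit
times one of finitely many elements times a square. -/
theorem sq_rep (R : Type) [CommRing R] [IsDomain R] [IsPrincipalIdealRing R]
    (hfin : {I : Ideal R | I.IsPrime}.Finite) :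
    ∃ s : Finset R, (∀ x ∈ s, x ≠ 0) ∧ ∀ a : R, a ≠ 0 → ∃ (u : Rˣ) (x b : R), x ∈ s ∧ b ≠ 0 ∧
      a = u * x * b ^ 2 := by
  classical
  set π : Ideal R → R := fun I => Submodule.IsPrincipal.generator I with hπ
  set T : Finset (Ideal R) := hfin.toFinset.filter fun I => I ≠ ⊥ with hT
  have hmT : ∀ I : Ideal R, I ∈ T ↔ I.IsPrime ∧ I ≠ ⊥ := by
    intro I
    rw [hT, Finset.mem_filter, Set.Finite.mem_toFinset, Set.mem_setOf_eq]
  have hπ0 : ∀ I ∈ T, π I ≠ 0 := by
    intro I hI h
    exact ((hmT I).1 hI).2 ((Submodule.IsPrincipal.eq_bot_iff_generator_eq_zero I).2 h)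
  refine ⟨T.powerset.image fun U => ∏ I ∈ U, π I, ?_, ?_⟩
  · intro x hx
    rw [Finset.mem_image] at hx
    obtain ⟨U, hU, rfl⟩ := hx
    rw [Finset.mem_powerset] at hU
    exact Finset.prod_ne_zero_iff.2 fun I hI => hπ0 I (hU hI)
  · intro a
    induction a using UniqueFactorizationMonoid.induction_on_prime with
    | h₁ => exact fun h => absurd rfl h
    | h₂ x hx =>
      intro _
      refine ⟨hx.unit, 1, 1, ?_, one_ne_zero, by rw [IsUnit.unit_spec]; ring⟩
      rw [Finset.mem_image]
      exact ⟨∅, Finset.empty_mem_powerset _, Finset.prod_empty⟩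
    | h₃ a p ha hp ih =>
      intro _
      obtain ⟨u, x, b, hx, hb, hab⟩ := ih ha
      rw [Finset.mem_image] at hx
      obtain ⟨U, hU, rfl⟩ := hx
      rw [Finset.mem_powerset] at hU
      set J : Ideal R := Ideal.span {p} with hJ
      have hJT : J ∈ T := by
        rw [hmT]
        refine ⟨(Ideal.span_singleton_prime hp.ne_zero).2 hp, ?_⟩
        rw [hJ, Ne, Ideal.span_singleton_eq_bot]
        exact hp.ne_zero
      have hass : Associated (π J) p := by
        have h1 : Ideal.span {π J} = Ideal.span {p} := Ideal.span_singleton_generator J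
        exact Ideal.span_singleton_eq_span_singleton.1 h1
      obtain ⟨w, hw⟩ := hass
      by_cases hJU : J ∈ U
      · refine ⟨w * u, ∏ I ∈ U.erase J, π I, b * π J, ?_, mul_ne_zero hb (hπ0 J hJT), ?_⟩
        · rw [Finset.mem_image]
          exact ⟨U.erase J, Finset.mem_powerset.2 ((Finset.erase_subset _ _).trans hU), rfl⟩
        · rw [hab, ← hw, ← Finset.mul_prod_erase U π hJU, Units.val_mul]
          ring
      · refine ⟨w * u, ∏ I ∈ insert J U, π I, b, ?_, hb, ?_⟩
        · rw [Finset.mem_image]
          exact ⟨insert J U, Finset.mem_powerset.2 (Finset.insert_subset hJT hU), rfl⟩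
        · rw [hab, ← hw, Finset.prod_insert hJU, Units.val_mul]
          ring

/-- The general form: `A` a discrete valuation ring with field of fractions `K`. -/
theorem gen (A K L : Type) [CommRing A] [IsDomain A] [IsDiscreteValuationRing A] [Field K]
    [Field L] [Algebra A K] [IsFractionRing A K] [Algebra K L] [Algebra A L] [IsScalarTower A K L]
    [FiniteDimensional K L] [Algebra.IsSeparable K L] :
    ∃ (s : Finset L) (W : Finset L), (∀ x ∈ s, x ≠ 0) ∧ ∀ α : L, α ≠ 0 → ∃ β u x : L, β ≠ 0 ∧
      x ∈ s ∧ α * β ^ 2 = u * x ∧ u ≠ 0 ∧ IsIntegral A u ∧ IsIntegral A u⁻¹ ∧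
        α * β ^ 2 ∈ Submodule.span A (W : Set L) := by
  classical
  have hD : IsDedekindDomain (integralClosure A L) := integralClosure.isDedekindDomain A K L
  have hF : Module.Finite A (integralClosure A L) :=
    IsIntegralClosure.finite A K L (integralClosure A L)
  have hFr : IsFractionRing (integralClosure A L) L :=
    integralClosure.isFractionRing_of_finite_extension K L
  have hfin : {I : Ideal (integralClosure A L) | I.IsPrime}.Finite := by
    have h1 : ((IsLocalRing.maximalIdeal A).primesOver (integralClosure A L)).Finite :=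
      Algebra.QuasiFinite.finite_primesOver _
    have h2 : ((⊥ : Ideal A).primesOver (integralClosure A L)).Finite :=
      Algebra.QuasiFinite.finite_primesOver _
    refine (h1.union h2).subset ?_
    intro I hI
    have hI' : I.IsPrime := hI
    have h3 : (I.comap (algebraMap A (integralClosure A L))).IsPrime := Ideal.IsPrime.comap _
    by_cases h4 : I.comap (algebraMap A (integralClosure A L)) = ⊥
    · right
      exact ⟨hI', ⟨h4.symm⟩⟩
    · left
      refine ⟨hI', ⟨?_⟩⟩
      have h5 : (I.comap (algebraMap A (integralClosure A L))).IsMaximal := h3.isMaximal h4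
      exact (IsLocalRing.eq_maximalIdeal h5).symm
  have hP : IsPrincipalIdealRing (integralClosure A L) := IsPrincipalIdealRing.of_finite_primes hfin
  obtain ⟨s, hs0, hs⟩ := sq_rep (integralClosure A L) hfin
  obtain ⟨W, hW⟩ := hF.fg_top
  refine ⟨s.image (algebraMap (integralClosure A L) L), W.image (algebraMap (integralClosure A L) L),
    ?_, ?_⟩
  · intro x hx
    rw [Finset.mem_image] at hx
    obtain ⟨y, hy, rfl⟩ := hx
    rw [Ne, FaithfulSMul.algebraMap_eq_zero_iff]
    exact hs0 y hy
  · intro α hα
    obtain ⟨a, b, hb, rfl⟩ := IsFractionRing.div_surjective (A := integralClosure A L) α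
    have hb0 : b ≠ 0 := nonZeroDivisors.ne_zero hb
    have ha0 : a ≠ 0 := by
      rintro rfl
      rw [map_zero, zero_div] at hα
      exact hα rfl
    obtain ⟨u, x, c, hx, hc, hc2⟩ := hs (a * b) (mul_ne_zero ha0 hb0)
    have hb' : algebraMap (integralClosure A L) L b ≠ 0 := by
      rwa [Ne, FaithfulSMul.algebraMap_eq_zero_iff]
    have hc' : algebraMap (integralClosure A L) L c ≠ 0 := by
      rwa [Ne, FaithfulSMul.algebraMap_eq_zero_iff]
    have key : algebraMap (integralClosure A L) L a / algebraMap (integralClosure A L) L b *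
        (algebraMap (integralClosure A L) L b / algebraMap (integralClosure A L) L c) ^ 2 =
        algebraMap (integralClosure A L) L (u * x) := by
      have h1 := congrArg (algebraMap (integralClosure A L) L) hc2
      rw [map_mul, map_mul, map_pow] at h1
      field_simp
      rw [h1, mul_comm]
    refine ⟨algebraMap (integralClosure A L) L b / algebraMap (integralClosure A L) L c,
      algebraMap (integralClosure A L) L u, algebraMap (integralClosure A L) L x,
      div_ne_zero hb' hc', Finset.mem_image_of_mem _ hx, ?_, ?_, u.1.2, ?_, ?_⟩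
    · rw [key, map_mul]
    · rw [Ne, FaithfulSMul.algebraMap_eq_zero_iff]
      exact u.ne_zero
    · have h1 : (algebraMap (integralClosure A L) L u)⁻¹ =
          algebraMap (integralClosure A L) L (u⁻¹ : (integralClosure A L)ˣ) := by
        rw [inv_eq_iff_eq_inv, eq_comm]
        refine inv_eq_of_mul_eq_one_left ?_
        rw [← map_mul, Units.mul_inv, map_one]
      rw [h1]
      exact ((u⁻¹ : (integralClosure A L)ˣ) : integralClosure A L).2
    · rw [key]
      have h1 : (u * x : integralClosure A L) ∈ Submodule.span A (W : Set (integralClosure A L)) := by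
        rw [hW]
        exact Submodule.mem_top
      have h2 := Submodule.mem_map_of_mem
        (f := (Algebra.linearMap (integralClosure A L) L).restrictScalars A) h1
      rw [Submodule.map_span] at h2
      rw [Finset.coe_image]
      exact h2

open scoped WithZero in
/-- The valuation at infinity. -/
noncomputable def vinf (F : Type) [Field F] : Valuation (RatFunc F) ℤᵐ⁰ := by
  classical exact RatFunc.inftyValuation F

instance (F : Type) [Field F] : IsCyclic (MonoidWithZeroHom.valueGroup (.ofClass (vinf F))) := by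
  have : IsCyclic (WithZero (Multiplicative ℤ))ˣ := inferInstance
  infer_instance

instance (F : Type) [Field F] : (vinf F).IsNontrivial := by
  classical
  unfold vinf
  infer_instance

/-- The valuation ring at infinity. -/
noncomputable abbrev Ainf (F : Type) [Field F] : ValuationSubring (RatFunc F) := (vinf F).valuationSubring

theorem mem_Ainf {F : Type} [Field F] {h : RatFunc F} :
    h ∈ Ainf F ↔ h = 0 ∨ h.intDegree ≤ 0 := by
  rw [Valuation.mem_valuationSubring_iff]
  by_cases hh : h = 0
  · rw [hh, map_zero]
    exact ⟨fun _ => Or.inl rfl, fun _ => zero_le_one⟩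
  · classical
    unfold vinf
    rw [RatFunc.inftyValuation_apply, RatFunc.inftyValuation_of_nonzero _ hh,
      ← WithZero.exp_zero, WithZero.exp_le_exp]
    exact ⟨fun h => Or.inr h, fun h => h.resolve_left hh⟩

theorem dvr_Ainf (F : Type) [Field F] : IsDiscreteValuationRing (Ainf F) :=
  Valuation.valuationSubring_isDiscreteValuationRing (vinf F)

end SIaux

open SIaux in
theorem hSI : StSI := by
  classical
  intro F _ _ f hm hsep _
  have hmK : (fK f).Monic := hm.map (algebraMap F[X] (RatFunc F))
  have hfd : FiniteDimensional (RatFunc F) (LL f) := hmK.finite_adjoinRoot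
  have hss : Algebra.IsSeparable (RatFunc F) (LL f) := by
    have h1 : IsSeparable (RatFunc F) (AdjoinRoot.root (fK f)) := by
      refine hsep.of_dvd (minpoly.dvd _ _ ?_)
      rw [AdjoinRoot.aeval_eq, AdjoinRoot.mk_self]
    have h2 := (IntermediateField.isSeparable_adjoin_simple_iff_isSeparable (RatFunc F) (LL f)).2 h1
    refine ⟨fun x => ?_⟩
    refine IntermediateField.isSeparable_of_mem_isSeparable (RatFunc F) (LL f)
      (L := IntermediateField.adjoin (RatFunc F) {AdjoinRoot.root (fK f)}) ?_
    have h3 : Algebra.adjoin (RatFunc F) {AdjoinRoot.root (fK f)} ≤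
        (IntermediateField.adjoin (RatFunc F) {AdjoinRoot.root (fK f)}).toSubalgebra :=
      IntermediateField.algebra_adjoin_le_adjoin _ _
    refine h3 ?_
    rw [AdjoinRoot.adjoinRoot_eq_top]
    exact Algebra.mem_top
  have := dvr_Ainf F
  obtain ⟨s, W, hs, hα⟩ := gen (Ainf F) (RatFunc F) (LL f)
  set C₁ : ℕ := ∑ w ∈ W, ∑ i ∈ Finset.range (fK f).natDegree,
    (co hmK i w).intDegree.natAbs with hC₁
  set C₂ : ℕ := ∑ x ∈ s, (Algebra.norm (RatFunc F) x).intDegree.natAbs with hC₂
  refine ⟨C₁ + C₂, fun α hα0 => ?_⟩
  obtain ⟨β, u, x, hβ, hx, hab, hu0, hu1, hu2, hsp⟩ := hα α hα0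
  refine ⟨β, hβ, ?_, ?_⟩
  · intro i
    by_cases hi : (fK f).natDegree ≤ i
    · have h1 : co hmK i (α * β ^ 2) = 0 := Pool.Agent.Helper3.HY.co_eq_zero hmK hi _
      change co hmK i (α * β ^ 2) ∈ _
      rw [h1]
      exact zero_mem _
    · rw [not_le] at hi
      have key : ∀ z ∈ Submodule.span (Ainf F) (W : Set (LL f)),
          co hmK i z ∈ Kfil F (C₁ : ℤ) := by
        intro z hz
        induction hz using Submodule.span_induction with
        | mem w hw =>
          refine Pool.Agent.Helper3.HY.mem_Kfil.2 (Or.inr ?_)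
          have h1 : (co hmK i w).intDegree.natAbs ≤ C₁ := by
            rw [hC₁]
            refine le_trans ?_ (Finset.single_le_sum (f := fun w => ∑ i ∈ Finset.range
              (fK f).natDegree, (co hmK i w).intDegree.natAbs) (fun _ _ => Nat.zero_le _) hw)
            exact Finset.single_le_sum (f := fun i => (co hmK i w).intDegree.natAbs)
              (fun _ _ => Nat.zero_le _) (Finset.mem_range.2 hi)
          omega
        | zero => rw [map_zero]; exact zero_mem _
        | add y z _ _ hy hz => rw [map_add]; exact add_mem hy hz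
        | smul a z _ hz =>
          have h1 : co hmK i (a • z) = (a : RatFunc F) • co hmK i z :=
            (congrArg (co hmK i) (algebra_compatible_smul (RatFunc F) a z)).trans
              (LinearMap.map_smul _ _ _)
          have h2 := Pool.Agent.Helper3.HY.mul_mem_Kfil
            (Pool.Agent.Helper3.HY.mem_Kfil.2 (mem_Ainf.1 a.2)) hz
          rw [zero_add] at h2
          exact (congrArg (fun y => y ∈ Kfil F (C₁ : ℤ)) h1).mpr h2
      refine Pool.Agent.Helper3.HY.Kfil_mono ?_ (key _ hsp)
      push_cast
      omega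
  · have hI : ∀ y : LL f, IsIntegral (Ainf F) y → y ≠ 0 →
        (Algebra.norm (RatFunc F) y).intDegree ≤ 0 := by
      intro y hy hy0
      have h1 : IsIntegral (Ainf F) (Algebra.norm (RatFunc F) y) := Algebra.isIntegral_norm _ hy
      obtain ⟨a, ha⟩ := (IsIntegrallyClosed.isIntegral_iff (R := Ainf F) (K := RatFunc F)).1 h1
      have h2 : Algebra.norm (RatFunc F) y ∈ Ainf F := by
        rw [← ha]
        exact a.2
      exact (mem_Ainf.1 h2).resolve_left (Algebra.norm_ne_zero_iff.2 hy0)
    have h1 := hI u hu1 hu0
    have h2 := hI u⁻¹ hu2 (inv_ne_zero hu0)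
    have h3 : (Algebra.norm (RatFunc F) u).intDegree = 0 := by
      have h4 : Algebra.norm (RatFunc F) u⁻¹ = (Algebra.norm (RatFunc F) u)⁻¹ := by
        refine eq_inv_of_mul_eq_one_left ?_
        rw [← map_mul, inv_mul_cancel₀ hu0, map_one]
      rw [h4, RatFunc.intDegree_inv] at h2
      omega
    have hn1 : Algebra.norm (RatFunc F) u ≠ 0 := Algebra.norm_ne_zero_iff.2 hu0
    have hn2 : Algebra.norm (RatFunc F) x ≠ 0 := Algebra.norm_ne_zero_iff.2 (hs x hx)
    rw [hab, map_mul, RatFunc.intDegree_mul hn1 hn2, h3, zero_add]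
    have h5 : (Algebra.norm (RatFunc F) x).intDegree.natAbs ≤ C₂ := by
      rw [hC₂]
      exact Finset.single_le_sum (f := fun x => (Algebra.norm (RatFunc F) x).intDegree.natAbs)
        (fun _ _ => Nat.zero_le _) hx
    rw [Int.abs_eq_natAbs]
    exact Int.ofNat_le.2 (h5.trans (Nat.le_add_left _ _))

end Pool.Agent.Helper3.GT
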