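import Pool.Agent.Helper3.GT.St
import Pool.Agent.Helper3.HY.Base

/-!
# GT: module SM (Minkowski in the integral closure of `F[t]`)
-/

set_option autoImplicit false
set_option linter.overlappingInstances false

namespace Pool.Agent.Helper3.GT

open Polynomial Finset Filter Topology
open Pool.Agent.Helper54.PT (Prm prm IsAbsP IsAbsInf)
open Pool.Agent.Helper3.HY (fK RR LL kp red TwAt twGroup baseChange co Kfil selmerSet)

namespace SMpriv

/-! ### A Dedekind domain with finite quotients -/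

section ded

variable {S : Type} [CommRing S]

lemma cq_mul [IsDedekindDomain S] [Infinite S] (I J : Ideal S) :
    (I * J).cardQuot = I.cardQuot * J.cardQuot :=
  UniqueFactorizationMonoid.multiplicative_of_coprime Submodule.cardQuot I J
    (Submodule.cardQuot_bot _ _)
    (fun {I J} hI => by simp [Ideal.isUnit_iff.mp hI, Ideal.mul_top])
    (fun {I} i hI =>
      have : Ideal.IsPrime I := Ideal.isPrime_of_prime hI
      cardQuot_pow_of_prime hI.ne_zero)
    fun {I J} hIJ => cardQuot_mul_of_coprime <| Ideal.isCoprime_iff_sup_eq.mpr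
      (Ideal.isUnit_iff.mp
        (hIJ (Ideal.dvd_iff_le.mpr le_sup_left) (Ideal.dvd_iff_le.mpr le_sup_right)))

/-- Square times squarefree. -/
lemma exists_sq_mul_sqf [IsDedekindDomain S] (c : Ideal S) (hc : c ≠ 0) :
    ∃ a s : Ideal S, c = a ^ 2 * s ∧ Squarefree s := by
  induction c using UniqueFactorizationMonoid.induction_on_prime with
  | h₁ => exact absurd rfl hc
  | h₂ x hx => exact ⟨1, x, by rw [one_pow, one_mul], hx.squarefree⟩
  | h₃ a p ha hp ih =>
    obtain ⟨b, s, hb, hs⟩ := ih ha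
    by_cases h : p ∣ s
    · obtain ⟨t, rfl⟩ := h
      refine ⟨p * b, t, by rw [hb]; ring, hs.squarefree_of_dvd (Dvd.intro_left p rfl)⟩
    · refine ⟨b, p * s, by rw [hb]; ring, ?_⟩
      rw [squarefree_mul_iff]
      refine ⟨?_, hp.squarefree, hs⟩
      exact (hp.irreducible.isRelPrime_iff_not_dvd).2 h

/-- A squarefree ideal all of whose prime divisors contain `d` contains `d`. -/
lemma mem_of_sqf [IsDedekindDomain S] (d : S) (s : Ideal S) (hs : Squarefree s)
    (h : ∀ p : Ideal S, Prime p → p ∣ s → d ∈ p) : d ∈ s := by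
  induction s using UniqueFactorizationMonoid.induction_on_prime with
  | h₁ => exact absurd hs not_squarefree_zero
  | h₂ x hx => rw [Ideal.isUnit_iff.1 hx]; trivial
  | h₃ a p ha hp ih =>
    have h1 := squarefree_mul_iff.1 hs
    have h2 : ¬ p ∣ a := (hp.irreducible.isRelPrime_iff_not_dvd).1 h1.1
    have h3 : IsCoprime p a := by
      rw [Ideal.isCoprime_iff_sup_eq]
      have := Ideal.isPrime_of_prime hp
      have hm : p.IsMaximal := this.isMaximal hp.ne_zero
      by_contra h4
      have h5 := hm.eq_of_le h4 le_sup_left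
      exact h2 (Ideal.dvd_iff_le.2 (h5 ▸ le_sup_right))
    rw [Ideal.mul_eq_inf_of_isCoprime h3]
    exact ⟨h p hp (Dvd.intro a rfl), ih h1.2.2 fun q hq hqa => h q hq (hqa.mul_left p)⟩

/-- The parity argument. -/
lemma parity [IsDedekindDomain S] {p a s A B C D E : Ideal S} (hp : Prime p) (hA : A = a ^ 2 * s)
    (hA0 : A ≠ 0) (hs : Squarefree s) (hps : p ∣ s) (h : B * A * C ^ 2 = D * E ^ 2)
    (hC : C ≠ 0) (hE : E ≠ 0) (hB : ¬ p ∣ B) (hD : ¬ p ∣ D) : False := by
  obtain ⟨t, rfl⟩ := hps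
  have ht : ¬ p ∣ t := fun h1 => by
    obtain ⟨u, rfl⟩ := h1
    exact hp.not_isUnit (hs p ⟨u, by ring⟩)
  have hB0 : B ≠ 0 := fun h1 => hB (h1 ▸ dvd_zero p)
  have hD0 : D ≠ 0 := fun h1 => hD (h1 ▸ dvd_zero p)
  have ht0 : t ≠ 0 := fun h1 => ht (h1 ▸ dvd_zero p)
  have ha0 : a ≠ 0 := by
    rintro rfl
    exact hA0 (by rw [hA]; simp)
  have hf : ∀ x : Ideal S, x ≠ 0 → FiniteMultiplicity p x := fun x hx =>
    FiniteMultiplicity.of_prime_left hp hx
  have h1 : multiplicity p (B * A * C ^ 2) =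
      2 * multiplicity p a + 1 + 2 * multiplicity p C := by
    rw [multiplicity_mul hp (hf _ (mul_ne_zero (mul_ne_zero hB0 hA0) (pow_ne_zero 2 hC))),
      multiplicity_mul hp (hf _ (mul_ne_zero hB0 hA0)), hA,
      multiplicity_mul hp (hf _ (hA ▸ hA0)),
      multiplicity_mul hp (hf _ (mul_ne_zero hp.ne_zero ht0)),
      FiniteMultiplicity.multiplicity_pow hp (hf _ ha0),
      FiniteMultiplicity.multiplicity_pow hp (hf _ hC), multiplicity_eq_zero.2 hB,
      multiplicity_eq_zero.2 ht, multiplicity_self]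
    ring
  have h2 : multiplicity p (D * E ^ 2) = 2 * multiplicity p E := by
    rw [multiplicity_mul hp (hf _ (mul_ne_zero hD0 (pow_ne_zero 2 hE))),
      FiniteMultiplicity.multiplicity_pow hp (hf _ hE), multiplicity_eq_zero.2 hD]
    ring
  rw [h, h2] at h1
  omega

end ded

/-! ### Cardinality of quotients over `F[t]` -/

section card

variable {F : Type} [Field F] [Fintype F]

instance hfq : Ring.HasFiniteQuotients F[X] where
  finiteQuotient {I} hI := by
    obtain ⟨p, rfl⟩ := Submodule.IsPrincipal.principal I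
    have hp : p ≠ 0 := by
      rintro rfl
      exact hI (by simp)
    have h1 : Module.Finite F (AdjoinRoot p) := (AdjoinRoot.powerBasis hp).finite
    exact Module.finite_of_finite F (M := AdjoinRoot p)

variable {O : Type} [CommRing O] [IsDomain O] [Algebra F[X] O] [Module.Finite F[X] O]
  [Module.Free F[X] O]

lemma cq_span (x : O) (hx : x ≠ 0) :
    (Ideal.span {x}).cardQuot = Fintype.card F ^ (Algebra.norm F[X] x).natDegree := by
  let _ := Algebra.compHom O (algebraMap F F[X])
  have _ : IsScalarTower F F[X] O := IsScalarTower.of_algebraMap_eq fun _ => rfl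
  have hfin : Ring.HasFiniteQuotients O := Ring.HasFiniteQuotients.of_module_finite F[X] O
  have hf : Finite (O ⧸ Ideal.span {x}) :=
    Ring.HasFiniteQuotients.finiteQuotient (by rwa [Ne, Ideal.span_singleton_eq_bot])
  have hf2 : Module.Finite F (O ⧸ Ideal.span {x}) := Module.Finite.of_finite
  rw [← finrank_quotient_span_eq_natDegree_norm (Module.Free.chooseBasis F[X] O) hx,
    Submodule.cardQuot_apply, Module.natCard_eq_pow_finrank (K := F), Nat.card_eq_fintype_card]

lemma cq_le (F : Type) [Field F] [Fintype F] {O : Type} [CommRing O] [IsDomain O]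
    [Algebra F[X] O] [Module.Finite F[X] O] {I J : Ideal O} (hI : I ≠ ⊥) (h : I ≤ J) : J.cardQuot ≤ I.cardQuot := by
  have hfin : Ring.HasFiniteQuotients O := Ring.HasFiniteQuotients.of_module_finite F[X] O
  have hf : Finite (O ⧸ I) := Ring.HasFiniteQuotients.finiteQuotient hI
  rw [Submodule.cardQuot_apply, Submodule.cardQuot_apply]
  exact Nat.card_le_card_of_surjective (Ideal.Quotient.factor h) (Ideal.Quotient.factor_surjective h)

/-- The ideal. -/
lemma core [IsDedekindDomain O] {n : ℕ} (hn : Module.finrank F[X] O = n) (α₀ : O)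
    (hα : α₀ ≠ 0) (d : F[X]) (hd : d ≠ 0)
    (hev : ∀ p : Ideal O, p.IsPrime → p ≠ ⊥ → algebraMap F[X] O d ∉ p →
      ∃ a r β γ : O, a ∉ p ∧ r ∉ p ∧ β ≠ 0 ∧ γ ≠ 0 ∧ a * α₀ * β ^ 2 = r * γ ^ 2) :
    ∃ (x : F[X]) (I : Ideal O), x ≠ 0 ∧ I ≠ ⊥ ∧
      (∀ y ∈ I, ∃ z : O, α₀ * y ^ 2 = algebraMap F[X] O x ^ 2 * z) ∧
      I.cardQuot ^ 2 * Fintype.card F ^ (Algebra.norm F[X] α₀).natDegree ≤
        Fintype.card F ^ (2 * n * x.natDegree + n * d.natDegree) := by
  have hinf : Infinite O := by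
    have : Infinite F[X] := inferInstance
    exact Infinite.of_injective _ (FaithfulSMul.algebraMap_injective F[X] O)
  have hinj := FaithfulSMul.algebraMap_injective F[X] O
  have hnorm : ∀ x : F[X], (Algebra.norm F[X] (algebraMap F[X] O x)).natDegree =
      n * x.natDegree := fun x => by
    rw [Algebra.norm_algebraMap, hn, natDegree_pow]
  have hA0 : Ideal.span {α₀} ≠ 0 := by rwa [Ne, Ideal.zero_eq_bot, Ideal.span_singleton_eq_bot]
  obtain ⟨a, s, hA, hs⟩ := exists_sq_mul_sqf (Ideal.span {α₀}) hA0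
  have ha0 : a ≠ 0 := by
    rintro rfl
    exact hA0 (by rw [hA]; simp)
  have hds : algebraMap F[X] O d ∈ s := by
    refine mem_of_sqf _ s hs fun p hp hps => ?_
    by_contra hdp
    obtain ⟨b, r, β, γ, hb, hr, hβ, hγ, he⟩ := hev p (Ideal.isPrime_of_prime hp) hp.ne_zero hdp
    refine parity hp hA hA0 hs hps (B := Ideal.span {b}) (C := Ideal.span {β})
      (D := Ideal.span {r}) (E := Ideal.span {γ}) ?_ ?_ ?_ ?_ ?_
    · rw [Ideal.span_singleton_pow, Ideal.span_singleton_pow,
        Ideal.span_singleton_mul_span_singleton, Ideal.span_singleton_mul_span_singleton,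
        Ideal.span_singleton_mul_span_singleton, he]
    · rwa [Ne, Ideal.zero_eq_bot, Ideal.span_singleton_eq_bot]
    · rwa [Ne, Ideal.zero_eq_bot, Ideal.span_singleton_eq_bot]
    · rwa [Ideal.dvd_span_singleton]
    · rwa [Ideal.dvd_span_singleton]
  obtain ⟨x, hx, hx0⟩ := Submodule.exists_mem_ne_zero_of_ne_bot
    (Ideal.under_ne_bot F[X] (P := a) (by rwa [← Ideal.zero_eq_bot]))
  have hxa : algebraMap F[X] O x ∈ a := Ideal.mem_comap.1 hx
  have hx1 : algebraMap F[X] O x ≠ 0 := (map_ne_zero_iff _ hinj).2 hx0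
  have hd1 : algebraMap F[X] O d ≠ 0 := (map_ne_zero_iff _ hinj).2 hd
  obtain ⟨I, hI⟩ := Ideal.dvd_span_singleton.2 hxa
  have hI0 : I ≠ ⊥ := by
    rintro rfl
    rw [← Ideal.zero_eq_bot, mul_zero, Ideal.zero_eq_bot, Ideal.span_singleton_eq_bot] at hI
    exact hx1 hI
  refine ⟨x, I, hx0, hI0, fun y hy => ?_, ?_⟩
  · obtain ⟨u, hu⟩ := Ideal.dvd_span_singleton.2 hy
    have h1 : Ideal.span {algebraMap F[X] O x ^ 2} ∣ Ideal.span {α₀ * y ^ 2} := by
      rw [← Ideal.span_singleton_mul_span_singleton, ← Ideal.span_singleton_pow,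
        ← Ideal.span_singleton_pow, hI, hu, hA]
      exact ⟨u ^ 2 * s, by ring⟩
    rw [Ideal.dvd_span_singleton, Ideal.mem_span_singleton] at h1
    exact h1
  · have h1 : a.cardQuot * I.cardQuot = Fintype.card F ^ (n * x.natDegree) := by
      rw [← cq_mul, ← hI, cq_span (F := F) _ hx1, hnorm]
    have h2 : a.cardQuot ^ 2 * s.cardQuot =
        Fintype.card F ^ (Algebra.norm F[X] α₀).natDegree := by
      rw [← cq_span (F := F) _ hα, hA, sq, sq, cq_mul, cq_mul]
    have h3 : s.cardQuot ≤ Fintype.card F ^ (n * d.natDegree) := by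
      rw [← hnorm, ← cq_span (F := F) _ hd1]
      refine cq_le F ?_ ((Ideal.span_singleton_le_iff_mem s).2 hds)
      rwa [Ne, Ideal.span_singleton_eq_bot]
    calc I.cardQuot ^ 2 * Fintype.card F ^ (Algebra.norm F[X] α₀).natDegree
        = (a.cardQuot * I.cardQuot) ^ 2 * s.cardQuot := by rw [← h2]; ring
      _ ≤ (Fintype.card F ^ (n * x.natDegree)) ^ 2 * Fintype.card F ^ (n * d.natDegree) := by
          rw [h1]; exact Nat.mul_le_mul_left _ h3
      _ = _ := by rw [← pow_mul, ← pow_add]; congr 1; ring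

end card

/-! ### Pigeonhole -/

section pig

variable {F : Type} [Field F]

/-- The polynomial with given coefficients. -/
noncomputable def Pc {n m : ℕ} (c : Fin n → Fin (m + 1) → F) : F[X][X] :=
  ∑ i : Fin n, C (∑ j : Fin (m + 1), C (c i j) * X ^ (j : ℕ)) * X ^ (i : ℕ)

lemma Pc_sub {n m : ℕ} (c c' : Fin n → Fin (m + 1) → F) : Pc (c - c') = Pc c - Pc c' := by
  simp only [Pc, Pi.sub_apply, C_sub, sub_mul, sum_sub_distrib]

lemma coeff_Pc {n m : ℕ} (c : Fin n → Fin (m + 1) → F) (i : ℕ) : (Pc c).coeff i =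
    if h : i < n then ∑ j : Fin (m + 1), C (c ⟨i, h⟩ j) * X ^ (j : ℕ) else 0 := by
  rw [Pc, finsetSum_coeff]
  simp only [coeff_C_mul, coeff_X_pow, mul_ite, mul_one, mul_zero]
  split_ifs with h
  · rw [sum_eq_single (⟨i, h⟩ : Fin n)]
    · rw [if_pos rfl]
    · intro b _ hb
      rw [if_neg]
      rintro rfl
      exact hb rfl
    · intro h1
      exact absurd (mem_univ _) h1
  · refine sum_eq_zero fun j _ => ?_
    rw [if_neg]
    rintro rfl
    exact h j.2

lemma coeff_coeff_Pc {n m : ℕ} (c : Fin n → Fin (m + 1) → F) (i : Fin n) (j : Fin (m + 1)) :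
    ((Pc c).coeff i).coeff j = c i j := by
  rw [coeff_Pc, dif_pos i.2, finsetSum_coeff]
  simp only [coeff_C_mul, coeff_X_pow, mul_ite, mul_one, mul_zero]
  rw [sum_eq_single j]
  · rw [if_pos rfl]
  · intro b _ hb
    rw [if_neg]
    intro h1
    exact hb (Fin.ext h1.symm)
  · intro h1
    exact absurd (mem_univ _) h1

lemma natDegree_coeff_Pc {n m : ℕ} (c : Fin n → Fin (m + 1) → F) (i : ℕ) :
    ((Pc c).coeff i).natDegree ≤ m := by
  rw [coeff_Pc]
  split_ifs with h
  · refine natDegree_sum_le_of_forall_le _ _ fun j _ => ?_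
    exact (natDegree_C_mul_X_pow_le _ _).trans (Nat.lt_succ_iff.1 j.2)
  · simp

lemma degree_Pc {n m : ℕ} (c : Fin n → Fin (m + 1) → F) : (Pc c).degree < n := by
  rw [degree_lt_iff_coeff_zero]
  intro i hi
  rw [coeff_Pc, dif_neg (not_lt.2 hi)]

lemma pigeon [Fintype F] {O : Type} [CommRing O] (I : Ideal O) [Finite (O ⧸ I)] (φ : F[X][X] →+* O)
    (n m : ℕ) (h : I.cardQuot < Fintype.card F ^ (n * (m + 1))) :
    ∃ p : F[X][X], p ≠ 0 ∧ p.degree < n ∧ (∀ i, (p.coeff i).natDegree ≤ m) ∧ φ p ∈ I := by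
  classical
  have := Fintype.ofFinite (O ⧸ I)
  have h1 : Fintype.card (O ⧸ I) < Fintype.card (Fin n → Fin (m + 1) → F) := by
    rw [Fintype.card_fun, Fintype.card_fun, Fintype.card_fin, Fintype.card_fin, ← pow_mul,
      mul_comm (m + 1) n, ← Nat.card_eq_fintype_card, ← Submodule.cardQuot_apply]
    exact h
  obtain ⟨c, c', hc, he⟩ := Fintype.exists_ne_map_eq_of_card_lt
    (fun c : Fin n → Fin (m + 1) → F => Ideal.Quotient.mk I (φ (Pc c))) h1
  refine ⟨Pc (c - c'), fun h2 => hc ?_, degree_Pc _, natDegree_coeff_Pc _, ?_⟩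
  · funext i j
    have h3 := coeff_coeff_Pc (c - c') i j
    rw [h2] at h3
    simp only [coeff_zero, Pi.sub_apply] at h3
    exact (sub_eq_zero.1 h3.symm)
  · rw [Pc_sub, map_sub]
    exact Ideal.Quotient.eq.1 he

end pig

/-! ### The integral closure -/

section fin

variable {F : Type} [Field F] {f : F[X][X]}

lemma sepLL (hm : f.Monic) (hs : (fK f).Separable) [Fact (Irreducible (fK f))] :
    Algebra.IsSeparable (RatFunc F) (LL f) := by
  have hmK : (fK f).Monic := hm.map _
  have hr : AdjoinRoot.root (fK f) ∈ separableClosure (RatFunc F) (LL f) := by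
    rw [mem_separableClosure_iff]
    exact hs.of_dvd (minpoly.dvd _ _ (by rw [AdjoinRoot.aeval_eq, AdjoinRoot.mk_self]))
  refine ⟨fun z => ?_⟩
  rw [← mem_separableClosure_iff]
  obtain ⟨p, rfl⟩ := AdjoinRoot.mk_surjective z
  rw [← AdjoinRoot.aeval_eq]
  exact Algebra.adjoin_le (S := (separableClosure (RatFunc F) (LL f)).toSubalgebra)
    (Set.singleton_subset_iff.2 hr) (Polynomial.aeval_mem_adjoin_singleton _ _)

/-- The integral closure. -/
abbrev OO (f : F[X][X]) : Type := integralClosure F[X] (LL f)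

/-- The map from `F[t][x]`. -/
noncomputable def toO (hm : f.Monic) : F[X][X] →+* OO f :=
  ((algebraMap (RR f) (LL f)).comp (AdjoinRoot.mk f)).codRestrict
    (integralClosure F[X] (LL f)) fun p => by
    have : Module.Finite F[X] (RR f) := hm.finite_adjoinRoot
    exact (Algebra.IsIntegral.isIntegral (R := F[X]) (AdjoinRoot.mk f p)).algebraMap

lemma coe_toO (hm : f.Monic) (p : F[X][X]) :
    ((toO hm p : OO f) : LL f) = algebraMap (RR f) (LL f) (AdjoinRoot.mk f p) := rfl

end fin

end SMpriv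

open SMpriv

theorem hSM : StSM := by
  intro F _ _ f hm hs hirr T α hα hev N hN
  classical
  have hmK : (fK f).Monic := hm.map _
  have hdeg : (fK f).natDegree = f.natDegree := hm.natDegree_map _
  have hn0 : 0 < f.natDegree := by
    rw [← hdeg]; exact hirr.out.natDegree_pos
  have hfd : FiniteDimensional (RatFunc F) (LL f) := hmK.finite_adjoinRoot
  have hsep := sepLL hm hs
  have hded : IsDedekindDomain (OO f) :=
    integralClosure.isDedekindDomain F[X] (RatFunc F) (LL f)
  have hfin : Module.Finite F[X] (OO f) := IsIntegralClosure.finite F[X] (RatFunc F) (LL f) _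
  have hinjL : Function.Injective (algebraMap F[X] (LL f)) := by
    rw [IsScalarTower.algebraMap_eq F[X] (RatFunc F) (LL f)]
    exact (algebraMap (RatFunc F) (LL f)).injective.comp (RatFunc.algebraMap_injective F)
  have htf : Module.IsTorsionFree F[X] (LL f) := .trans_faithfulSMul F[X] (RatFunc F) (LL f)
  have hfree : Module.Free F[X] (OO f) :=
    IsIntegralClosure.module_free F[X] (RatFunc F) (LL f) _
  have hrank : Module.finrank F[X] (OO f) = f.natDegree := by
    rw [IsIntegralClosure.rank F[X] (RatFunc F) (LL f), (AdjoinRoot.powerBasis' hmK).finrank,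
      AdjoinRoot.powerBasis'_dim, hdeg]
  have hloc : IsLocalization (Algebra.algebraMapSubmonoid (OO f) (nonZeroDivisors F[X])) (LL f) :=
    IsIntegralClosure.isLocalization F[X] (RatFunc F) (LL f) _
  -- the integral multiple
  obtain ⟨b, hb0, hb⟩ : ∃ b : F[X], b ≠ 0 ∧ IsIntegral F[X] (algebraMap F[X] (LL f) b * α) := by
    obtain ⟨b, hb0, hb⟩ := exists_integral_multiples F[X] (RatFunc F) ({α} : Finset (LL f))
    refine ⟨b, hb0, ?_⟩
    have := hb α (mem_singleton_self _)
    rwa [Algebra.smul_def] at this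
  have hbL : algebraMap F[X] (LL f) b ≠ 0 := (map_ne_zero_iff _ hinjL).2 hb0
  obtain ⟨α₀, hα₀⟩ : ∃ a : OO f, (a : LL f) = algebraMap F[X] (LL f) b ^ 2 * α :=
    ⟨⟨algebraMap F[X] (LL f) b ^ 2 * α, by
      rw [sq, mul_assoc]
      exact (isIntegral_algebraMap).mul hb⟩, rfl⟩
  have hα₀0 : α₀ ≠ 0 := by
    intro h
    rw [h, ZeroMemClass.coe_zero] at hα₀
    exact mul_ne_zero (pow_ne_zero 2 hbL) hα hα₀.symm
  -- even valuations
  have hev' : ∀ p : Ideal (OO f), p.IsPrime → p ≠ ⊥ →
      algebraMap F[X] (OO f) (∏ P ∈ T, P.1) ∉ p →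
      ∃ a r β γ : OO f, a ∉ p ∧ r ∉ p ∧ β ≠ 0 ∧ γ ≠ 0 ∧ a * α₀ * β ^ 2 = r * γ ^ 2 := by
    intro p hp hp0 hT
    obtain ⟨P, hP⟩ : ∃ P : Prm F, ∀ a : F[X], algebraMap F[X] (OO f) a ∈ p ↔ P.1 ∣ a := by
      have h1 : p.under F[X] ≠ ⊥ := Ideal.under_ne_bot F[X] hp0
      have h2 : (p.under F[X]).IsPrime := inferInstance
      obtain ⟨π, hπ⟩ := (inferInstance : (p.under F[X]).IsPrincipal).principal
      rw [Ideal.submodule_span_eq] at hπ
      have hπ0 : π ≠ 0 := by
        rintro rfl
        exact h1 (by rw [hπ]; simp)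
      have hπp : Prime π := (Ideal.span_singleton_prime hπ0).1 (hπ ▸ h2)
      refine ⟨⟨normalize π, Polynomial.monic_normalize hπ0,
        (normalize_associated π).symm.irreducible hπp.irreducible⟩, fun a => ?_⟩
      rw [← Ideal.mem_comap]
      change a ∈ p.under F[X] ↔ normalize π ∣ a
      rw [hπ, Ideal.mem_span_singleton]
      exact (normalize_dvd_iff).symm
    have hPT : P ∉ T := fun h => hT ((hP _).2 (dvd_prod_of_mem _ h))
    obtain ⟨β, hβ0, a, r, s, ha, h1, h2⟩ := hev P hPT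
    obtain ⟨pr, rfl⟩ := AdjoinRoot.mk_surjective r
    obtain ⟨ps, rfl⟩ := AdjoinRoot.mk_surjective s
    have haL : algebraMap F[X] (OO f) a ∉ p := fun h => ha ((hP a).1 h)
    have hrs : toO hm pr * toO hm ps = algebraMap F[X] (OO f) a ^ 2 := by
      apply Subtype.ext
      change algebraMap (RR f) (LL f) (AdjoinRoot.mk f pr) *
        algebraMap (RR f) (LL f) (AdjoinRoot.mk f ps) = algebraMap F[X] (LL f) a ^ 2
      rw [← map_mul, h2, map_pow, ← IsScalarTower.algebraMap_apply F[X] (RR f) (LL f)]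
    have hr : toO hm pr ∉ p := fun h => by
      have h3 : algebraMap F[X] (OO f) a ^ 2 ∈ p := hrs ▸ Ideal.mul_mem_right _ _ h
      exact haL (hp.mem_of_pow_mem 2 h3)
    obtain ⟨c, hc0, hc⟩ : ∃ c : F[X], c ≠ 0 ∧ IsIntegral F[X] (algebraMap F[X] (LL f) c * β) := by
      obtain ⟨b, hb0, hb⟩ := exists_integral_multiples F[X] (RatFunc F) ({β} : Finset (LL f))
      refine ⟨b, hb0, ?_⟩
      have := hb β (mem_singleton_self _)
      rwa [Algebra.smul_def] at this
    have hcL : algebraMap F[X] (LL f) c ≠ 0 := (map_ne_zero_iff _ hinjL).2 hc0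
    refine ⟨algebraMap F[X] (OO f) a, toO hm pr, ⟨algebraMap F[X] (LL f) c * β, hc⟩,
      algebraMap F[X] (OO f) (b * c), haL, hr, ?_, ?_, ?_⟩
    · intro h
      exact mul_ne_zero hcL hβ0 (congrArg Subtype.val h)
    · intro h
      have h3 : algebraMap F[X] (LL f) (b * c) = 0 := congrArg Subtype.val h
      exact mul_ne_zero hb0 hc0 ((map_eq_zero_iff _ hinjL).1 h3)
    · apply Subtype.ext
      change algebraMap F[X] (LL f) a * (α₀ : LL f) * (algebraMap F[X] (LL f) c * β) ^ 2 =
        algebraMap (RR f) (LL f) (AdjoinRoot.mk f pr) * algebraMap F[X] (LL f) (b * c) ^ 2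
      rw [hα₀, ← h1, map_mul]
      ring
  have hd0 : ∏ P ∈ T, P.1 ≠ 0 := prod_ne_zero_iff.2 fun P _ => P.2.2.ne_zero
  obtain ⟨x, I, hx0, hI0, hxI, hcard⟩ := core hrank α₀ hα₀0 (∏ P ∈ T, P.1) hd0 hev'
  have hddeg : (∏ P ∈ T, P.1).natDegree = dgS T :=
    natDegree_prod_of_monic _ _ fun P _ => P.2.1
  rw [hddeg] at hcard
  have hxL : algebraMap F[X] (LL f) x ≠ 0 := (map_ne_zero_iff _ hinjL).2 hx0
  -- the norm
  have hν : ((Algebra.norm F[X] α₀).natDegree : ℤ) =
      2 * f.natDegree * b.natDegree + (Algebra.norm (RatFunc F) α).intDegree := by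
    have h1 := Algebra.norm_localization (Rₘ := RatFunc F) (Sₘ := LL f) F[X]
      (nonZeroDivisors F[X]) α₀
    have h2 : algebraMap (OO f) (LL f) α₀ = algebraMap (RatFunc F) (LL f)
        (algebraMap F[X] (RatFunc F) (b ^ 2)) * α := by
      rw [← IsScalarTower.algebraMap_apply, map_pow]
      exact hα₀
    rw [h2, map_mul, Algebra.norm_algebraMap, ← map_pow] at h1
    have h3 := congrArg RatFunc.intDegree h1
    have hfr : Module.finrank (RatFunc F) (LL f) = f.natDegree := by
      rw [(AdjoinRoot.powerBasis' hmK).finrank, AdjoinRoot.powerBasis'_dim, hdeg]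
    rw [RatFunc.intDegree_polynomial, RatFunc.intDegree_mul, RatFunc.intDegree_polynomial,
      hfr, natDegree_pow, natDegree_pow] at h3
    · rw [← h3]; push_cast; ring
    · exact (map_ne_zero_iff _ (RatFunc.algebraMap_injective F)).2
        (pow_ne_zero _ (pow_ne_zero _ hb0))
    · exact (Algebra.norm_ne_zero_iff).2 hα
  -- the size
  have hq : 1 < Fintype.card F := Fintype.one_lt_card
  have hIfin : Finite (OO f ⧸ I) := by
    have : Ring.HasFiniteQuotients (OO f) := Ring.HasFiniteQuotients.of_module_finite F[X] _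
    exact Ring.HasFiniteQuotients.finiteQuotient hI0
  have hIpos : 1 ≤ I.cardQuot := by
    rw [Submodule.cardQuot_apply]
    exact Nat.card_pos
  obtain ⟨m, hm1⟩ : ∃ m : ℕ, (m : ℤ) = N + x.natDegree - b.natDegree := by
    refine ⟨(N + x.natDegree - b.natDegree).toNat, Int.toNat_of_nonneg ?_⟩
    by_contra hneg
    have h1 : Fintype.card F ^ (Algebra.norm F[X] α₀).natDegree ≤
        Fintype.card F ^ (2 * f.natDegree * x.natDegree + f.natDegree * dgS T) := by
      refine le_trans ?_ hcard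
      exact Nat.le_mul_of_pos_left _ (pow_pos hIpos 2)
    have h2 := (Nat.pow_le_pow_iff_right hq).1 h1
    have h3 : 2 * (f.natDegree : ℤ) * (N + x.natDegree - b.natDegree) ≤ - 1 := by
      have : N + x.natDegree - b.natDegree ≤ - 1 := by omega
      nlinarith
    have h4 : ((Algebra.norm F[X] α₀).natDegree : ℤ) ≤
        2 * f.natDegree * x.natDegree + f.natDegree * dgS T := by exact_mod_cast h2
    rw [hν] at h4
    nlinarith
  have hIle : I.cardQuot ≤ Fintype.card F ^ (f.natDegree * m) := by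
    have h1 : I.cardQuot ^ 2 * Fintype.card F ^ (Algebra.norm F[X] α₀).natDegree ≤
        (Fintype.card F ^ (f.natDegree * m)) ^ 2 *
          Fintype.card F ^ (Algebra.norm F[X] α₀).natDegree := by
      refine hcard.trans ?_
      rw [← pow_mul, ← pow_add]
      refine Nat.pow_le_pow_right hq.le ?_
      zify
      rw [hν, hm1]
      nlinarith
    have h2 := Nat.le_of_mul_le_mul_right h1 (pow_pos (by omega) _)
    exact (Nat.pow_le_pow_iff_left (by norm_num)).1 h2
  obtain ⟨p, hp0, hpd, hpc, hpI⟩ := pigeon I (toO hm) f.natDegree m (hIle.trans_lt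
    (Nat.pow_lt_pow_right hq (by nlinarith)))
  obtain ⟨z, hz⟩ := hxI _ hpI
  have hco : ∀ i, co (hm.map (algebraMap F[X] (RatFunc F))) i ((toO hm p : OO f) : LL f) =
      algebraMap F[X] (RatFunc F) (p.coeff i) := fun i => by
    rw [coe_toO, Pool.Agent.Helper3.HY.co_algebraMap hm, Pool.Agent.Helper3.HY.co_mk]
    congr 2
    refine (modByMonic_eq_self_iff hm).2 (hpd.trans_eq ?_)
    rw [degree_eq_natDegree hm.ne_zero]
  have hy0 : ((toO hm p : OO f) : LL f) ≠ 0 := by
    intro h
    refine hp0 (Polynomial.ext fun i => ?_)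
    have h1 := hco i
    rw [h, map_zero] at h1
    rw [coeff_zero]
    exact (map_eq_zero_iff _ (RatFunc.algebraMap_injective F)).1 h1.symm
  have hzL : (α₀ : LL f) * ((toO hm p : OO f) : LL f) ^ 2 =
      algebraMap F[X] (LL f) x ^ 2 * (z : LL f) := congrArg Subtype.val hz
  refine ⟨algebraMap (RatFunc F) (LL f) (algebraMap F[X] (RatFunc F) b *
    (algebraMap F[X] (RatFunc F) x)⁻¹) * ((toO hm p : OO f) : LL f), ?_, ?_, fun i => ?_⟩
  · refine mul_ne_zero ?_ hy0
    rw [map_mul, map_inv₀, ← IsScalarTower.algebraMap_apply, ← IsScalarTower.algebraMap_apply]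
    exact mul_ne_zero hbL (inv_ne_zero hxL)
  · have h1 : α * (algebraMap (RatFunc F) (LL f) (algebraMap F[X] (RatFunc F) b *
        (algebraMap F[X] (RatFunc F) x)⁻¹) * ((toO hm p : OO f) : LL f)) ^ 2 = (z : LL f) := by
      rw [map_mul, map_inv₀, ← IsScalarTower.algebraMap_apply, ← IsScalarTower.algebraMap_apply]
      rw [hα₀] at hzL
      field_simp
      linear_combination hzL
    rw [h1]
    exact z.2
  · rw [← Algebra.smul_def, map_smul, hco, smul_eq_mul]
    have h1 : algebraMap F[X] (RatFunc F) b ∈ Kfil F (b.natDegree : ℤ) :=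
      Pool.Agent.Helper3.HY.algebraMap_mem_Kfil (Or.inr le_rfl)
    have h2 : (algebraMap F[X] (RatFunc F) x)⁻¹ ∈ Kfil F (-(x.natDegree : ℤ)) := by
      have := Pool.Agent.Helper3.HY.inv_mem_Kfil (algebraMap F[X] (RatFunc F) x)
      rwa [RatFunc.intDegree_polynomial] at this
    have h3 : algebraMap F[X] (RatFunc F) (p.coeff i) ∈ Kfil F (m : ℤ) :=
      Pool.Agent.Helper3.HY.algebraMap_mem_Kfil (Or.inr (by exact_mod_cast hpc i))
    refine Pool.Agent.Helper3.HY.Kfil_mono ?_ (Pool.Agent.Helper3.HY.mul_mem_Kfil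
      (Pool.Agent.Helper3.HY.mul_mem_Kfil h1 h2) h3)
    rw [hm1]
    linarith

end Pool.Agent.Helper3.GT
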