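import Pool.Agent.Helper3.GT.St
import Pool.Agent.Helper3.HY.Base

/-!
# GT: small representatives
-/

set_option autoImplicit false

namespace Pool.Agent.Helper3.GT

open Polynomial Finset
open Pool.Agent.Helper54.PT (Prm)
open Pool.Agent.Helper3.HY (fK RR LL co Kfil th)

/-- The elements of `L` integral over `A` have a common denominator. -/
private theorem exists_den {F : Type} [Field F] (f : F[X][X]) (hm : f.Monic)
    (hsep : (fK f).Separable) [hirr : Fact (Irreducible (fK f))] :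
    ∃ d : F[X], d ≠ 0 ∧ ∀ z : LL f, IsIntegral F[X] z →
      ∃ r : RR f, algebraMap F[X] (LL f) d * z = algebraMap (RR f) (LL f) r := by
  have hK0 : fK f ≠ 0 := hirr.out.ne_zero
  let B : PowerBasis (RatFunc F) (LL f) := AdjoinRoot.powerBasis hK0
  have hgen : B.gen = AdjoinRoot.root (fK f) := AdjoinRoot.powerBasis_gen hK0
  have hint : IsIntegral F[X] B.gen := by
    rw [hgen]
    refine ⟨f, hm, ?_⟩
    have h1 : eval₂ (algebraMap F[X] (LL f)) (AdjoinRoot.root (fK f)) f =
        eval₂ (AdjoinRoot.of (fK f)) (AdjoinRoot.root (fK f)) (fK f) := by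
      rw [eval₂_map]
      rfl
    rw [h1, AdjoinRoot.eval₂_root]
  have : Algebra.IsSeparable (RatFunc F) (LL f) := by
    have h2 : IsSeparable (RatFunc F) (AdjoinRoot.root (fK f)) := by
      rw [IsSeparable, AdjoinRoot.minpoly_root hK0]
      exact hsep.of_dvd (by
        rw [(hm.map (algebraMap F[X] (RatFunc F))).leadingCoeff, inv_one, C_1, mul_one])
    have h3 := (IntermediateField.isSeparable_adjoin_simple_iff_isSeparable (RatFunc F) (LL f)).2 h2
    refine ⟨fun z => ?_⟩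
    have h4 : z ∈ IntermediateField.adjoin (RatFunc F) {AdjoinRoot.root (fK f)} := by
      have h5 : z ∈ Algebra.adjoin (RatFunc F) {AdjoinRoot.root (fK f)} := by
        rw [AdjoinRoot.adjoinRoot_eq_top]
        exact Algebra.mem_top
      exact IntermediateField.algebra_adjoin_le_adjoin _ _ h5
    have h6 := h3.isSeparable' ⟨z, h4⟩
    rw [IsSeparable] at h6 ⊢
    rwa [← minpoly.algebraMap_eq (B' := LL f) (algebraMap
      (IntermediateField.adjoin (RatFunc F) {AdjoinRoot.root (fK f)}) (LL f)).injective] at h6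
  have hFin : FiniteDimensional (RatFunc F) (LL f) := B.finite
  have hd1 : IsIntegral F[X] (Algebra.discr (RatFunc F) B.basis) := by
    refine Algebra.discr_isIntegral _ fun i => ?_
    rw [B.basis_eq_pow]
    exact hint.pow _
  obtain ⟨d, hd⟩ := IsIntegrallyClosed.isIntegral_iff.1 hd1
  refine ⟨d, ?_, fun z hz => ?_⟩
  · rintro rfl
    rw [map_zero] at hd
    exact Algebra.discr_not_zero_of_basis (RatFunc F) B.basis hd.symm
  · have h3 := Algebra.discr_mul_isIntegral_mem_adjoin (R := F[X]) (RatFunc F) hint hz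
    have h4 : Algebra.adjoin F[X] ({B.gen} : Set (LL f)) ≤
        (IsScalarTower.toAlgHom F[X] (RR f) (LL f)).range := by
      refine Algebra.adjoin_le ?_
      rintro x rfl
      refine ⟨AdjoinRoot.root f, ?_⟩
      rw [hgen]
      exact Pool.Agent.Helper3.HY.algebraMap_root
    obtain ⟨r, hr⟩ := h4 h3
    refine ⟨r, ?_⟩
    have h5 : algebraMap (RR f) (LL f) r = Algebra.discr (RatFunc F) B.basis • z := hr
    rw [h5, ← hd, Algebra.smul_def, ← IsScalarTower.algebraMap_apply]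

/-- (SMALL). -/
theorem hSMALL (hSI : StSI) (hSM : StSM) (hSZ : StSZ) : StSMALL := by
  intro F _ _ f hm hsep hirr
  obtain ⟨C1, hC1⟩ := hSI F f hm hsep
  obtain ⟨C2, hC2⟩ := hSZ F f hm
  obtain ⟨d, hd0, hd⟩ := exists_den f hm hsep
  have hdeg : (fK f).natDegree = f.natDegree := hm.natDegree_map _
  have hn : 1 ≤ f.natDegree := by
    rw [← hdeg]
    exact hirr.out.natDegree_pos
  have hf1 : f ≠ 1 := by
    rintro rfl
    simp at hn
  refine ⟨2 * d.natDegree + 3 * C1 + 2 * C2 + 2, fun T α hα hEv => ?_⟩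
  obtain ⟨β1, hβ1, hs1, hN1⟩ := hC1 α hα
  set α1 : LL f := α * β1 ^ 2 with hα1
  have hα10 : α1 ≠ 0 := mul_ne_zero hα (pow_ne_zero 2 hβ1)
  have hEv1 : ∀ P : Prm F, P ∉ T → EvP P α1 := by
    intro P hP
    obtain ⟨β, hβ, hu⟩ := hEv P hP
    refine ⟨β / β1, div_ne_zero hβ hβ1, ?_⟩
    have : α1 * (β / β1) ^ 2 = α * β ^ 2 := by
      rw [hα1]; field_simp
    rwa [this]
  obtain ⟨β2, hβ2, hint, hs2⟩ := hSM F f hm hsep T α1 hα10 hEv1 ((dgS T + C1 : ℕ) : ℤ) (by
    have h1 := (abs_le.1 hN1).1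
    have h2 : (1 : ℤ) ≤ f.natDegree := by exact_mod_cast hn
    push_cast
    have h3 : (0 : ℤ) ≤ dgS T := by positivity
    have h4 : (0 : ℤ) ≤ C1 := by positivity
    nlinarith [mul_le_mul_of_nonneg_right h2 h4, mul_nonneg (by linarith : (0:ℤ) ≤ f.natDegree) h3])
  have hs22 := hC2 _ _ _ _ hs2 hs2
  rw [← sq] at hs22
  have hs3 := hC2 _ _ _ _ hs1 hs22
  set z : LL f := α1 * β2 ^ 2 with hz
  obtain ⟨r, hr⟩ := hd z hint
  obtain ⟨p, hp⟩ := AdjoinRoot.mk_surjective (algebraMap F[X] (RR f) d * r)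
  have hd' : algebraMap F[X] (LL f) d ≠ 0 := by
    rw [IsScalarTower.algebraMap_apply F[X] (RatFunc F) (LL f)]
    simpa using hd0
  refine ⟨β1 * β2 * algebraMap F[X] (LL f) d, p %ₘ f,
    mul_ne_zero (mul_ne_zero hβ1 hβ2) hd', ⟨natDegree_modByMonic_lt _ hm hf1, fun i => ?_⟩, ?_⟩
  · have h1 : (p %ₘ f).coeff i = co hm i (algebraMap F[X] (RR f) d * r) := by
      rw [← hp, Pool.Agent.Helper3.HY.co_mk]
    have h2 : algebraMap F[X] (RatFunc F) ((p %ₘ f).coeff i) =
        algebraMap F[X] (RatFunc F) d * algebraMap F[X] (RatFunc F) d *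
          co (hm.map (algebraMap F[X] (RatFunc F))) i z := by
      rw [h1, ← Pool.Agent.Helper3.HY.co_algebraMap hm, map_mul,
        ← IsScalarTower.algebraMap_apply, ← hr, ← mul_assoc,
        IsScalarTower.algebraMap_apply F[X] (RatFunc F) (LL f), ← map_mul, ← Algebra.smul_def,
        map_smul, smul_eq_mul]
    have h3 : algebraMap F[X] (RatFunc F) ((p %ₘ f).coeff i) ∈ Kfil F
        ((d.natDegree : ℤ) + d.natDegree + (C1 + (((dgS T + C1 : ℕ) : ℤ) + 1 +
          (((dgS T + C1 : ℕ) : ℤ) + 1) + C2) + C2)) := by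
      rw [h2]
      have h4 : algebraMap F[X] (RatFunc F) d ∈ Kfil F (d.natDegree : ℤ) :=
        Pool.Agent.Helper3.HY.algebraMap_mem_Kfil (Or.inr le_rfl)
      exact Pool.Agent.Helper3.HY.mul_mem_Kfil (Pool.Agent.Helper3.HY.mul_mem_Kfil h4 h4) (hs3 i)
    rcases Pool.Agent.Helper3.HY.algebraMap_mem_Kfil_iff.1 h3 with h5 | h5
    · rw [h5, natDegree_zero]; exact Nat.zero_le _
    · have h6 : (2 * d.natDegree + 3 * C1 + 2 * C2 + 2) * (dgS T + 1) =
          (2 * d.natDegree + 3 * C1 + 2 * C2) * dgS T + 2 * dgS T +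
            (2 * d.natDegree + 3 * C1 + 2 * C2 + 2) := by ring
      rw [h6]
      have h7 : 0 ≤ (2 * d.natDegree + 3 * C1 + 2 * C2) * dgS T := Nat.zero_le _
      push_cast at h5
      omega
  · have h1 : AdjoinRoot.mk f (p %ₘ f) = AdjoinRoot.mk f p := by
      rw [AdjoinRoot.mk_eq_mk]
      exact ⟨-(p /ₘ f), by linear_combination modByMonic_add_div p f⟩
    rw [h1, hp, map_mul, ← IsScalarTower.algebraMap_apply, ← hr, hz, hα1]
    ring

end Pool.Agent.Helper3.GT
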