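import Pool.Agent.Helper3.GT.StL

/-!
# GT: (SMO) places where the square of the prime does not divide the discriminant are smooth
-/

set_option autoImplicit false

namespace Pool.Agent.Helper3.GT

open Polynomial
open Pool.Agent.Helper54.PT (Prm prm)
open Pool.Agent.Helper3.HY (kp red)

namespace SMO

/-- A resultant over a field of two polynomials with a common irreducible factor vanishes. -/
private lemma res_zero {K : Type*} [Field K] {ψ f g : K[X]} (hψ : Irreducible ψ) (hf : ψ ∣ f)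
    (hg : ψ ∣ g) {m n : ℕ} (hm : m ≠ 0) (hfm : f.natDegree ≤ m) (hgn : g.natDegree ≤ n) :
    f.resultant g m n = 0 := by
  obtain ⟨p, q, -, -, e⟩ := exists_mul_add_mul_eq_C_resultant f g hfm hgn (Or.inl hm)
  by_contra h0
  have hd : ψ ∣ C (f.resultant g m n) := by
    rw [← e]; exact dvd_add (hf.mul_right p) (hg.mul_right q)
  exact hψ.not_isUnit (isUnit_of_dvd_unit hd (isUnit_C.mpr (isUnit_iff_ne_zero.mpr h0)))

/-- The general statement. -/
private lemma core {A K : Type*} [CommRing A] [IsDomain A] [Field K] (φ : A →+* K)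
    (hs : Function.Surjective φ) (p : A) (hk : ∀ a, φ a = 0 ↔ p ∣ a) (f : A[X]) (hf : f.Monic)
    (h1 : 1 ≤ f.natDegree) (G α β : A[X]) (hG : Irreducible (G.map φ))
    (e : f = α * G + β * C p) (ha : G.map φ ∣ α.map φ) (hb : G.map φ ∣ β.map φ) :
    p ^ 2 ∣ f.discr := by
  have divC : ∀ q : A[X], q.map φ = 0 → ∃ q', q = C p * q' := by
    intro q hq
    have : C p ∣ q := by
      rw [C_dvd_iff_dvd_coeff]; intro i
      rw [← hk, ← coeff_map, hq, coeff_zero]
    obtain ⟨q', h⟩ := this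
    exact ⟨q', h⟩
  have hφp : φ p = 0 := (hk p).2 dvd_rfl
  have hG0 : G.map φ ≠ 0 := hG.ne_zero
  have hlc : (G.map φ).leadingCoeff ≠ 0 := leadingCoeff_ne_zero.mpr hG0
  -- the monic associate
  obtain ⟨ψ, hψdef⟩ : ∃ ψ, ψ = G.map φ * C (G.map φ).leadingCoeff⁻¹ := ⟨_, rfl⟩
  have hψm : ψ.Monic := by rw [hψdef]; exact monic_mul_leadingCoeff_inv hG0
  have hψG : G.map φ = ψ * C (G.map φ).leadingCoeff := by
    rw [hψdef, mul_assoc, ← C_mul, inv_mul_cancel₀ hlc, C_1, mul_one]
  have hψa : Associated (G.map φ) ψ := by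
    rw [hψdef]
    have hu : IsUnit (C (G.map φ).leadingCoeff⁻¹) :=
      isUnit_C.mpr (isUnit_iff_ne_zero.mpr (inv_ne_zero hlc))
    exact ⟨hu.unit, rfl⟩
  have hψi : Irreducible ψ := hψa.irreducible hG
  obtain ⟨G₁, hG₁r, hG₁d, hG₁m⟩ := lifts_and_natDegree_eq_and_monic
    (f := φ) (p := ψ) (by rw [mem_lifts]; exact map_surjective φ hs ψ) hψm
  obtain ⟨c, hc⟩ := hs (G.map φ).leadingCoeff
  obtain ⟨G'', hG''⟩ := divC (G - G₁ * C c) (by
    rw [Polynomial.map_sub, Polynomial.map_mul, map_C, hG₁r, hc, ← hψG, sub_self])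
  have hα : ψ ∣ α.map φ := hψa.symm.dvd.trans ha
  have hβ : ψ ∣ β.map φ := hψa.symm.dvd.trans hb
  obtain ⟨a₁, ha₁⟩ := id hα
  obtain ⟨b₁, hb₁⟩ := hβ
  obtain ⟨α', hα'⟩ := map_surjective φ hs a₁
  obtain ⟨β', hβ'⟩ := map_surjective φ hs b₁
  obtain ⟨α'', hα''⟩ := divC (α - G₁ * α') (by
    rw [Polynomial.map_sub, Polynomial.map_mul, hG₁r, hα', ha₁, sub_self])
  obtain ⟨β'', hβ''⟩ := divC (β - G₁ * β') (by
    rw [Polynomial.map_sub, Polynomial.map_mul, hG₁r, hβ', hb₁, sub_self])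
  obtain ⟨u, hu⟩ : ∃ u, u = α * C c + C p * (α' * G'' + β') := ⟨_, rfl⟩
  obtain ⟨v, hv⟩ : ∃ v, v = α'' * G'' + β'' := ⟨_, rfl⟩
  have huψ : ψ ∣ u.map φ := by
    rw [hu, Polynomial.map_add, Polynomial.map_mul, Polynomial.map_mul, map_C, map_C, hφp, C_0,
      zero_mul, add_zero]
    exact hα.mul_right _
  have hfuv : f = G₁ * u + C p ^ 2 * v := by
    rw [e, hu, hv]
    linear_combination (α) * hG'' + (C p * G'') * hα'' + (C p) * hβ''
  obtain ⟨r, hr⟩ : ∃ r, r = v %ₘ G₁ := ⟨_, rfl⟩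
  obtain ⟨q, hq⟩ : ∃ q, q = u + C p ^ 2 * (v /ₘ G₁) := ⟨_, rfl⟩
  have hfq : f = G₁ * q + C p ^ 2 * r := by
    have hdm := modByMonic_add_div v G₁
    rw [hfuv, hq, hr]
    linear_combination (-(C p ^ 2)) * hdm
  have hqψ : ψ ∣ q.map φ := by
    rw [hq, Polynomial.map_add, Polynomial.map_mul, Polynomial.map_pow, map_C, hφp, C_0,
      zero_pow two_ne_zero, zero_mul, add_zero]
    exact huψ
  have hψf : ψ ∣ f.map φ := by
    rw [e, Polynomial.map_add, Polynomial.map_mul, Polynomial.map_mul, map_C, hφp, C_0,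
      mul_zero, add_zero]
    exact hα.mul_right _
  have hfφ0 : f.map φ ≠ 0 := (hf.map φ).ne_zero
  have hdeg : G₁.natDegree ≤ f.natDegree := by
    rw [hG₁d, ← hf.natDegree_map φ]
    exact natDegree_le_of_dvd hψf hfφ0
  have hψpos : 0 < ψ.natDegree := hψi.natDegree_pos
  have hG₁pos : 0 < G₁.natDegree := by rw [hG₁d]; exact hψpos
  have hG₁1 : G₁ ≠ 1 := by
    intro h; rw [h, natDegree_one] at hG₁pos; exact lt_irrefl _ hG₁pos
  have hrd : (C p ^ 2 * r).natDegree < G₁.natDegree := by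
    rw [← C_pow]
    refine (natDegree_C_mul_le _ _).trans_lt ?_
    rw [hr]
    exact natDegree_modByMonic_lt v hG₁m hG₁1
  have hGq : G₁ * q = f - C p ^ 2 * r := by rw [hfq]; ring
  have hlt : (C p ^ 2 * r).natDegree < f.natDegree := hrd.trans_le hdeg
  have hGqm : (G₁ * q).Monic := by
    rw [hGq]
    refine hf.sub_of_left ?_
    exact degree_lt_degree hlt
  have hqm : q.Monic := hG₁m.of_mul_monic_left hGqm
  have hqd : (q.map φ).natDegree = q.natDegree := hqm.natDegree_map φ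
  have hqpos : 0 < q.natDegree := by
    rw [← hqd]
    exact hψpos.trans_le (natDegree_le_of_dvd hqψ (hqm.map φ).ne_zero)
  have hN : f.natDegree = G₁.natDegree + q.natDegree := by
    rw [← hG₁m.natDegree_mul hqm, hGq, natDegree_sub_eq_left_of_natDegree_lt hlt]
  have hGqd : (G₁ * q).natDegree = G₁.natDegree + q.natDegree := hG₁m.natDegree_mul hqm
  -- the derivative
  have hdn : (G₁ * q).derivative.natDegree ≤ f.natDegree - 1 := by
    rw [hN, ← hGqd]; exact natDegree_derivative_le _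
  have hψd : ψ ∣ ((G₁ * q).derivative).map φ := by
    rw [derivative_mul, Polynomial.map_add, Polynomial.map_mul, Polynomial.map_mul, hG₁r]
    exact dvd_add (hqψ.mul_left _) (dvd_mul_right _ _)
  have hR1 : p ∣ G₁.resultant (G₁ * q).derivative G₁.natDegree (f.natDegree - 1) := by
    rw [← hk, ← resultant_map_map]
    refine res_zero hψi ?_ hψd hG₁pos.ne' (natDegree_map_le) (natDegree_map_le.trans hdn)
    rw [hG₁r]
  have hR2 : p ∣ q.resultant (G₁ * q).derivative q.natDegree (f.natDegree - 1) := by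
    rw [← hk, ← resultant_map_map]
    exact res_zero hψi hqψ hψd hqpos.ne' (natDegree_map_le) (natDegree_map_le.trans hdn)
  have hR : p ^ 2 ∣ (G₁ * q).resultant (G₁ * q).derivative f.natDegree (f.natDegree - 1) := by
    have := resultant_mul_left G₁ q (G₁ * q).derivative (f.natDegree - 1) hdn
    rw [← hN] at this
    rw [this, sq]
    exact mul_dvd_mul hR1 hR2
  -- comparison modulo `p ^ 2`
  have hcmp : p ^ 2 ∣ f.resultant f.derivative f.natDegree (f.natDegree - 1) := by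
    let μ := Ideal.Quotient.mk (Ideal.span {p ^ 2})
    have hμ : ∀ a, μ a = 0 ↔ p ^ 2 ∣ a := fun a => by
      rw [Ideal.Quotient.eq_zero_iff_mem, Ideal.mem_span_singleton]
    have hμp : μ p ^ 2 = 0 := by rw [← map_pow]; exact (hμ _).2 dvd_rfl
    have hfm : f.map μ = (G₁ * q).map μ := by
      have h2 : (C p ^ 2 * r).map μ = 0 := by
        rw [Polynomial.map_mul, Polynomial.map_pow, map_C, ← C_pow, hμp, C_0, zero_mul]
      rw [hfq, Polynomial.map_add, h2, add_zero]
    have hfd : f.derivative.map μ = (G₁ * q).derivative.map μ := by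
      rw [← derivative_map, ← derivative_map, hfm]
    rw [← hμ, ← resultant_map_map, hfm, hfd, resultant_map_map, hμ]
    exact hR
  have hdeg0 : 0 < f.degree := natDegree_pos_iff_degree_pos.mp h1
  rw [resultant_deriv hdeg0, hf.leadingCoeff, mul_one] at hcmp
  have hunit : IsUnit ((-1 : A) ^ (f.natDegree * (f.natDegree - 1) / 2)) :=
    (isUnit_one.neg).pow _
  exact (hunit.dvd_mul_left).mp hcmp

end SMO

theorem hSMO : StSMO := by
  intro F _ _ f hf h1 P hP G α β hG e ⟨ha, hb⟩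
  exact hP (SMO.core (red P) AdjoinRoot.mk_surjective P.1 (fun a => AdjoinRoot.mk_eq_zero) f hf h1
    G α β hG e ha hb)

end Pool.Agent.Helper3.GT
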