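import Pool.Agent.Helper3.GT.StL
import Pool.Agent.Helper54.HL.All

/-!
# GT: squares at `P` (module SQP)
-/

set_option autoImplicit false

namespace Pool.Agent.Helper3.GT

open Polynomial
open Pool.Agent.Helper54.PT (Prm IsAbsP IsAbsInf)
open Pool.Agent.Helper3.HY (kp red)
open Pool.Agent.Helper54.HL

theorem hSQP : StSQP := by
  intro F _ _ h2 P v hv hP D D' hD hD' hsq
  obtain ⟨O, _, _, _, _, _, i, ρ, hL, hR, -⟩ := aLD F P v hv hP
  obtain ⟨r, hr⟩ := hsq
  have hne : red P (D * D') ≠ 0 := by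
    rw [Ne, AdjoinRoot.mk_eq_zero, P.2.2.prime.dvd_mul]
    exact not_or.2 ⟨hD, hD'⟩
  have hr0 : r ≠ 0 := by
    rintro rfl
    exact hne (by rw [hr, mul_zero])
  obtain ⟨a, ha⟩ := hL.surj r
  have h20 : (2 : kp P) ≠ 0 := by
    have h3 := (map_ne_zero_iff (algebraMap F (kp P)) (algebraMap F (kp P)).injective).2 h2
    rwa [map_ofNat] at h3
  obtain ⟨b, hb, -⟩ := hR (X ^ 2 - C (i (D * D'))) a (monic_X_pow_sub_C _ two_ne_zero)
    (by
      rw [eval_sub, eval_pow, eval_X, eval_C, map_sub, map_pow, ha, hL.rho, hr, sq, sub_self])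
    (by
      have h4 : (derivative (X ^ 2 - C (i (D * D')))).eval a = 2 * a := by
        simp [one_add_one_eq_two]
      rw [h4, map_mul, map_ofNat, ha]
      exact mul_ne_zero h20 hr0)
  rw [eval_sub, eval_pow, eval_X, eval_C, sub_eq_zero] at hb
  refine ⟨algebraMap O v.Completion b, ?_⟩
  rw [← hL.comp, ← hb, sq, map_mul]

end Pool.Agent.Helper3.GT
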