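import Pool.Agent.Helper3.GT.St
import Pool.Agent.Helper3.HY.Base

/-!
# GT: sizes of products
-/

set_option autoImplicit false

namespace Pool.Agent.Helper3.GT

open Polynomial Finset Filter Topology
open Pool.Agent.Helper3.HY (fK RR LL kp red TwAt twGroup baseChange co Kfil selmerSet mem_Kfil
  Kfil_mono mul_mem_Kfil)

namespace SZ

theorem one_bound {F : Type} [Field F] (a : RatFunc F) : ∃ C : ℕ, a ∈ Kfil F C := by
  refine ⟨a.intDegree.toNat, Or.inr ?_⟩
  exact Int.self_le_toNat _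

theorem fin_bound {F : Type} [Field F] (s : Finset (RatFunc F)) : ∃ C : ℕ, ∀ a ∈ s, a ∈ Kfil F C := by
  classical
  induction s using Finset.induction_on with
  | empty => exact ⟨0, fun a ha => absurd ha (Finset.notMem_empty a)⟩
  | insert b s hb ih =>
    obtain ⟨C, hC⟩ := ih
    obtain ⟨D, hD⟩ := one_bound b
    refine ⟨C + D, fun a ha => ?_⟩
    rcases Finset.mem_insert.1 ha with rfl | h
    · exact Kfil_mono (by push_cast; omega) hD
    · exact Kfil_mono (by push_cast; omega) (hC a h)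

theorem family_bound {F : Type} [Field F] (h : (RatFunc F)[X]) (n : ℕ) :
    ∃ C : ℕ, ∀ m < n, ∀ i, ((X ^ m : (RatFunc F)[X]) %ₘ h).coeff i ∈ Kfil F C := by
  classical
  obtain ⟨C, hC⟩ := fin_bound (F := F) ((Finset.range n).biUnion fun m =>
    ((X ^ m : (RatFunc F)[X]) %ₘ h).support.image fun i => ((X ^ m : (RatFunc F)[X]) %ₘ h).coeff i)
  refine ⟨C, fun m hm i => ?_⟩
  by_cases h0 : ((X ^ m : (RatFunc F)[X]) %ₘ h).coeff i = 0
  · exact Or.inl h0
  · apply hC
    rw [Finset.mem_biUnion]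
    exact ⟨m, Finset.mem_range.2 hm, Finset.mem_image.2 ⟨i, mem_support_iff.2 h0, rfl⟩⟩

end SZ

open SZ in
/-- sizes of products -/
theorem hSZ : StSZ := by
  intro F _ _ f hm _
  have hmK : (fK f).Monic := hm.map (algebraMap F[X] (RatFunc F))
  obtain ⟨C, hC⟩ := family_bound (fK f) (2 * (fK f).natDegree + 1)
  refine ⟨C, fun z w M N hz hw i => ?_⟩
  set p := AdjoinRoot.modByMonicHom hmK z with hp
  set q := AdjoinRoot.modByMonicHom hmK w with hq
  have hzp : AdjoinRoot.mk (fK f) p = z := AdjoinRoot.mk_leftInverse hmK z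
  have hwq : AdjoinRoot.mk (fK f) q = w := AdjoinRoot.mk_leftInverse hmK w
  have hpc : ∀ j, p.coeff j ∈ Kfil F M := hz
  have hqc : ∀ j, q.coeff j ∈ Kfil F N := hw
  have hdeg : ∀ y : AdjoinRoot (fK f), (AdjoinRoot.modByMonicHom hmK y).natDegree ≤
      (fK f).natDegree := by
    intro y
    obtain ⟨r, rfl⟩ := AdjoinRoot.mk_surjective y
    rw [AdjoinRoot.modByMonicHom_mk]
    exact natDegree_modByMonic_le _ hmK
  have hprod : (p * q).natDegree < 2 * (fK f).natDegree + 1 := by
    refine lt_of_le_of_lt natDegree_mul_le ?_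
    have h1 : p.natDegree ≤ (fK f).natDegree := hdeg z
    have h2 : q.natDegree ≤ (fK f).natDegree := hdeg w
    omega
  have hcoeff : ∀ m, (p * q).coeff m ∈ Kfil F (M + N) := by
    intro m
    rw [coeff_mul]
    exact Submodule.sum_mem _ fun ab _ => mul_mem_Kfil (hpc _) (hqc _)
  have e1 : co hmK i (z * w) = ((p * q) %ₘ fK f).coeff i := by
    rw [← hzp, ← hwq, ← map_mul]
    change (AdjoinRoot.modByMonicHom hmK (AdjoinRoot.mk (fK f) (p * q))).coeff i = _
    rw [AdjoinRoot.modByMonicHom_mk]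
  rw [e1]
  have e2 : (p * q) %ₘ fK f = ∑ m ∈ Finset.range (2 * (fK f).natDegree + 1),
      (p * q).coeff m • ((X ^ m : (RatFunc F)[X]) %ₘ fK f) := by
    have h1 : p * q = ∑ m ∈ Finset.range (2 * (fK f).natDegree + 1),
        (p * q).coeff m • (X ^ m : (RatFunc F)[X]) := by
      conv_lhs => rw [as_sum_range' (p * q) _ hprod]
      exact Finset.sum_congr rfl fun m _ => by rw [smul_eq_C_mul, C_mul_X_pow_eq_monomial]
    calc (p * q) %ₘ fK f = modByMonicHom (fK f) (p * q) := rfl
      _ = modByMonicHom (fK f) (∑ m ∈ Finset.range (2 * (fK f).natDegree + 1),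
          (p * q).coeff m • (X ^ m : (RatFunc F)[X])) := by rw [← h1]
      _ = _ := by
        rw [map_sum]
        exact Finset.sum_congr rfl fun m _ => by rw [map_smul]; rfl
  rw [e2, finsetSum_coeff]
  refine Submodule.sum_mem _ fun m hmr => ?_
  rw [coeff_smul, smul_eq_mul]
  exact mul_mem_Kfil (hcoeff m) (hC m (Finset.mem_range.1 hmr) i)

end Pool.Agent.Helper3.GT
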