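import Pool.Agent.Helper3.GT.AsmA
import Pool.Agent.Helper3.GT.AsmB
import Pool.Agent.Helper3.GT.AsmC
import Pool.Agent.Helper3.GT.M_FIN
import Pool.Agent.Helper3.GT.M_OE2
import Pool.Agent.Helper3.GT.M_PI
import Pool.Agent.Helper3.GT.M_SI
import Pool.Agent.Helper3.GT.M_SM
import Pool.Agent.Helper3.GT.M_SMALL
import Pool.Agent.Helper3.GT.M_SMO
import Pool.Agent.Helper3.GT.M_SQP
import Pool.Agent.Helper3.GT.M_SZ
import Pool.Agent.Helper9.GTI.All

/-!
# GT: the main theorem
-/

set_option autoImplicit false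

namespace Pool.Agent.Helper3.GT

theorem rep_all : StREP := hREP lsd_all hCG

theorem oe2_all : StOE2 := hOE2 rep_all hNU hFAC

theorem oe_all : StOE := oe_of oe2_all

/-- The main theorem. -/
theorem main : StMain :=
  main_rest (hFIN (hSMALL hSI hSM hSZ)) (l1_of (hPI hSMO hNU)) (l2_of oe2_all) oe_all (inv_of hSQP)
    (Pool.Agent.Helper9.GTI.stISOG oe_all) Pool.Agent.Helper54.GT.stA1 Pool.Agent.Helper54.GT.stA1p
    Pool.Agent.Helper54.GT.stA2

end Pool.Agent.Helper3.GT
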