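import Pool.Agent.Helper3.HY.DefsR

/-!
# Quadratic twists of generic odd hyperelliptic curves over `F(t)`: definitions for the hand-in
-/

set_option autoImplicit false

namespace Pool.Agent.Helper3.GTR

open Polynomial Pool.Agent.Helper3.HYR

/-- The polynomial `f` over the rational function field with algebraically closed constants. -/
noncomputable def geometric {F : Type} [Field F] (f : F[X][X]) :
    (RatFunc (AlgebraicClosure F))[X] :=
  overRatFunc (f.map (mapRingHom (algebraMap F (AlgebraicClosure F))))

/-- The irreducible polynomial `P` divides the discriminant of `f i` exactly once, and it does not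
divide the discriminant of the other `f j`. -/
def SimpleBranch {F : Type} [Field F] {ι : Type} (f : ι → F[X][X]) (i : ι) (P : F[X]) : Prop :=
  Irreducible P ∧ P ∣ (f i).discr ∧ ¬ P ^ 2 ∣ (f i).discr ∧ ∀ j, j ≠ i → ¬ P ∣ (f j).discr

/-- A family of monic polynomials `f i` over `F[t]` of odd degree `2 (g i) + 1 ≥ 3` such that the
geometric Galois group of the product is the full product of symmetric groups (it has order
`∏ (2 (g i) + 1)!`), and such that every `f i` has a simple branch point which is not one of the
others. -/
structure IsGenericFamily {F : Type} [Field F] {ι : Type} [Fintype ι] (g : ι → ℕ)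
    (f : ι → F[X][X]) : Prop where
  one_le : ∀ i, 1 ≤ g i
  monic : ∀ i, (f i).Monic
  natDegree_eq : ∀ i, (f i).natDegree = 2 * g i + 1
  card_gal : Nat.card (geometric (∏ i, f i)).Gal = ∏ i, (2 * g i + 1).factorial
  simple : ∀ i, ∃ P : F[X], SimpleBranch f i P

/-- The right hand side `x ^ N + D c_1 x ^ (N - 1) + ... + D ^ N c_N` of the quadratic twist by `D` of
`y ^ 2 = f(x)` (isomorphic to `D y ^ 2 = f(x)` when `N` is odd). -/
noncomputable def twist {F : Type} [Field F] (f : F[X][X]) (D : F[X]) : (RatFunc F)[X] :=
  overRatFunc (f.scaleRoots D)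

/-- The monic squarefree polynomials of degree `m`. -/
def squarefreeMonic (F : Type) [Field F] (m : ℕ) : Set F[X] :=
  {D | D.Monic ∧ Squarefree D ∧ D.natDegree = m}

/-- The `D` such that for all `i` every element of the 2-Selmer set of the twist by `D` of
`y ^ 2 = f_i(x)` is a square. -/
def trivialTwists {F : Type} [Field F] {ι : Type} (f : ι → F[X][X]) (m : ℕ) : Set F[X] :=
  {D ∈ squarefreeMonic F m | ∀ i, TrivialSelmer (twist (f i) D)}

end Pool.Agent.Helper3.GTR
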