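import Pool.Agent.Helper3.GT.St
import Pool.Agent.Helper3.GT.DefsR
import Pool.Agent.Helper47.TW.A6A7

/-!
# GT: the definitions of the hand-in agree with the internal ones
-/

set_option autoImplicit false

namespace Pool.Agent.Helper3.GTR

open Polynomial Filter Pool.Agent.Helper3.HYR
open Pool.Agent.Helper54.PT (Prm)

universe u

theorem mem_selmerSet_iff {k : Type u} [Field k] (h : k[X]) (z : (AdjoinRoot h)ˣ) :
    z ∈ selmerSet h ↔ z ∈ HY.selmerSet h := by
  refine and_congr Iff.rfl (forall_congr' fun v => forall_congr' fun _ => ⟨?_, ?_⟩)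
  · rintro ⟨y, hy, hyz⟩
    have : Units.map (HY.baseChange (algebraMap k v.Completion) h : AdjoinRoot h →* _) z = y :=
      Units.ext hyz.symm
    rw [this]
    exact hy
  · intro hz
    exact ⟨_, hz, rfl⟩

open Classical in
theorem dvd_normalize {F : Type} [Field F] {P D : F[X]} (n : ℕ) :
    (normalize P) ^ n ∣ D ↔ P ^ n ∣ D :=
  ((normalize_associated P).pow_pow).dvd_iff_dvd_left

theorem hypF_of {F : Type} [Field F] {ι : Type} [Fintype ι] {g : ι → ℕ} {f : ι → F[X][X]}
    (h : IsGenericFamily g f) : GT.HypF g f where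
  one_le := h.one_le
  monic := h.monic
  deg := h.natDegree_eq
  geo := by
    have h1 := h.card_gal
    rw [show ∏ i, (f i).natDegree.factorial = ∏ i, (2 * g i + 1).factorial from
      Finset.prod_congr rfl fun i _ => by rw [h.natDegree_eq i]]
    exact h1
  simple := by
    classical
    intro i
    obtain ⟨P, hP, h1, h2, h3⟩ := h.simple i
    refine ⟨⟨normalize P, monic_normalize hP.ne_zero,
      (normalize_associated P).irreducible_iff.2 hP⟩, ?_, ?_, ?_⟩
    · exact (normalize_associated P).dvd_iff_dvd_left.2 h1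
    · exact fun h4 => h2 ((dvd_normalize 2).1 h4)
    · exact fun j hj h4 => h3 j hj ((normalize_associated P).dvd_iff_dvd_left.1 h4)

theorem main_of (hM : GT.StMain) (F : Type) [Field F] [Finite F] (h2 : (2 : F) ≠ 0) (ι : Type)
    [Fintype ι] [Nonempty ι] (g : ι → ℕ) (f : ι → F[X][X]) (hf : IsGenericFamily g f) :
    ∃ c : ℝ, 0 < c ∧ ∀ᶠ m : ℕ in atTop,
      c * ((squarefreeMonic F m).ncard : ℝ) ≤ ((trivialTwists f m).ncard : ℝ) := by
  have := Fintype.ofFinite F
  obtain ⟨c, hc, h⟩ := hM F h2 ι g f (hypF_of hf)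
  refine ⟨c, hc, h.mono fun m hm => ?_⟩
  have h1 : trivialTwists f m = {D : F[X] | D.Monic ∧ Squarefree D ∧ D.natDegree = m ∧
        ∀ i, ∀ z ∈ HY.selmerSet (HY.fK ((f i).scaleRoots D)), IsSquare z} := by
    ext D
    simp only [trivialTwists, squarefreeMonic, Set.mem_ofPred_eq, and_assoc]
    refine and_congr Iff.rfl (and_congr Iff.rfl (and_congr Iff.rfl
      (forall_congr' fun i => forall_congr' fun z => ?_)))
    exact imp_congr (mem_selmerSet_iff _ z) Iff.rfl
  rw [h1]
  refine le_trans (mul_le_mul_of_nonneg_left ?_ hc.le) hm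
  have h3 : (squarefreeMonic F m).ncard ≤ (Pool.Agent.Helper54.PT.mon F m).card := by
    rw [← Set.ncard_coe_finset]
    exact Set.ncard_le_ncard (fun D hD => by
      rw [Finset.mem_coe, Pool.Agent.Helper54.PT.mem_mon]
      exact ⟨hD.1, hD.2.2⟩) (Set.toFinite _)
  have h4 : (Pool.Agent.Helper54.PT.mon F m).card = Nat.card F ^ m :=
    Pool.Agent.Helper47.TW.card_mon_aux m
  rw [h4, Nat.card_eq_fintype_card] at h3
  exact_mod_cast h3

end Pool.Agent.Helper3.GTR
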