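import Pool.Agent.Helper3.HY.St
import Pool.Agent.Helper54.PT.DefsC

/-!
# GT: quadratic twists of a generic odd hyperelliptic curve over `F(t)`: definitions

`F` is a finite field of odd order, `f` a monic polynomial of odd degree over `F[t]`.
-/

set_option autoImplicit false

namespace Pool.Agent.Helper3.GT

open Polynomial Finset Filter Topology
open Pool.Agent.Helper54.PT (Prm prm IsAbsP IsAbsInf)
open Pool.Agent.Helper3.HY (fK RR LL kp red TwAt twGroup baseChange)

section defs

variable {F : Type} [Field F]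

/-- The geometric Galois group of `f` (over the rational functions with algebraically closed
constants) is the full symmetric group. -/
def GeoSn (f : F[X][X]) : Prop :=
  Nat.card (fK (f.map (mapRingHom (algebraMap F (AlgebraicClosure F))))).Gal = f.natDegree.factorial

/-- Some prime divides the discriminant exactly once. -/
def SimpleP (f : F[X][X]) : Prop :=
  ∃ P : Prm F, P.1 ∣ f.discr ∧ ¬ P.1 ^ 2 ∣ f.discr

/-- The hypotheses on `f`. -/
structure Hyp (g : ℕ) (f : F[X][X]) : Prop where
  one_le : 1 ≤ g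
  monic : f.Monic
  deg : f.natDegree = 2 * g + 1
  geo : GeoSn f
  simple : SimpleP f

/-- Good primes. -/
def Gd (f : F[X][X]) (P : Prm F) : Prop := ¬ P.1 ∣ f.discr

/-- Bad primes: the square of `P` divides the discriminant. -/
def Bd (f : F[X][X]) (P : Prm F) : Prop := P.1 ^ 2 ∣ f.discr

/-- `x` and its inverse lie in the localization of `F[t][θ]` at `P`. -/
def UnitAt (P : Prm F) {f : F[X][X]} (x : LL f) : Prop :=
  ∃ (a : F[X]) (r s : RR f), ¬ P.1 ∣ a ∧
    algebraMap F[X] (LL f) a * x = algebraMap (RR f) (LL f) r ∧ r * s = algebraMap F[X] (RR f) a ^ 2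

/-- `z` is a unit times a square at `P` (even valuations). -/
def EvP (P : Prm F) {f : F[X][X]} (z : LL f) : Prop :=
  ∃ β : LL f, β ≠ 0 ∧ UnitAt P (z * β ^ 2)

/-- The monic irreducible factors of `f` modulo `P`. -/
noncomputable def facs (f : F[X][X]) (P : Prm F) : Finset (kp P)[X] := by
  classical exact (UniqueFactorizationMonoid.normalizedFactors (f.map (red P))).toFinset

/-- At the place `ψ` of `L` above `P` the element `z` is `P ^ e` times a unit with residue `s`. -/
def RepG (P : Prm F) {f : F[X][X]} (ψ : (kp P)[X]) (z : LL f) (e : ℤ) (s : AdjoinRoot ψ) : Prop :=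
  s ≠ 0 ∧ ∃ p a : F[X][X], AdjoinRoot.mk ψ (a.map (red P)) ≠ 0 ∧
    AdjoinRoot.mk ψ (p.map (red P)) = s * AdjoinRoot.mk ψ (a.map (red P)) ∧
    z * algebraMap (RR f) (LL f) (AdjoinRoot.mk f a) =
      algebraMap (RatFunc F) (LL f) (algebraMap F[X] (RatFunc F) P.1 ^ e) *
        algebraMap (RR f) (LL f) (AdjoinRoot.mk f p)

/-- The parity of the valuation at `ψ`. -/
noncomputable def om (P : Prm F) {f : F[X][X]} (ψ : (kp P)[X]) (z : LL f) : ZMod 2 := by
  classical exact if ∃ (e : ℤ) (s : AdjoinRoot ψ), Even e ∧ RepG P ψ z e s then 0 else 1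

/-- The class of the residue at `ψ`. -/
noncomputable def ep (P : Prm F) {f : F[X][X]} (ψ : (kp P)[X]) (z : LL f) : ZMod 2 := by
  classical exact if ∃ (e : ℤ) (s : AdjoinRoot ψ), IsSquare s ∧ RepG P ψ z e s then 0 else 1

/-- The Selmer set with conditions of the twist by `D` at the primes of `S`, at the bad primes and at
infinity, and even valuations elsewhere. -/
def SelS (f : F[X][X]) (S : Finset (Prm F)) (D : F[X]) : Set (LL f)ˣ :=
  {z | IsSquare (Algebra.norm (RatFunc F) (z : LL f)) ∧
    (∀ P : Prm F, P ∉ S → ¬ Bd f P → EvP P (z : LL f)) ∧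
    (∀ P : Prm F, P ∈ S ∨ Bd f P → ∀ v : AbsoluteValue (RatFunc F) ℝ, v.IsNontrivial →
      IsAbsP P v → TwAt f D v z) ∧
    ∀ v : AbsoluteValue (RatFunc F) ℝ, v.IsNontrivial → IsAbsInf v → TwAt f D v z}

/-- The number of classes modulo squares. -/
noncomputable def MS (f : F[X][X]) (S : Finset (Prm F)) (D : F[X]) : ℕ :=
  ((QuotientGroup.mk : (LL f)ˣ → (LL f)ˣ ⧸ (powMonoidHom 2 : (LL f)ˣ →* (LL f)ˣ).range) ''
    SelS f S D).ncard

/-- `D` is monic of degree `≡ e`, is exactly divisible by the primes `P` of `S`, with `D / P` not a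
square modulo `P` exactly for `P ∈ U`, and is a nonzero square modulo the bad primes. -/
def HasCls (f : F[X][X]) (S U : Finset (Prm F)) (e : ℕ) (D : F[X]) : Prop :=
  D.Monic ∧ D.natDegree % 2 = e % 2 ∧
    (∀ P ∈ S, ∃ E : F[X], D = P.1 * E ∧ ¬ P.1 ∣ E ∧ (IsSquare (red P E) ↔ P ∉ U)) ∧
    ∀ P : Prm F, Bd f P → ¬ P.1 ∣ D ∧ IsSquare (red P D)

/-- `f` modulo `P` is irreducible. -/
def TyI (f : F[X][X]) (P : Prm F) : Prop := Irreducible (f.map (red P))

/-- `f` modulo `P` is a product of a linear and an irreducible factor of degree `2 g`. -/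
def TyT (g : ℕ) (f : F[X][X]) (P : Prm F) : Prop :=
  f.map (red P) ∈ Pool.Agent.Helper3.HY.TType (kp P) g

end defs

end Pool.Agent.Helper3.GT
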