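import Pool.Agent.Helper3.GT.St
import Pool.Agent.Helper54.HL.All

set_option autoImplicit false

namespace Pool.Agent.Helper3.GT

open Polynomial Finset Filter Topology
open Pool.Agent.Helper54.PT (Prm prm IsAbsP IsAbsInf)
open Pool.Agent.Helper3.HY (fK RR LL kp red TwAt twGroup baseChange co Kfil selmerSet)

theorem hSB (hL1 : StL1) (hSG : StSG) : StSB := by
  intro F _ _ h2 g hg f hm hd hs _ S hS hMS
  have hD0 : (∏ P ∈ S, P.1) ≠ 0 := Finset.prod_ne_zero_iff.2 fun P _ => P.2.2.ne_zero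
  refine Pool.Agent.Helper54.HL.stTrans F g f (∏ P ∈ S, P.1) hm hd hD0 ?_
  intro z hz hv
  have hzS : z ∈ SelS f S (∏ P ∈ S, P.1) := by
    refine ⟨hz, ?_, ?_, ?_⟩
    · intro P hPS hPB
      obtain ⟨v, hvn, hvP⟩ := Pool.Agent.Helper54.PT.exists_absP P
      refine hL1 F h2 g hg f hm hd hs P hPB (∏ P ∈ S, P.1) ?_ v hvn hvP z (hv v hvn)
      intro hdvd
      obtain ⟨Q, hQ, hPQ⟩ := (Irreducible.prime P.2.2).exists_mem_finset_dvd hdvd
      have h1 : P.1 = Q.1 := eq_of_monic_of_associated P.2.1 Q.2.1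
        ((Irreducible.dvd_irreducible_iff_associated P.2.2 Q.2.2).1 hPQ)
      exact hPS (by rw [Subtype.ext h1]; exact hQ)
    · intro P _ v hvn _
      exact hv v hvn
    · intro v hvn _
      exact hv v hvn
  obtain ⟨H, hH, -⟩ := hSG F f hm S (∏ P ∈ S, P.1)
  have h1S : (1 : (LL f)ˣ) ∈ SelS f S (∏ P ∈ S, P.1) := by
    rw [← hH]
    exact H.one_mem
  rw [MS, Set.ncard_eq_one] at hMS
  obtain ⟨a, ha⟩ := hMS
  have e1 := Set.mem_image_of_mem (QuotientGroup.mk : (LL f)ˣ → (LL f)ˣ ⧸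
    (powMonoidHom 2 : (LL f)ˣ →* (LL f)ˣ).range) hzS
  have e2 := Set.mem_image_of_mem (QuotientGroup.mk : (LL f)ˣ → (LL f)ˣ ⧸
    (powMonoidHom 2 : (LL f)ˣ →* (LL f)ˣ).range) h1S
  rw [ha, Set.mem_singleton_iff] at e1 e2
  have e3 := (QuotientGroup.eq).1 (e2.trans e1.symm)
  rw [inv_one, one_mul] at e3
  obtain ⟨w, hw⟩ := e3
  exact ⟨w, by rw [← hw, powMonoidHom_apply, pow_two]⟩

end Pool.Agent.Helper3.GT
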