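import Pool.Agent.Helper3.GT.StL
import Pool.Agent.Helper47.BSD.Compl
import Pool.Agent.Helper47.BSD.AV

/-!
# GT: squares at infinity (module SQI)
-/

set_option autoImplicit false

namespace Pool.Agent.Helper3.GT

open Polynomial
open Pool.Agent.Helper54.PT (Prm IsAbsP IsAbsInf)
open Pool.Agent.Helper47.BSD (norm_algebraMap ultra_completion exists_charP)

section aux_SQI

variable {k : Type} [NormedField k]

/-- simplified Newton iteration for the square root -/
private noncomputable def seq_SQI (c : k) : ℕ → k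
  | 0 => 1
  | n + 1 => seq_SQI c n - (seq_SQI c n ^ 2 - c) / 2

private lemma spec_SQI [IsUltrametricDist k] (h2 : ‖(2 : k)‖ = 1) {c : k} (hc : ‖c - 1‖ < 1)
    (n : ℕ) : ‖seq_SQI c n - 1‖ ≤ ‖c - 1‖ ∧ ‖seq_SQI c n ^ 2 - c‖ ≤ ‖c - 1‖ ^ (n + 1) := by
  set r := ‖c - 1‖ with hr
  have hr0 : 0 ≤ r := norm_nonneg _
  have h20 : (2 : k) ≠ 0 := norm_ne_zero_iff.1 (by rw [h2]; norm_num)
  have h4 : ‖(4 : k)‖ = 1 := by
    rw [show (4 : k) = 2 * 2 by norm_num, norm_mul, h2, one_mul]
  have h40 : (4 : k) ≠ 0 := norm_ne_zero_iff.1 (by rw [h4]; norm_num)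
  induction n with
  | zero =>
    refine ⟨by simp [seq_SQI, hr0], ?_⟩
    simp only [seq_SQI, one_pow, zero_add, pow_one]
    rw [norm_sub_rev]
  | succ n ih =>
    obtain ⟨ih1, ih2⟩ := ih
    set y := seq_SQI c n with hy
    set e := y ^ 2 - c with he
    have hs : seq_SQI c (n + 1) = y - e / 2 := rfl
    have hle : ‖e‖ ≤ r := by
      refine ih2.trans ?_
      calc r ^ (n + 1) = r * r ^ n := by ring
        _ ≤ r * 1 := mul_le_mul_of_nonneg_left (pow_le_one₀ hr0 hc.le) hr0
        _ = r := mul_one r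
    have hn2 : ‖e / 2‖ = ‖e‖ := by rw [norm_div, h2, div_one]
    constructor
    · rw [hs, show y - e / 2 - 1 = (y - 1) + -(e / 2) by ring]
      refine (IsUltrametricDist.norm_add_le_max _ _).trans ?_
      rw [norm_neg, hn2]
      exact max_le ih1 hle
    · rw [hs]
      have h5 : (y - e / 2) ^ 2 - c = e * (1 - y) + e ^ 2 / 4 := by
        rw [show (y - e / 2) ^ 2 = y ^ 2 - y * e + e ^ 2 / 4 by field_simp; ring]
        rw [he]; ring
      rw [h5]
      refine (IsUltrametricDist.norm_add_le_max _ _).trans (max_le ?_ ?_)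
      · rw [norm_mul, pow_succ, norm_sub_rev 1 y]
        exact mul_le_mul ih2 ih1 (norm_nonneg _) (by positivity)
      · rw [norm_div, h4, div_one, norm_pow, sq, pow_succ]
        exact mul_le_mul ih2 hle (norm_nonneg _) (by positivity)

/-- Elements near one are squares. -/
private lemma near_SQI [IsUltrametricDist k] [CompleteSpace k] (h2 : ‖(2 : k)‖ = 1) {c : k}
    (hc : ‖c - 1‖ < 1) : IsSquare c := by
  have hspec := spec_SQI h2 hc
  set r := ‖c - 1‖ with hr
  have hr0 : 0 ≤ r := norm_nonneg _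
  have hstep : ∀ n, dist (seq_SQI c n) (seq_SQI c (n + 1)) ≤ r * r ^ n := by
    intro n
    rw [dist_eq_norm]
    have h3 : seq_SQI c n - seq_SQI c (n + 1) = (seq_SQI c n ^ 2 - c) / 2 := by
      have : seq_SQI c (n + 1) = seq_SQI c n - (seq_SQI c n ^ 2 - c) / 2 := rfl
      rw [this]; ring
    rw [h3, norm_div, h2, div_one, ← pow_succ']
    exact (hspec n).2
  have hcau : CauchySeq (seq_SQI c) := cauchySeq_of_le_geometric r r hc hstep
  obtain ⟨y, hy⟩ := cauchySeq_tendsto_of_complete hcau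
  refine ⟨y, ?_⟩
  have h4 : Filter.Tendsto (fun n => seq_SQI c n ^ 2 - c) Filter.atTop (nhds (y ^ 2 - c)) :=
    (hy.pow 2).sub_const _
  have h5 : Filter.Tendsto (fun n => seq_SQI c n ^ 2 - c) Filter.atTop (nhds 0) := by
    rw [tendsto_zero_iff_norm_tendsto_zero]
    exact squeeze_zero (fun n => norm_nonneg _) (fun n => (hspec n).2)
      ((tendsto_pow_atTop_nhds_zero_of_lt_one hr0 hc).comp (Filter.tendsto_add_atTop_nat 1))
  have h6 := tendsto_nhds_unique h4 h5
  rw [← sq]
  exact (sub_eq_zero.1 h6).symm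

variable {F : Type} [Field F] {v : AbsoluteValue (RatFunc F) ℝ}

private lemma v_SQI (hv : IsAbsInf v) {p : F[X]} (hp : p ≠ 0) :
    v (algebraMap F[X] (RatFunc F) p) = (2 : ℝ) ^ (p.natDegree : ℤ) := by
  rw [hv _ ((map_ne_zero_iff _ (RatFunc.algebraMap_injective F)).2 hp),
    RatFunc.intDegree_polynomial]

end aux_SQI

theorem hSQI : StSQI := by
  intro F _ _ h2 v _ hv D D' hD hD' hpar
  obtain ⟨p, hp, hchar⟩ := exists_charP (F := F)
  haveI hu : IsUltrametricDist v.Completion := ultra_completion v p hp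
  have hj : ∀ x : RatFunc F, ‖algebraMap (RatFunc F) v.Completion x‖ = v x := norm_algebraMap v
  obtain ⟨m, hm⟩ : ∃ m, D.natDegree + D'.natDegree = 2 * m := ⟨(D.natDegree + D'.natDegree) / 2, by omega⟩
  have hmon : (D * D').Monic := hD.mul hD'
  have hdeg : (D * D').natDegree = 2 * m := by rw [hD.natDegree_mul hD', hm]
  have hX : v (algebraMap F[X] (RatFunc F) X) = 2 := by
    rw [v_SQI hv X_ne_zero, natDegree_X]; norm_num
  have hX0 : algebraMap F[X] (RatFunc F) X ≠ 0 := by
    intro h; rw [h, map_zero] at hX; norm_num at hX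
  have hn2 : ‖(2 : v.Completion)‖ = 1 := by
    have h3 : (2 : v.Completion) =
        algebraMap (RatFunc F) v.Completion (algebraMap F[X] (RatFunc F) (C 2)) := by
      rw [show (C (2 : F) : F[X]) = 2 from map_ofNat C 2, map_ofNat, map_ofNat]
    rw [h3, hj, v_SQI hv (by rwa [Ne, C_eq_zero]), natDegree_C]
    norm_num
  set j := algebraMap (RatFunc F) v.Completion with hjd
  set x : RatFunc F := algebraMap F[X] (RatFunc F) (D * D') / algebraMap F[X] (RatFunc F) X ^ (2 * m)
    with hx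
  have hclose : ‖j x - 1‖ < 1 := by
    have e1 : j x - 1 = j (algebraMap F[X] (RatFunc F) (D * D' - X ^ (2 * m)) /
        algebraMap F[X] (RatFunc F) X ^ (2 * m)) := by
      rw [hx, map_sub (algebraMap F[X] (RatFunc F)), map_pow, sub_div,
        div_self (pow_ne_zero _ hX0), map_sub, map_one]
    rw [e1, hj, map_div₀, map_pow, hX]
    by_cases h0 : D * D' - X ^ (2 * m) = 0
    · rw [h0, map_zero, map_zero, zero_div]; norm_num
    rw [v_SQI hv h0, zpow_natCast, div_lt_one (by positivity)]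
    refine pow_lt_pow_right₀ (by norm_num) ?_
    have h3 : (D * D' - X ^ (2 * m)).degree < (D * D').degree := by
      refine degree_sub_lt_left ?_ hmon.ne_zero ?_
      · rw [degree_X_pow, degree_eq_natDegree hmon.ne_zero, hdeg]
      · rw [hmon.leadingCoeff, (monic_X_pow (2 * m)).leadingCoeff]
    have h4 := natDegree_lt_natDegree h0 h3
    rwa [hdeg] at h4
  obtain ⟨y, hy⟩ := near_SQI hn2 hclose
  refine ⟨y * j (algebraMap F[X] (RatFunc F) X ^ m), ?_⟩
  have e2 : algebraMap F[X] (RatFunc F) (D * D') =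
      x * (algebraMap F[X] (RatFunc F) X ^ m * algebraMap F[X] (RatFunc F) X ^ m) := by
    rw [hx, ← pow_add, ← two_mul, div_mul_cancel₀ _ (pow_ne_zero _ hX0)]
  rw [e2, map_mul, map_mul, hy]
  ring

end Pool.Agent.Helper3.GT
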