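import Pool.Agent.Helper3.GT.Defs

/-!
# GT: the statements of the arithmetic part

`F` is a finite field of odd order, `A = F[t]`, `K = F(t)`, `f` a monic polynomial of odd degree
`2 g + 1` over `A`, `L = K[x] / f = K(θ)`.  `f : ι → F[X][X]` is a finite family of such polynomials.
-/

set_option autoImplicit false

namespace Pool.Agent.Helper3.GT

open Polynomial Finset Filter Topology
open Pool.Agent.Helper54.PT (Prm prm IsAbsP IsAbsInf)
open Pool.Agent.Helper3.HY (fK RR LL kp red TwAt twGroup baseChange co Kfil selmerSet)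

/-! ### Further definitions -/

section defs

variable {F : Type} [Field F]

/-- The hypotheses on the family. -/
structure HypF {ι : Type} [Fintype ι] (g : ι → ℕ) (f : ι → F[X][X]) : Prop where
  one_le : ∀ i, 1 ≤ g i
  monic : ∀ i, (f i).Monic
  deg : ∀ i, (f i).natDegree = 2 * g i + 1
  geo : Nat.card (fK ((∏ i, f i).map (mapRingHom (algebraMap F (AlgebraicClosure F))))).Gal =
    ∏ i, (f i).natDegree.factorial
  simple : ∀ i, ∃ P : Prm F, P.1 ∣ (f i).discr ∧ ¬ P.1 ^ 2 ∣ (f i).discr ∧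
    ∀ j, j ≠ i → ¬ P.1 ∣ (f j).discr

/-- Good primes for the family. -/
def GdF {ι : Type} (f : ι → F[X][X]) (P : Prm F) : Prop := ∀ i, Gd (f i) P

/-- The classes at `S`, at the bad primes of the family and at infinity. -/
def HasClsF {ι : Type} (f : ι → F[X][X]) (S U : Finset (Prm F)) (e : ℕ) (D : F[X]) : Prop :=
  ∀ i, HasCls (f i) S U e D

/-- The degree of a finite set of primes. -/
noncomputable def dgS (S : Finset (Prm F)) : ℕ := ∑ P ∈ S, P.1.natDegree

/-- The number of classes in the Selmer set which are trivial at `P`. -/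
noncomputable def XS (f : F[X][X]) (S : Finset (Prm F)) (D : F[X]) (P : Prm F) : ℕ :=
  ((QuotientGroup.mk : (LL f)ˣ → (LL f)ˣ ⧸ (powMonoidHom 2 : (LL f)ˣ →* (LL f)ˣ).range) ''
    {z | z ∈ SelS f S D ∧ ∀ ψ ∈ facs f P, ep P ψ (z : LL f) = 0}).ncard

/-- `a` represents an element of `L` with coefficients of degree at most `c`. -/
def Rp (f : F[X][X]) (c : ℕ) (a : F[X][X]) : Prop :=
  a.natDegree < f.natDegree ∧ ∀ i, (a.coeff i).natDegree ≤ c

/-- The coordinates of `z` have degree at most `N`. -/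
def SizeLE {f : F[X][X]} (hm : f.Monic) (z : LL f) (N : ℤ) : Prop :=
  ∀ i, co (hm.map (algebraMap F[X] (RatFunc F))) i z ∈ Kfil F N

end defs

/-! ### Local statements -/

/-- (IRR) PROOF.  Let `F'` be the algebraic closure of `F`, `K' = F'(t)`, `h_i` the image of `f i` over `K'`, and `E` the
splitting field of `∏ h_i`.  The Galois group acts faithfully on the roots of `∏ h_i` and preserves the roots of
each `h_i` (`Polynomial.Gal.galActionHom` is injective; a zero of `h_i` goes to a zero of `h_i`), so it embeds into the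
product of the symmetric groups of the sets of roots of the `h_i`, of order at most `∏ r_i!` with `r_i ≤ n_i`
the number of distinct roots.  By hypothesis this is `≥ ∏ n_i!`, so `r_i = n_i` (`n_i ≥ 3`), `h_i` is separable, and the
embedding is onto.  Hence the group acts transitively on the roots of `h_i`, so `h_i` is irreducible
(`minpoly` of a root has all of them as roots), and the Galois group of `h_i` is the full symmetric group (the
restriction to the splitting field of `h_i` is surjective and acts on its roots by all permutations), of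
order `n_i!`.  Irreducibility and separability over `K'` imply those of `fK (f i)` over `K = F(t)` (`K → K'` is
`RatFunc.map` or `IsFractionRing.map`; `Polynomial.Separable.of_map`-type lemma and
`Polynomial.Monic.irreducible_of_irreducible_map`), and `discr ≠ 0` because the resultant of `f` and its derivative
is not zero (`resultant_deriv`, `resultant_eq_zero_iff` over the field `K`). -/
def StIRR : Prop :=
  ∀ (F : Type) [Field F] [Fintype F], (2 : F) ≠ 0 → ∀ (ι : Type) [Fintype ι] (g : ι → ℕ)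
    (f : ι → F[X][X]), HypF g f → ∀ i, Irreducible (fK (f i)) ∧ (fK (f i)).Separable ∧
      GeoSn (f i) ∧ (f i).discr ≠ 0

/-- (L1) Not twisted, discriminant not divisible by `P ^ 2`: even valuations. -/
def StL1 : Prop :=
  ∀ (F : Type) [Field F] [Fintype F], (2 : F) ≠ 0 → ∀ (g : ℕ), 1 ≤ g → ∀ (f : F[X][X]), f.Monic →
    f.natDegree = 2 * g + 1 → (fK f).Separable → ∀ [Fact (Irreducible (fK f))] (P : Prm F),
    ¬ Bd f P → ∀ D : F[X], ¬ P.1 ∣ D → ∀ v : AbsoluteValue (RatFunc F) ℝ, v.IsNontrivial →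
      IsAbsP P v → ∀ z : (LL f)ˣ, TwAt f D v z → EvP P (z : LL f)

/-- (L2) Good place, ramified twist: an unramified element of the local group is trivial. -/
def StL2 : Prop :=
  ∀ (F : Type) [Field F] [Fintype F], (2 : F) ≠ 0 → ∀ (g : ℕ), 1 ≤ g → ∀ (f : F[X][X]), f.Monic →
    f.natDegree = 2 * g + 1 → (fK f).Separable → ∀ [Fact (Irreducible (fK f))] (P : Prm F),
    Gd f P → ∀ D : F[X], ¬ P.1 ∣ D → ∀ v : AbsoluteValue (RatFunc F) ℝ, v.IsNontrivial →
      IsAbsP P v → ∀ z : (LL f)ˣ, TwAt f (P.1 * D) v z → EvP P (z : LL f) →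
        ∀ ψ ∈ facs f P, ep P ψ (z : LL f) = 0

/-- (FAC) The factors of `f` modulo a good prime. -/
def StFAC : Prop :=
  ∀ (F : Type) [Field F] [Fintype F], (2 : F) ≠ 0 → ∀ (g : ℕ), 1 ≤ g → ∀ (f : F[X][X]), f.Monic →
    f.natDegree = 2 * g + 1 → ∀ (P : Prm F), Gd f P →
    (∀ ψ : (kp P)[X], ψ ∈ facs f P ↔ ψ.Monic ∧ Irreducible ψ ∧ ψ ∣ f.map (red P)) ∧
      ∏ ψ ∈ facs f P, ψ = f.map (red P) ∧ ∑ ψ ∈ facs f P, ψ.natDegree = 2 * g + 1 ∧
      1 ≤ (facs f P).card ∧ (facs f P).card ≤ 2 * g + 1 ∧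
      (TyI f P → (facs f P).card = 1) ∧ (TyT g f P → (facs f P).card = 2)

/-- (OE) `om` and `ep` at a good place. -/
def StOE : Prop :=
  ∀ (F : Type) [Field F] [Fintype F], (2 : F) ≠ 0 → ∀ (g : ℕ), 1 ≤ g → ∀ (f : F[X][X]), f.Monic →
    f.natDegree = 2 * g + 1 → (fK f).Separable → ∀ [Fact (Irreducible (fK f))] (P : Prm F),
    Gd f P →
    (∀ ψ ∈ facs f P, ∀ z w : LL f, z ≠ 0 → w ≠ 0 →
      om P ψ (z * w) = om P ψ z + om P ψ w ∧ ep P ψ (z * w) = ep P ψ z + ep P ψ w) ∧
    (∀ z : LL f, z ≠ 0 → (EvP P z ↔ ∀ ψ ∈ facs f P, om P ψ z = 0)) ∧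
    (∀ z : LL f, z ≠ 0 → IsSquare (Algebra.norm (RatFunc F) z) →
      ∑ ψ ∈ facs f P, (ψ.natDegree : ZMod 2) * om P ψ z = 0 ∧
        (EvP P z → ∑ ψ ∈ facs f P, ep P ψ z = 0)) ∧
    ∀ ψ ∈ facs f P, ∀ a : F[X][X], AdjoinRoot.mk ψ (a.map (red P)) ≠ 0 →
      om P ψ (algebraMap (RR f) (LL f) (AdjoinRoot.mk f a)) = 0 ∧
      (ep P ψ (algebraMap (RR f) (LL f) (AdjoinRoot.mk f a)) = 0 ↔
        IsSquare (AdjoinRoot.mk ψ (a.map (red P))))

/-- (INV) The local groups depend on the class of `D` only. -/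
def StINV : Prop :=
  ∀ (F : Type) [Field F] [Fintype F], (2 : F) ≠ 0 → ∀ (f : F[X][X]), f.Monic → f ≠ 1 →
    (∀ (P : Prm F) (n : ℕ) (D D' : F[X]), ¬ P.1 ∣ D → ¬ P.1 ∣ D' → IsSquare (red P (D * D')) →
      ∀ v : AbsoluteValue (RatFunc F) ℝ, v.IsNontrivial → IsAbsP P v → ∀ z : (LL f)ˣ,
        TwAt f (P.1 ^ n * D) v z → TwAt f (P.1 ^ n * D') v z) ∧
    ∀ (D D' : F[X]), D.Monic → D'.Monic → D.natDegree % 2 = D'.natDegree % 2 →
      ∀ v : AbsoluteValue (RatFunc F) ℝ, v.IsNontrivial → IsAbsInf v → ∀ z : (LL f)ˣ,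
        TwAt f D v z → TwAt f D' v z

/-- (ISOG) Global isotropy. -/
def StISOG : Prop :=
  ∀ (F : Type) [Field F] [Fintype F], (2 : F) ≠ 0 → ∀ (g : ℕ), 1 ≤ g → ∀ (f : F[X][X]), f.Monic →
    f.natDegree = 2 * g + 1 → (fK f).Separable → ∀ [Fact (Irreducible (fK f))] (P : Prm F),
    Gd f P → ∀ S : Finset (Prm F), P ∉ S → ∀ D : F[X], D ≠ 0 →
    ∀ z w : (LL f)ˣ, z ∈ SelS f (insert P S) D → w ∈ SelS f S D →
      ∑ ψ ∈ facs f P, om P ψ (z : LL f) * ep P ψ (w : LL f) = 0

/-! ### Chebotarev statements -/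

/-- (A1) -/
def StA1 : Prop :=
  ∀ (F : Type) [Field F] [Fintype F], (2 : F) ≠ 0 → ∀ (g : ℕ), 1 ≤ g → ∀ (f : F[X][X]), f.Monic →
    f.natDegree = 2 * g + 1 → GeoSn f → ∀ [Fact (Irreducible (fK f))],
    ∃ ρ C : ℝ, 0 ≤ ρ ∧ ρ < 1 ∧ 0 ≤ C ∧ ∀ (c : ℕ) (a : F[X][X]), Rp f c a → a ≠ 0 →
      IsSquare (Algebra.norm (RatFunc F) (algebraMap (RR f) (LL f) (AdjoinRoot.mk f a))) →
      ¬ IsSquare (algebraMap (RR f) (LL f) (AdjoinRoot.mk f a)) → ∀ (k : ℕ) (Q : Finset (Prm F)),
      (∀ P ∈ Q, P.1.natDegree = k ∧ Gd f P ∧ ∀ ψ ∈ facs f P,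
        AdjoinRoot.mk ψ (a.map (red P)) ≠ 0 ∧ IsSquare (AdjoinRoot.mk ψ (a.map (red P)))) →
      (k : ℝ) * ∑ P ∈ Q, Real.sqrt 2 ^ ((facs f P).card - 1) ≤
        ρ * (Fintype.card F : ℝ) ^ k + C * (c + 1) * Real.sqrt (Fintype.card F) ^ k

/-- (A1') -/
def StA1p : Prop :=
  ∀ (F : Type) [Field F] [Fintype F], (2 : F) ≠ 0 → ∀ (ι : Type) [Fintype ι] (g : ι → ℕ)
    (f : ι → F[X][X]), HypF g f → ∀ i, ∀ [Fact (Irreducible (fK (f i)))],
    ∃ c₁ C : ℝ, 0 < c₁ ∧ 0 ≤ C ∧ ∀ (c : ℕ) (a : F[X][X]), Rp (f i) c a → a ≠ 0 →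
      IsSquare (Algebra.norm (RatFunc F) (algebraMap (RR (f i)) (LL (f i)) (AdjoinRoot.mk (f i) a))) →
      ¬ IsSquare (algebraMap (RR (f i)) (LL (f i)) (AdjoinRoot.mk (f i) a)) → ∀ (k : ℕ),
      ∃ Q : Finset (Prm F), (∀ P ∈ Q, P.1.natDegree = k ∧ GdF f P ∧ TyT (g i) (f i) P ∧
        (∀ j, j ≠ i → TyI (f j) P) ∧
        (∀ ψ ∈ facs (f i) P, AdjoinRoot.mk ψ (a.map (red P)) ≠ 0) ∧
        ∃ ψ ∈ facs (f i) P, ¬ IsSquare (AdjoinRoot.mk ψ (a.map (red P)))) ∧
      c₁ * (Fintype.card F : ℝ) ^ k - C * (c + 1) * Real.sqrt (Fintype.card F) ^ k ≤ k * Q.card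

open Classical in
/-- (A2) -/
def StA2 : Prop :=
  ∀ (F : Type) [Field F] [Fintype F], (2 : F) ≠ 0 → ∀ (ι : Type) [Fintype ι] [Nonempty ι] (g : ι → ℕ)
    (f : ι → F[X][X]), HypF g f →
    ∃ c₂ C : ℝ, 0 < c₂ ∧ 0 ≤ C ∧
      (∀ k : ℕ, c₂ * (Fintype.card F : ℝ) ^ k - C * Real.sqrt (Fintype.card F) ^ k ≤
        k * (((prm F k).filter fun P => GdF f P ∧ ∀ i, TyI (f i) P).card : ℝ)) ∧
      ∀ d : F[X], d.Monic → Squarefree d → d ≠ 1 →
        (∀ i, ∃ P : Prm F, P.1 ∣ (f i).discr ∧ ¬ P.1 ^ 2 ∣ (f i).discr ∧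
          (∀ j, j ≠ i → ¬ P.1 ∣ (f j).discr) ∧ ¬ P.1 ∣ d) → ∀ k : ℕ,
        |∑ P ∈ (prm F k).filter fun P => (GdF f P ∧ ∀ i, TyI (f i) P) ∧ ¬ P.1 ∣ d,
          (if IsSquare (red P d) then (1 : ℝ) else -1)| ≤
            C * (d.natDegree + 1) * Real.sqrt (Fintype.card F) ^ k

/-! ### Small representatives -/

/-- (SI) Normalization at infinity.  PROOF.  `A∞ = {h ∈ K | h = 0 ∨ intDegree h ≤ 0}` is a discrete valuation ring
with field of fractions `K` and uniformizer `1 / t` (it is the valuation subring of the valuation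
`FunctionField.inftyValuation F`; or `Kfil F 0`).  `O∞`, the integral closure of `A∞` in `L` (finite separable over
`K`), is a Dedekind domain (`integralClosure.isDedekindDomain`), a finite `A∞`-module, with finitely
many maximal ideals (they all contain `1/t`), hence a principal ideal domain
(`IsPrincipalIdealRing.of_finite_primes`).  Let `π_1, ..., π_r` be generators of its maximal ideals.  Every
`α ∈ L`, `α ≠ 0`, is `u ∏ π_i ^ (e_i)` with `u` a unit of `O∞`; put `β = ∏ π_i ^ (- ⌊e_i / 2⌋)`, so that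
`α β ^ 2 = u σ` with `σ = ∏ π_i ^ (ε_i)`, `ε_i ∈ {0, 1}`, one of finitely many elements.  Since `O∞` is a finite
`A∞`-module the coordinates of `u` have degree at most a constant, hence also those of `u σ ∈ O∞`
(`σ ∈ O∞`).  The norm of `u` is a unit of `A∞` (`u` and `u⁻¹` are integral over `A∞`), so of degree `0`, and
the norms of the finitely many `σ` have bounded degree. -/
def StSI : Prop :=
  ∀ (F : Type) [Field F] [Fintype F] (f : F[X][X]) (hm : f.Monic), (fK f).Separable →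
    ∀ [Fact (Irreducible (fK f))], ∃ C : ℕ, ∀ α : LL f, α ≠ 0 → ∃ β : LL f, β ≠ 0 ∧
      SizeLE hm (α * β ^ 2) C ∧ |(Algebra.norm (RatFunc F) (α * β ^ 2)).intDegree| ≤ C

/-- (SZ) Sizes of products.  PROOF.  `co i (z w) = ∑_{j, l} co j z * co l w * co i (θ ^ (j + l))`; take for `C` a bound
for the degrees of the coordinates of the `θ ^ m`, `m ≤ 2 n` (they are polynomials). -/
def StSZ : Prop :=
  ∀ (F : Type) [Field F] [Fintype F] (f : F[X][X]) (hm : f.Monic), ∀ [Fact (Irreducible (fK f))],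
    ∃ C : ℕ, ∀ (z w : LL f) (M N : ℤ), SizeLE hm z M → SizeLE hm w N → SizeLE hm (z * w) (M + N + C)

/-- (SM) The finite part.  PROOF.  Let `O` be the integral closure of `A = F[t]` in `L`: a Dedekind domain, free of rank
`n = natDegree f` over `A`, containing (the image of) `RR f`.  For `x ∈ O`, `x ≠ 0`, `dim_F O/(x) = deg N(x)`
(`finrank_quotient_span_eq_natDegree_norm` in Mathlib), and for ideals `dim_F O/IJ = dim O/I + dim O/J`.
(1) MINKOWSKI: every nonzero ideal `I` of `O` contains some `y ≠ 0` whose coordinates with respect to the powers of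
`θ` are polynomials of degree at most `N = (dim_F O/I) / n` (natural division): the `F`-space of the
`y = ∑_{i<n} y_i θ^i` with `deg y_i ≤ N` has dimension `n (N + 1) > dim O/I`.
(2) Let `α ∈ L`, `α ≠ 0`.  There is `b ∈ A`, `b ≠ 0` with `α b ^ 2 ∈ O`.  Replacing `α` by `α b²` changes the assertion
in a compatible way (`β` is replaced by `β b`, `deg N(α)` by `deg N(α) + 2 n deg b`): so let `α ∈ O`.
For every prime `w` of `O` write `w(α) = 2 a_w + s_w`, `s_w ∈ {0, 1}`; `s_w = 0` for `w` above `P ∉ T`: if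
`α β²` is a unit at `P` (`EvP`) then `w(α) = - 2 w(β)`.  Let `x = N(α) ∈ A`, a multiple of `α` in `O`, so
`w(x) ≥ a_w` for all `w`, and `I = ∏ w ^ (w(x) - a_w)`.  Then
`dim O/I = n deg x - ∑ a_w d_w`, `d_w = dim_F O/w`, and `deg N(α) = dim O/(α) = 2 ∑ a_w d_w + ∑ s_w d_w`, where
`∑ s_w d_w ≤ ∑_{P ∈ T} ∑_{w | P} d_w ≤ ∑_{P ∈ T} dim_F O/(P) = n dgS T`.
So `dim O/I ≤ n deg x - (deg N(α) - n dgS T) / 2`.  Take `y ∈ I` from (1) and `β = y / x`: `α β²` has valuation
`≥ 2 a_w + s_w + 2 (w(x) - a_w) - 2 w(x) ≥ 0` at all `w`, so `α β² ∈ O`, and the coordinates of `β` have degree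
at most `dim(O/I)/n - deg x ≤ (n dgS T - deg N(α)) / (2 n)`. -/
def StSM : Prop :=
  ∀ (F : Type) [Field F] [Fintype F] (f : F[X][X]) (hm : f.Monic), (fK f).Separable →
    ∀ [Fact (Irreducible (fK f))] (T : Finset (Prm F)) (α : LL f), α ≠ 0 →
    (∀ P : Prm F, P ∉ T → EvP P α) → ∀ N : ℤ,
      (f.natDegree : ℤ) * dgS T - (Algebra.norm (RatFunc F) α).intDegree ≤ 2 * f.natDegree * N →
      ∃ β : LL f, β ≠ 0 ∧ IsIntegral F[X] (α * β ^ 2) ∧ SizeLE hm β (N + 1)

/-- (SMALL) Small representatives.  PROOF.  (SI): replace `α` by `α β₁²` (`EvP` is preserved, with `β` replaced by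
`β / β₁`), so that the size of `α` and the degree of its norm are bounded by a constant `C`.  (SM) with
`N = ⌈(n dgS T + C) / (2 n)⌉` gives `β₂` with `α β₂²` integral over `A` and, by (SZ), of size at most
`C + 2 (N + 1) + 2 C'`.  Finally an element `z` of `L` integral over `A` has `disc(f) z ∈ RR f`
(`Algebra.discr_mul_isIntegral_mem_adjoin` in Mathlib, for the power basis of `θ`; or: there is
`d ∈ A`, `d ≠ 0`, depending only on `f`, with `d z ∈ RR f` for all integral `z`).  So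
`β = β₁ β₂ d` satisfies the claim: `α β² = d (d α β₁² β₂²)` lies in `RR f` and has coordinates in `A` (`co_mk`) of degree
at most a constant times `dgS T + 1`. -/
def StSMALL : Prop :=
  ∀ (F : Type) [Field F] [Fintype F] (f : F[X][X]), f.Monic → (fK f).Separable →
    ∀ [Fact (Irreducible (fK f))], ∃ C : ℕ, ∀ (T : Finset (Prm F)) (α : LL f), α ≠ 0 →
    (∀ P : Prm F, P ∉ T → EvP P α) → ∃ (β : LL f) (a : F[X][X]), β ≠ 0 ∧
      Rp f (C * (dgS T + 1)) a ∧ α * β ^ 2 = algebraMap (RR f) (LL f) (AdjoinRoot.mk f a)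

/-- (FIN) The classes are finite in number, and represented by small elements.  PROOF.  (SMALL) with `T` the union of `S`
and the finite set of primes `P` with `Bd f P` (finite because `f.discr ≠ 0`), of total degree
`≤ dgS S + C₀`.  The elements `a` with `Rp f c a` are finite in number, and every class contains one of the
corresponding elements of `L`. -/
def StFIN : Prop :=
  ∀ (F : Type) [Field F] [Fintype F] (f : F[X][X]), f.Monic → (fK f).Separable → f.discr ≠ 0 →
    ∀ [Fact (Irreducible (fK f))], ∃ C : ℕ, ∀ (S : Finset (Prm F)) (D : F[X]),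
      ((QuotientGroup.mk : (LL f)ˣ → (LL f)ˣ ⧸ (powMonoidHom 2 : (LL f)ˣ →* (LL f)ˣ).range) ''
        SelS f S D).Finite ∧
      ∀ z ∈ SelS f S D, ∃ (β : LL f) (a : F[X][X]), β ≠ 0 ∧ Rp f (C * (dgS S + 1)) a ∧
        (z : LL f) * β ^ 2 = algebraMap (RR f) (LL f) (AdjoinRoot.mk f a)

/-! ### The change of the Selmer group -/

/-- (SG) `SelS` is a group containing the squares.  PROOF.  The norm is multiplicative; `UnitAt` is closed under products
and inverses; `TwAt` is membership of the image under a homomorphism in the subgroup `twGroup`, which contains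
all squares. -/
def StSG : Prop :=
  ∀ (F : Type) [Field F] [Fintype F] (f : F[X][X]), f.Monic → ∀ [Fact (Irreducible (fK f))]
    (S : Finset (Prm F)) (D : F[X]), ∃ H : Subgroup (LL f)ˣ, (H : Set (LL f)ˣ) = SelS f S D ∧
      ∀ z : (LL f)ˣ, z ^ 2 ∈ H

/-- (CONTR) PROOF.  Let `m` be the number of elements of `facs f P`, `V = Sel(S)`, `V' = Sel(S + P)` modulo squares (finite
`F₂`-vector spaces by (FIN), (SG)), both for the given `D`, which is `P.1 * E` with `¬ P.1 ∣ E`.
`loc : V → F₂^m`, `loc z = (ep ψ z)_ψ`, and `a : V' → F₂^m`, `a z = (om ψ z)_ψ`, are homomorphisms by (OE) (both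
vanish on squares since the values lie in `ZMod 2`).  `∑ loc = 0` on `V` (`EvP` holds at `P` because
`P ∉ S` and `P` is not bad), `∑ deg ψ * a ψ = 0` on `V'`, and `⟨a z, loc w⟩ = 0` for `z ∈ V'`, `w ∈ V` by (ISOG).
The image `I'` of `a` is contained in `{x | ∑ deg ψ x_ψ = 0} ∩ (im loc)^⊥`.  The vector `1 = (1, ..., 1)` is in
`(im loc)^⊥`, and `∑ deg ψ = 2 g + 1` is odd, so `1 ∉ I'` and `I' ⊕ F₂ 1 ⊆ (im loc)^⊥`: with `r = dim im loc`,
`2 |I'| ≤ 2^(m - r)`.  The kernel of `a`: such a `z ∈ V'` has `EvP P z`, so it lies in `Sel(S)` and by (L2) (there is an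
absolute value `v` with `IsAbsP P v`: `Pool.Agent.Helper54.PT.exists_absP`) `ep ψ z = 0` for all `ψ`: the kernel of `a`
is contained in the kernel of `loc`, of order `X = XS = |V| / 2^r`.  So `|V'| ≤ 2^(m-1-r) X`, and
`|V'| |V| ≤ 2^(m - 1 - r) X · X 2^r = 2^(m-1) X²`. -/
def StCONTR : Prop :=
  ∀ (F : Type) [Field F] [Fintype F], (2 : F) ≠ 0 → ∀ (g : ℕ), 1 ≤ g → ∀ (f : F[X][X]), f.Monic →
    f.natDegree = 2 * g + 1 → (fK f).Separable → f.discr ≠ 0 → ∀ [Fact (Irreducible (fK f))]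
    (P : Prm F), Gd f P → ∀ S : Finset (Prm F), P ∉ S → ∀ E : F[X], ¬ P.1 ∣ E →
      MS f (insert P S) (P.1 * E) * MS f S (P.1 * E) ≤
        2 ^ ((facs f P).card - 1) * XS f S (P.1 * E) P ^ 2

/-- (XH) If some element of the Selmer set is nontrivial at `P` then at most half of the classes are trivial at `P`.
PROOF.  `z ↦ (ep ψ z)_ψ` is a homomorphism (OE) on the finite (FIN) group `V` of classes (SG), with kernel of order
`XS`, and it is nontrivial; the case of equality `XS ≤ MS` is trivial. -/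
def StXH : Prop :=
  ∀ (F : Type) [Field F] [Fintype F], (2 : F) ≠ 0 → ∀ (g : ℕ), 1 ≤ g → ∀ (f : F[X][X]), f.Monic →
    f.natDegree = 2 * g + 1 → (fK f).Separable → f.discr ≠ 0 → ∀ [Fact (Irreducible (fK f))]
    (P : Prm F), Gd f P → ∀ (S : Finset (Prm F)) (D : F[X]),
      1 ≤ XS f S D P ∧ XS f S D P ≤ MS f S D ∧
      ((∃ z ∈ SelS f S D, ∃ ψ ∈ facs f P, ep P ψ (z : LL f) ≠ 0) → 2 * XS f S D P ≤ MS f S D)

/-! ### Classes -/

/-- (CRT) PROOF.  Chinese remainder theorem: the moduli are `P ^ 2` for `P ∈ S` and `P` for the finitely many bad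
primes (`P ^ 2 ∣ (f i).discr ≠ 0` for some `i`), pairwise coprime (no `P ∈ S` is bad).  Modulo `P ^ 2` prescribe
`P * E_P` where `E_P` is `1` or a polynomial which is not a square modulo `P` (the finite field `kp P` has odd
characteristic), modulo the bad primes prescribe `1`.  Let `D₀` be a solution and `M` the product of the moduli;
`D = D₀ + M t^j` for large `j` of the right parity is monic of degree `deg M + j`. -/
def StCRT : Prop :=
  ∀ (F : Type) [Field F] [Fintype F], (2 : F) ≠ 0 → ∀ (ι : Type) [Fintype ι] (f : ι → F[X][X]),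
    (∀ i, (f i).discr ≠ 0) → ∀ (S U : Finset (Prm F)), (∀ P ∈ S, GdF f P) → ∀ e : ℕ,
      ∃ D : F[X], HasClsF f S U e D

/-- (SC) The Selmer sets depend on the classes only.  PROOF.  From (INV): at `P ∈ S`, `D = P E`, `D' = P E'` with `E E'` a
square modulo `P`; at bad primes `D` and `D'` are nonzero squares modulo `P`; at infinity both are monic of degrees
of the same parity. -/
def StSC : Prop :=
  ∀ (F : Type) [Field F] [Fintype F], (2 : F) ≠ 0 → ∀ (f : F[X][X]), f.Monic → f ≠ 1 →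
    ∀ (S U : Finset (Prm F)) (e : ℕ) (D D' : F[X]), HasCls f S U e D → HasCls f S U e D' →
      SelS f S D = SelS f S D'

/-- (RE) Restriction of classes.  PROOF.  Trivial (the condition at `p` is dropped; `v ∈ U'` iff `v ∈ U` for `v ∈ S`). -/
def StRE : Prop :=
  ∀ (F : Type) [Field F] (f : F[X][X]) (S U : Finset (Prm F)) (p : Prm F), p ∉ S → U ⊆ S →
    ∀ U' : Finset (Prm F), U' = U ∨ U' = insert p U → ∀ (e : ℕ) (D : F[X]),
      HasCls f (insert p S) U' e D → HasCls f S U e D ∧ ∃ E, D = p.1 * E ∧ ¬ p.1 ∣ E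

/-- (SB) The Selmer set of the twist.  PROOF.  If `z` satisfies all local conditions for `D = ∏ S` (all `P ∈ S` good), then
`z ∈ SelS f S D`: `EvP` for `P ∉ S` not bad by (L1) (`P` does not divide `D`; absolute value from
`Pool.Agent.Helper54.PT.exists_absP`).  If `MS f S D = 1` then every element of `SelS f S D` is a square (the
image in the quotient has one element, the class of `1`: `1 ∈ SelS` by (SG)). Conclude with the transport statement
`Pool.Agent.Helper3.HY.StTrans` (proved: `Pool.Agent.Helper54.HL.stTrans` in `Pool/Agent/Helper54/HL/All.lean`). -/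
def StSB : Prop :=
  ∀ (F : Type) [Field F] [Fintype F], (2 : F) ≠ 0 → ∀ (g : ℕ), 1 ≤ g → ∀ (f : F[X][X]), f.Monic →
    f.natDegree = 2 * g + 1 → (fK f).Separable → ∀ [Fact (Irreducible (fK f))]
    (S : Finset (Prm F)), (∀ P ∈ S, Gd f P) → MS f S (∏ P ∈ S, P.1) = 1 →
      ∀ z ∈ selmerSet (fK (f.scaleRoots (∏ P ∈ S, P.1))), IsSquare z

/-! ### The analytic inputs -/

/-- (CTR) PROOF.  Let `q = #F`, `n = 2 g + 1`, `C, ρ` from (A1), `C'` from (FIN).  Let `k`, `S` be given, `c = C' (dgS S + 1)`.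
Let `V` be the finite set of classes of `SelS f S D`, of cardinality `M = MS f S D ≥ 1`.  For `P ∈ Q` put `m_P = #facs f P`.
(CONTR) (and the hypothesis `SelS f S (D' P) = SelS f S D`): `MS f (insert P S) (D' P) * M ≤ 2^(m_P - 1) X_P²` with
`X_P = XS f S D P`; so `√MS(insert P S) ≤ √2^(m_P - 1) X_P / √M`, and `X_P` is the number of the `κ ∈ V` which are
trivial at `P`.  Hence `k ∑_{P ∈ Q} √MS(insert P S) ≤ (1/√M) ∑_{κ ∈ V} k ∑_{P ∈ Q, κ trivial at P} √2^(m_P - 1)`.
The trivial class contributes at most `√2^(n-1) q^k` (`k #(prm F k) ≤ q^k`).  A nontrivial class is represented by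
`z β² = mk a` with `Rp f c a` (FIN), of norm a square, not a square in `L`.  For the `P ∈ Q` not dividing the
norm `N(mk a) ∈ A` (then `mk ψ (a.map red) ≠ 0` for all `ψ ∈ facs f P`) `ep ψ (mk a) = ep ψ z = 0` says that
`mk ψ (a.map red)` is a square (OE), so (A1) bounds their contribution by `ρ q^k + C (c + 1) √q^k`.
The number of `P` of degree `k` dividing the norm is at most `deg N(mk a) / k ≤ C'' (c + 1) / k`; they contribute at most
`√2^(n-1) C'' (c + 1)`.  Since `δ dgS S ≤ k`, `c + 1 ≤ C''' (k / δ + 1)`, and for `k ≥ k₀(δ)` the total for a nontrivial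
class is at most `((1 + ρ)/2) q^k`.  So the sum is at most
`(1/√M) (√2^(n-1) q^k + M ((1 + ρ)/2) q^k) ≤ q^k (√2^(n-1) + ((1+ρ)/2) √M)`. -/
def StCTR : Prop :=
  ∀ (F : Type) [Field F] [Fintype F], (2 : F) ≠ 0 → ∀ (g : ℕ), 1 ≤ g → ∀ (f : F[X][X]), f.Monic →
    f.natDegree = 2 * g + 1 → GeoSn f → (fK f).Separable → f.discr ≠ 0 →
    ∀ [Fact (Irreducible (fK f))], ∃ A ρ : ℝ, 0 ≤ A ∧ 0 ≤ ρ ∧ ρ < 1 ∧ ∀ δ : ℝ, 0 < δ → ∃ k₀ : ℕ,
      ∀ k, k₀ ≤ k → ∀ (S : Finset (Prm F)) (D : F[X]) (D' : Prm F → F[X]), δ * dgS S ≤ k →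
      ∀ Q : Finset (Prm F), (∀ P ∈ Q, P.1.natDegree = k ∧ Gd f P ∧ P ∉ S ∧
        SelS f S (D' P) = SelS f S D ∧ ∃ E, D' P = P.1 * E ∧ ¬ P.1 ∣ E) →
      (k : ℝ) * ∑ P ∈ Q, Real.sqrt (MS f (insert P S) (D' P)) ≤
        (Fintype.card F : ℝ) ^ k * (A + ρ * Real.sqrt (MS f S D))

/-- (RDC) PROOF.  If `MS (f i) S D = 1` take the primes of degree `k` with all `f j` irreducible modulo `P` (A2, first part),
not in `S` (at most `dgS S / k` elements of `S` have degree `k`).  If `MS (f i) S D ≥ 2` there is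
`z ∈ SelS (f i) S D` which is not a square; it is represented by `a` as in (FIN); take the set `Q` of (A1'), without the
elements of `S`: for `P ∈ Q` some `ep ψ z ≠ 0` (OE).  In both cases for `k ≥ k₀(δ)` the number of primes is at least
`(c/2) q^k / k`.  The last assertion of the conclusion follows from (CONTR), (XH), (FAC): for `j ≠ i`
`#facs (f j) P = 1` and `MS (f j) (insert P S) D' * MS (f j) S D' ≤ (MS (f j) S D')²`; for `i` with `MS ≥ 2`:
`#facs = 2`, `MS(insert P S) * MS(S) ≤ 2 XS² ≤ MS(S)² / 2`; for `i` with `MS = 1`: `#facs = 1`, `MS(insert P S) ≤ 1`. -/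
def StRDC : Prop :=
  ∀ (F : Type) [Field F] [Fintype F], (2 : F) ≠ 0 → ∀ (ι : Type) [Fintype ι] (g : ι → ℕ)
    (f : ι → F[X][X]), HypF g f → ∀ i, ∃ c : ℝ, 0 < c ∧ ∀ δ : ℝ, 0 < δ → ∃ k₀ : ℕ,
      ∀ k, k₀ ≤ k → ∀ (S : Finset (Prm F)) (D : F[X]), δ * dgS S ≤ k →
      ∃ Q : Finset (Prm F), (∀ P ∈ Q, P.1.natDegree = k ∧ GdF f P ∧ P ∉ S) ∧
        c * (Fintype.card F : ℝ) ^ k ≤ k * Q.card ∧
        ∀ P ∈ Q, ∀ D' : F[X], (∃ E, D' = P.1 * E ∧ ¬ P.1 ∣ E) →
          (∀ j, SelS (f j) S D' = SelS (f j) S D) →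
          2 * MS (f i) (insert P S) D' ≤ max 2 (MS (f i) S D) ∧
            ∀ j, j ≠ i → MS (f j) (insert P S) D' ≤ MS (f j) S D

/-- (REC) Quadratic reciprocity in `F[t]`.  PROOF.  `red Q P` is a square in the finite field `kp Q` iff its norm to `F` is a
square in `F`, and this norm is the resultant of `Q` and `P` (`Pool.Agent.Helper54.HL.StNR`, proved `hNR`);
`resultant_comm`: the two resultants differ by `(-1)^(deg P deg Q)`. -/
def StREC : Prop :=
  ∀ (F : Type) [Field F] [Fintype F], (2 : F) ≠ 0 → ∀ P Q : Prm F, P ≠ Q →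
    (IsSquare (red Q P.1) ↔ (IsSquare (red P Q.1) ↔
      (IsSquare (-1 : F) ∨ Even (P.1.natDegree * Q.1.natDegree))))

open Classical in
/-- (LST) PROOF.  Let `B` be the finite set of the primes `P` with `Bd (f i) P` for some `i`.  For a prime `p` of degree `k`,
`p ∉ S`, the condition `HasClsF f (insert p S) U' e (∏ (insert p S))` for some `U' ∈ {U, insert p U}` says: (parity
of the degree, given) for every `v ∈ S`: `(∏_{Q ∈ S, Q ≠ v} Q) p` is a square modulo `v` iff `v ∉ U`; for every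
`b ∈ B`: `(∏_{Q ∈ S} Q) p` is a nonzero square modulo `b`; (the condition at `p` only decides between the two values
of `U'`).  So for every `v ∈ S ∪ B` the value of the symbol `(p / v) = ±1` is prescribed; by (REC) (for `p` of
fixed degree `k`) the symbol `(v / p)` is prescribed: `(v / p) = ε_v`.  For `p` of degree `k`, `p ∉ S ∪ B`, all `f i`
irreducible modulo `p`, the indicator function is
`∏_{v ∈ S ∪ B} (1 + ε_v (v/p)) / 2 = 2^(-|S| - |B|) ∑_{W ⊆ S ∪ B} ε_W (∏ W / p)`, where `(d / p) = 1` or `-1` according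
to whether `red p d` is a square.  `W = ∅` gives `c₂ q^k / k - C √q^k` (A2, first part) up to the at most `|S| + |B|`
elements `p ∈ S ∪ B`; `W ≠ ∅`: `d = ∏ W` is monic squarefree `≠ 1` and prime to a `P_i` as in the hypothesis
`simple` for every `i` (no element of `S` divides a discriminant, no element of `B` is exactly divisible: if `P_i`
were in `B` then `P_i ^ 2 ∣ (f j).discr` for some `j`, impossible).  So (A2) bounds the sum over `p` with `p ∤ d` by
`C (deg d + 1) √q^k`, and the other `p` are in `S ∪ B`.  Total: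
`2^(|S| + |B|) #{p} ≥ c₂ q^k / k - C √q^k - (|S| + |B|) - 2^(|S| + |B|) (C (dgS S + C₀ + 1) √q^k + |S| + |B|)`.
Multiply by `k` and absorb the constants (`|S| ≤ dgS S`; `HasClsF` requires all `i`; use `c = c₂ 2^(-|B|)`). -/
def StLST : Prop :=
  ∀ (F : Type) [Field F] [Fintype F], (2 : F) ≠ 0 → ∀ (ι : Type) [Fintype ι] [Nonempty ι] (g : ι → ℕ)
    (f : ι → F[X][X]), HypF g f → ∃ c C : ℝ, 0 < c ∧ 0 ≤ C ∧ ∀ (k e : ℕ) (S U : Finset (Prm F)),
      1 ≤ k → (∀ P ∈ S, GdF f P) → U ⊆ S → (dgS S + k) % 2 = e % 2 →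
      c * (Fintype.card F : ℝ) ^ k ≤ k * 2 ^ S.card *
        (((prm F k).filter fun p => p ∉ S ∧ (GdF f p ∧ ∀ i, TyI (f i) p) ∧
          (HasClsF f (insert p S) U e (∏ Q ∈ insert p S, Q.1) ∨
            HasClsF f (insert p S) (insert p U) e (∏ Q ∈ insert p S, Q.1))).card : ℝ) +
        C * k * (dgS S + 1) * 2 ^ S.card * Real.sqrt (Fintype.card F) ^ k

open Classical in
/-- (SQF) Many squarefree products of good primes.  PROOF.  Let `E` be the product of the primes which are not good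
(finitely many: they divide a discriminant `≠ 0`).  The number of monic squarefree polynomials of degree `n` prime
to `E` is at least a positive constant times `q^n` for large `n` (see `lower` in
`Pool.Agent.Helper54.PT.PData.Inputs` and its proof in the files `Pool/Agent/Helper54/PT/*.lean`, or
directly: monic polynomials `≡ 1` modulo `E` of degree `n`: `q^(n - deg E)` of them, of which at most
`∑_{P good, 2 deg P ≤ n - deg E} q^(n - deg E - 2 deg P) + #{P : n - deg E < 2 deg P ≤ n}` are divisible by the square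
of a prime, and `∑_P q^(-2 deg P) ≤ ∑_k q^(-k)/k < 1` for `q ≥ 3`), and they correspond to the finite sets of good primes of
total degree `n`.  Upper bound: there are `q^n` monic polynomials of degree `n`. -/
def StSQF : Prop :=
  ∀ (F : Type) [Field F] [Fintype F], (2 : F) ≠ 0 → ∀ D₀ : F[X], D₀ ≠ 0 →
    (∀ n : ℕ, {S : Finset (Prm F) | dgS S = n}.Finite ∧
      {S : Finset (Prm F) | dgS S = n}.ncard ≤ Fintype.card F ^ n) ∧
    ∃ c : ℝ, 0 < c ∧ ∀ᶠ n : ℕ in atTop, c * (Fintype.card F : ℝ) ^ n ≤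
      ({S : Finset (Prm F) | dgS S = n ∧ ∀ P ∈ S, ¬ P.1 ∣ D₀}.ncard : ℝ)

/-- The main theorem. -/
def StMain : Prop :=
  ∀ (F : Type) [Field F] [Fintype F], (2 : F) ≠ 0 → ∀ (ι : Type) [Fintype ι] [Nonempty ι] (g : ι → ℕ)
    (f : ι → F[X][X]), HypF g f → ∃ c : ℝ, 0 < c ∧ ∀ᶠ m : ℕ in atTop,
      c * (Fintype.card F : ℝ) ^ m ≤ ({D : F[X] | D.Monic ∧ Squarefree D ∧ D.natDegree = m ∧
        ∀ i, ∀ z ∈ selmerSet (fK ((f i).scaleRoots D)), IsSquare z}.ncard : ℝ)

end Pool.Agent.Helper3.GT
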