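import Pool.Agent.Helper3.GT.St
import Pool.Agent.Helper54.HL.St

/-!
# GT: the local part (L1), (L2), (OE), (INV)

`O` is a discrete valuation ring with uniformizer `π`, field of fractions `k` and residue map
`ρ : O → κ` onto a finite field of odd characteristic.  The local calculus (`Rep`, `RepA`, `RepB`,
`Nr`, `IrrInt`, `IrrBig`, `LD`, ...) is the one of `Pool/Agent/Helper54/HL/Defs.lean`; its statements are
in `Pool/Agent/Helper54/HL/St.lean`, proved in `Pool/Agent/Helper54/HL/All.lean` (`hRA : StRA`,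
`hFS : StFS`, `hGE`, `hNO`, `hOS`, `hNR`, `aRB : StRB`, `aNM`, `aNB`, `aNS`, `aNG`, `aDE`, `aIN`, `aBG`, `aOP`,
`aLD`, ...).
-/

set_option autoImplicit false

namespace Pool.Agent.Helper3.GT

open Polynomial Finset
open Pool.Agent.Helper54.PT (Prm prm IsAbsP IsAbsInf)
open Pool.Agent.Helper3.HY (fK RR LL kp red TwAt twGroup baseChange NearOne IsTwPoint)
open Pool.Agent.Helper54.HL

/-! ### Definitions -/

section Local

variable {O κ : Type} [CommRing O] [Field κ]

/-- The component of `y` in `k[x] / g₀` (zero if `g₀` does not divide `h`). -/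
noncomputable def cmp {k : Type} [Field k] [Algebra O k] (g₀ : O[X]) {h : k[X]}
    (y : AdjoinRoot h) : AdjoinRoot (tk k g₀) := by
  classical exact if hd : tk k g₀ ∣ h then pr hd y else 0

/-- The parity of the valuation of the component of `y`. -/
noncomputable def omL {k : Type} [Field k] [Algebra O k] (π : O) (ρ : O →+* κ) (g₀ : O[X])
    {h : k[X]} (y : AdjoinRoot h) : ZMod 2 := by
  classical exact if ∃ (e : ℤ) (s : AdjoinRoot (g₀.map ρ)), Even e ∧ Rep π ρ g₀ (cmp g₀ y) e s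
    then 0 else 1

/-- The class of the residue of the component of `y`. -/
noncomputable def epL {k : Type} [Field k] [Algebra O k] (π : O) (ρ : O →+* κ) (g₀ : O[X])
    {h : k[X]} (y : AdjoinRoot h) : ZMod 2 := by
  classical exact if ∃ (e : ℤ) (s : AdjoinRoot (g₀.map ρ)), IsSquare s ∧ Rep π ρ g₀ (cmp g₀ y) e s
    then 0 else 1

/-- The local setting. -/
structure LS (k : Type) [IsDomain O] [IsDiscreteValuationRing O] [Field k] [Algebra O k]
    [IsFractionRing O k] (π : O) (ρ : O →+* κ) : Prop where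
  unif : Irreducible π
  surj : Function.Surjective ρ
  ker : ∀ c, ρ c = 0 ↔ π ∣ c
  fin : Finite κ
  two : (2 : κ) ≠ 0

/-- A factorization of `f₀` lifting the factorization of its squarefree reduction. -/
structure Fz (ρ : O →+* κ) (f₀ : O[X]) (fac : Finset κ[X]) (g : κ[X] → O[X]) : Prop where
  monic : ∀ ψ ∈ fac, (g ψ).Monic
  red : ∀ ψ ∈ fac, (g ψ).map ρ = ψ
  irr : ∀ ψ ∈ fac, Irreducible ψ
  prod : ∏ ψ ∈ fac, g ψ = f₀

/-- The class of `c ^ (deg ψ') ψ'` modulo `ψ`. -/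
noncomputable def Ecl (c : κ) (ψ' ψ : κ[X]) : ZMod 2 := by
  classical exact if IsSquare (AdjoinRoot.mk ψ (C c ^ ψ'.natDegree * ψ')) then 0 else 1

end Local

section Global

variable {F : Type} [Field F]

/-- `x` lies in the localization of `F[t][θ]` at `P`. -/
def InP (P : Prm F) {f : F[X][X]} (x : LL f) : Prop :=
  ∃ (a : F[X]) (r : RR f), ¬ P.1 ∣ a ∧ algebraMap F[X] (LL f) a * x = algebraMap (RR f) (LL f) r

/-- `x` lies in the localization and its residue in `kp[x] / ψ` is zero. -/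
def VanP (P : Prm F) {f : F[X][X]} (ψ : (kp P)[X]) (x : LL f) : Prop :=
  ∃ (a : F[X]) (p : F[X][X]), ¬ P.1 ∣ a ∧
    algebraMap F[X] (LL f) a * x = algebraMap (RR f) (LL f) (AdjoinRoot.mk f p) ∧ ψ ∣ p.map (red P)

end Global

/-! ### Basic local statements -/

/-- (HF) Hensel factorization.  PROOF.  Factor `tk k f₀` into monic irreducible polynomials `U` over the field `k`.  Since
`O` is integrally closed and `U` divides the monic integral polynomial, `U = tk k U₀` with `U₀` monic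
(`Polynomial.Monic` and `IsIntegrallyClosed`: `IsIntegrallyClosed.eq_map_mul_C_of_dvd`).  `IrrBig π U` is impossible: the leading
coefficient `1` would be `coeff 0 * π c` with `coeff 0` integral, so `π` would be a unit.  So `IrrInt`:
`U₀.map ρ = ψ ^ n`, `n ≥ 1`, and `n = 1` because `f₀.map ρ` is squarefree.  So `f₀` is the product of the `U₀`
(injectivity of `O[X] → k[X]`), `f₀.map ρ` is the product of the `ψ`, which are distinct, hence are exactly the
elements of `fac`; put `g ψ = U₀`. -/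
def StHF : Prop :=
  ∀ (O k κ : Type) [CommRing O] [IsDomain O] [IsDiscreteValuationRing O] [Field k] [Algebra O k]
    [IsFractionRing O k] [Field κ] (π : O) (ρ : O →+* κ), LS k π ρ →
    (∀ U : k[X], U.Monic → Irreducible U → IrrInt ρ U ∨ IrrBig π U) →
    ∀ (f₀ : O[X]) (fac : Finset κ[X]), f₀.Monic → Squarefree (f₀.map ρ) →
    (∀ ψ : κ[X], ψ ∈ fac ↔ ψ.Monic ∧ Irreducible ψ ∧ ψ ∣ f₀.map ρ) → ∃ g, Fz ρ f₀ fac g

/-- (OM) The calculus of `omL` and `epL`.  PROOF.  From `hRA : StRA` (existence, uniqueness, multiplicativity of `Rep` in the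
field `k[x] / g₀`) and `aRB : StRB` (order); `cmp g₀ = pr hd` is a ring homomorphism (`pr_mk`), so it maps units to
nonzero elements.  In the finite field `AdjoinRoot (g₀.map ρ)` of odd characteristic a product is a square
iff both factors are squares or both are not.  (2): an element of `1 + π O[θ]` has `Rep ... 0 1` (`RepA.int` with
`p = 1 + C π * r`).  (3): `RepA.int` for the constant `C u`, `RepA.pow`.  (4) `RepA.int`.  (5) `RepB.ord`. -/
def StOM : Prop :=
  ∀ (O k κ : Type) [CommRing O] [IsDomain O] [IsDiscreteValuationRing O] [Field k] [Algebra O k]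
    [IsFractionRing O k] [Field κ] (π : O) (ρ : O →+* κ), LS k π ρ →
    ∀ (f₀ g₀ : O[X]), f₀.Monic → g₀.Monic → Irreducible (g₀.map ρ) → g₀ ∣ f₀ →
    ∀ h : k[X], h = tk k f₀ →
    (∀ y y' w w' : AdjoinRoot h, y * y' = 1 → w * w' = 1 →
      omL π ρ g₀ (y * w) = omL π ρ g₀ y + omL π ρ g₀ w ∧
        epL π ρ g₀ (y * w) = epL π ρ g₀ y + epL π ρ g₀ w) ∧
    (∀ w : AdjoinRoot h, Nr π w → omL π ρ g₀ w = 0 ∧ epL π ρ g₀ w = 0) ∧
    (∀ u : O, IsUnit u → omL π ρ g₀ (algebraMap k (AdjoinRoot h) (algebraMap O k u)) = 0 ∧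
      (epL π ρ g₀ (algebraMap k (AdjoinRoot h) (algebraMap O k u)) = 0 ↔
        IsSquare (AdjoinRoot.mk (g₀.map ρ) (C (ρ u))))) ∧
    (omL π ρ g₀ (algebraMap k (AdjoinRoot h) (algebraMap O k π)) = 1 ∧
      epL π ρ g₀ (algebraMap k (AdjoinRoot h) (algebraMap O k π)) = 0) ∧
    (∀ p : O[X], AdjoinRoot.mk (g₀.map ρ) (p.map ρ) ≠ 0 →
      omL π ρ g₀ (AdjoinRoot.mk h (tk k p)) = 0 ∧
      (epL π ρ g₀ (AdjoinRoot.mk h (tk k p)) = 0 ↔ IsSquare (AdjoinRoot.mk (g₀.map ρ) (p.map ρ)))) ∧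
    ∀ (p : O[X]) (y' : AdjoinRoot h), AdjoinRoot.mk h (tk k p) * y' = 1 → ∀ m : ℕ,
      Ring.ord (AdjoinRoot g₀) (AdjoinRoot.mk g₀ p) = m →
        omL π ρ g₀ (AdjoinRoot.mk h (tk k p)) = (m : ZMod 2)

/-- (NL) Norms.  PROOF.  `y = mk h p`; by `aNM : StNM` (over the field `k`) and induction over `fac` the norm of `y` is the
product over `ψ ∈ fac` of the norms of the components `mk (tk k (g ψ)) p` (`= cmp (g ψ) y`), which are
nonzero.  By `RepB.norm` (`aRB`) the norm of the component with `Rep ... e s` is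
`π ^ (e deg ψ) c` with `c ∈ O`, `ρ c = norm s ≠ 0`.  So the norm of `y` is `π ^ E c`, `E = ∑ e_ψ deg ψ`, `c` a unit of `O`
with residue `∏ norm s_ψ`.  If it is a square `b ^ 2`, `b = π ^ m u` with `u` a unit, then `E = 2 m` and
`c = u ^ 2`, so `∏ norm s_ψ` is a square in `κ`, that is the number of the `ψ` with `norm s_ψ` not a square is even, and
`norm s_ψ` is a square iff `s_ψ` is one (`hFS : StFS`). -/
def StNL : Prop :=
  ∀ (O k κ : Type) [CommRing O] [IsDomain O] [IsDiscreteValuationRing O] [Field k] [Algebra O k]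
    [IsFractionRing O k] [Field κ] (π : O) (ρ : O →+* κ), LS k π ρ →
    ∀ (f₀ : O[X]) (fac : Finset κ[X]) (g : κ[X] → O[X]), Fz ρ f₀ fac g →
    ∀ h : k[X], h = tk k f₀ → ∀ y y' : AdjoinRoot h, y * y' = 1 → IsSquare (Algebra.norm k y) →
      ∑ ψ ∈ fac, (ψ.natDegree : ZMod 2) * omL π ρ (g ψ) y = 0 ∧ ∑ ψ ∈ fac, epL π ρ (g ψ) y = 0

/-- (NP) The norm of the value at a point is a square.  PROOF.  Let `n = deg h` (odd), `d = deg U`, `y = mk h (C(-D)^d U)`.
`N(y) = (-D)^(n d) N_h(U)` and `N_h(U) = (-1)^(n d) N_U(h)` (`aNS : StNS`), where `N_U(C D * h) = N_U(V)^2` because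
`U ∣ C D * h - V ^ 2`, so `D^d N_U(h) = N_U(V)^2`.  Hence `N(y) D^d = D^(n d) N_U(V)^2` and
`N(y) = D^((n-1) d) N_U(V)^2` is a square as `n - 1` is even. -/
def StNP : Prop :=
  ∀ (k : Type) [Field k] (h : k[X]), h.Monic → Odd h.natDegree → ∀ D : k, D ≠ 0 →
    ∀ y : AdjoinRoot h, IsTwPoint h D y → IsSquare (Algebra.norm k y)

/-- (RC) Reciprocity for the classes `Ecl`.  PROOF.  By `hFS : StFS`, `Ecl c ψ' ψ = 0` iff the norm to `κ` of
`mk ψ (C c ^ d' * ψ')`, which is `c^(d d') N_ψ(ψ')`, is a square in `κ`; similarly for `Ecl c ψ ψ'` with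
`c^(d d') N_ψ'(ψ)`, and `N_ψ(ψ') = (-1)^(d d') N_ψ'(ψ)` (`aNS`).  All these norms are nonzero.  In the finite field `κ` a product
is a square iff both factors are or both are not; the product of the two norms is `(-1)^(d d')` times a square. -/
def StRC : Prop :=
  ∀ (κ : Type) [Field κ] [Finite κ], (2 : κ) ≠ 0 → ∃ η : ZMod 2, ∀ c : κ, c ≠ 0 →
    ∀ ψ ψ' : κ[X], ψ.Monic → ψ'.Monic → Irreducible ψ → Irreducible ψ' → ψ ≠ ψ' →
      Ecl c ψ ψ' + Ecl c ψ' ψ = (ψ.natDegree * ψ'.natDegree : ℕ) * η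

open Classical in
/-- (PC) The classes of integral points for a ramified twist.  PROOF.  Let `d = deg U = n deg ψ'`, `h₀ = f₀`,
`y = mk h (C(-δ)^d U)`, `δ = π D'`.  By `aOP : StOP` (with `D = δ = π^1 D'`, `e = 1`)
`Ring.ord (AdjoinRoot f₀) (mk U₀) = m` with `m + n` even.  For `ψ ∈ fac`, `ψ ≠ ψ'`, `U₀.map ρ = ψ'^n` is not
divisible by `ψ`, so by (OM) the component of `mk h U` at `ψ` has `omL = 0` and `epL = [ψ'^n mod ψ]`, and that of the constant
`-δ = π (-D')` has `omL = 1`, `epL = [ρ(-D') mod ψ]`.  So `omL π ρ (g ψ) y = d = n deg ψ'` and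
`epL π ρ (g ψ) y = n Ecl (-ρ D') ψ' ψ` (modulo 2; `C c ^ d * ψ' ^ n = (C c ^ deg ψ' * ψ')^n`).
(1) `ψ' ∉ fac`: `mk f₀ U₀` is a unit (`U₀.map ρ` is prime to `f₀.map ρ`; or: `IsCoprime` lifts), so `m = 0`, `n` is even, and all
`omL` and `epL` vanish.  (2) `ψ' ∈ fac`: `Ring.ord (AdjoinRoot f₀) (mk U₀) = Ring.ord (AdjoinRoot U₀) (mk f₀)` (`hOS`)
`= ∑_ψ Ring.ord (AdjoinRoot U₀) (mk (g ψ)) = ∑_ψ Ring.ord (AdjoinRoot (g ψ)) (mk U₀)`, where the terms with `ψ ≠ ψ'` vanish
(`mk (g ψ) U₀` is a unit), so the term `ψ'` is `m`, and by (OM) (5) `omL (g ψ') (mk h U) = m = n` modulo 2;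
`omL π ρ (g ψ') y = d + n = n (deg ψ' + 1)`. -/
def StPC : Prop :=
  ∀ (O k κ : Type) [CommRing O] [IsDomain O] [IsDiscreteValuationRing O] [Field k] [Algebra O k]
    [IsFractionRing O k] [Field κ] (π : O) (ρ : O →+* κ), LS k π ρ →
    ∀ (f₀ : O[X]) (fac : Finset κ[X]) (g : κ[X] → O[X]), f₀.Monic → Fz ρ f₀ fac g →
    (∀ ψ ∈ fac, ψ.Monic) → ∀ h : k[X], h = tk k f₀ → ∀ D' : O, IsUnit D' →
    ∀ (U V : k[X]), U.Monic → Irreducible U → IsCoprime U h → IrrInt ρ U →
    U ∣ C (algebraMap O k (π * D')) * h - V ^ 2 → ∃ (n : ℕ) (ψ' : κ[X]), ψ'.Monic ∧ Irreducible ψ' ∧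
    (ψ' ∉ fac → Even n) ∧ ∀ ψ ∈ fac,
      omL π ρ (g ψ) (AdjoinRoot.mk h (C (-algebraMap O k (π * D')) ^ U.natDegree * U)) =
        (n : ZMod 2) * (ψ'.natDegree + if ψ = ψ' then 1 else 0) ∧
      (ψ ≠ ψ' → epL π ρ (g ψ) (AdjoinRoot.mk h (C (-algebraMap O k (π * D')) ^ U.natDegree * U)) =
        (n : ZMod 2) * Ecl (-ρ D') ψ' ψ)

/-! ### Comparison with the global definitions -/

/-- (CG) PROOF.  (a) If `RepG P ψ z e s` holds, `z mk(a) = P^e mk(p)`, then in `k[x]/g₀` the images satisfy the same equation;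
`mk(a)` has `Rep ... 0 (mk ψ a)` and `mk(p)` has `Rep ... 0 (s mk ψ a)` by `RepA.int` (`hL.map_red`-type identities:
`(a.map i).map ρ = a.map (red P)`), so by multiplicativity and uniqueness (`RepA`) the image of `z` has
`Rep ... e s`.  (b) EXISTENCE of `RepG` for `z ≠ 0`.  Every `z` is `r / b` with `r ∈ RR f`, `b ∈ F[X]`, `b ≠ 0`, so it suffices to
treat `z = mk(p)` and `z = b`, and quotients are clear (`RepG` is multiplicative and closed under inverses: from
the definition).  For `b = P^m b'`, `P ∤ b'`: clear.  For `z = mk f p ≠ 0`: its image in the field `k[x]/g₀` is nonzero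
(`LL f` is a field), so has `Rep ... e s`, `e ≥ 0` (integral elements: `RepB.ord`).  Induction on `e`.  If
`mk ψ (p.map red) ≠ 0` then `RepG ... 0 _`.  Otherwise let `G, H` be lifts of `ψ` and of the cofactor `f.map (red P) / ψ`,
`f = G H + P c`; `p = G w + P u`; then `H p = G H w + P H u`, so in `RR f`: `mk(H) mk(p) = P mk(H u - c w)` and
`mk ψ H ≠ 0` because `f.map (red P)` is squarefree.  `p₁ = H u - c w` has local exponent `e - 1`, and `RepG` for
`mk p₁` gives `RepG` for `mk p`.  (c) Then `om`, `ep` and `omL`, `epL` agree since both conditions are about the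
same `(e, s)`. -/
def StCG : Prop :=
  ∀ (F : Type) [Field F] [Fintype F] (f : F[X][X]), f.Monic → ∀ [Fact (Irreducible (fK f))]
    (P : Prm F), Squarefree (f.map (red P)) →
    ∀ (O k : Type) [CommRing O] [IsDomain O] [IsDiscreteValuationRing O] [Field k] [Algebra O k]
    [IsFractionRing O k] (i : F[X] →+* O) (j : RatFunc F →+* k) (ρ : O →+* kp P), LD P i j ρ →
    ∀ (g₀ : O[X]) (ψ : (kp P)[X]), g₀.Monic → Irreducible ψ → g₀ ∣ f.map i → g₀.map ρ = ψ →
    ∀ z : LL f, z ≠ 0 →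
      (∃ (e : ℤ) (s : AdjoinRoot ψ), RepG P ψ z e s) ∧
      (∀ (e e' : ℤ) (s s' : AdjoinRoot ψ), RepG P ψ z e s → RepG P ψ z e' s' → e = e' ∧ s = s') ∧
      om P ψ z = omL (i P.1) ρ g₀ (baseChange j (fK f) z) ∧
      ep P ψ z = epL (i P.1) ρ g₀ (baseChange j (fK f) z)

/-- (LSD) The local data at `P`.  PROOF.  From `aLD : StLD`, (HF) and (FAC).  `kp P` is finite of odd characteristic. -/
def StLSD : Prop :=
  ∀ (F : Type) [Field F] [Fintype F], (2 : F) ≠ 0 → ∀ (g : ℕ), 1 ≤ g → ∀ (f : F[X][X]), f.Monic →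
    f.natDegree = 2 * g + 1 → ∀ (P : Prm F), Gd f P → ∀ v : AbsoluteValue (RatFunc F) ℝ,
    v.IsNontrivial → IsAbsP P v →
    ∃ (O : Type) (_ : CommRing O) (_ : IsDomain O) (_ : IsDiscreteValuationRing O)
      (_ : Algebra O v.Completion) (_ : IsFractionRing O v.Completion) (i : F[X] →+* O)
      (ρ : O →+* kp P) (gg : (kp P)[X] → O[X]),
      LD P i (algebraMap (RatFunc F) v.Completion) ρ ∧ LS v.Completion (i P.1) ρ ∧
      (∀ U : v.Completion[X], U.Monic → Irreducible U → IrrInt ρ U ∨ IrrBig (i P.1) U) ∧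
      Fz ρ (f.map i) (facs f P) gg

/-- (REP) PROOF.  (LSD) for some `v` with `IsAbsP P v` (`Pool.Agent.Helper54.PT.exists_absP`), then (CG) for `g₀ = gg ψ`; `z = 0` does
not satisfy `RepG` (`mk f p` would be `0`, so `mk ψ p = 0`). -/
def StREP : Prop :=
  ∀ (F : Type) [Field F] [Fintype F], (2 : F) ≠ 0 → ∀ (g : ℕ), 1 ≤ g → ∀ (f : F[X][X]), f.Monic →
    f.natDegree = 2 * g + 1 → ∀ [Fact (Irreducible (fK f))] (P : Prm F), Gd f P → ∀ ψ ∈ facs f P,
    (∀ z : LL f, z ≠ 0 → ∃ (e : ℤ) (s : AdjoinRoot ψ), RepG P ψ z e s) ∧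
    ∀ (z : LL f) (e e' : ℤ) (s s' : AdjoinRoot ψ), RepG P ψ z e s → RepG P ψ z e' s' →
      e = e' ∧ s = s'

/-- (NU) An element near one is a unit at `P`; also: an element of `RR f` whose residues at all factors are nonzero.
PROOF.  For `r ∈ RR f` with all `mk ψ (r) ≠ 0`, `ψ` running over the irreducible factors of `f.map (red P)`, the residue of
`r` in `(kp P)[x] / f.map (red P)` is a unit (the polynomial is prime to `f.map (red P)`), so `α = Algebra.norm F[X] r` is not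
divisible by `P` (the norm commutes with reduction, `aNB : StNB`), and `α = r r'` with `r' ∈ RR f` (Cayley-Hamilton).  So
`UnitAt P r` with `a = α`: `α r = α r` and `(α r) (α r') = α ^ 3`; multiply suitably (`a = α`, first element
`α r`, second `r'`: `(α r) r' = α ^ 2`).  `NearOne P z`: `a (z - 1) = P r`, so `a z = a + P r =: r₁` has
residue `a ≠ 0`; `UnitAt` is closed under products and inverses (and contains `a` with `P ∤ a`). -/
def StNU : Prop :=
  ∀ (F : Type) [Field F] [Fintype F] (f : F[X][X]), f.Monic → 1 ≤ f.natDegree →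
    ∀ [Fact (Irreducible (fK f))] (P : Prm F),
    (∀ p : F[X][X], (∀ ψ : (kp P)[X], Irreducible ψ → ψ ∣ f.map (red P) → ¬ ψ ∣ p.map (red P)) →
      UnitAt P (algebraMap (RR f) (LL f) (AdjoinRoot.mk f p))) ∧
    (∀ z : LL f, z ≠ 0 → NearOne P z → UnitAt P z) ∧
    (∀ x y : LL f, UnitAt P x → UnitAt P y → UnitAt P (x * y)) ∧
    (∀ x : LL f, UnitAt P x → x ≠ 0 ∧ UnitAt P x⁻¹) ∧
    ∀ x : LL f, x ≠ 0 → InP P x → InP P x⁻¹ → UnitAt P x

/-- (OE2) PROOF.  Use (LSD), (CG) (existence and uniqueness of `RepG`, for each `ψ ∈ facs f P`), write `e_ψ(z)` for the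
exponent; it is additive ((CG), or directly from the definition of `RepG`).  (→) `x = z β ^ 2` with `UnitAt P x`:
`a x = r`, `r s = a ^ 2`: `mk ψ (r) mk ψ (s) = mk ψ (a) ^ 2 ≠ 0`, so `e_ψ(x) = 0` and
`e_ψ(z) = - 2 e_ψ(β)` is even.  (←) For `ψ ∈ facs f P` let `G` be a lift of `ψ`; `mk ψ (G) = 0`, so `e_ψ(mk G) ≥ 1`, and one of
`mk G`, `mk (G + P)` has exponent exactly `1` at `ψ`; call it `π_ψ`; at `ψ' ≠ ψ` its exponent is `0` as
`mk ψ' (ψ) ≠ 0`.  `β = ∏ π_ψ ^ (- e_ψ(z) / 2)`, `x = z β ^ 2` has all exponents `0`.  CLAIM: an element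
`x ≠ 0` with all exponents `≥ 0` is in `InP`: `x = r / b`, `b = P^m b'`, `P ∤ b'`, `b' x = r / P^m`, `r` has exponents
`≥ m`; if `m ≥ 1` then the residues of `r` vanish at all `ψ`, so `f.map (red P)` (the product of the distinct `ψ`, (FAC))
divides the residue of `r`, `r = P r₁`, and induct on `m`.  Apply it to `x` and `x⁻¹` and use the last part of (NU). -/
def StOE2 : Prop :=
  ∀ (F : Type) [Field F] [Fintype F], (2 : F) ≠ 0 → ∀ (g : ℕ), 1 ≤ g → ∀ (f : F[X][X]), f.Monic →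
    f.natDegree = 2 * g + 1 → ∀ [Fact (Irreducible (fK f))] (P : Prm F), Gd f P →
    ∀ z : LL f, z ≠ 0 → (EvP P z ↔ ∀ ψ ∈ facs f P, om P ψ z = 0)

/-! ### Places where the curve is smooth -/

/-- (SMO) PROOF.  Suppose `ψ = G.map (red P)` divides both.  Choose a monic lift `G₁` of the monic associate of `ψ`.  Then
`f ≡ G₁ u` modulo `P ^ 2` in `F[X][X]` with `ψ ∣ u.map (red P)`: write `α = G₁ α' + P α''`, `β = G₁ β' + P β''`,
`G = c G₁ + P G''` (`c ∈ F[X]` prime to `P`), so that `f = α G + β P ∈ G₁ (...) + P ^ 2 (...)` where the cofactor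
is in the ideal `(P, G₁)`.  Divide: `f = G₁ q + r` with `deg r < deg G₁`; since `G₁` is monic, `f ≡ G₁ u` modulo `P ^ 2` gives
`r ≡ 0`, `q ≡ u` modulo `P ^ 2`; `q` is monic.  The resultant of `f` and `f'` is congruent modulo `P ^ 2` to that of
`F₂ = G₁ q` and `F₂' = G₁' q + G₁ q'` (`resultant_map_map` for `A → A / P ^ 2`, same degrees), which is
`Res(G₁, G₁' q) Res(q, G₁ q') ` (`resultant_mul_left`, `resultant_add_mul_right`), divisible by `Res(G₁, q) Res(q, G₁)`
(`resultant_mul_right`), and both are divisible by `P` because `G₁` and `q` have the common factor `ψ` modulo `P`.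
Finally `resultant_deriv`: the resultant of `f, f'` is `± discr f` (monic). -/
def StSMO : Prop :=
  ∀ (F : Type) [Field F] [Fintype F] (f : F[X][X]), f.Monic → 1 ≤ f.natDegree → ∀ (P : Prm F),
    ¬ P.1 ^ 2 ∣ f.discr → ∀ G α β : F[X][X], Irreducible (G.map (red P)) → f = α * G + β * C P.1 →
    ¬ (G.map (red P) ∣ α.map (red P) ∧ G.map (red P) ∣ β.map (red P))

/-- (PI) The localization is a principal ideal domain.  PROOF.  Let `B ⊆ L` be the subring of the `x` with `InP P x` (the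
localization of `RR f` at the complement of `(P)` in `F[X]`): a noetherian domain.  `B / P B = (kp P)[x] / f.map (red P)`, so
`B` has finitely many maximal ideals containing `P`, namely the `q_ψ = {x | VanP P ψ x}`, `ψ ∈ facs f P`, and every nonzero
prime ideal of `B` contains a nonzero element of `F[X]` (norm), hence `P` (the other primes of `F[X]` are units in `B`), so
is maximal.  INVERTIBILITY: let `G` be a lift of `ψ`, `f = α G + β P` (`ψ ∣ f.map (red P)`).  In `RR f`: `α(θ) G(θ) = - β(θ) P`.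
`q = (P, G(θ))`, `J = (P, α(θ))`: `q J = (P², P α, P G, G α) = P (P, α, G, β) = (P)`, because by (SMO) one of
`α(θ), β(θ)` is not in the maximal ideal `q`.  So `q_ψ` is invertible, and in a domain with finitely many maximal
ideals an invertible ideal is principal (`Ideal.IsPrincipal.of_finite_maximals_of_isUnit`).  All prime ideals of `B` are principal,
so `B` is a principal ideal domain (`IsPrincipalIdealRing.of_prime`), and the last statement is the factorization
into primes. -/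
def StPI : Prop :=
  ∀ (F : Type) [Field F] [Fintype F] (f : F[X][X]), f.Monic → 1 ≤ f.natDegree →
    ∀ [Fact (Irreducible (fK f))] (P : Prm F), ¬ Bd f P → ∃ ϖ : (kp P)[X] → LL f,
      (∀ ψ ∈ facs f P, InP P (ϖ ψ) ∧ VanP P ψ (ϖ ψ) ∧
        ∀ x : LL f, VanP P ψ x → ∃ y, InP P y ∧ x = ϖ ψ * y) ∧
      ∀ x : LL f, x ≠ 0 → InP P x → ∃ (m : (kp P)[X] → ℕ) (u : LL f), UnitAt P u ∧
        x = u * ∏ ψ ∈ facs f P, ϖ ψ ^ m ψ

/-- (UF) PROOF.  By (PI) `mk f p = u ∏ ϖ_ψ' ^ m_ψ'`, and `m_ψ' = 0` for `ψ' ≠ ψ`, since otherwise `mk f p` would satisfy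
`VanP P ψ'`, that is `ψ' ∣ p.map (red P)` (`VanP` for `mk f p` is equivalent to this).  So `mk f p = u ϖ ^ m'` with
`ϖ = ϖ_ψ`.  The map `RR f → AdjoinRoot (f.map i)` (see `phi_OV` in `Pool/Agent/Helper54/HL/M_OV.lean`) extends to
the localization (`a ∈ F[X]` with `P ∤ a` becomes a unit of `O`); write `x ↦ x^`.  `u^` is a unit.  The ideal `(ϖ^)` is maximal
(its quotient is `B / q_ψ`: see the end of the proof in `M_OV.lean`, with `dense_OV`, `inj_OV`), so `Ring.ord ϖ^ = 1`; `ϖ^` is a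
nonzerodivisor (`nzd_OV`).  So `Ring.ord (mk (p.map i)) = m'` and `m' = m` is even; take `β = ϖ ^ (- m / 2)`. -/
def StUF : Prop :=
  ∀ (F : Type) [Field F] [Fintype F] (f : F[X][X]), f.Monic → 1 ≤ f.natDegree →
    ∀ [Fact (Irreducible (fK f))] (P : Prm F), ¬ Bd f P →
    ∀ (O k : Type) [CommRing O] [IsDomain O] [IsDiscreteValuationRing O] [Field k] [Algebra O k]
    [IsFractionRing O k] (i : F[X] →+* O) (j : RatFunc F →+* k) (ρ : O →+* kp P), LD P i j ρ →
    ∀ ψ ∈ facs f P, ∀ p : F[X][X], AdjoinRoot.mk f p ≠ 0 →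
    (∀ ψ' ∈ facs f P, ψ' ≠ ψ → ¬ ψ' ∣ p.map (red P)) → ∀ m : ℕ,
    Ring.ord (AdjoinRoot (f.map i)) (AdjoinRoot.mk (f.map i) (p.map i)) = m → Even m →
      EvP P (algebraMap (RR f) (LL f) (AdjoinRoot.mk f p))

/-- (EIP) PROOF.  Follow the proof of `StEI` in `Pool/Agent/Helper54/HL/M_EI.lean` (the reductions, the approximation `U₁` of `U₀`, the
comparison of the orders and (OP)); instead of the valuations at the primes `q` use (UF) for `p = U₁`: if
`U₁.map (red P) = ψ' ^ n` with `ψ' ∈ facs f P` apply (UF) with `ψ = ψ'`; otherwise all residues of `mk f U₁` at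
the factors are nonzero, and `UnitAt` follows from (NU).  The constant `(-D)^m`, `P ∤ D`, is a unit at `P`. -/
def StEIP : Prop :=
  ∀ (F : Type) [Field F] [Fintype F], (2 : F) ≠ 0 → ∀ (f : F[X][X]), f.Monic → 1 ≤ f.natDegree →
    ∀ [Fact (Irreducible (fK f))] (P : Prm F), ¬ Bd f P →
    ∀ (O k : Type) [CommRing O] [IsDomain O] [IsDiscreteValuationRing O] [Field k]
    [Algebra O k] [IsFractionRing O k] (i : F[X] →+* O) (j : RatFunc F →+* k) (ρ : O →+* kp P),
    LD P i j ρ → ∀ D : F[X], ¬ P.1 ∣ D → ∀ U V : k[X], Irreducible U →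
    IsCoprime U ((fK f).map j) → U ∣ C (j (algebraMap F[X] (RatFunc F) D)) * (fK f).map j - V ^ 2 →
    IrrInt ρ U → ∀ y' : AdjoinRoot ((fK f).map j),
    AdjoinRoot.mk _ (C (-j (algebraMap F[X] (RatFunc F) D)) ^ U.natDegree * U) * y' = 1 →
    ∃ z : (LL f)ˣ, EvP P (z : LL f) ∧ Nr (i P.1) (baseChange j (fK f) (z : LL f) * y')

/-! ### Classes of `D` -/

/-- (TWS) PROOF.  If `(U, V)` is a point for `D` then `(U, C c * V)` is a point for `D c ^ 2`, and
`(-(D c²))^d U = (-D)^d U · (c^d)²`.  So each generator of the one group is a generator of the other times a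
square. -/
def StTWS : Prop :=
  ∀ (k : Type) [Field k] (h : k[X]) (D c : k), c ≠ 0 → twGroup h (D * c ^ 2) ≤ twGroup h D

/-- (SQI) Squares at infinity.  PROOF.  `D D' = t^(2 m) (1 + x)` with `v x < 1`, and in the completion (a complete ultrametric
field in which `2` has norm `1`) `1 + x` is a square for `‖x‖ < 1` (Hensel's lemma / Newton iteration; for instance
`‖y² - (1 + x)‖ < 1` for `y = 1`, iterate `y ↦ y - (y² - (1 + x)) / (2 y)`).  The completion at infinity is treated in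
`Pool/Agent/Helper92/TW/C8.lean` (`LF ...` for `RatFunc.X⁻¹`), Hensel lemmas in `Pool/Agent/Helper43/TW/C2b.lean`
(`nu_unit_pow`, `nu_root`) and `Pool/Agent/Helper54/HL/M_LDR.lean`. -/
def StSQI : Prop :=
  ∀ (F : Type) [Field F] [Fintype F], (2 : F) ≠ 0 → ∀ v : AbsoluteValue (RatFunc F) ℝ,
    v.IsNontrivial → IsAbsInf v → ∀ D D' : F[X], D.Monic → D'.Monic →
    D.natDegree % 2 = D'.natDegree % 2 →
      IsSquare (algebraMap (RatFunc F) v.Completion (algebraMap F[X] (RatFunc F) (D * D')))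

/-- (SQP) Squares at `P`.  PROOF.  `aLD : StLD`: `i (D D')` is a unit of `O` whose residue is a nonzero square `a ^ 2`;
`RootLift` for `X ^ 2 - C (i (D D'))` at a lift of `a` (derivative `2 a ≠ 0`). -/
def StSQP : Prop :=
  ∀ (F : Type) [Field F] [Fintype F], (2 : F) ≠ 0 → ∀ (P : Prm F) (v : AbsoluteValue (RatFunc F) ℝ),
    v.IsNontrivial → IsAbsP P v → ∀ D D' : F[X], ¬ P.1 ∣ D → ¬ P.1 ∣ D' →
    IsSquare (red P (D * D')) →
      IsSquare (algebraMap (RatFunc F) v.Completion (algebraMap F[X] (RatFunc F) (D * D')))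

/-! ### Proofs of (L1), (L2), (OE), (INV) from the above

(L1).  As in `Pool/Agent/Helper54/HL/M_Even.lean`: local data from `aLD`, the subgroup `Cl` of `(LL f)ˣ` of the `z` with
`EvP P z` (a group: with `β` for `z` and `β'` for `z'` use `β β'`, resp. `β⁻¹`, and (NU)), which contains the squares
and the `z` with `NearOne P z` (NU); `aIN : StIN`; points with `IrrInt` by (EIP), points with `IrrBig` by `aBG` and `aDE`,
`aNG` exactly as in that file.

(OE).  Take `v` with `IsAbsP P v` (`Pool.Agent.Helper54.PT.exists_absP`), the data of (LSD), and translate with (CG).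
Additivity: (OM), first part, for `y = baseChange z`, `y' = baseChange z⁻¹`.  (2) is (OE2).  (3): (NL) for
`y = baseChange z`: its norm over the completion is the image of the norm of `z` (`aNB : StNB`; `z = mk (fK f) p`), hence a
square.  (4): from the definition `RepG P ψ (mk f a) 0 (mk ψ a)` holds (with denominator `1`), and uniqueness (CG).

(L2).  Data of (LSD); `fac = facs f P`, `g = gg`, `c = - ρ (i D)`, `E ψ' ψ = Ecl c ψ' ψ`, `η` from (RC).  Put
`χ₁ ψ' ψ = deg ψ' + [ψ = ψ']`, `χ₂ ψ' ψ = E ψ' ψ` for `ψ ≠ ψ'`, `χ₂ ψ' ψ' = ∑_{ψ ≠ ψ'} E ψ' ψ` (in `ZMod 2`).  Let `Cl` be the set of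
the `z : (LL f)ˣ` for which there is `t : (kp P)[X] → ZMod 2` with
`om P ψ z = ∑_{ψ' ∈ fac} t ψ' * χ₁ ψ' ψ` and `ep P ψ z = ∑_{ψ' ∈ fac} t ψ' * χ₂ ψ' ψ` for all `ψ ∈ fac`: a subgroup by (OE) /(CG) + (OM)
(additivity; `z⁻¹` has the same values as `z`), containing the squares and the elements with `NearOne` (`hNO : StNO`
translates `NearOne` into `Nr`, then (OM)).  By `aIN : StIN` (with the twist parameter `j (P D) = algebraMap O k (i P * i D)`) it
is enough to find for every irreducible point `y`, `y y' = 1`, an element `z ∈ Cl` with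
`Nr (baseChange z * y')`; `aDE : StDE` gives some `z ≠ 0` with `Nr (baseChange z * y')`; then `om P ψ z = omL (g ψ) y`,
`ep P ψ z = epL (g ψ) y` ((CG), (OM): `baseChange z = (baseChange z y') y`).  If `U` is `IrrBig`: `aBG : StBG` gives
`y = c² w`, all values are `0`, `t = 0`.  If `U` is `IrrInt`: (PC) gives `n`, `ψ'`; if `ψ' ∉ fac` then `n` is even and `t = 0`;
if `ψ' ∈ fac` take `t = n` at `ψ'` and `0` elsewhere: this is right for `om` and for `ep` at `ψ ≠ ψ'`, and at `ψ'` because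
`∑_ψ epL (g ψ) y = 0` by (NP) and (NL).
Now let `z ∈ Cl` with `EvP P z`, so all `om P ψ z = 0` (OE2).  Then `t ψ = T` for all `ψ ∈ fac`, where
`T = ∑_{ψ' ∈ fac} t ψ' deg ψ'`.  If `T = 0` then `ep P ψ z = 0`.  If `T = 1`:
`ep P ψ z = ∑_{ψ' ≠ ψ} (E ψ' ψ + E ψ ψ') = ∑_{ψ' ≠ ψ} deg ψ' deg ψ η = deg ψ (2 g + 1 - deg ψ) η = 0` by (RC), (FAC), as
`d (1 + d)` is even.

(INV).  First part: by (SQP) `D D' = b ^ 2` in the completion, so `P^n D' = (P^n D) (b / D)^2`; apply (TWS) with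
`c = b / D` in the direction needed: `twGroup h (P^n D) ≤ twGroup h (P^n D')` follows from (TWS) for
`P^n D = (P^n D') (b / D')^2`.  Second part: the same with (SQI) and `n = 0`.
-/

end Pool.Agent.Helper3.GT
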